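import Mathlib

/-!
H4/AR/ResL: resultant identity for two binary forms of degree d without common zero, with bounded integer coefficients.

PROOF. Linear map (A,B) -> A p + B q from pairs of forms of degree d-1 (2d coefficients) to forms of degree 2d-1 (2d
coefficients): integer matrix S of size 2d (index Fin d ⊕ Fin d and Fin (2d), or Fin (2d)), entries p_i, q_i or 0, so
≤ H. det S ≠ 0: otherwise there is a rational (or complex) nonzero (A,B) with A p + B q = 0. Dehomogenise
(w = 1): a(t) p(t) + b(t) q(t) = 0 in ℂ[t], degrees of a, b ≤ d-1; p(t), q(t) have no common root, so they are coprime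
(`Polynomial.isCoprime_iff_aeval_ne_zero_of_isAlgClosed` or via `IsCoprime` of polynomials without common root over an
algebraically closed field); p(t), q(t) are not both of degree < d, because then (z,w) = (1,0) would be a common zero; if
deg q = d then q | a gives a = 0, so b = 0 (q ≠ 0); if deg p = d then p | b gives b = 0 and a = 0. So (A,B) = 0.
R = det S, |R| ≥ 1. The adjugate (`Matrix.adjugate`, S * adj S = det S) gives (A,B) with A p + B q = R x^(2d-1) and
(A',B') with A' p + B' q = R y^(2d-1); entries of the adjugate and the determinant are bounded by (2d)! H^(2d)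
(`Matrix.det_le` or the Leibniz formula), which is ≤ (c H)^c with c = (2d)! + 2d.
-/

namespace H4AR

open Polynomial in
/-- The Sylvester matrix of two coefficient vectors. -/
private noncomputable def Sy (d : ℕ) (p q : Fin (d + 1) → ℤ) : Matrix (Fin (d + d)) (Fin (d + d)) ℤ :=
  sylvester (ofFn (d + 1) p) (ofFn (d + 1) q) d d

private theorem coeff_bound {d : ℕ} (p : Fin (d + 1) → ℤ) (H : ℕ) (hp : ∀ i, |p i| ≤ H) (k : ℕ) :
    |(Polynomial.ofFn (d + 1) p).coeff k| ≤ H := by
  by_cases hk : k < d + 1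
  · rw [Polynomial.ofFn_coeff_eq_val_of_lt p hk]
    exact hp _
  · rw [Polynomial.ofFn_coeff_eq_zero_of_ge p (by omega), abs_zero]
    positivity

private theorem Sy_bound {d : ℕ} (p q : Fin (d + 1) → ℤ) (H : ℕ) (hp : ∀ i, |p i| ≤ H)
    (hq : ∀ i, |q i| ≤ H) (i j : Fin (d + d)) : |Sy d p q i j| ≤ H := by
  have hH : (0 : ℤ) ≤ H := by positivity
  unfold Sy Polynomial.sylvester
  rw [Matrix.of_apply]
  induction j using Fin.addCases with
  | left j =>
    rw [Fin.addCases_left]
    split_ifs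
    · exact coeff_bound q H hq _
    · rw [abs_zero]
      exact hH
  | right j =>
    rw [Fin.addCases_right]
    split_ifs
    · exact coeff_bound p H hp _
    · rw [abs_zero]
      exact hH

private theorem adj_bound {d : ℕ} (p q : Fin (d + 1) → ℤ) (H : ℕ) (hH : 1 ≤ H)
    (hp : ∀ i, |p i| ≤ H) (hq : ∀ i, |q i| ≤ H) (i j : Fin (d + d)) :
    |(Sy d p q).adjugate i j| ≤ ((((d + d).factorial + (d + d) : ℕ) : ℤ) * H) ^
      ((d + d).factorial + (d + d)) := by
  have h1 : (AbsoluteValue.abs : AbsoluteValue ℤ ℤ) ((Sy d p q).updateRow j (Pi.single i 1)).det ≤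
      (Fintype.card (Fin (d + d))).factorial • (H : ℤ) ^ Fintype.card (Fin (d + d)) := by
    apply Matrix.det_le
    intro a b
    rw [AbsoluteValue.abs_apply]
    by_cases h : a = j
    · subst h
      rw [Matrix.updateRow_self]
      rw [Pi.single_apply]
      split_ifs
      · rw [abs_one]
        exact_mod_cast hH
      · rw [abs_zero]
        positivity
    · rw [Matrix.updateRow_ne h]
      exact Sy_bound p q H hp hq a b
  rw [Matrix.adjugate_apply]
  rw [AbsoluteValue.abs_apply, Fintype.card_fin, nsmul_eq_mul] at h1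
  refine h1.trans ?_
  have hf : 1 ≤ (d + d).factorial := Nat.factorial_pos _
  have h2 : (d + d).factorial * H ^ (d + d) ≤ (((d + d).factorial + (d + d)) * H) ^
      ((d + d).factorial + (d + d)) := by
    calc (d + d).factorial * H ^ (d + d) ≤ (((d + d).factorial + (d + d)) * H) ^ ((d + d).factorial) *
        (((d + d).factorial + (d + d)) * H) ^ (d + d) := by
          apply Nat.mul_le_mul
          · calc (d + d).factorial ≤ ((d + d).factorial + (d + d)) * H := by nlinarith
              _ = (((d + d).factorial + (d + d)) * H) ^ 1 := (pow_one _).symm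
              _ ≤ _ := Nat.pow_le_pow_right (by positivity) hf
          · apply Nat.pow_le_pow_left
            nlinarith
      _ = _ := (pow_add _ _ _).symm
  exact_mod_cast h2

private theorem form_shift (d : ℕ) (c : ℕ → ℤ) (j : ℕ) (hj : j < d) (x y : ℤ) :
    ∑ i ∈ Finset.range (d + d), (if j ≤ i ∧ i ≤ j + d then c (i - j) else 0) * x ^ i * y ^ (2 * d - 1 - i) =
      x ^ j * y ^ (d - 1 - j) * ∑ k ∈ Finset.range (d + 1), c k * x ^ k * y ^ (d - k) := by
  have h1 : ∑ i ∈ Finset.range (d + d), (if j ≤ i ∧ i ≤ j + d then c (i - j) else 0) * x ^ i *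
      y ^ (2 * d - 1 - i) = ∑ i ∈ (Finset.range (d + d)).filter (fun i => j ≤ i ∧ i ≤ j + d),
        c (i - j) * x ^ i * y ^ (2 * d - 1 - i) := by
    rw [Finset.sum_filter]
    refine Finset.sum_congr rfl fun i _ => ?_
    split_ifs
    · rfl
    · ring
  rw [h1, Finset.mul_sum]
  symm
  refine Finset.sum_nbij' (fun k => k + j) (fun i => i - j) ?_ ?_ ?_ ?_ ?_
  · intro k hk
    rw [Finset.mem_range] at hk
    rw [Finset.mem_filter, Finset.mem_range]
    omega
  · intro i hi
    rw [Finset.mem_filter, Finset.mem_range] at hi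
    rw [Finset.mem_range]
    omega
  · intro k hk
    exact Nat.add_sub_cancel _ _
  · intro i hi
    rw [Finset.mem_filter, Finset.mem_range] at hi
    exact Nat.sub_add_cancel hi.2.1
  · intro k hk
    rw [Finset.mem_range] at hk
    rw [Nat.add_sub_cancel]
    have e : 2 * d - 1 - (k + j) = (d - 1 - j) + (d - k) := by omega
    rw [e, pow_add, pow_add]
    ring

private theorem form_fin (d : ℕ) (p : Fin (d + 1) → ℤ) (j : Fin d) (x y : ℤ) :
    ∑ i : Fin (d + d), (if (i : ℕ) ∈ Set.Icc (j : ℕ) (j + d) then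
      (Polynomial.ofFn (d + 1) p).coeff (i - j) else 0) * x ^ (i : ℕ) * y ^ (2 * d - 1 - i) =
      x ^ (j : ℕ) * y ^ (d - 1 - j) * ∑ i : Fin (d + 1), p i * x ^ (i : ℕ) * y ^ (d - i) := by
  have h1 := form_shift d (fun k => (Polynomial.ofFn (d + 1) p).coeff k) j j.2 x y
  rw [Finset.sum_range, Finset.sum_range] at h1
  refine Eq.trans ?_ (h1.trans ?_)
  · refine Finset.sum_congr rfl fun i _ => ?_
    simp only [Set.mem_Icc]
  · congr 1
    refine Finset.sum_congr rfl fun i _ => ?_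
    rw [Polynomial.ofFn_coeff_eq_val_of_lt p i.2]

private theorem mulVec_form (d : ℕ) (p q : Fin (d + 1) → ℤ) (w : Fin (d + d) → ℤ) (x y : ℤ) :
    ∑ i : Fin (d + d), ((Sy d p q).mulVec w) i * x ^ (i : ℕ) * y ^ (2 * d - 1 - i) =
      (∑ i : Fin d, w (Fin.natAdd d i) * x ^ (i : ℕ) * y ^ (d - 1 - i)) *
        (∑ i : Fin (d + 1), p i * x ^ (i : ℕ) * y ^ (d - i)) +
      (∑ i : Fin d, w (Fin.castAdd d i) * x ^ (i : ℕ) * y ^ (d - 1 - i)) *
        (∑ i : Fin (d + 1), q i * x ^ (i : ℕ) * y ^ (d - i)) := by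
  have h1 : ∀ i : Fin (d + d), ((Sy d p q).mulVec w) i * x ^ (i : ℕ) * y ^ (2 * d - 1 - i) =
      (∑ j : Fin d, w (Fin.natAdd d j) * ((if (i : ℕ) ∈ Set.Icc (j : ℕ) (j + d) then
        (Polynomial.ofFn (d + 1) p).coeff (i - j) else 0) * x ^ (i : ℕ) * y ^ (2 * d - 1 - i))) +
      (∑ j : Fin d, w (Fin.castAdd d j) * ((if (i : ℕ) ∈ Set.Icc (j : ℕ) (j + d) then
        (Polynomial.ofFn (d + 1) q).coeff (i - j) else 0) * x ^ (i : ℕ) * y ^ (2 * d - 1 - i))) := by
    intro i
    rw [Matrix.mulVec, dotProduct, Fin.sum_univ_add, add_mul, add_mul, add_comm, Finset.sum_mul,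
      Finset.sum_mul, Finset.sum_mul, Finset.sum_mul]
    congr 1
    · refine Finset.sum_congr rfl fun j _ => ?_
      unfold Sy Polynomial.sylvester
      rw [Matrix.of_apply, Fin.addCases_right]
      ring
    · refine Finset.sum_congr rfl fun j _ => ?_
      unfold Sy Polynomial.sylvester
      rw [Matrix.of_apply, Fin.addCases_left]
      ring
  rw [Finset.sum_congr rfl (fun i _ => h1 i), Finset.sum_add_distrib, Finset.sum_comm,
    Finset.sum_comm (f := fun (i : Fin (d + d)) (j : Fin d) => w (Fin.castAdd d j) *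
      ((if (i : ℕ) ∈ Set.Icc (j : ℕ) (j + d) then
        (Polynomial.ofFn (d + 1) q).coeff (i - j) else 0) * x ^ (i : ℕ) * y ^ (2 * d - 1 - i)))]
  congr 1
  · rw [Finset.sum_mul]
    refine Finset.sum_congr rfl fun j _ => ?_
    rw [← Finset.mul_sum, form_fin]
    ring
  · rw [Finset.sum_mul]
    refine Finset.sum_congr rfl fun j _ => ?_
    rw [← Finset.mul_sum, form_fin]
    ring

private theorem adj_form (d : ℕ) (p q : Fin (d + 1) → ℤ) (e : Fin (d + d)) (x y : ℤ) :
    (Sy d p q).det * (x ^ (e : ℕ) * y ^ (2 * d - 1 - e)) =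
      (∑ i : Fin d, (Sy d p q).adjugate (Fin.natAdd d i) e * x ^ (i : ℕ) * y ^ (d - 1 - i)) *
        (∑ i : Fin (d + 1), p i * x ^ (i : ℕ) * y ^ (d - i)) +
      (∑ i : Fin d, (Sy d p q).adjugate (Fin.castAdd d i) e * x ^ (i : ℕ) * y ^ (d - 1 - i)) *
        (∑ i : Fin (d + 1), q i * x ^ (i : ℕ) * y ^ (d - i)) := by
  rw [← mulVec_form d p q (fun j => (Sy d p q).adjugate j e) x y]
  have h1 : ∀ i, ((Sy d p q).mulVec (fun j => (Sy d p q).adjugate j e)) i =
      if i = e then (Sy d p q).det else 0 := by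
    intro i
    have h2 := congrFun (congrFun (Matrix.mul_adjugate (Sy d p q)) i) e
    rw [Matrix.mul_apply, Matrix.smul_apply, Matrix.one_apply, smul_eq_mul, mul_ite, mul_one,
      mul_zero] at h2
    exact h2
  rw [Finset.sum_congr rfl (fun i _ => by rw [h1 i])]
  simp only [ite_mul, zero_mul]
  rw [Finset.sum_ite_eq' Finset.univ e]
  rw [if_pos (Finset.mem_univ _)]
  ring

private theorem map_eval (d : ℕ) (p : Fin (d + 1) → ℤ) (z : ℂ) :
    ((Polynomial.ofFn (d + 1) p).map (Int.castRingHom ℂ)).eval z =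
      ∑ i : Fin (d + 1), (p i : ℂ) * z ^ (i : ℕ) * 1 ^ (d - i) := by
  rw [Polynomial.ofFn_eq_sum_monomial, Polynomial.map_sum, Polynomial.eval_finsetSum]
  refine Finset.sum_congr rfl fun i _ => ?_
  rw [Polynomial.map_monomial, Polynomial.eval_monomial, one_pow, mul_one]
  rfl

private theorem det_ne (d : ℕ) (hd : 1 ≤ d) (p q : Fin (d + 1) → ℤ)
    (h : ∀ z w : ℂ, ∑ i, (p i : ℂ) * z ^ (i : ℕ) * w ^ (d - i) = 0 →
        ∑ i, (q i : ℂ) * z ^ (i : ℕ) * w ^ (d - i) = 0 → z = 0 ∧ w = 0) :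
    (Sy d p q).det ≠ 0 := by
  intro h0
  have hinj : Function.Injective (Int.castRingHom ℂ) := Int.cast_injective
  have hdeg : ∀ r : Fin (d + 1) → ℤ, ((Polynomial.ofFn (d + 1) r).map (Int.castRingHom ℂ)).natDegree ≤ d := by
    intro r
    refine Polynomial.natDegree_map_le.trans ?_
    have := Polynomial.ofFn_natDegree_lt (show 1 ≤ d + 1 by omega) r
    omega
  have hR : Polynomial.resultant ((Polynomial.ofFn (d + 1) p).map (Int.castRingHom ℂ))
      ((Polynomial.ofFn (d + 1) q).map (Int.castRingHom ℂ)) d d = 0 := by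
    rw [Polynomial.resultant_map_map]
    unfold Polynomial.resultant
    unfold Sy at h0
    rw [h0, map_zero]
  have key : ∀ f g : Polynomial ℂ, f.natDegree = d → g.natDegree ≤ d → f.resultant g d d = 0 →
      ∃ z, f.eval z = 0 ∧ g.eval z = 0 := by
    intro f g hf hg hfg
    have hs : f.Splits := IsAlgClosed.splits f
    have h1 := Polynomial.resultant_eq_prod_eval f g d hg hs
    rw [hf, hfg] at h1
    have hf0 : f ≠ 0 := by
      intro h2
      rw [h2, Polynomial.natDegree_zero] at hf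
      omega
    have h2 : (f.roots.map (fun z => g.eval z)).prod = 0 := by
      rcases mul_eq_zero.1 h1.symm with h3 | h3
      · exact absurd (pow_eq_zero_iff (by omega) |>.1 h3) (Polynomial.leadingCoeff_ne_zero.2 hf0)
      · exact h3
    rw [Multiset.prod_eq_zero_iff, Multiset.mem_map] at h2
    obtain ⟨z, hz, hz2⟩ := h2
    exact ⟨z, (Polynomial.mem_roots hf0).1 hz, hz2⟩
  have hone : ¬ ∃ z, ((Polynomial.ofFn (d + 1) p).map (Int.castRingHom ℂ)).eval z = 0 ∧
      ((Polynomial.ofFn (d + 1) q).map (Int.castRingHom ℂ)).eval z = 0 := by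
    rintro ⟨z, h1, h2⟩
    rw [map_eval] at h1 h2
    exact one_ne_zero (h z 1 h1 h2).2
  by_cases hp : ((Polynomial.ofFn (d + 1) p).map (Int.castRingHom ℂ)).natDegree = d
  · exact hone (key _ _ hp (hdeg q) hR)
  by_cases hq : ((Polynomial.ofFn (d + 1) q).map (Int.castRingHom ℂ)).natDegree = d
  · rw [Polynomial.resultant_comm] at hR
    have h1 := (mul_eq_zero.1 hR).resolve_left (pow_ne_zero _ (by norm_num))
    obtain ⟨z, h2, h3⟩ := key _ _ hq (hdeg p) h1
    exact hone ⟨z, h3, h2⟩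
  have htop : ∀ r : Fin (d + 1) → ℤ,
      ((Polynomial.ofFn (d + 1) r).map (Int.castRingHom ℂ)).natDegree ≠ d →
      ∑ i : Fin (d + 1), (r i : ℂ) * (1 : ℂ) ^ (i : ℕ) * (0 : ℂ) ^ (d - i) = 0 := by
    intro r hr
    have h1 : r (Fin.last d) = 0 := by
      have h2 : ((Polynomial.ofFn (d + 1) r).map (Int.castRingHom ℂ)).coeff d = 0 := by
        apply Polynomial.coeff_eq_zero_of_natDegree_lt
        have := hdeg r
        omega
      rw [Polynomial.coeff_map, Polynomial.ofFn_coeff_eq_val_of_lt r (show d < d + 1 by omega)] at h2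
      have h3 : ((r ⟨d, by omega⟩ : ℤ) : ℂ) = 0 := h2
      exact_mod_cast h3
    apply Finset.sum_eq_zero
    intro i _
    by_cases hi : (i : ℕ) = d
    · have h2 : i = Fin.last d := Fin.ext hi
      rw [h2, h1]
      simp
    · have h2 : d - (i : ℕ) ≠ 0 := by
        have := i.2
        omega
      rw [zero_pow h2, mul_zero]
  exact one_ne_zero (h 1 0 (htop p hp) (htop q hq)).1

theorem res_forms (d : ℕ) (hd : 1 ≤ d) :
    ∃ c : ℕ, 1 ≤ c ∧ ∀ (p q : Fin (d + 1) → ℤ) (H : ℕ), 1 ≤ H → (∀ i, |p i| ≤ H) → (∀ i, |q i| ≤ H) →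
      (∀ z w : ℂ, ∑ i, (p i : ℂ) * z ^ (i : ℕ) * w ^ (d - i) = 0 →
        ∑ i, (q i : ℂ) * z ^ (i : ℕ) * w ^ (d - i) = 0 → z = 0 ∧ w = 0) →
      ∃ (R : ℤ) (A B A' B' : Fin d → ℤ), R ≠ 0 ∧
        (∀ i, |A i| ≤ ((c : ℤ) * H) ^ c) ∧ (∀ i, |B i| ≤ ((c : ℤ) * H) ^ c) ∧
        (∀ i, |A' i| ≤ ((c : ℤ) * H) ^ c) ∧ (∀ i, |B' i| ≤ ((c : ℤ) * H) ^ c) ∧
        ∀ x y : ℤ,
          R * x ^ (2 * d - 1) =
            (∑ i : Fin d, A i * x ^ (i : ℕ) * y ^ (d - 1 - i)) * (∑ i : Fin (d + 1), p i * x ^ (i : ℕ) * y ^ (d - i)) +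
            (∑ i : Fin d, B i * x ^ (i : ℕ) * y ^ (d - 1 - i)) * (∑ i : Fin (d + 1), q i * x ^ (i : ℕ) * y ^ (d - i)) ∧
          R * y ^ (2 * d - 1) =
            (∑ i : Fin d, A' i * x ^ (i : ℕ) * y ^ (d - 1 - i)) * (∑ i : Fin (d + 1), p i * x ^ (i : ℕ) * y ^ (d - i)) +
            (∑ i : Fin d, B' i * x ^ (i : ℕ) * y ^ (d - 1 - i)) * (∑ i : Fin (d + 1), q i * x ^ (i : ℕ) * y ^ (d - i)) := by
  refine ⟨(d + d).factorial + (d + d), by omega, ?_⟩
  intro p q H hH hp hq h
  refine ⟨(Sy d p q).det,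
    fun i => (Sy d p q).adjugate (Fin.natAdd d i) ⟨2 * d - 1, by omega⟩,
    fun i => (Sy d p q).adjugate (Fin.castAdd d i) ⟨2 * d - 1, by omega⟩,
    fun i => (Sy d p q).adjugate (Fin.natAdd d i) ⟨0, by omega⟩,
    fun i => (Sy d p q).adjugate (Fin.castAdd d i) ⟨0, by omega⟩,
    det_ne d hd p q h, fun i => adj_bound p q H hH hp hq _ _, fun i => adj_bound p q H hH hp hq _ _,
    fun i => adj_bound p q H hH hp hq _ _, fun i => adj_bound p q H hH hp hq _ _, ?_⟩
  intro x y
  constructor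
  · have h1 := adj_form d p q ⟨2 * d - 1, by omega⟩ x y
    rw [Nat.sub_self, pow_zero, mul_one] at h1
    exact h1
  · have h1 := adj_form d p q ⟨0, by omega⟩ x y
    rw [pow_zero, one_mul, Nat.sub_zero] at h1
    exact h1

end H4AR
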