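import Mathlib

/-!
H4/AR/AlgD: powers of an algebraic number in a basis, with bounded integer coefficients.

PROOF. D = natDegree P ≥ 1 (P ≠ 0 has a root), c = leading coefficient, M = maximum of |coefficients|, B = 2 M ≥ 2.
c th^D = - sum_{i<D} P_i th^i. Define w 0 = (1,0,..,0) (as a function on Fin D: 1 at 0) and
w (q+1) i = c * w q (i-1) (or 0 for i = 0) - w q (D-1) * P_i. Then by induction c^q th^q = sum_i w q i th^i, and
|w (q+1) i| ≤ M |w q| + M |w q| ≤ B * B^q.
-/

namespace H4AR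

theorem alg_data (P : Polynomial ℤ) (hP : P ≠ 0) (th : ℝ) (hroot : Polynomial.aeval th P = 0) :
    ∃ (D : ℕ) (c : ℤ) (B : ℕ) (w : ℕ → Fin D → ℤ), 1 ≤ D ∧ c ≠ 0 ∧ 1 ≤ B ∧ |c| ≤ B ∧
      (∀ q, (c : ℝ) ^ q * th ^ q = ∑ i, (w q i : ℝ) * th ^ (i : ℕ)) ∧
      ∀ q i, |w q i| ≤ (B : ℤ) ^ q := by
  obtain ⟨E, hE⟩ : ∃ E, P.natDegree = E + 1 := by
    rcases Nat.eq_zero_or_pos P.natDegree with h | h
    · exfalso
      rw [Polynomial.eq_C_of_natDegree_eq_zero h, Polynomial.aeval_C] at hroot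
      have h1 : P.coeff 0 = 0 := by
        have h2 : ((P.coeff 0 : ℤ) : ℝ) = 0 := by simpa using hroot
        exact_mod_cast h2
      apply hP
      rw [Polynomial.eq_C_of_natDegree_eq_zero h, h1, Polynomial.C_0]
    · exact ⟨P.natDegree - 1, by omega⟩
  set c : ℤ := P.leadingCoeff with hc
  have hc0 : c ≠ 0 := Polynomial.leadingCoeff_ne_zero.2 hP
  have hcE : P.coeff (E + 1) = c := by rw [hc, Polynomial.leadingCoeff, hE]
  set M : ℕ := ∑ i ∈ Finset.range (E + 2), (P.coeff i).natAbs with hM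
  have hMi : ∀ i, i < E + 2 → |P.coeff i| ≤ (M : ℤ) := by
    intro i hi
    have h1 : (P.coeff i).natAbs ≤ M :=
      Finset.single_le_sum (f := fun i => (P.coeff i).natAbs) (fun _ _ => Nat.zero_le _)
        (Finset.mem_range.2 hi)
    rw [Int.abs_eq_natAbs]
    exact_mod_cast h1
  have hcM : |c| ≤ (M : ℤ) := by rw [← hcE]; exact hMi _ (by omega)
  have hM1 : (1 : ℤ) ≤ M := by
    have := Int.one_le_abs hc0
    omega
  obtain ⟨w, w0, w1⟩ : ∃ w : ℕ → Fin (E + 1) → ℤ, (∀ i, w 0 i = if i = 0 then 1 else 0) ∧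
      (∀ q i, w (q + 1) i = c * (Fin.cons 0 (fun j : Fin E => w q j.castSucc) : Fin (E + 1) → ℤ) i -
      w q (Fin.last E) * P.coeff i) :=
    ⟨fun q => Nat.rec (fun i => if i = 0 then 1 else 0)
      (fun _ v => fun i => c * (Fin.cons 0 (fun j : Fin E => v j.castSucc) : Fin (E + 1) → ℤ) i -
        v (Fin.last E) * P.coeff i) q, fun i => rfl, fun q i => rfl⟩
  have hth : (c : ℝ) * th ^ (E + 1) = - ∑ i : Fin (E + 1), (P.coeff i : ℝ) * th ^ (i : ℕ) := by
    rw [Polynomial.aeval_eq_sum_range, hE, Finset.sum_range_succ, hcE] at hroot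
    rw [Fin.sum_univ_eq_sum_range (fun i => (P.coeff i : ℝ) * th ^ i) (E + 1)]
    simp only [zsmul_eq_mul] at hroot
    linarith
  refine ⟨E + 1, c, 2 * M, w, by omega, hc0, by omega, by push_cast; omega, ?_, ?_⟩
  · intro q
    induction q with
    | zero =>
      rw [Fin.sum_univ_succ]
      simp [w0]
    | succ q ih =>
      have e1 : (c : ℝ) ^ (q + 1) * th ^ (q + 1) = (c * th) * ((c : ℝ) ^ q * th ^ q) := by ring
      rw [e1, ih]
      have e2 : ∑ i : Fin (E + 1), ((w (q + 1) i : ℤ) : ℝ) * th ^ (i : ℕ) =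
          ∑ i : Fin (E + 1), (c : ℝ) * ((Fin.cons 0 (fun j : Fin E => w q j.castSucc) : Fin (E + 1) → ℤ) i : ℝ) * th ^ (i : ℕ) -
          ((w q (Fin.last E) : ℤ) : ℝ) * ∑ i : Fin (E + 1), (P.coeff i : ℝ) * th ^ (i : ℕ) := by
        rw [Finset.mul_sum, ← Finset.sum_sub_distrib]
        apply Finset.sum_congr rfl
        intro i _
        rw [w1]
        push_cast
        ring
      have e5 : ∑ i : Fin (E + 1), (c : ℝ) * ((Fin.cons 0 (fun j : Fin E => w q j.castSucc) : Fin (E + 1) → ℤ) i : ℝ) * th ^ (i : ℕ) =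
          ∑ i : Fin E, (c : ℝ) * th * (((w q i.castSucc : ℤ) : ℝ) * th ^ (i : ℕ)) := by
        rw [Fin.sum_univ_succ]
        simp only [Fin.cons_zero, Fin.cons_succ, Int.cast_zero, mul_zero, zero_mul, zero_add, Fin.val_succ]
        apply Finset.sum_congr rfl
        intro i _
        ring
      have e6 : ∑ i : Fin (E + 1), ((w q i : ℤ) : ℝ) * th ^ (i : ℕ) =
          ∑ i : Fin E, ((w q i.castSucc : ℤ) : ℝ) * th ^ (i : ℕ) + ((w q (Fin.last E) : ℤ) : ℝ) * th ^ E := by
        rw [Fin.sum_univ_castSucc]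
        simp only [Fin.val_castSucc, Fin.val_last]
      have e7 : ∑ i : Fin (E + 1), (P.coeff i : ℝ) * th ^ (i : ℕ) = - ((c : ℝ) * th ^ (E + 1)) := by
        rw [hth, neg_neg]
      rw [e2, e5, e6, e7, ← Finset.mul_sum]
      ring
  · intro q
    induction q with
    | zero =>
      intro i
      rw [w0, pow_zero]
      split_ifs <;> simp
    | succ q ih =>
      intro i
      rw [w1]
      have k1 : |(Fin.cons 0 (fun j : Fin E => w q j.castSucc) : Fin (E + 1) → ℤ) i| ≤ ((2 * M : ℕ) : ℤ) ^ q := by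
        refine Fin.cases ?_ (fun j => ?_) i
        · rw [Fin.cons_zero, abs_zero]
          positivity
        · rw [Fin.cons_succ]
          exact ih _
      have k2 := ih (Fin.last E)
      have k3 := hMi i (by have := i.2; omega)
      calc |c * (Fin.cons 0 (fun j : Fin E => w q j.castSucc) : Fin (E + 1) → ℤ) i - w q (Fin.last E) * P.coeff i|
          ≤ |c * (Fin.cons 0 (fun j : Fin E => w q j.castSucc) : Fin (E + 1) → ℤ) i| +
            |w q (Fin.last E) * P.coeff i| := abs_sub _ _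
        _ ≤ M * ((2 * M : ℕ) : ℤ) ^ q + ((2 * M : ℕ) : ℤ) ^ q * M := by
            rw [abs_mul, abs_mul]
            apply add_le_add
            · exact mul_le_mul hcM k1 (abs_nonneg _) (by positivity)
            · exact mul_le_mul k2 k3 (abs_nonneg _) (by positivity)
        _ = ((2 * M : ℕ) : ℤ) ^ (q + 1) := by
            rw [pow_succ]
            push_cast
            ring

end H4AR
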