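import Pool.Agent.H4.AR.Def

/-!
H4/AR/LogH: heights of rational numbers and valuations.

PROOF. r = num/den, coprime. log num + log den = sum over primes of (v_p(num) + v_p(den)) log p
(`Nat.factorization_prod_pow_eq_self`, logarithm of a product), and |v_p(r)| = v_p(num) + v_p(den) because at most one of
them is nonzero (`padicValRat` = padicValInt num - padicValNat den). ht r = max(num,den), so
log ht ≤ log num + log den ≤ 2 log ht (num, den ≥ 1). ht_one_le: den ≥ 1. ht_inv etc. not needed.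
-/

namespace H4AR

theorem one_le_ht (r : ℚ) : 1 ≤ ht r := by
  refine le_max_of_le_right ?_
  exact_mod_cast r.den_pos

private theorem lh_log {n : ℕ} (S : Finset ℕ) (h : n.primeFactors ⊆ S) :
    Real.log n = ∑ p ∈ S, (n.factorization p : ℝ) * Real.log p := by
  rw [Real.log_nat_eq_sum_factorization]
  refine Finsupp.sum_of_support_subset _ ?_ _ fun i _ => ?_
  · rwa [Nat.support_factorization]
  · simp

private theorem lh_num {r : ℚ} (hr : 0 < r) : r.num.natAbs ≠ 0 := by
  have h := Rat.num_pos.2 hr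
  omega

private theorem lh_val (r : ℚ) (p : ℕ) (hp : p.Prime) :
    |(padicValRat p r : ℝ)| =
      (r.num.natAbs.factorization p : ℝ) + (r.den.factorization p : ℝ) := by
  rw [Nat.factorization_def _ hp, Nat.factorization_def _ hp]
  have h1 : padicValRat p r = (padicValNat p r.num.natAbs : ℤ) - (padicValNat p r.den : ℤ) := rfl
  have h2 : padicValNat p r.num.natAbs = 0 ∨ padicValNat p r.den = 0 := by
    by_contra h
    push Not at h
    have h3 := dvd_of_one_le_padicValNat (Nat.one_le_iff_ne_zero.2 h.1)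
    have h4 := dvd_of_one_le_padicValNat (Nat.one_le_iff_ne_zero.2 h.2)
    have h5 := Nat.dvd_gcd h3 h4
    have h6 : Nat.gcd r.num.natAbs r.den = 1 := r.reduced
    rw [h6] at h5
    exact hp.one_lt.ne' (Nat.dvd_one.1 h5)
  rw [h1, Int.cast_sub, Int.cast_natCast, Int.cast_natCast]
  rcases h2 with h | h
  · rw [h, Nat.cast_zero, zero_sub, abs_neg, zero_add, abs_of_nonneg (Nat.cast_nonneg _)]
  · rw [h, Nat.cast_zero, sub_zero, add_zero, abs_of_nonneg (Nat.cast_nonneg _)]

private theorem lh_ht {r : ℚ} : ht r = max (r.num.natAbs : ℝ) (r.den : ℝ) := by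
  unfold ht
  rw [Nat.cast_natAbs, Int.cast_abs]

private theorem lh_n1 {r : ℚ} (hr : 0 < r) : (1 : ℝ) ≤ (r.num.natAbs : ℝ) := by
  exact_mod_cast Nat.one_le_iff_ne_zero.2 (lh_num hr)

private theorem lh_d1 {r : ℚ} : (1 : ℝ) ≤ (r.den : ℝ) := by
  exact_mod_cast r.den_pos

theorem sum_val_eq (r : ℚ) (hr : 0 < r) (S : Finset ℕ) (hS : ∀ p ∈ S, p.Prime)
    (h1 : r.num.natAbs.primeFactors ⊆ S) (h2 : r.den.primeFactors ⊆ S) :
    ∑ p ∈ S, |(padicValRat p r : ℝ)| * Real.log p = Real.log r.num.natAbs + Real.log r.den := by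
  rw [lh_log S h1, lh_log S h2, ← Finset.sum_add_distrib]
  refine Finset.sum_congr rfl fun p hp => ?_
  rw [lh_val r p (hS p hp), add_mul]

theorem log_ht_le (r : ℚ) (hr : 0 < r) : Real.log (ht r) ≤ Real.log r.num.natAbs + Real.log r.den := by
  have h1 := lh_n1 hr
  have h2 : (1 : ℝ) ≤ (r.den : ℝ) := lh_d1
  rw [← Real.log_mul (by linarith) (by linarith)]
  refine Real.log_le_log (by linarith [one_le_ht r]) ?_
  rw [lh_ht]
  refine max_le ?_ ?_ <;> nlinarith

theorem log_le_two_log_ht (r : ℚ) (hr : 0 < r) :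
    Real.log r.num.natAbs + Real.log r.den ≤ 2 * Real.log (ht r) := by
  have h1 := lh_n1 hr
  have h2 : (1 : ℝ) ≤ (r.den : ℝ) := lh_d1
  have h3 : Real.log r.num.natAbs ≤ Real.log (ht r) := by
    refine Real.log_le_log (by linarith) ?_
    rw [lh_ht]
    exact le_max_left _ _
  have h4 : Real.log r.den ≤ Real.log (ht r) := by
    refine Real.log_le_log (by linarith) ?_
    rw [lh_ht]
    exact le_max_right _ _
  linarith

end H4AR
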