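import Pool.Agent.H4.AR.Shift
import Pool.Agent.H4.AR.LogH

/-!
H4/AR/EvLow: lower bound for a nonzero coefficient of f(X + r), r rational, f integral.

PROOF. cast_coeff: sh_map for the cast ℚ → ℝ and `MvPolynomial.map_map`. eval_lower: coeff_e (sh r (toQ f)) =
sum_l f_l mch(l,e) prod r_j^(l_j - e_j) with l_j ≤ d_j; multiplied by prod den(r_j)^(d_j) it is an integer (each
r_j^(l_j-e_j) den^(d_j) is an integer), nonzero, so its absolute value is ≥ 1: |coeff| ≥ prod den(r_j)^(-d_j)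
≥ prod ht(r_j)^(-d_j) = exp(- sum d_j log ht(r_j)).
-/

namespace H4AR

open MvPolynomial

theorem cast_coeff {m : ℕ} (r : Fin m → ℚ) (f : MvPolynomial (Fin m) ℤ) (e : Fin m →₀ ℕ) :
    (sh (fun j => (r j : ℝ)) (toR f)).coeff e = (((sh r (toQ f)).coeff e : ℚ) : ℝ) := by
  have h1 : toR f = MvPolynomial.map (Rat.castHom ℝ) (toQ f) := by
    unfold toR toQ
    have h0 : (Rat.castHom ℝ).comp (Int.castRingHom ℚ) = Int.castRingHom ℝ := RingHom.ext_int _ _
    rw [MvPolynomial.map_map, h0]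
  have h2 := sh_map (Rat.castHom ℝ) r (toQ f)
  have h3 : (fun j => (r j : ℝ)) = fun j => Rat.castHom ℝ (r j) := rfl
  rw [h1, h3, h2, MvPolynomial.coeff_map]
  rfl

private theorem int_pow_den (q : ℚ) (k d : ℕ) (hk : k ≤ d) :
    q ^ k * (q.den : ℚ) ^ d = (((q.num ^ k * (q.den : ℤ) ^ (d - k) : ℤ)) : ℚ) := by
  have hd : (q.den : ℚ) ≠ 0 := by exact_mod_cast q.den_nz
  have h1 : q * (q.den : ℚ) = (q.num : ℚ) := Rat.mul_den_eq_num q
  have h2 : (q.den : ℚ) ^ d = (q.den : ℚ) ^ k * (q.den : ℚ) ^ (d - k) := by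
    rw [← pow_add]
    congr 1
    omega
  rw [h2, ← mul_assoc, ← mul_pow, h1]
  push_cast
  rfl

theorem eval_lower {m : ℕ} (d : Fin m → ℕ) (r : Fin m → ℚ) (f : MvPolynomial (Fin m) ℤ)
    (hdeg : ∀ j, f.degreeOf j ≤ d j) (e : Fin m →₀ ℕ) (hne : (sh r (toQ f)).coeff e ≠ 0) :
    Real.exp (-∑ j, (d j : ℝ) * Real.log (ht (r j))) ≤ |(((sh r (toQ f)).coeff e : ℚ) : ℝ)| := by
  obtain ⟨q, hq⟩ : ∃ q, q = (sh r (toQ f)).coeff e := ⟨_, rfl⟩
  rw [← hq] at hne ⊢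
  have hdl : ∀ l ∈ (toQ f).support, ∀ j, l j ≤ d j := by
    intro l hl j
    have h1 : l ∈ f.support := by
      rw [MvPolynomial.mem_support_iff] at hl ⊢
      intro h2
      apply hl
      unfold toQ
      rw [MvPolynomial.coeff_map, h2, map_zero]
    exact (MvPolynomial.monomial_le_degreeOf j h1).trans (hdeg j)
  obtain ⟨P, hP⟩ : ∃ P : ℕ, P = ∏ j, (r j).den ^ d j := ⟨_, rfl⟩
  have hP0 : 0 < P := by
    rw [hP]
    exact Finset.prod_pos fun j _ => pow_pos (r j).den_pos _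
  have hint : ∃ N : ℤ, (N : ℚ) = q * (P : ℚ) := by
    refine ⟨∑ l ∈ (toQ f).support, f.coeff l * (mch l e : ℤ) *
      ∏ j, ((r j).num ^ (l j - e j) * ((r j).den : ℤ) ^ (d j - (l j - e j))), ?_⟩
    rw [hq, coeff_sh_eq_sum, Finset.sum_mul, Int.cast_sum]
    refine Finset.sum_congr rfl fun l hl => ?_
    rw [hP, Int.cast_mul, Int.cast_mul, Int.cast_prod, Nat.cast_prod, mul_assoc, mul_assoc, mul_assoc,
      ← Finset.prod_mul_distrib]
    have h1 : (toQ f).coeff l = ((f.coeff l : ℤ) : ℚ) := by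
      unfold toQ
      rw [MvPolynomial.coeff_map]
      rfl
    rw [h1]
    congr 2
    · refine Finset.prod_congr rfl fun j _ => ?_
      rw [Nat.cast_pow, int_pow_den]
      have := hdl l hl j
      omega
  obtain ⟨N, hN⟩ := hint
  have hN0 : N ≠ 0 := by
    intro h
    rw [h, Int.cast_zero] at hN
    have h2 : (P : ℚ) ≠ 0 := by exact_mod_cast hP0.ne'
    exact (mul_ne_zero hne h2) hN.symm
  have hN1 : (1 : ℝ) ≤ |(N : ℝ)| := by
    have h1 : (1 : ℤ) ≤ |N| := Int.one_le_abs hN0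
    rw [← Int.cast_abs]
    exact_mod_cast h1
  have hNR : (N : ℝ) = (q : ℝ) * (P : ℝ) := by exact_mod_cast congrArg (fun x : ℚ => (x : ℝ)) hN
  have hPR : (0 : ℝ) < P := by exact_mod_cast hP0
  have h3 : 1 ≤ |(q : ℝ)| * P := by
    rw [hNR, abs_mul, abs_of_pos hPR] at hN1
    exact hN1
  have hPle : (P : ℝ) ≤ Real.exp (∑ j, (d j : ℝ) * Real.log (ht (r j))) := by
    rw [hP, Real.exp_sum, Nat.cast_prod]
    refine Finset.prod_le_prod (fun j _ => by positivity) fun j _ => ?_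
    have h4 : ((r j).den : ℝ) ≤ ht (r j) := le_max_right _ _
    have h5 : (0 : ℝ) < ((r j).den : ℝ) := by exact_mod_cast (r j).den_pos
    have h6 : 0 < ht (r j) := lt_of_lt_of_le h5 h4
    rw [Real.exp_nat_mul, Real.exp_log h6, Nat.cast_pow]
    exact pow_le_pow_left₀ h5.le h4 _
  rw [Real.exp_neg]
  have h7 : (Real.exp (∑ j, (d j : ℝ) * Real.log (ht (r j))))⁻¹ ≤ (P : ℝ)⁻¹ := inv_anti₀ hPR hPle
  refine h7.trans ?_
  rw [inv_le_iff_one_le_mul₀ hPR]
  exact h3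

end H4AR
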