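import Pool.Agent.H4.AR.Shift

/-!
H4/AR/IxL: properties of the index. `Ix d r t f` says that all coefficients of f(X+r) with weight < t vanish.

PROOFS. sh r is a ring homomorphism; wt is additive (`wt_add`) and nonnegative. Product: a nonzero coefficient of
sh r f * sh r g at e gives a pair in the antidiagonal of e with both coefficients nonzero
(`MvPolynomial.coeff_mul`, `Finset.exists_ne_zero_of_sum_ne_zero`). Ix_hs: hs_sh and coeff_hs: a nonzero coefficient
of sh r (hs i f) = hs i (sh r f) at e gives a nonzero coefficient of sh r f at e + i, and wt (e+i) = wt e + wt i.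
Ix_det: Leibniz formula (`Matrix.det_apply'`: prod over the column index i of M (sigma i) i), each product has index
at least the sum of the th i by Ix_prod; the sign is a constant.
-/

namespace H4AR

open MvPolynomial

variable {m : ℕ}

theorem wt_add (d : Fin m → ℕ) (e i : Fin m →₀ ℕ) : wt d (e + i) = wt d e + wt d i := by
  unfold wt
  rw [← Finset.sum_add_distrib]
  refine Finset.sum_congr rfl fun j _ => ?_
  rw [Finsupp.add_apply, Nat.cast_add, add_div]

theorem wt_nonneg (d : Fin m → ℕ) (e : Fin m →₀ ℕ) : 0 ≤ wt d e :=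
  Finset.sum_nonneg fun j _ => by positivity

theorem Ix_of_nonpos (d : Fin m → ℕ) (r : Fin m → ℚ) {t : ℝ} (ht : t ≤ 0) (f : MvPolynomial (Fin m) ℚ) :
    Ix d r t f :=
  fun e _ => ht.trans (wt_nonneg d e)

theorem Ix_zero (d : Fin m → ℕ) (r : Fin m → ℚ) (t : ℝ) : Ix d r t (0 : MvPolynomial (Fin m) ℚ) := by
  intro e he
  rw [map_zero, coeff_zero] at he
  exact absurd rfl he

theorem Ix_add (d : Fin m → ℕ) (r : Fin m → ℚ) {t : ℝ} {f g : MvPolynomial (Fin m) ℚ} (hf : Ix d r t f)
    (hg : Ix d r t g) : Ix d r t (f + g) := by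
  intro e he
  rw [map_add, coeff_add] at he
  by_cases h : (sh r f).coeff e = 0
  · rw [h, zero_add] at he
    exact hg e he
  · exact hf e h

theorem Ix_sum (d : Fin m → ℕ) (r : Fin m → ℚ) {t : ℝ} {ι : Type} (s : Finset ι)
    (F : ι → MvPolynomial (Fin m) ℚ) (hF : ∀ x ∈ s, Ix d r t (F x)) : Ix d r t (∑ x ∈ s, F x) := by
  classical
  induction s using Finset.induction_on with
  | empty =>
    rw [Finset.sum_empty]
    exact Ix_zero d r t
  | insert a s ha ih =>
    rw [Finset.sum_insert ha]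
    exact Ix_add d r (hF a (Finset.mem_insert_self a s))
      (ih fun x hx => hF x (Finset.mem_insert_of_mem hx))

theorem Ix_mul (d : Fin m → ℕ) (r : Fin m → ℚ) {t u : ℝ} {f g : MvPolynomial (Fin m) ℚ} (hf : Ix d r t f)
    (hg : Ix d r u g) : Ix d r (t + u) (f * g) := by
  intro e he
  rw [map_mul, coeff_mul] at he
  obtain ⟨x, hx, hx'⟩ := Finset.exists_ne_zero_of_sum_ne_zero he
  have h1 := Finset.HasAntidiagonal.mem_antidiagonal.1 hx
  rw [← h1, wt_add]
  exact add_le_add (hf _ (left_ne_zero_of_mul hx')) (hg _ (right_ne_zero_of_mul hx'))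

theorem Ix_prod (d : Fin m → ℕ) (r : Fin m → ℚ) {ι : Type} (s : Finset ι) (t : ι → ℝ)
    (F : ι → MvPolynomial (Fin m) ℚ) (hF : ∀ x ∈ s, Ix d r (t x) (F x)) :
    Ix d r (∑ x ∈ s, t x) (∏ x ∈ s, F x) := by
  classical
  induction s using Finset.induction_on with
  | empty =>
    rw [Finset.sum_empty]
    exact Ix_of_nonpos d r le_rfl _
  | insert a s ha ih =>
    rw [Finset.sum_insert ha, Finset.prod_insert ha]
    exact Ix_mul d r (hF a (Finset.mem_insert_self a s))
      (ih fun x hx => hF x (Finset.mem_insert_of_mem hx))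

theorem Ix_hs (d : Fin m → ℕ) (r : Fin m → ℚ) {t : ℝ} {f : MvPolynomial (Fin m) ℚ} (hf : Ix d r t f)
    (i : Fin m →₀ ℕ) : Ix d r (t - wt d i) (hs i f) := by
  intro e he
  rw [← hs_sh, coeff_hs] at he
  have h1 := hf (e + i) (right_ne_zero_of_mul he)
  rw [wt_add] at h1
  linarith

theorem Ix_mono (d : Fin m → ℕ) (r : Fin m → ℚ) {t u : ℝ} (h : u ≤ t) {f : MvPolynomial (Fin m) ℚ}
    (hf : Ix d r t f) : Ix d r u f :=
  fun e he => h.trans (hf e he)

theorem Ix_det {s : ℕ} (d : Fin m → ℕ) (r : Fin m → ℚ) (M : Matrix (Fin s) (Fin s) (MvPolynomial (Fin m) ℚ))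
    (th : Fin s → ℝ) (h : ∀ a b, Ix d r (th b) (M a b)) : Ix d r (∑ b, th b) M.det := by
  rw [Matrix.det_apply']
  refine Ix_sum d r _ _ fun σ _ => ?_
  have h1 := Ix_mul d r (Ix_of_nonpos d r (le_refl (0 : ℝ))
    (((Equiv.Perm.sign σ : ℤ) : MvPolynomial (Fin m) ℚ)))
    (Ix_prod d r Finset.univ th (fun i => M (σ i) i) fun i _ => h (σ i) i)
  rwa [zero_add] at h1

end H4AR
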