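import Pool.Agent.H4.AR.Hs

/-!
H4/AR/L1: the norm `l1 f` (sum of the absolute values of the coefficients).

PROOFS. All elementary. l1_eq_sum: terms outside of the support vanish (`Finset.sum_subset`). l1_mul_le: write f and g
as sums of monomials, coeff_e(fg) = sum over the antidiagonal; or: l1 is subadditive, l1 of a monomial times g is
|a| l1 g (the map e -> u+e is injective), then sum over the monomials of f. l1_hs_le: the coefficient of hs i f at e is
mch(e+i) i * coeff_(e+i) f, mch ≤ 2^(sum of d) for e + i in the support (mch_le and degreeOf), and e -> e+i is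
injective. l1_prod_le: induction on the Finset.
-/

namespace H4AR

open MvPolynomial

variable {m : ℕ}

theorem l1_eq_sum (f : MvPolynomial (Fin m) ℤ) (s : Finset (Fin m →₀ ℕ)) (hs : f.support ⊆ s) :
    l1 f = ∑ e ∈ s, |((MvPolynomial.coeff e f : ℤ) : ℝ)| := by
  unfold l1
  refine Finset.sum_subset hs fun e _ he => ?_
  rw [MvPolynomial.notMem_support_iff.1 he, Int.cast_zero, abs_zero]

theorem l1_nonneg (f : MvPolynomial (Fin m) ℤ) : 0 ≤ l1 f :=
  Finset.sum_nonneg fun _ _ => abs_nonneg _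

theorem l1_zero : l1 (0 : MvPolynomial (Fin m) ℤ) = 0 := by
  unfold l1
  rw [MvPolynomial.support_zero, Finset.sum_empty]

theorem abs_coeff_le_l1 (f : MvPolynomial (Fin m) ℤ) (e : Fin m →₀ ℕ) :
    |((MvPolynomial.coeff e f : ℤ) : ℝ)| ≤ l1 f := by
  by_cases he : e ∈ f.support
  · exact Finset.single_le_sum (f := fun e => |((MvPolynomial.coeff e f : ℤ) : ℝ)|)
      (fun _ _ => abs_nonneg _) he
  · rw [MvPolynomial.notMem_support_iff.1 he, Int.cast_zero, abs_zero]
    exact l1_nonneg f

theorem l1_one : l1 (1 : MvPolynomial (Fin m) ℤ) = 1 := by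
  have h : (1 : MvPolynomial (Fin m) ℤ).support ⊆ {0} := by
    intro e he
    rw [MvPolynomial.mem_support_iff, MvPolynomial.coeff_one] at he
    rw [Finset.mem_singleton]
    by_contra h
    exact he (if_neg fun h' => h h'.symm)
  rw [l1_eq_sum 1 {0} h, Finset.sum_singleton, MvPolynomial.coeff_zero_one, Int.cast_one, abs_one]

theorem one_le_l1 {f : MvPolynomial (Fin m) ℤ} (hf : f ≠ 0) : 1 ≤ l1 f := by
  obtain ⟨e, he⟩ := MvPolynomial.ne_zero_iff.1 hf
  refine le_trans ?_ (abs_coeff_le_l1 f e)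
  exact_mod_cast Int.one_le_abs he

theorem l1_add_le (f g : MvPolynomial (Fin m) ℤ) : l1 (f + g) ≤ l1 f + l1 g := by
  classical
  rw [l1_eq_sum (f + g) (f.support ∪ g.support) MvPolynomial.support_add,
    l1_eq_sum f (f.support ∪ g.support) Finset.subset_union_left,
    l1_eq_sum g (f.support ∪ g.support) Finset.subset_union_right, ← Finset.sum_add_distrib]
  refine Finset.sum_le_sum fun e _ => ?_
  rw [MvPolynomial.coeff_add, Int.cast_add]
  exact abs_add_le _ _

theorem l1_neg (f : MvPolynomial (Fin m) ℤ) : l1 (-f) = l1 f := by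
  unfold l1
  rw [MvPolynomial.support_neg]
  refine Finset.sum_congr rfl fun e _ => ?_
  rw [MvPolynomial.coeff_neg, Int.cast_neg, abs_neg]

theorem l1_sum_le {ι : Type} (s : Finset ι) (F : ι → MvPolynomial (Fin m) ℤ) :
    l1 (∑ x ∈ s, F x) ≤ ∑ x ∈ s, l1 (F x) := by
  classical
  induction s using Finset.induction_on with
  | empty => rw [Finset.sum_empty, Finset.sum_empty, l1_zero]
  | insert a s ha ih =>
    rw [Finset.sum_insert ha, Finset.sum_insert ha]
    exact (l1_add_le _ _).trans (add_le_add_right ih _)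

private theorem l1_monomial_mul_le (u : Fin m →₀ ℕ) (a : ℤ) (g : MvPolynomial (Fin m) ℤ) :
    l1 (monomial u a * g) ≤ |(a : ℝ)| * l1 g := by
  classical
  have h : (monomial u a * g).support ⊆ g.support.map (addLeftEmbedding u) := by
    intro e he
    rw [MvPolynomial.mem_support_iff, MvPolynomial.coeff_monomial_mul'] at he
    rw [Finset.mem_map]
    by_cases h : u ≤ e
    · rw [if_pos h] at he
      refine ⟨e - u, MvPolynomial.mem_support_iff.2 (right_ne_zero_of_mul he), ?_⟩
      exact add_tsub_cancel_of_le h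
    · rw [if_neg h] at he
      exact absurd rfl he
  rw [l1_eq_sum _ _ h, Finset.sum_map, l1, Finset.mul_sum]
  refine Finset.sum_le_sum fun e _ => ?_
  rw [addLeftEmbedding_apply, MvPolynomial.coeff_monomial_mul, Int.cast_mul, abs_mul]

theorem l1_mul_le (f g : MvPolynomial (Fin m) ℤ) : l1 (f * g) ≤ l1 f * l1 g := by
  have h1 : f * g = ∑ u ∈ f.support, monomial u (f.coeff u) * g := by
    rw [← Finset.sum_mul, MvPolynomial.support_sum_monomial_coeff]
  rw [h1]
  refine (l1_sum_le _ _).trans ?_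
  rw [l1, Finset.sum_mul]
  exact Finset.sum_le_sum fun u _ => l1_monomial_mul_le u _ g

theorem l1_prod_le {ι : Type} (s : Finset ι) (F : ι → MvPolynomial (Fin m) ℤ) :
    l1 (∏ x ∈ s, F x) ≤ ∏ x ∈ s, l1 (F x) := by
  classical
  induction s using Finset.induction_on with
  | empty => rw [Finset.prod_empty, Finset.prod_empty, l1_one]
  | insert a s ha ih =>
    rw [Finset.prod_insert ha, Finset.prod_insert ha]
    exact (l1_mul_le _ _).trans (mul_le_mul_of_nonneg_left ih (l1_nonneg _))

theorem l1_hs_le (i : Fin m →₀ ℕ) (f : MvPolynomial (Fin m) ℤ) (d : Fin m → ℕ)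
    (hd : ∀ j, f.degreeOf j ≤ d j) : l1 (hs i f) ≤ 2 ^ (∑ j, d j) * l1 f := by
  classical
  have h1 : ∀ e ∈ (hs i f).support, e + i ∈ f.support := by
    intro e he
    rw [MvPolynomial.mem_support_iff, coeff_hs] at he
    exact MvPolynomial.mem_support_iff.2 (right_ne_zero_of_mul he)
  have h2 : ∀ e ∈ (hs i f).support, |((MvPolynomial.coeff e (hs i f) : ℤ) : ℝ)| ≤
      2 ^ (∑ j, d j) * |((MvPolynomial.coeff (e + i) f : ℤ) : ℝ)| := by
    intro e he
    rw [coeff_hs, Int.cast_mul, abs_mul]
    refine mul_le_mul_of_nonneg_right ?_ (abs_nonneg _)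
    have h3 := mch_le (e + i) i
    have h4 : ∑ j, (e + i) j ≤ ∑ j, d j := Finset.sum_le_sum fun j _ =>
      (MvPolynomial.monomial_le_degreeOf j (h1 e he)).trans (hd j)
    have h5 : mch (e + i) i ≤ 2 ^ (∑ j, d j) := h3.trans (Nat.pow_le_pow_right (by norm_num) h4)
    rw [Int.cast_natCast, abs_of_nonneg (Nat.cast_nonneg _)]
    exact_mod_cast h5
  unfold l1
  refine (Finset.sum_le_sum h2).trans ?_
  rw [← Finset.mul_sum]
  refine mul_le_mul_of_nonneg_left ?_ (by positivity)
  have h3 : ∑ e ∈ (hs i f).support, |((MvPolynomial.coeff (e + i) f : ℤ) : ℝ)| =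
      ∑ e ∈ (hs i f).support.map (addRightEmbedding i), |((MvPolynomial.coeff e f : ℤ) : ℝ)| := by
    rw [Finset.sum_map]
    rfl
  rw [h3]
  refine Finset.sum_le_sum_of_subset_of_nonneg ?_ fun _ _ _ => abs_nonneg _
  intro e he
  obtain ⟨e', he', rfl⟩ := Finset.mem_map.1 he
  exact h1 e' he'

end H4AR
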