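import Pool.Agent.H4.AR.Shift
import Pool.Agent.H4.AR.L1
import Pool.Agent.H4.AR.IxL

/-!
H4/AR/EvUp: upper bound for the coefficients of f(X + r) when f(X + alpha) has no terms of weight < t.

PROOF. G = sh alpha (toR f), sh r (toR f) = sh (r - alpha) G (sh_sh: sh (r-alpha) (sh alpha f) = sh r f).
|G_l| ≤ sum_u |f_u| mch(u,l) A^(sum u) ≤ l1 f * 2^Dg * A^Dg, Dg = sum d (coeff_sh_eq_sum, |alpha_j|^(u_j - l_j) ≤ A^(u_j),
mch_le, u_j ≤ d_j on the support), G_l = 0 unless l_j ≤ d_j for all j (degrees) and wt d l ≥ t (hvan).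
coeff_e(sh (r-alpha) G) = sum_l G_l mch(l,e) prod (r_j-alpha_j)^(l_j-e_j) (coeff_sh_eq_sum), only l ≥ e counts, mch ≤ 2^Dg,
prod |r_j - alpha_j|^(l_j - e_j) ≤ exp(- sum lam_j (l_j-e_j)) and lam_j (l_j - e_j) ≥ Lam (l_j-e_j)/d_j, so the sum is
≥ Lam (wt d l - wt d e) ≥ Lam (t - wt d e). The number of l is ≤ prod (d_j+1) ≤ 2^Dg. Total
2^Dg * 2^Dg * (2^Dg A^Dg l1 f) * exp(-Lam (t - wt d e)) = (8A)^Dg l1 f exp(...).
-/

namespace H4AR

open MvPolynomial

theorem eval_upper {m : ℕ} (d : Fin m → ℕ) (hd : ∀ j, 1 ≤ d j) (f : MvPolynomial (Fin m) ℤ)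
    (hdeg : ∀ j, f.degreeOf j ≤ d j) (al r : Fin m → ℝ) (A : ℝ) (hA : 1 ≤ A) (hal : ∀ j, |al j| ≤ A)
    (t : ℝ) (hvan : ∀ l : Fin m →₀ ℕ, wt d l < t → (sh al (toR f)).coeff l = 0) (lam : Fin m → ℝ)
    (hlam : ∀ j, 0 ≤ lam j) (hr : ∀ j, |r j - al j| ≤ Real.exp (-(lam j))) (Lam : ℝ) (hLam : 0 ≤ Lam)
    (hLd : ∀ j, Lam ≤ lam j * d j) (e : Fin m →₀ ℕ) :
    |(sh r (toR f)).coeff e| ≤
      (8 * A) ^ (∑ j, d j) * l1 f * Real.exp (-(Lam * (t - wt d e))) := by
  classical
  set Dg := ∑ j, d j with hDg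
  set F := toR f with hF
  set G := sh al F with hG
  have hA0 : (0 : ℝ) ≤ A := by linarith
  -- support and coefficients of F
  have hFs : F.support = f.support := by
    rw [hF]
    unfold toR
    exact MvPolynomial.support_map_of_injective f (RingHom.injective_int (Int.castRingHom ℝ))
  have hFc : ∀ u, F.coeff u = ((f.coeff u : ℤ) : ℝ) := by
    intro u
    rw [hF]
    unfold toR
    rw [MvPolynomial.coeff_map]
    rfl
  have hud : ∀ u ∈ F.support, ∀ j, u j ≤ d j := by
    intro u hu j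
    rw [hFs] at hu
    exact (MvPolynomial.monomial_le_degreeOf j hu).trans (hdeg j)
  have hFl : ∑ u ∈ F.support, |F.coeff u| = l1 f := by
    rw [hFs]
    unfold l1
    apply Finset.sum_congr rfl
    intro u _
    rw [hFc]
  have hl0 : 0 ≤ l1 f := l1_nonneg f
  have hmch : ∀ u l : Fin m →₀ ℕ, (∀ j, u j ≤ d j) → ((mch u l : ℕ) : ℝ) ≤ 2 ^ Dg := by
    intro u l hu
    have h1 : mch u l ≤ 2 ^ Dg := by
      refine (mch_le u l).trans (Nat.pow_le_pow_right (by norm_num) ?_)
      exact Finset.sum_le_sum fun j _ => hu j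
    exact_mod_cast h1
  -- the coefficients of G
  have hGb : ∀ l : Fin m →₀ ℕ, |G.coeff l| ≤ (2 * A) ^ Dg * l1 f := by
    intro l
    rw [hG, coeff_sh_eq_sum, ← hFl, Finset.mul_sum]
    refine (Finset.abs_sum_le_sum_abs _ _).trans (Finset.sum_le_sum fun u hu => ?_)
    rw [abs_mul, abs_mul, Nat.abs_cast, Finset.abs_prod]
    have h1 : ∏ j, |al j ^ (u j - l j)| ≤ A ^ Dg := by
      rw [hDg, ← Finset.prod_pow_eq_pow_sum]
      apply Finset.prod_le_prod (fun j _ => abs_nonneg _)
      intro j _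
      rw [abs_pow]
      refine (pow_le_pow_left₀ (abs_nonneg _) (hal j) _).trans ?_
      exact pow_le_pow_right₀ hA ((Nat.sub_le _ _).trans (hud u hu j))
    have h2 := hmch u l (hud u hu)
    calc |F.coeff u| * ((mch u l : ℕ) : ℝ) * ∏ j, |al j ^ (u j - l j)|
        ≤ |F.coeff u| * 2 ^ Dg * A ^ Dg := by
          apply mul_le_mul _ h1 (Finset.prod_nonneg fun j _ => abs_nonneg _) (by positivity)
          exact mul_le_mul_of_nonneg_left h2 (abs_nonneg _)
      _ = (2 * A) ^ Dg * |F.coeff u| := by rw [mul_pow]; ring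
  have hGs : ∀ l ∈ G.support, (∀ j, l j ≤ d j) ∧ t ≤ wt d l := by
    intro l hl
    rw [MvPolynomial.mem_support_iff] at hl
    refine ⟨?_, ?_⟩
    · rw [hG, coeff_sh_eq_sum] at hl
      obtain ⟨u, hu, hne⟩ := Finset.exists_ne_zero_of_sum_ne_zero hl
      have hle : l ≤ u := by
        by_contra hcon
        apply hne
        rw [mch_eq_zero hcon]
        simp
      intro j
      exact (hle j).trans (hud u hu j)
    · by_contra hcon
      rw [not_le] at hcon
      exact hl (hvan l hcon)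
  -- the number of terms
  have hcard : ((G.support.card : ℕ) : ℝ) ≤ 2 ^ Dg := by
    have h1 : G.support.card ≤ (Fintype.piFinset fun j => Finset.range (d j + 1)).card := by
      refine Finset.card_le_card_of_injOn (fun l => (l : Fin m → ℕ)) ?_ ?_
      · intro l hl
        rw [Finset.mem_coe, Fintype.mem_piFinset]
        intro j
        have h0 := (hGs l hl).1 j
        exact Finset.mem_range.2 (Nat.lt_succ_of_le h0)
      · intro l _ l' _ h
        exact DFunLike.coe_injective h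
    rw [Fintype.card_piFinset] at h1
    have h2 : ∏ j, (Finset.range (d j + 1)).card ≤ 2 ^ Dg := by
      rw [hDg, ← Finset.prod_pow_eq_pow_sum]
      apply Finset.prod_le_prod'
      intro j _
      rw [Finset.card_range]
      exact Nat.lt_two_pow_self
    exact_mod_cast h1.trans h2
  have hshift : sh r F = sh (r - al) G := by
    rw [hG, sh_sh, sub_add_cancel]
  rw [hshift, coeff_sh_eq_sum]
  have hterm : ∀ l ∈ G.support, |G.coeff l * ((mch l e : ℕ) : ℝ) * ∏ j, (r - al) j ^ (l j - e j)| ≤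
      (2 * A) ^ Dg * l1 f * 2 ^ Dg * Real.exp (-(Lam * (t - wt d e))) := by
    intro l hl
    by_cases hle : e ≤ l
    · rw [abs_mul, abs_mul, Nat.abs_cast, Finset.abs_prod]
      have h1 : ∏ j, |(r - al) j ^ (l j - e j)| ≤ Real.exp (-(Lam * (t - wt d e))) := by
        have h2 : ∏ j, |(r - al) j ^ (l j - e j)| ≤ ∏ j, Real.exp (-(Lam * (((l j : ℝ) - e j) / d j))) := by
          apply Finset.prod_le_prod (fun j _ => abs_nonneg _)
          intro j _
          rw [abs_pow, Pi.sub_apply]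
          refine (pow_le_pow_left₀ (abs_nonneg _) (hr j) _).trans ?_
          rw [← Real.exp_nat_mul, Real.exp_le_exp, Nat.cast_sub (hle j)]
          have hdj : (0 : ℝ) < d j := by exact_mod_cast hd j
          have h3 : (0 : ℝ) ≤ (l j : ℝ) - e j := by
            have : ((e j : ℕ) : ℝ) ≤ l j := by exact_mod_cast hle j
            linarith
          have h4 : Lam / d j ≤ lam j := by rw [div_le_iff₀ hdj]; exact hLd j
          have h5 : Lam * (((l j : ℝ) - e j) / d j) = ((l j : ℝ) - e j) * (Lam / d j) := by ring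
          rw [h5]
          have h6 := mul_le_mul_of_nonneg_left h4 h3
          linarith
        refine h2.trans ?_
        rw [← Real.exp_sum, Real.exp_le_exp, Finset.sum_neg_distrib, ← Finset.mul_sum]
        have h3 : ∑ j, ((l j : ℝ) - e j) / d j = wt d l - wt d e := by
          unfold wt
          rw [← Finset.sum_sub_distrib]
          apply Finset.sum_congr rfl
          intro j _
          ring
        rw [h3]
        have h4 := (hGs l hl).2
        have h5 : Lam * (t - wt d e) ≤ Lam * (wt d l - wt d e) :=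
          mul_le_mul_of_nonneg_left (by linarith) hLam
        linarith
      exact mul_le_mul (mul_le_mul (hGb l) (hmch l e (hGs l hl).1) (by positivity) (by positivity)) h1
        (Finset.prod_nonneg fun j _ => abs_nonneg _) (by positivity)
    · rw [mch_eq_zero hle, Nat.cast_zero, mul_zero, zero_mul, abs_zero]
      positivity
  calc |∑ l ∈ G.support, G.coeff l * ((mch l e : ℕ) : ℝ) * ∏ j, (r - al) j ^ (l j - e j)|
      ≤ ∑ l ∈ G.support, |G.coeff l * ((mch l e : ℕ) : ℝ) * ∏ j, (r - al) j ^ (l j - e j)| :=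
        Finset.abs_sum_le_sum_abs _ _
    _ ≤ ∑ _l ∈ G.support, (2 * A) ^ Dg * l1 f * 2 ^ Dg * Real.exp (-(Lam * (t - wt d e))) :=
        Finset.sum_le_sum hterm
    _ = (G.support.card : ℝ) * ((2 * A) ^ Dg * l1 f * 2 ^ Dg * Real.exp (-(Lam * (t - wt d e)))) := by
        rw [Finset.sum_const, nsmul_eq_mul]
    _ ≤ 2 ^ Dg * ((2 * A) ^ Dg * l1 f * 2 ^ Dg * Real.exp (-(Lam * (t - wt d e)))) :=
        mul_le_mul_of_nonneg_right hcard (by positivity)
    _ = (8 * A) ^ Dg * l1 f * Real.exp (-(Lam * (t - wt d e))) := by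
        have h1 : (8 * A) ^ Dg = 2 ^ Dg * (2 * A) ^ Dg * 2 ^ Dg := by
          rw [← mul_pow, ← mul_pow]
          congr 1
          ring
        rw [h1]
        ring

end H4AR
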