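import Pool.Agent.H4.AR.Step

/-!
H4/AR/Roth: Roth's lemma in m variables.

PROOF. Induction on m. m = 0: c = 1, e = 0: wt d 0 = 0 ≤ del (empty sum), and sh r (toQ f) is toQ f, a nonzero constant
(`MvPolynomial.eq_C_of_isEmpty`, or use sh_ne_zero and that every exponent of `Fin 0 →₀ ℕ` equals 0). Step: roth_step.
-/

namespace H4AR

theorem roth (m : ℕ) : RothP m := by
  induction m with
  | zero =>
    intro del hdel
    refine ⟨1, one_pos, le_rfl, ?_⟩
    intro d r f D _ _ _ _ hf _ _
    have h1 : sh r (toQ f) ≠ 0 := by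
      refine sh_ne_zero r ?_
      intro h
      apply hf
      exact MvPolynomial.map_injective (Int.castRingHom ℚ) Int.cast_injective
        (h.trans (map_zero _).symm)
    obtain ⟨e, he⟩ := MvPolynomial.ne_zero_iff.1 h1
    refine ⟨e, ?_, he⟩
    unfold wt
    rw [Finset.univ_eq_empty, Finset.sum_empty]
    exact hdel.le
  | succ m ih => exact roth_step m ih

end H4AR
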