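import Mathlib

/-!
H4/AR/Def: basic definitions for the project AlmostAllRadicals (MP_821da1_nt, proposal 181, helper4).

* `ht r`    height of a rational number, max(|num|, den)
* `l1 f`    sum of the absolute values of the coefficients of an integer polynomial
* `sh r f`  Taylor shift f(X + r)
* `hs i f`  Hasse derivative of order i (multi-index) of f
* `wt d e`  weight of an exponent, sum e_j / d_j
* `Ix d r t f`  the index of f at r is at least t: all coefficients of f(X + r) of weight < t vanish
* `Exc n b a th kap B r`  r is an exceptional approximation to (th a/b)^(1/n), th > 0 a fixed real number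
* `toQ f`, `toR f`  an integer polynomial regarded over the rationals, over the reals
-/

namespace H4AR

open MvPolynomial

/-- height of a rational number -/
noncomputable def ht (r : ℚ) : ℝ := max |(r.num : ℝ)| (r.den : ℝ)

/-- sum of the absolute values of the coefficients -/
noncomputable def l1 {m : ℕ} (f : MvPolynomial (Fin m) ℤ) : ℝ :=
  ∑ e ∈ f.support, |((MvPolynomial.coeff e f : ℤ) : ℝ)|

/-- Taylor shift `f(X + r)` -/
noncomputable def sh {m : ℕ} {R : Type} [CommRing R] (r : Fin m → R) :
    MvPolynomial (Fin m) R →ₐ[R] MvPolynomial (Fin m) R :=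
  MvPolynomial.aeval (fun j => MvPolynomial.X j + MvPolynomial.C (r j))

/-- product of binomial coefficients -/
def mch {m : ℕ} (e i : Fin m →₀ ℕ) : ℕ := ∏ j, (e j).choose (i j)

/-- Hasse derivative of order `i` -/
noncomputable def hs {m : ℕ} {R : Type} [CommRing R] (i : Fin m →₀ ℕ) (f : MvPolynomial (Fin m) R) :
    MvPolynomial (Fin m) R :=
  ∑ e ∈ f.support, monomial (e - i) ((mch e i : R) * f.coeff e)

/-- weight of an exponent -/
noncomputable def wt {m : ℕ} (d : Fin m → ℕ) (e : Fin m →₀ ℕ) : ℝ := ∑ j, (e j : ℝ) / (d j : ℝ)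

/-- an integer polynomial over the rationals -/
noncomputable def toQ {m : ℕ} (f : MvPolynomial (Fin m) ℤ) : MvPolynomial (Fin m) ℚ :=
  MvPolynomial.map (Int.castRingHom ℚ) f

/-- an integer polynomial over the reals -/
noncomputable def toR {m : ℕ} (f : MvPolynomial (Fin m) ℤ) : MvPolynomial (Fin m) ℝ :=
  MvPolynomial.map (Int.castRingHom ℝ) f

/-- the index of `f` at `r` with respect to `d` is at least `t` -/
def Ix {m : ℕ} (d : Fin m → ℕ) (r : Fin m → ℚ) (t : ℝ) (f : MvPolynomial (Fin m) ℚ) : Prop :=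
  ∀ e : Fin m →₀ ℕ, (sh r f).coeff e ≠ 0 → t ≤ wt d e

/-- `r` is an exceptional approximation to the `n`-th root of `th a / b`: positive, of height at least
`B`, and `|b r^n - th a| ≤ ht(r)^(-kap)` -/
def Exc (n b a : ℕ) (th kap B : ℝ) (r : ℚ) : Prop :=
  0 < r ∧ B ≤ ht r ∧ |(b : ℝ) * (r : ℝ) ^ n - th * (a : ℝ)| ≤ (ht r) ^ (-kap)

/-- the vertex `b0 * prod mu_i(v_i)` of a cube -/
def vx {k : ℕ} (b0 : ℕ) (mu : Fin k → Bool → ℕ) (v : Fin k → Bool) : ℕ := b0 * ∏ i, mu i (v i)

end H4AR
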