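import Pool.Agent.H4.AR.Leib

/-!
H4/AR/Shift: the Taylor shift `sh r f = f(X + r)` and Hasse derivatives.

PROOFS. sh_sh, sh_map, sh_rename...: both sides are ring homomorphisms in f which agree on constants and on the
variables (`MvPolynomial.algHom_ext`, `MvPolynomial.ringHom_ext`).
coeff_sh: induction on f (`MvPolynomial.induction_on`): constants: hs e (C a) = C a if e = 0 and 0 otherwise; sums:
hs_add; product with X_j: coefficient of (sh r p) * (X_j + C r_j) at e, and hs_mul with hs of X_j (hs 0 X_j = X_j,
hs (single j 1) X_j = 1, all other orders 0). Simplest: first prove that both sides are additive and satisfy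
T_e(fg) = sum over the antidiagonal of e of T_a(f) T_b(g).
hs_sh: compare coefficients: coeff_e (hs i (sh r f)) = mch(e+i) i * eval r (hs (e+i) f) (coeff_hs, coeff_sh) and
coeff_e (sh r (hs i f)) = eval r (hs e (hs i f)), equal by hs_hs.
-/

namespace H4AR

open MvPolynomial

variable {m : ℕ} {R : Type} [CommRing R]

theorem sh_X (r : Fin m → R) (j : Fin m) : sh r (X j) = X j + C (r j) := by
  unfold sh
  rw [MvPolynomial.aeval_X]

theorem sh_C (r : Fin m → R) (a : R) : sh r (C a) = C a := by
  unfold sh
  rw [MvPolynomial.aeval_C]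
  rfl

theorem sh_sh (r s : Fin m → R) (f : MvPolynomial (Fin m) R) : sh r (sh s f) = sh (r + s) f := by
  have h : (sh r).comp (sh s) = sh (r + s) := by
    refine MvPolynomial.algHom_ext fun j => ?_
    rw [AlgHom.comp_apply, sh_X, sh_X, map_add, sh_X, sh_C, Pi.add_apply, C_add]
    ring
  exact DFunLike.congr_fun h f

theorem sh_zero (f : MvPolynomial (Fin m) R) : sh 0 f = f := by
  have h : sh (0 : Fin m → R) = AlgHom.id R _ := by
    refine MvPolynomial.algHom_ext fun j => ?_
    rw [sh_X, Pi.zero_apply, C_0, add_zero]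
    rfl
  rw [h]
  rfl

theorem sh_map {S : Type} [CommRing S] (phi : R →+* S) (r : Fin m → R) (f : MvPolynomial (Fin m) R) :
    sh (fun j => phi (r j)) (MvPolynomial.map phi f) = MvPolynomial.map phi (sh r f) := by
  induction f using MvPolynomial.induction_on with
  | C a => rw [map_C, sh_C, sh_C, map_C]
  | add p q hp hq => rw [map_add, map_add, map_add, map_add, hp, hq]
  | mul_X p j hp => rw [map_mul, map_mul, map_mul, map_mul, hp, map_X, sh_X, sh_X, map_add, map_X,
      map_C]

private theorem hs_C_ne (e : Fin m →₀ ℕ) (he : e ≠ 0) (a : R) : hs e (C a) = 0 := by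
  ext u
  rw [coeff_hs, MvPolynomial.coeff_C, if_neg, mul_zero, MvPolynomial.coeff_zero]
  intro h
  apply he
  ext j
  have := DFunLike.congr_fun h j
  rw [Finsupp.add_apply, Finsupp.coe_zero, Pi.zero_apply] at this
  rw [Finsupp.coe_zero, Pi.zero_apply]
  omega

private theorem eval_hs_X (r : Fin m → R) (j : Fin m) (b : Fin m →₀ ℕ) :
    MvPolynomial.eval r (hs b (X j)) = (X j + C (r j) : MvPolynomial (Fin m) R).coeff b := by
  classical
  rw [MvPolynomial.coeff_add, MvPolynomial.coeff_X, MvPolynomial.coeff_C]
  by_cases hb0 : b = 0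
  · subst hb0
    rw [hs_zero_left, MvPolynomial.eval_X, if_neg (by simp), if_pos rfl, zero_add]
  have hb0' : ¬ (0 : Fin m →₀ ℕ) = b := fun h => hb0 h.symm
  rw [if_neg hb0', add_zero]
  by_cases hb1 : Finsupp.single j 1 = b
  · rw [if_pos hb1]
    have h1 : hs b (X j : MvPolynomial (Fin m) R) = 1 := by
      ext u
      rw [coeff_hs, MvPolynomial.coeff_X, MvPolynomial.coeff_one]
      by_cases hu : 0 = u
      · rw [if_pos hu, ← hu, zero_add, mch_self, if_pos hb1, Nat.cast_one, one_mul]
      · rw [if_neg hu, if_neg, mul_zero]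
        intro h
        rw [hb1] at h
        apply hu
        exact (add_eq_right.1 h.symm).symm
    rw [h1, map_one]
  · rw [if_neg hb1]
    have h1 : hs b (X j : MvPolynomial (Fin m) R) = 0 := by
      ext u
      rw [coeff_hs, MvPolynomial.coeff_X, MvPolynomial.coeff_zero, if_neg, mul_zero]
      intro h
      have h2 : ∀ i, (Finsupp.single j 1 : Fin m →₀ ℕ) i = u i + b i := fun i => by
        rw [h, Finsupp.add_apply]
      have h3 : ∀ i, i ≠ j → b i = 0 := by
        intro i hi
        have := h2 i
        rw [Finsupp.single_apply, if_neg (Ne.symm hi)] at this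
        omega
      have h4 := h2 j
      rw [Finsupp.single_eq_same] at h4
      rcases Nat.eq_zero_or_pos (b j) with h5 | h5
      · apply hb0
        ext i
        by_cases hi : i = j
        · rw [hi, h5]; rfl
        · rw [h3 i hi]; rfl
      · apply hb1
        ext i
        by_cases hi : i = j
        · rw [hi, Finsupp.single_eq_same]
          omega
        · rw [Finsupp.single_apply, if_neg (Ne.symm hi), h3 i hi]
    rw [h1, map_zero]

theorem coeff_sh (r : Fin m → R) (f : MvPolynomial (Fin m) R) (e : Fin m →₀ ℕ) :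
    (sh r f).coeff e = MvPolynomial.eval r (hs e f) := by
  classical
  induction f using MvPolynomial.induction_on generalizing e with
  | C a =>
    rw [sh_C, MvPolynomial.coeff_C]
    split_ifs with h
    · rw [← h, hs_zero_left, MvPolynomial.eval_C]
    · rw [hs_C_ne e (fun h' => h h'.symm), map_zero]
  | add p q hp hq => rw [map_add, MvPolynomial.coeff_add, hp, hq, hs_add, map_add]
  | mul_X p j hp =>
    rw [map_mul, MvPolynomial.coeff_mul, hs_mul, map_sum]
    refine Finset.sum_congr rfl fun x _ => ?_
    rw [hp, map_mul, eval_hs_X, sh_X]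

theorem hs_sh (r : Fin m → R) (i : Fin m →₀ ℕ) (f : MvPolynomial (Fin m) R) :
    hs i (sh r f) = sh r (hs i f) := by
  ext e
  rw [coeff_hs, coeff_sh, coeff_sh, hs_hs, map_mul, MvPolynomial.eval_C]

theorem sh_ne_zero (r : Fin m → R) {f : MvPolynomial (Fin m) R} (hf : f ≠ 0) : sh r f ≠ 0 := by
  intro h
  apply hf
  have h1 := sh_sh (-r) r f
  rw [h, map_zero, neg_add_cancel, sh_zero] at h1
  exact h1.symm

/-- explicit coefficients of a shift -/
theorem coeff_sh_eq_sum (r : Fin m → R) (f : MvPolynomial (Fin m) R) (e : Fin m →₀ ℕ) :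
    (sh r f).coeff e = ∑ l ∈ f.support, f.coeff l * (mch l e : R) * ∏ j, r j ^ (l j - e j) := by
  rw [coeff_sh, hs, map_sum]
  refine Finset.sum_congr rfl fun l _ => ?_
  rw [MvPolynomial.eval_monomial, Finsupp.prod_fintype _ _ (fun j => pow_zero _), mul_comm (mch l e : R)]
  rfl

end H4AR
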