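import Mathlib

/-!
H4/AR/RootN: a squarefree polynomial is small only near its real roots; growth at infinity; rational values.

PROOF. near_root: over the reals P = prod over its distinct real roots y_i of (X - y_i) times Q, where Q has no real
root: the roots are simple because P is squarefree over Q, hence separable (perfect field), hence over the reals.
|Q| ≥ q > 0 on the whole line (continuous without zeros; Q is constant or |Q| → ∞ at ±∞). No real roots:
|P(x)| ≥ q. Otherwise let y be the root nearest to x, s the minimal distance of two roots (s = 1 if there is one root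
only): |x - y_i| ≥ s/2 for the other roots, so |P(x)| ≥ q (s/2)^(l-1) |x - y|. Alternative: compactness.
growth: |P(x)| ≥ |x|^D/2 for |x| ≥ K, K = 2 (1 + sum of |coefficients|) (leading coefficient is an integer ≠ 0):
|lower terms| ≤ (sum |P_i|) |x|^(D-1) ≤ |x|^D/2.
-/

namespace H4AR

private theorem rn_pos (B : Finset ℝ) (hB : ∀ b ∈ B, 0 < b) : ∃ s : ℝ, 0 < s ∧ ∀ b ∈ B, s ≤ b := by
  rcases B.eq_empty_or_nonempty with h | h
  · exact ⟨1, one_pos, fun b hb => by rw [h] at hb; exact absurd hb (Finset.notMem_empty b)⟩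
  · exact ⟨B.min' h, hB _ (B.min'_mem h), fun b hb => B.min'_le b hb⟩

private theorem rn_sep (R : Finset ℝ) : ∃ s : ℝ, 0 < s ∧ ∀ y ∈ R, ∀ y' ∈ R, y ≠ y' → s ≤ |y - y'| := by
  obtain ⟨s, hs, h⟩ := rn_pos (R.offDiag.image fun q => |q.1 - q.2|) (by
    intro b hb
    rw [Finset.mem_image] at hb
    obtain ⟨q, hq, rfl⟩ := hb
    rw [Finset.mem_offDiag] at hq
    exact abs_pos.2 (sub_ne_zero.2 hq.2.2))
  refine ⟨s, hs, fun y hy y' hy' hne => h _ ?_⟩
  rw [Finset.mem_image]
  exact ⟨(y, y'), Finset.mem_offDiag.2 ⟨hy, hy', hne⟩, rfl⟩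

private theorem rn_eval (P : Polynomial ℤ) (x : ℝ) :
    (P.map (Int.castRingHom ℝ)).eval x = Polynomial.aeval x P := by
  rw [Polynomial.eval_map, Polynomial.aeval_def]
  rfl

private theorem rn_ne {P : Polynomial ℤ} (hP : P ≠ 0) : P.map (Int.castRingHom ℝ) ≠ 0 := by
  rw [Ne, Polynomial.map_eq_zero_iff (RingHom.injective_int _)]
  exact hP

private theorem rn_root {P : Polynomial ℤ} (hP : P ≠ 0) (y : ℝ) :
    y ∈ (P.map (Int.castRingHom ℝ)).roots.toFinset ↔ Polynomial.aeval y P = 0 := by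
  rw [Multiset.mem_toFinset, Polynomial.mem_roots (rn_ne hP), Polynomial.IsRoot.def, rn_eval]

theorem near_root (P : Polynomial ℤ) (hP : P ≠ 0) (hsq : Squarefree (P.map (Int.castRingHom ℚ))) :
    ∃ K : ℝ, 1 ≤ K ∧ ∀ x : ℝ, 1 / K ≤ |Polynomial.aeval x P| ∨
      ∃ y : ℝ, Polynomial.aeval y P = 0 ∧ |x - y| ≤ K * |Polynomial.aeval x P| := by
  set p : Polynomial ℝ := P.map (Int.castRingHom ℝ) with hp
  have hp0 : p ≠ 0 := rn_ne hP
  have hsep : p.Separable := by
    have h1 := (PerfectField.separable_iff_squarefree.2 hsq).map (f := algebraMap ℚ ℝ)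
    rw [Polynomial.map_map] at h1
    have h2 : (algebraMap ℚ ℝ).comp (Int.castRingHom ℚ) = Int.castRingHom ℝ := RingHom.ext_int _ _
    rwa [h2] at h1
  have hnd := Polynomial.nodup_roots hsep
  obtain ⟨q, hq1, -, hq3⟩ := Polynomial.exists_prod_multiset_X_sub_C_mul p
  have hq0 : q ≠ 0 := by
    rintro rfl
    rw [mul_zero] at hq1
    exact hp0 hq1.symm
  obtain ⟨x0, hx0⟩ := q.exists_forall_norm_le
  set c : ℝ := ‖q.eval x0‖ with hc
  have hcpos : 0 < c := by
    rw [hc, norm_pos_iff]
    intro h0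
    have h1 : x0 ∈ q.roots := (Polynomial.mem_roots hq0).2 h0
    rw [hq3] at h1
    exact absurd h1 (Multiset.notMem_zero _)
  set R : Finset ℝ := p.roots.toFinset with hR
  have heval : ∀ x : ℝ, |Polynomial.aeval x P| = (∏ y ∈ R, |x - y|) * |q.eval x| := by
    intro x
    have h1 : p.eval x = (∏ y ∈ R, (x - y)) * q.eval x := by
      conv_lhs => rw [← hq1]
      rw [Polynomial.eval_mul, Polynomial.eval_multiset_prod, Multiset.map_map]
      congr 1
      rw [hR, Finset.prod_eq_multiset_prod, Multiset.toFinset_val, Multiset.dedup_eq_self.2 hnd]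
      congr 1
      refine Multiset.map_congr rfl fun y _ => ?_
      simp
    rw [← rn_eval, ← hp, h1, abs_mul, Finset.abs_prod]
  have hlow : ∀ x : ℝ, (∏ y ∈ R, |x - y|) * c ≤ |Polynomial.aeval x P| := by
    intro x
    rw [heval x]
    exact mul_le_mul_of_nonneg_left (hx0 x) (Finset.prod_nonneg fun y _ => abs_nonneg _)
  rcases R.eq_empty_or_nonempty with hRe | hRn
  · refine ⟨max 1 (1 / c), le_max_left _ _, fun x => Or.inl ?_⟩
    have h1 := hlow x
    rw [hRe, Finset.prod_empty, one_mul] at h1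
    refine le_trans ?_ h1
    rw [div_le_iff₀ (lt_of_lt_of_le one_pos (le_max_left _ _))]
    calc (1 : ℝ) = c * (1 / c) := by field_simp
      _ ≤ c * max 1 (1 / c) := mul_le_mul_of_nonneg_left (le_max_right _ _) hcpos.le
  · obtain ⟨s, hs, hsep'⟩ := rn_sep R
    set b : ℝ := c * (s / 2) ^ (R.card - 1) with hb
    have hbpos : 0 < b := by positivity
    refine ⟨max 1 (1 / b), le_max_left _ _, fun x => Or.inr ?_⟩
    obtain ⟨y, hy, hmin⟩ := Finset.exists_min_image R (fun y => |x - y|) hRn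
    refine ⟨y, (rn_root hP y).1 hy, ?_⟩
    have h1 : |x - y| * (s / 2) ^ (R.card - 1) ≤ ∏ z ∈ R, |x - z| := by
      rw [← Finset.mul_prod_erase R _ hy]
      refine mul_le_mul_of_nonneg_left ?_ (abs_nonneg _)
      rw [← Finset.card_erase_of_mem hy, ← Finset.prod_const]
      refine Finset.prod_le_prod (fun _ _ => by positivity) fun z hz => ?_
      have hzR := Finset.mem_of_mem_erase hz
      have hne := Finset.ne_of_mem_erase hz
      have h2 := hsep' z hzR y hy hne
      have h3 := hmin z hzR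
      have h4 : |z - y| ≤ |x - z| + |x - y| := by
        have h5 : z - y = (x - y) - (x - z) := by ring
        rw [h5]
        have := abs_sub (x - y) (x - z)
        linarith
      linarith
    have h2 := hlow x
    have h3 : |x - y| * b ≤ |Polynomial.aeval x P| := by
      refine le_trans ?_ h2
      calc |x - y| * b = (|x - y| * (s / 2) ^ (R.card - 1)) * c := by
            rw [hb]
            ring
        _ ≤ (∏ z ∈ R, |x - z|) * c := mul_le_mul_of_nonneg_right h1 hcpos.le
    calc |x - y| = (1 / b) * (|x - y| * b) := by field_simp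
      _ ≤ (1 / b) * |Polynomial.aeval x P| := mul_le_mul_of_nonneg_left h3 (by positivity)
      _ ≤ max 1 (1 / b) * |Polynomial.aeval x P| :=
          mul_le_mul_of_nonneg_right (le_max_right _ _) (abs_nonneg _)

theorem growth (P : Polynomial ℤ) (hP : P ≠ 0) :
    ∃ K : ℝ, 1 ≤ K ∧ ∀ x : ℝ, K ≤ |x| → |x| ^ P.natDegree / 2 ≤ |Polynomial.aeval x P| := by
  set D := P.natDegree with hD
  set S : ℝ := ∑ i ∈ Finset.range D, |(P.coeff i : ℝ)| with hS
  have hS0 : 0 ≤ S := Finset.sum_nonneg fun i _ => abs_nonneg _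
  refine ⟨2 * (1 + S), by linarith, fun x hx => ?_⟩
  have hx1 : 1 ≤ |x| := by linarith
  have hx0 : 0 < |x| := by linarith
  have hsum : Polynomial.aeval x P =
      ∑ i ∈ Finset.range D, (P.coeff i : ℝ) * x ^ i + (P.coeff D : ℝ) * x ^ D := by
    rw [Polynomial.aeval_eq_sum_range, Finset.sum_range_succ]
    congr 1
    · exact Finset.sum_congr rfl fun i _ => by rw [zsmul_eq_mul]
    · rw [zsmul_eq_mul]
  have hlead : |x| ^ D ≤ |(P.coeff D : ℝ) * x ^ D| := by
    rw [abs_mul, abs_pow]
    have h1 : (1 : ℝ) ≤ |(P.coeff D : ℝ)| := by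
      have h2 : P.coeff D ≠ 0 := by
        rw [hD]
        exact Polynomial.leadingCoeff_ne_zero.2 hP
      have h3 : 1 ≤ |P.coeff D| := Int.one_le_abs h2
      rw [← Int.cast_abs]
      exact_mod_cast h3
    calc |x| ^ D = 1 * |x| ^ D := (one_mul _).symm
      _ ≤ |(P.coeff D : ℝ)| * |x| ^ D := mul_le_mul_of_nonneg_right h1 (by positivity)
  have hlow : |∑ i ∈ Finset.range D, (P.coeff i : ℝ) * x ^ i| ≤ |x| ^ D / 2 := by
    have h1 : |x| * |∑ i ∈ Finset.range D, (P.coeff i : ℝ) * x ^ i| ≤ |x| * (|x| ^ D / 2) := by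
      calc |x| * |∑ i ∈ Finset.range D, (P.coeff i : ℝ) * x ^ i|
          ≤ |x| * ∑ i ∈ Finset.range D, |(P.coeff i : ℝ) * x ^ i| :=
            mul_le_mul_of_nonneg_left (Finset.abs_sum_le_sum_abs _ _) hx0.le
        _ = ∑ i ∈ Finset.range D, |(P.coeff i : ℝ)| * |x| ^ (i + 1) := by
            rw [Finset.mul_sum]
            refine Finset.sum_congr rfl fun i _ => ?_
            rw [abs_mul, abs_pow, pow_succ]
            ring
        _ ≤ ∑ i ∈ Finset.range D, |(P.coeff i : ℝ)| * |x| ^ D := by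
            refine Finset.sum_le_sum fun i hi => ?_
            rw [Finset.mem_range] at hi
            exact mul_le_mul_of_nonneg_left (pow_le_pow_right₀ hx1 hi) (abs_nonneg _)
        _ = S * |x| ^ D := by rw [hS, Finset.sum_mul]
        _ ≤ |x| * (|x| ^ D / 2) := by
            have h2 : 0 ≤ |x| ^ D := by positivity
            have h3 : S ≤ |x| / 2 := by linarith
            calc S * |x| ^ D ≤ |x| / 2 * |x| ^ D := mul_le_mul_of_nonneg_right h3 h2
              _ = |x| * (|x| ^ D / 2) := by ring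
    exact le_of_mul_le_mul_left h1 hx0
  rw [hsum]
  have h2 := abs_sub_abs_le_abs_add ((P.coeff D : ℝ) * x ^ D)
    (∑ i ∈ Finset.range D, (P.coeff i : ℝ) * x ^ i)
  rw [add_comm] at h2
  linarith

/-- positive lower bound for the absolute values of the real roots and for the distances of different roots -/
theorem root_sep (P : Polynomial ℤ) (hP : P ≠ 0) (h0 : P.coeff 0 ≠ 0) :
    ∃ s : ℝ, 0 < s ∧ (∀ y : ℝ, Polynomial.aeval y P = 0 → s ≤ |y|) ∧
      ∀ y y' : ℝ, Polynomial.aeval y P = 0 → Polynomial.aeval y' P = 0 → y ≠ y' → s ≤ |y - y'| := by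
  set R : Finset ℝ := (P.map (Int.castRingHom ℝ)).roots.toFinset with hR
  obtain ⟨s₁, hs₁, h₁⟩ := rn_sep R
  obtain ⟨s₂, hs₂, h₂⟩ := rn_pos (R.image fun y => |y|) (by
    intro b hb
    rw [Finset.mem_image] at hb
    obtain ⟨y, hy, rfl⟩ := hb
    rw [abs_pos]
    rintro rfl
    have h3 := (rn_root hP 0).1 hy
    rw [← Polynomial.coeff_zero_eq_aeval_zero'] at h3
    have h4 : ((P.coeff 0 : ℤ) : ℝ) = 0 := h3
    exact h0 (by exact_mod_cast h4))
  refine ⟨min s₁ s₂, lt_min hs₁ hs₂, ?_, ?_⟩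
  · intro y hy
    refine (min_le_right _ _).trans (h₂ _ ?_)
    rw [Finset.mem_image]
    exact ⟨y, (rn_root hP y).2 hy, rfl⟩
  · intro y y' hy hy' hne
    exact (min_le_left _ _).trans (h₁ y ((rn_root hP y).2 hy) y' ((rn_root hP y').2 hy') hne)

end H4AR
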