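import Mathlib

/-!
H4/AR/LinB: values of G(x,y) and size of (x,y) in terms of the linear forms L1, L2.

PROOF. L1 = l11 x + l12 y + l10, L2 = l21 x + l22 y + l20 (degree ≤ 1: the only exponents are 0, single 0 1,
single 1 1), det = l11 l22 - l12 l21 ≠ 0 so |det| ≥ 1. X = L1(x,y), Y = L2(x,y), M = max(|X|,|Y|,1).
x det = l22 (X - l10) - l12 (Y - l20), so |x| ≤ 2 H (M + H) ≤ 4 H^2 M; the same for y. |G(x,y)| ≤ number of
monomials of degree ≤ N, at most (N+1)^2, times H times max(1,|x|,|y|)^N ≤ (N+1)^2 H (4 H^2 M)^N.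
-/

namespace H4AR

open MvPolynomial

private theorem linb_eval (L : MvPolynomial (Fin 2) ℤ) (h1 : L.totalDegree ≤ 1) (x y : ℤ) :
    eval ![x, y] L = L.coeff 0 + L.coeff (Finsupp.single 0 1) * x + L.coeff (Finsupp.single 1 1) * y := by
  classical
  have hsub : L.support ⊆ {0, Finsupp.single 0 1, Finsupp.single 1 1} := by
    intro e he
    have h2 := (MvPolynomial.le_totalDegree he).trans h1
    have h3 : e 0 + e 1 ≤ 1 := by
      have h4 : (e.sum fun _ n => n) = e 0 + e 1 := by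
        rw [Finsupp.sum_fintype _ _ (fun _ => rfl), Fin.sum_univ_two]
      omega
    rw [Finset.mem_insert, Finset.mem_insert, Finset.mem_singleton]
    rcases Nat.eq_zero_or_pos (e 0) with h0 | h0
    · rcases Nat.eq_zero_or_pos (e 1) with h5 | h5
      · left
        ext i
        fin_cases i
        · exact h0
        · exact h5
      · right; right
        ext i
        fin_cases i
        · simpa using h0
        · simp only [Fin.mk_one, Fin.isValue, Finsupp.single_eq_same]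
          omega
    · right; left
      ext i
      fin_cases i
      · simp only [Fin.zero_eta, Fin.isValue, Finsupp.single_eq_same]
        omega
      · simp only [Fin.mk_one, Fin.isValue, ne_eq, one_ne_zero, not_false_eq_true, Finsupp.single_eq_of_ne]
        omega
  rw [MvPolynomial.eval_eq', Finset.sum_subset hsub]
  · rw [Finset.sum_insert, Finset.sum_insert, Finset.sum_singleton]
    · simp [Fin.prod_univ_two]
      ring
    · rw [Finset.mem_singleton]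
      intro h
      have := DFunLike.congr_fun h 0
      simp at this
    · rw [Finset.mem_insert, Finset.mem_singleton]
      intro h
      rcases h with h | h
      · have := DFunLike.congr_fun h 0
        simp at this
      · have := DFunLike.congr_fun h 1
        simp at this
  · intro e _ he
    rw [MvPolynomial.notMem_support_iff.1 he, zero_mul]

private theorem linb_key (a b x X Y D H M : ℝ) (hD : 1 ≤ |D|) (hH : 1 ≤ H) (hM : 1 ≤ M)
    (hx : x * D = a * X - b * Y) (ha : |a| ≤ H) (hb : |b| ≤ H) (hX : |X| ≤ M + H) (hY : |Y| ≤ M + H) :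
    |x| ≤ 4 * H ^ 2 * M := by
  have h1 : |x| ≤ |x * D| := by
    rw [abs_mul]
    nlinarith [abs_nonneg x]
  have h2 : |a * X - b * Y| ≤ |a| * |X| + |b| * |Y| := by
    rw [← abs_mul, ← abs_mul]
    exact abs_sub _ _
  have h3 : |a| * |X| ≤ H * (M + H) := mul_le_mul ha hX (abs_nonneg _) (by linarith)
  have h4 : |b| * |Y| ≤ H * (M + H) := mul_le_mul hb hY (abs_nonneg _) (by linarith)
  rw [hx] at h1
  have h5 : H * M ≤ H ^ 2 * M := by nlinarith [mul_nonneg (sub_nonneg.2 hH) (mul_nonneg (by linarith : (0:ℝ) ≤ H) (by linarith : (0:ℝ) ≤ M))]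
  have h6 : H ^ 2 ≤ H ^ 2 * M := by nlinarith [sq_nonneg H]
  nlinarith

theorem lin_size (L1 L2 : MvPolynomial (Fin 2) ℤ) (H : ℕ) (hH : 1 ≤ H) (h1 : L1.totalDegree ≤ 1)
    (h2 : L2.totalDegree ≤ 1)
    (hdet : L1.coeff (Finsupp.single 0 1) * L2.coeff (Finsupp.single 1 1) ≠
      L1.coeff (Finsupp.single 1 1) * L2.coeff (Finsupp.single 0 1))
    (hc1 : ∀ e, |L1.coeff e| ≤ H) (hc2 : ∀ e, |L2.coeff e| ≤ H) (x y : ℤ) :
    max |(x : ℝ)| |(y : ℝ)| ≤ 4 * (H : ℝ) ^ 2 *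
      max 1 (max |((eval ![x, y] L1 : ℤ) : ℝ)| |((eval ![x, y] L2 : ℤ) : ℝ)|) := by
  have e1 := linb_eval L1 h1 x y
  have e2 := linb_eval L2 h2 x y
  obtain ⟨X, hX⟩ : ∃ X, X = eval ![x, y] L1 := ⟨_, rfl⟩
  obtain ⟨Y, hY⟩ : ∃ Y, Y = eval ![x, y] L2 := ⟨_, rfl⟩
  rw [← hX] at e1 ⊢
  rw [← hY] at e2 ⊢
  obtain ⟨a0, ha0⟩ : ∃ a, a = L1.coeff 0 := ⟨_, rfl⟩
  obtain ⟨a1, ha1⟩ : ∃ a, a = L1.coeff (Finsupp.single 0 1) := ⟨_, rfl⟩
  obtain ⟨a2, ha2⟩ : ∃ a, a = L1.coeff (Finsupp.single 1 1) := ⟨_, rfl⟩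
  obtain ⟨b0, hb0⟩ : ∃ a, a = L2.coeff 0 := ⟨_, rfl⟩
  obtain ⟨b1, hb1⟩ : ∃ a, a = L2.coeff (Finsupp.single 0 1) := ⟨_, rfl⟩
  obtain ⟨b2, hb2⟩ : ∃ a, a = L2.coeff (Finsupp.single 1 1) := ⟨_, rfl⟩
  have c0 : |(a0 : ℝ)| ≤ H := by rw [← Int.cast_abs, ha0]; exact_mod_cast hc1 0
  have c1 : |(a1 : ℝ)| ≤ H := by rw [← Int.cast_abs, ha1]; exact_mod_cast hc1 _
  have c2 : |(a2 : ℝ)| ≤ H := by rw [← Int.cast_abs, ha2]; exact_mod_cast hc1 _
  have d0 : |(b0 : ℝ)| ≤ H := by rw [← Int.cast_abs, hb0]; exact_mod_cast hc2 0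
  have d1 : |(b1 : ℝ)| ≤ H := by rw [← Int.cast_abs, hb1]; exact_mod_cast hc2 _
  have d2 : |(b2 : ℝ)| ≤ H := by rw [← Int.cast_abs, hb2]; exact_mod_cast hc2 _
  rw [← ha0, ← ha1, ← ha2] at e1
  rw [← hb0, ← hb1, ← hb2] at e2
  rw [← ha1, ← ha2, ← hb1, ← hb2] at hdet
  obtain ⟨M, hM⟩ : ∃ M, M = max 1 (max |(X : ℝ)| |(Y : ℝ)|) := ⟨_, rfl⟩
  rw [← hM]
  have hM1 : 1 ≤ M := by rw [hM]; exact le_max_left _ _
  have hMX : |(X : ℝ)| ≤ M := by rw [hM]; exact (le_max_left _ _).trans (le_max_right _ _)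
  have hMY : |(Y : ℝ)| ≤ M := by rw [hM]; exact (le_max_right _ _).trans (le_max_right _ _)
  have hHR : (1 : ℝ) ≤ H := by exact_mod_cast hH
  have hD : (1 : ℝ) ≤ |((a1 * b2 - a2 * b1 : ℤ) : ℝ)| := by
    rw [← Int.cast_abs]
    exact_mod_cast Int.one_le_abs (sub_ne_zero.2 hdet)
  have hXs : |(X : ℝ) - a0| ≤ M + H := (abs_sub _ _).trans (add_le_add hMX c0)
  have hYs : |(Y : ℝ) - b0| ≤ M + H := (abs_sub _ _).trans (add_le_add hMY d0)
  have e1R : (X : ℝ) = a0 + a1 * x + a2 * y := by exact_mod_cast e1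
  have e2R : (Y : ℝ) = b0 + b1 * x + b2 * y := by exact_mod_cast e2
  refine max_le ?_ ?_
  · refine linb_key b2 a2 x (X - a0) (Y - b0) _ H M hD hHR hM1 ?_ d2 c2 hXs hYs
    rw [e1R, e2R]
    push_cast
    ring
  · refine linb_key a1 b1 y (Y - b0) (X - a0) _ H M hD hHR hM1 ?_ c1 d1 hYs hXs
    rw [e1R, e2R]
    push_cast
    ring

theorem eval_size (G : MvPolynomial (Fin 2) ℤ) (N H : ℕ) (hH : 1 ≤ H) (hG : G.totalDegree ≤ N)
    (hc : ∀ e, |G.coeff e| ≤ H) (x y : ℤ) (B : ℝ) (hB : 1 ≤ B) (hx : |(x : ℝ)| ≤ B) (hy : |(y : ℝ)| ≤ B) :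
    |((eval ![x, y] G : ℤ) : ℝ)| ≤ ((N : ℝ) + 1) ^ 2 * H * B ^ N := by
  classical
  have hdeg : ∀ e ∈ G.support, e 0 + e 1 ≤ N := by
    intro e he
    have h2 := (MvPolynomial.le_totalDegree he).trans hG
    have h4 : (e.sum fun _ n => n) = e 0 + e 1 := by
      rw [Finsupp.sum_fintype _ _ (fun _ => rfl), Fin.sum_univ_two]
    omega
  have hcard : (G.support.card : ℝ) ≤ ((N : ℝ) + 1) ^ 2 := by
    have h5 : G.support.card ≤ (Finset.range (N + 1) ×ˢ Finset.range (N + 1)).card := by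
      refine Finset.card_le_card_of_injOn (fun e => (e 0, e 1)) ?_ ?_
      · intro e he
        have := hdeg e he
        rw [Finset.mem_coe, Finset.mem_product, Finset.mem_range, Finset.mem_range]
        exact ⟨by simp only; omega, by simp only; omega⟩
      · intro e _ e' _ h
        have h6 := (Prod.mk.injEq _ _ _ _).mp h
        ext i
        fin_cases i
        · exact h6.1
        · exact h6.2
    rw [Finset.card_product, Finset.card_range] at h5
    have h6 : (G.support.card : ℝ) ≤ (((N + 1) * (N + 1) : ℕ) : ℝ) := by exact_mod_cast h5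
    refine h6.trans (le_of_eq ?_)
    push_cast
    ring
  rw [MvPolynomial.eval_eq', Int.cast_sum]
  have h7 : ∀ e ∈ G.support, |((G.coeff e * ∏ i, ![x, y] i ^ e i : ℤ) : ℝ)| ≤ H * B ^ N := by
    intro e he
    have h8 := hdeg e he
    rw [Fin.prod_univ_two, Int.cast_mul, abs_mul, Int.cast_mul, abs_mul, Int.cast_pow, Int.cast_pow,
      abs_pow, abs_pow]
    simp only [Matrix.cons_val_zero, Matrix.cons_val_one]
    have h9 : |((G.coeff e : ℤ) : ℝ)| ≤ H := by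
      rw [← Int.cast_abs]
      exact_mod_cast hc e
    have h10 : |(x : ℝ)| ^ e 0 * |(y : ℝ)| ^ e 1 ≤ B ^ N := by
      calc |(x : ℝ)| ^ e 0 * |(y : ℝ)| ^ e 1 ≤ B ^ e 0 * B ^ e 1 := by gcongr
        _ = B ^ (e 0 + e 1) := (pow_add _ _ _).symm
        _ ≤ B ^ N := pow_le_pow_right₀ hB h8
    exact mul_le_mul h9 h10 (by positivity) (by positivity)
  calc |∑ e ∈ G.support, ((G.coeff e * ∏ i, ![x, y] i ^ e i : ℤ) : ℝ)|
      ≤ ∑ e ∈ G.support, |((G.coeff e * ∏ i, ![x, y] i ^ e i : ℤ) : ℝ)| := Finset.abs_sum_le_sum_abs _ _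
    _ ≤ ∑ _e ∈ G.support, (H * B ^ N : ℝ) := Finset.sum_le_sum h7
    _ = (G.support.card : ℝ) * (H * B ^ N) := by rw [Finset.sum_const, nsmul_eq_mul]
    _ ≤ ((N : ℝ) + 1) ^ 2 * (H * B ^ N) := mul_le_mul_of_nonneg_right hcard (by positivity)
    _ = ((N : ℝ) + 1) ^ 2 * H * B ^ N := by ring

end H4AR
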