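import Pool.Agent.H4.AR.ResL

/-!
H4/AR/SizeR: for polynomials P, Q of degree ≤ d whose degree d parts have no common zero,
max(|x|,|y|)^d ≤ (c H)^c max(1, |P(x,y)|, |Q(x,y)|) at integer points.

PROOF. p_i = coefficient of P at x^i y^(d-i), q_i the same for Q; P_d(x,y) = sum p_i x^i y^(d-i) is the value of the
homogeneous component (also over ℂ: hypothesis hcop becomes the hypothesis of res_forms). Let N = max(|x|,|y|) (N ≥ 1,
otherwise trivial), V = max(1,|P(x,y)|,|Q(x,y)|). |P_d(x,y)| ≤ |P(x,y)| + (d+1)^2 H N^(d-1) (terms of degree ≤ d-1), the same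
for Q. res_forms: N^(2d-1) ≤ |R| N^(2d-1) ≤ 2 * d (c0 H)^c0 N^(d-1) * (V + (d+1)^2 H N^(d-1)), so
N^d ≤ K1 (V + N^(d-1)) with K1 = (c1 H)^c1. If N ≥ 2 K1 then K1 N^(d-1) ≤ N^d/2, so N^d ≤ 2 K1 V. Otherwise
N^d ≤ (2 K1)^d ≤ (2 K1)^d V. Choose c.
-/

namespace H4AR

open MvPolynomial

private noncomputable def mk (a b : ℕ) : Fin 2 →₀ ℕ := Finsupp.single 0 a + Finsupp.single 1 b

private theorem mk_zero (a b : ℕ) : mk a b 0 = a := by
  unfold mk
  simp

private theorem mk_one (a b : ℕ) : mk a b 1 = b := by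
  unfold mk
  simp

private theorem mk_deg (a b : ℕ) : (mk a b).degree = a + b := by
  rw [Finsupp.degree_eq_sum, Fin.sum_univ_two, mk_zero, mk_one]

private theorem eq_mk (e : Fin 2 →₀ ℕ) : e = mk (e 0) (e 1) := by
  ext i
  fin_cases i
  · exact (mk_zero _ _).symm
  · exact (mk_one _ _).symm

private theorem hom_eval {A : Type*} [CommRing A] (φ : ℤ →+* A) (f : MvPolynomial (Fin 2) ℤ) (k : ℕ)
    (z w : A) : eval₂ φ ![z, w] (homogeneousComponent k f) =
      ∑ i ∈ Finset.range (k + 1), φ (f.coeff (mk i (k - i))) * z ^ i * w ^ (k - i) := by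
  classical
  rw [homogeneousComponent_apply, eval₂_sum]
  have h1 : ∀ e : Fin 2 →₀ ℕ, eval₂ φ ![z, w] (monomial e (coeff e f)) =
      φ (f.coeff e) * z ^ (e 0) * w ^ (e 1) := by
    intro e
    rw [eval₂_monomial, Finsupp.prod_fintype _ _ (fun i => pow_zero _), Fin.prod_univ_two, mul_assoc]
    rfl
  rw [Finset.sum_congr rfl (fun e _ => h1 e)]
  have hinj : Set.InjOn (fun i => mk i (k - i)) (Finset.range (k + 1) : Set ℕ) := by
    intro i _ j _ h
    have h2 := congrArg (fun e : Fin 2 →₀ ℕ => e 0) h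
    simpa [mk_zero] using h2
  have h2 : ∑ i ∈ Finset.range (k + 1), φ (f.coeff (mk i (k - i))) * z ^ i * w ^ (k - i) =
      ∑ e ∈ (Finset.range (k + 1)).image (fun i => mk i (k - i)),
        φ (f.coeff e) * z ^ (e 0) * w ^ (e 1) := by
    rw [Finset.sum_image hinj]
    refine Finset.sum_congr rfl fun i _ => ?_
    rw [mk_zero, mk_one]
  rw [h2]
  apply Finset.sum_subset
  · intro e he
    rw [Finset.mem_filter] at he
    have h3 : e 0 + e 1 = k := by
      rw [← he.2, Finsupp.degree_eq_sum, Fin.sum_univ_two]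
    rw [Finset.mem_image]
    refine ⟨e 0, by rw [Finset.mem_range]; omega, ?_⟩
    conv_rhs => rw [eq_mk e]
    congr 1
    omega
  · intro e he hne
    rw [Finset.mem_image] at he
    obtain ⟨i, hi, rfl⟩ := he
    rw [Finset.mem_range] at hi
    have h3 : f.coeff (mk i (k - i)) = 0 := by
      by_contra h4
      apply hne
      rw [Finset.mem_filter, mem_support_iff]
      refine ⟨h4, ?_⟩
      rw [mk_deg]
      omega
    rw [h3, map_zero, zero_mul, zero_mul]

private theorem hom_int (f : MvPolynomial (Fin 2) ℤ) (k : ℕ) (x y : ℤ) :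
    eval ![x, y] (homogeneousComponent k f) =
      ∑ i ∈ Finset.range (k + 1), f.coeff (mk i (k - i)) * x ^ i * y ^ (k - i) := by
  have h := hom_eval (RingHom.id ℤ) f k x y
  simpa using h

private theorem mono_le {x y N : ℤ} (hx : |x| ≤ N) (hy : |y| ≤ N) (i j : ℕ) :
    |x ^ i * y ^ j| ≤ N ^ (i + j) := by
  rw [abs_mul, abs_pow, abs_pow, pow_add]
  exact mul_le_mul (pow_le_pow_left₀ (abs_nonneg _) hx _) (pow_le_pow_left₀ (abs_nonneg _) hy _)
    (by positivity) (by have := (abs_nonneg x).trans hx; positivity)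

private theorem hom_le (f : MvPolynomial (Fin 2) ℤ) (H : ℕ) (hf : ∀ e, |f.coeff e| ≤ H) (k : ℕ)
    {x y N : ℤ} (hx : |x| ≤ N) (hy : |y| ≤ N) :
    |eval ![x, y] (homogeneousComponent k f)| ≤ (k + 1) * (H * N ^ k) := by
  rw [hom_int]
  refine (Finset.abs_sum_le_sum_abs _ _).trans ?_
  have h1 : ∀ i ∈ Finset.range (k + 1), |f.coeff (mk i (k - i)) * x ^ i * y ^ (k - i)| ≤ H * N ^ k := by
    intro i hi
    rw [Finset.mem_range] at hi
    rw [mul_assoc, abs_mul]
    have h2 := mono_le hx hy i (k - i)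
    have e : i + (k - i) = k := by omega
    rw [e] at h2
    exact mul_le_mul (hf _) h2 (abs_nonneg _) (by positivity)
  refine (Finset.sum_le_card_nsmul _ _ _ h1).trans ?_
  rw [Finset.card_range, nsmul_eq_mul]
  push_cast
  exact le_refl _

private theorem eval_split (f : MvPolynomial (Fin 2) ℤ) (d : ℕ) (hf : f.totalDegree ≤ d) (x y : ℤ) :
    eval ![x, y] f = ∑ k ∈ Finset.range d, eval ![x, y] (homogeneousComponent k f) +
      eval ![x, y] (homogeneousComponent d f) := by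
  rw [← Finset.sum_range_succ, ← map_sum]
  congr 1
  conv_lhs => rw [← sum_homogeneousComponent f]
  refine Finset.sum_subset ?_ ?_
  · intro k hk
    rw [Finset.mem_range] at hk ⊢
    omega
  · intro k _ hk2
    rw [Finset.mem_range] at hk2
    exact homogeneousComponent_eq_zero k f (by omega)

private theorem top_le (f : MvPolynomial (Fin 2) ℤ) (d : ℕ) (hf : f.totalDegree ≤ d) (H : ℕ)
    (hc : ∀ e, |f.coeff e| ≤ H) {x y N : ℤ} (hN : 1 ≤ N) (hx : |x| ≤ N) (hy : |y| ≤ N) :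
    |eval ![x, y] (homogeneousComponent d f)| ≤
      |eval ![x, y] f| + d * (d * (H * N ^ (d - 1))) := by
  have h1 := eval_split f d hf x y
  have h2 : |∑ k ∈ Finset.range d, eval ![x, y] (homogeneousComponent k f)| ≤
      d * (d * (H * N ^ (d - 1))) := by
    refine (Finset.abs_sum_le_sum_abs _ _).trans ?_
    have h3 : ∀ k ∈ Finset.range d, |eval ![x, y] (homogeneousComponent k f)| ≤
        d * (H * N ^ (d - 1)) := by
      intro k hk
      rw [Finset.mem_range] at hk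
      refine (hom_le f H hc k hx hy).trans ?_
      have h4 : N ^ k ≤ N ^ (d - 1) := pow_le_pow_right₀ hN (by omega)
      have h5 : ((k : ℤ) + 1) ≤ d := by exact_mod_cast hk
      exact mul_le_mul h5 (mul_le_mul_of_nonneg_left h4 (by positivity)) (by positivity)
        (by positivity)
    refine (Finset.sum_le_card_nsmul _ _ _ h3).trans ?_
    rw [Finset.card_range, nsmul_eq_mul]
  have h3 : eval ![x, y] (homogeneousComponent d f) = eval ![x, y] f -
      ∑ k ∈ Finset.range d, eval ![x, y] (homogeneousComponent k f) := by linarith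
  rw [h3]
  exact (abs_sub _ _).trans (by linarith)

private theorem form_le (d : ℕ) (A : Fin d → ℤ) (K : ℤ) (hK : 0 ≤ K) (hA : ∀ i, |A i| ≤ K) {x y N : ℤ}
    (hx : |x| ≤ N) (hy : |y| ≤ N) :
    |∑ i : Fin d, A i * x ^ (i : ℕ) * y ^ (d - 1 - i)| ≤ d * (K * N ^ (d - 1)) := by
  refine (Finset.abs_sum_le_sum_abs _ _).trans ?_
  have h1 : ∀ i ∈ (Finset.univ : Finset (Fin d)), |A i * x ^ (i : ℕ) * y ^ (d - 1 - i)| ≤
      K * N ^ (d - 1) := by
    intro i _
    rw [mul_assoc, abs_mul]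
    have h2 := mono_le hx hy (i : ℕ) (d - 1 - i)
    have e : (i : ℕ) + (d - 1 - i) = d - 1 := by
      have := i.2
      omega
    rw [e] at h2
    exact mul_le_mul (hA _) h2 (abs_nonneg _) hK
  refine (Finset.sum_le_card_nsmul _ _ _ h1).trans ?_
  rw [Finset.card_univ, Fintype.card_fin, nsmul_eq_mul]

private theorem fin_arith (d : ℕ) (hd : 1 ≤ d) (N V K1 : ℤ) (hN : 0 ≤ N) (hV : 1 ≤ V) (hK : 1 ≤ K1)
    (h : N ^ d ≤ K1 * (V + N ^ (d - 1))) : N ^ d ≤ (2 * K1) ^ d * V := by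
  have h1 : 2 * K1 ≤ (2 * K1) ^ d := by
    calc 2 * K1 = (2 * K1) ^ 1 := (pow_one _).symm
      _ ≤ _ := pow_le_pow_right₀ (by linarith) hd
  rcases le_or_gt (2 * K1) N with h2 | h2
  · have h3 : N ^ d = N * N ^ (d - 1) := by
      rw [← pow_succ']
      congr 1
      omega
    have h4 : 2 * K1 * N ^ (d - 1) ≤ N * N ^ (d - 1) :=
      mul_le_mul_of_nonneg_right h2 (by positivity)
    have h5 : N ^ d ≤ 2 * K1 * V := by
      rw [← h3] at h4
      nlinarith
    exact h5.trans (mul_le_mul_of_nonneg_right h1 (by linarith))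
  · have h3 : N ^ d ≤ (2 * K1) ^ d := pow_le_pow_left₀ hN h2.le d
    have h4 : (0 : ℤ) ≤ (2 * K1) ^ d := by positivity
    nlinarith

theorem size_res (d : ℕ) (hd : 1 ≤ d) :
    ∃ c : ℕ, 1 ≤ c ∧ ∀ (P Q : MvPolynomial (Fin 2) ℤ) (H : ℕ), 1 ≤ H → P.totalDegree ≤ d →
      Q.totalDegree ≤ d → (∀ e, |P.coeff e| ≤ H) → (∀ e, |Q.coeff e| ≤ H) →
      (∀ z w : ℂ, aeval ![z, w] (homogeneousComponent d P) = 0 →
        aeval ![z, w] (homogeneousComponent d Q) = 0 → z = 0 ∧ w = 0) →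
      ∀ x y : ℤ, (max |(x : ℝ)| |(y : ℝ)|) ^ d ≤ ((c : ℝ) * H) ^ c *
        max 1 (max |((eval ![x, y] P : ℤ) : ℝ)| |((eval ![x, y] Q : ℤ) : ℝ)|) := by
  obtain ⟨c0, hc0, hres⟩ := res_forms d hd
  refine ⟨4 * d ^ 3 + d * (c0 + 1), by
    have : 1 ≤ d ^ 3 := Nat.one_le_pow _ _ hd
    omega, ?_⟩
  intro P Q H hH hPd hQd hPc hQc hcop x y
  have hint : (max |x| |y|) ^ d ≤ (((4 * d ^ 3 + d * (c0 + 1) : ℕ) : ℤ) * H) ^
      (4 * d ^ 3 + d * (c0 + 1)) * max 1 (max |eval ![x, y] P| |eval ![x, y] Q|) := by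
    obtain ⟨N, hNd⟩ : ∃ N, N = max |x| |y| := ⟨_, rfl⟩
    obtain ⟨V, hVd⟩ : ∃ V, V = max 1 (max |eval ![x, y] P| |eval ![x, y] Q|) := ⟨_, rfl⟩
    rw [← hNd, ← hVd]
    have hx : |x| ≤ N := by
      rw [hNd]
      exact le_max_left _ _
    have hy : |y| ≤ N := by
      rw [hNd]
      exact le_max_right _ _
    have hN0 : 0 ≤ N := (abs_nonneg x).trans hx
    have hV1 : 1 ≤ V := by
      rw [hVd]
      exact le_max_left _ _
    have hPV : |eval ![x, y] P| ≤ V := by
      rw [hVd]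
      exact (le_max_left _ _).trans (le_max_right _ _)
    have hQV : |eval ![x, y] Q| ≤ V := by
      rw [hVd]
      exact (le_max_right _ _).trans (le_max_right _ _)
    rcases hN0.eq_or_lt with hz | hN1
    · rw [← hz, zero_pow (by omega)]
      positivity
    have hN1' : 1 ≤ N := hN1
    -- the forms
    have hP := hres (fun i => P.coeff (mk i (d - i))) (fun i => Q.coeff (mk i (d - i))) H hH
      (fun i => hPc _) (fun i => hQc _) (by
        intro z w h1 h2
        apply hcop z w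
        · rw [aeval_def, hom_eval, Finset.sum_range]
          exact h1
        · rw [aeval_def, hom_eval, Finset.sum_range]
          exact h2)
    obtain ⟨R, A, B, A', B', hR, hA, hB, hA', hB', hid⟩ := hP
    obtain ⟨h1, h2⟩ := hid x y
    have e1 : ∑ i : Fin (d + 1), P.coeff (mk i (d - i)) * x ^ (i : ℕ) * y ^ (d - (i : ℕ)) =
        eval ![x, y] (homogeneousComponent d P) := by
      rw [hom_int, Finset.sum_range]
    have e2 : ∑ i : Fin (d + 1), Q.coeff (mk i (d - i)) * x ^ (i : ℕ) * y ^ (d - (i : ℕ)) =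
        eval ![x, y] (homogeneousComponent d Q) := by
      rw [hom_int, Finset.sum_range]
    rw [e1, e2] at h1 h2
    have hp := top_le P d hPd H hPc hN1' hx hy
    have hq := top_le Q d hQd H hQc hN1' hx hy
    have hK0 : (0 : ℤ) ≤ ((c0 : ℤ) * H) ^ c0 := by positivity
    have hW0 : 0 ≤ V + d * (d * (H * N ^ (d - 1))) := by positivity
    have key : ∀ (t : ℤ) (A B : Fin d → ℤ), (∀ i, |A i| ≤ ((c0 : ℤ) * H) ^ c0) →
        (∀ i, |B i| ≤ ((c0 : ℤ) * H) ^ c0) →
        R * t ^ (2 * d - 1) = (∑ i : Fin d, A i * x ^ (i : ℕ) * y ^ (d - 1 - i)) *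
          eval ![x, y] (homogeneousComponent d P) +
          (∑ i : Fin d, B i * x ^ (i : ℕ) * y ^ (d - 1 - i)) *
          eval ![x, y] (homogeneousComponent d Q) →
        |t| ^ (2 * d - 1) ≤ 2 * (d * (((c0 : ℤ) * H) ^ c0 * N ^ (d - 1)) *
          (V + d * (d * (H * N ^ (d - 1))))) := by
      intro t A B hA hB h
      have a1 := form_le d A _ hK0 hA hx hy
      have a2 := form_le d B _ hK0 hB hx hy
      have a3 : |t| ^ (2 * d - 1) ≤ |R * t ^ (2 * d - 1)| := by
        rw [abs_mul, abs_pow]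
        have : 1 ≤ |R| := Int.one_le_abs hR
        nlinarith [pow_nonneg (abs_nonneg t) (2 * d - 1)]
      rw [h] at a3
      refine a3.trans ((abs_add_le _ _).trans ?_)
      rw [abs_mul, abs_mul]
      have a4 := mul_le_mul a1 (hp.trans (by linarith : _ ≤ V + d * (d * (H * N ^ (d - 1)))))
        (abs_nonneg _) (by positivity)
      have a5 := mul_le_mul a2 (hq.trans (by linarith : _ ≤ V + d * (d * (H * N ^ (d - 1)))))
        (abs_nonneg _) (by positivity)
      linarith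
    have k1 := key x A B hA hB h1
    have k2 := key y A' B' hA' hB' h2
    have k3 : N ^ (2 * d - 1) ≤ 2 * (d * (((c0 : ℤ) * H) ^ c0 * N ^ (d - 1)) *
        (V + d * (d * (H * N ^ (d - 1))))) := by
      rcases max_choice |x| |y| with h | h
      · rw [← hNd] at h
        rw [← h] at k1
        exact k1
      · rw [← hNd] at h
        rw [← h] at k2
        exact k2
    have k4 : N ^ d ≤ 2 * (d * ((c0 : ℤ) * H) ^ c0) * (V + d * (d * (H * N ^ (d - 1)))) := by
      have e3 : N ^ (2 * d - 1) = N ^ (d - 1) * N ^ d := by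
        rw [← pow_add]
        congr 1
        omega
      rw [e3] at k3
      have k5 : N ^ (d - 1) * N ^ d ≤ N ^ (d - 1) *
          (2 * (d * ((c0 : ℤ) * H) ^ c0) * (V + d * (d * (H * N ^ (d - 1))))) := by
        refine k3.trans (le_of_eq ?_)
        ring
      exact le_of_mul_le_mul_left k5 (by positivity)
    obtain ⟨K1, hK1⟩ : ∃ K1 : ℤ, K1 = 2 * (d : ℤ) ^ 3 * H * ((c0 : ℤ) * H) ^ c0 := ⟨_, rfl⟩
    have hd' : (1 : ℤ) ≤ d := by exact_mod_cast hd
    have hH' : (1 : ℤ) ≤ H := by exact_mod_cast hH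
    have hc0' : (1 : ℤ) ≤ c0 := by exact_mod_cast hc0
    have hcH : (1 : ℤ) ≤ (c0 : ℤ) * H := by nlinarith
    have hK0' : (1 : ℤ) ≤ ((c0 : ℤ) * H) ^ c0 := one_le_pow₀ hcH
    have hd3 : (d : ℤ) ≤ (d : ℤ) ^ 3 := by
      calc (d : ℤ) = (d : ℤ) ^ 1 := (pow_one _).symm
        _ ≤ _ := pow_le_pow_right₀ hd' (by norm_num)
    have hd3H : (d : ℤ) ≤ (d : ℤ) ^ 3 * H := by nlinarith
    have hK11 : 1 ≤ K1 := by
      rw [hK1]
      have : (1 : ℤ) ≤ (d : ℤ) ^ 3 * H := by linarith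
      nlinarith
    have k6 : N ^ d ≤ K1 * (V + N ^ (d - 1)) := by
      refine k4.trans ?_
      have e4 : 2 * (d * ((c0 : ℤ) * H) ^ c0) * (V + d * (d * (H * N ^ (d - 1)))) =
          2 * ((d : ℤ) * ((c0 : ℤ) * H) ^ c0) * V + K1 * N ^ (d - 1) := by
        rw [hK1]
        ring
      rw [e4, mul_add]
      have e5 : 2 * ((d : ℤ) * ((c0 : ℤ) * H) ^ c0) ≤ K1 := by
        rw [hK1]
        have := mul_le_mul_of_nonneg_right hd3H hK0
        linarith
      have := mul_le_mul_of_nonneg_right e5 (by linarith : (0 : ℤ) ≤ V)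
      linarith
    have k7 := fin_arith d hd N V K1 hN0 hV1 hK11 k6
    refine k7.trans (mul_le_mul_of_nonneg_right ?_ (by linarith))
    -- the constants
    obtain ⟨c, hc⟩ : ∃ c : ℕ, c = 4 * d ^ 3 + d * (c0 + 1) := ⟨_, rfl⟩
    rw [← hc]
    have hcz : (c : ℤ) = 4 * (d : ℤ) ^ 3 + d * (c0 + 1) := by
      rw [hc]
      push_cast
      ring
    have g1 : 4 * (d : ℤ) ^ 3 * H ≤ (c : ℤ) * H := by
      apply mul_le_mul_of_nonneg_right _ (by linarith)
      rw [hcz]
      have : (0 : ℤ) ≤ (d : ℤ) * (c0 + 1) := by positivity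
      linarith
    have g2 : (c0 : ℤ) * H ≤ (c : ℤ) * H := by
      apply mul_le_mul_of_nonneg_right _ (by linarith)
      rw [hcz]
      nlinarith [pow_nonneg (by linarith : (0 : ℤ) ≤ d) 3]
    have g3 : (1 : ℤ) ≤ (c : ℤ) * H := hcH.trans g2
    have g4 : 2 * K1 ≤ ((c : ℤ) * H) ^ (c0 + 1) := by
      have e6 : 2 * K1 = (4 * (d : ℤ) ^ 3 * H) * ((c0 : ℤ) * H) ^ c0 := by
        rw [hK1]
        ring
      rw [e6, pow_succ' ((c : ℤ) * H) c0]
      exact mul_le_mul g1 (pow_le_pow_left₀ (by linarith) g2 _) hK0 (by linarith)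
    calc (2 * K1) ^ d ≤ (((c : ℤ) * H) ^ (c0 + 1)) ^ d := pow_le_pow_left₀ (by linarith) g4 d
      _ = ((c : ℤ) * H) ^ ((c0 + 1) * d) := (pow_mul _ _ _).symm
      _ ≤ ((c : ℤ) * H) ^ c := pow_le_pow_right₀ g3 (by
        rw [hc, mul_comm]
        omega)
  exact_mod_cast hint

end H4AR
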