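import Pool.Agent.H4.AR.L1

/-!
H4/AR/L1Det: norm and degrees of a determinant of integer polynomials.

PROOFS. `Matrix.det_apply'`: the determinant is a sum over the s! permutations of sign times a product of s entries;
l1_sum_le, l1_mul_le, l1_prod_le, l1 of the sign is 1 (the sign is the integer ±1 as a polynomial), `Fintype.card_perm`.
Degrees: `MvPolynomial.degreeOf_sum_le`, `degreeOf_mul_le`, `degreeOf_prod_le`.
-/

namespace H4AR

open MvPolynomial

private theorem l1_sign {m s : ℕ} (sg : Equiv.Perm (Fin s)) :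
    l1 (((Equiv.Perm.sign sg : ℤˣ) : ℤ) : MvPolynomial (Fin m) ℤ) = 1 := by
  rcases Int.units_eq_one_or (Equiv.Perm.sign sg) with h | h
  · rw [h, Units.val_one, Int.cast_one, l1_one]
  · rw [h, Units.val_neg, Units.val_one, Int.cast_neg, Int.cast_one, l1_neg, l1_one]

theorem l1_det_le {m s : ℕ} (M : Matrix (Fin s) (Fin s) (MvPolynomial (Fin m) ℤ)) (B : ℝ) (hB : 0 ≤ B)
    (h : ∀ i j, l1 (M i j) ≤ B) : l1 M.det ≤ (s.factorial : ℝ) * B ^ s := by
  rw [Matrix.det_apply']
  refine (l1_sum_le _ _).trans ?_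
  calc ∑ sg : Equiv.Perm (Fin s), l1 ((((Equiv.Perm.sign sg : ℤˣ) : ℤ) : MvPolynomial (Fin m) ℤ) *
        ∏ i, M (sg i) i)
      ≤ ∑ sg : Equiv.Perm (Fin s), B ^ s := by
        refine Finset.sum_le_sum fun sg _ => ?_
        refine (l1_mul_le _ _).trans ?_
        rw [l1_sign, one_mul]
        refine (l1_prod_le _ _).trans ?_
        calc ∏ i, l1 (M (sg i) i) ≤ ∏ i : Fin s, B :=
              Finset.prod_le_prod (fun i _ => l1_nonneg _) fun i _ => h _ _
          _ = B ^ s := by rw [Finset.prod_const, Finset.card_univ, Fintype.card_fin]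
    _ = (s.factorial : ℝ) * B ^ s := by
        rw [Finset.sum_const, Finset.card_univ, Fintype.card_perm, Fintype.card_fin, nsmul_eq_mul]

theorem degreeOf_det_le {m s : ℕ} (M : Matrix (Fin s) (Fin s) (MvPolynomial (Fin m) ℤ)) (j : Fin m) (D : ℕ)
    (h : ∀ a b, (M a b).degreeOf j ≤ D) : M.det.degreeOf j ≤ s * D := by
  rw [Matrix.det_apply']
  refine (MvPolynomial.degreeOf_sum_le j _ _).trans ?_
  refine Finset.sup_le fun sg _ => ?_
  refine (MvPolynomial.degreeOf_mul_le j _ _).trans ?_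
  have h1 : (((Equiv.Perm.sign sg : ℤˣ) : ℤ) : MvPolynomial (Fin m) ℤ).degreeOf j = 0 := by
    have : (((Equiv.Perm.sign sg : ℤˣ) : ℤ) : MvPolynomial (Fin m) ℤ) =
        C ((Equiv.Perm.sign sg : ℤˣ) : ℤ) := by simp
    rw [this, MvPolynomial.degreeOf_C]
  rw [h1, zero_add]
  refine (MvPolynomial.degreeOf_prod_le j _ _).trans ?_
  calc ∑ i, (M (sg i) i).degreeOf j ≤ ∑ i : Fin s, D := Finset.sum_le_sum fun i _ => h _ _
    _ = s * D := by rw [Finset.sum_const, Finset.card_univ, Fintype.card_fin, smul_eq_mul]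

end H4AR
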