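import Pool.Agent.H4.AR.LogH

/-!
H4/AR/Close: distance of an exceptional approximation to (th a/b)^(1/n).

PROOF. al = (th a/b)^(1/n) > 0, al^n = th a/b ≥ T^(-2) (th ≥ 1/T, a ≥ 1, b ≤ T) and ≤ T^2, so al ≤ T^2.
|r^n - al^n| = |b r^n - th a|/b ≤ ht(r)^(-kap). |r^n - al^n| = |r - al| sum_i r^i al^(n-1-i) ≥ |r - al| al^(n-1) and
al^(n-1) ≥ T^(-2) (al ≥ 1: ≥ 1; al < 1: al^(n-1) ≥ al^n). So |r - al| ≤ T^2 ht(r)^(-kap)
= exp(2 log T - kap log ht(r)).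
-/

namespace H4AR

theorem close (n b a T : ℕ) (hn : 1 ≤ n) (hT : 2 ≤ T) (hb : 1 ≤ b) (hbT : b ≤ T) (ha : 1 ≤ a) (haT : a ≤ T)
    (th kap B : ℝ) (hth1 : 1 / (T : ℝ) ≤ th) (hth2 : th ≤ T) (r : ℚ) (h : Exc n b a th kap B r) :
    |(r : ℝ) - (th * (a : ℝ) / b) ^ ((1 : ℝ) / n)| ≤
      Real.exp (-(kap * Real.log (ht r) - 2 * Real.log T)) ∧
    0 ≤ (th * (a : ℝ) / b) ^ ((1 : ℝ) / n) ∧ (th * (a : ℝ) / b) ^ ((1 : ℝ) / n) ≤ (T : ℝ) ^ 2 := by
  obtain ⟨hr0, -, habs⟩ := h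
  have hTr : (2 : ℝ) ≤ T := by exact_mod_cast hT
  have hT0 : (0 : ℝ) < T := by linarith
  have hb1 : (1 : ℝ) ≤ b := by exact_mod_cast hb
  have hb0 : (0 : ℝ) < b := by linarith
  have hbT' : (b : ℝ) ≤ T := by exact_mod_cast hbT
  have ha1 : (1 : ℝ) ≤ a := by exact_mod_cast ha
  have haT' : (a : ℝ) ≤ T := by exact_mod_cast haT
  have hth0 : 0 < th := lt_of_lt_of_le (by positivity) hth1
  have hn0 : (n : ℝ) ≠ 0 := by
    have : n ≠ 0 := by omega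
    exact_mod_cast this
  have hr0' : (0 : ℝ) < (r : ℝ) := by exact_mod_cast hr0
  have hht : 1 ≤ ht r := one_le_ht r
  set x := th * (a : ℝ) / b with hx
  have hx0 : 0 < x := by rw [hx]; positivity
  have hxlow : 1 / (T : ℝ) ^ 2 ≤ x := by
    rw [hx, div_le_div_iff₀ (by positivity) hb0]
    have h1 : 1 ≤ th * T := by
      rw [div_le_iff₀ hT0] at hth1
      linarith
    have h2 : 1 ≤ th * a * T := by nlinarith
    nlinarith
  have hxup : x ≤ (T : ℝ) ^ 2 := by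
    rw [hx, div_le_iff₀ hb0]
    have h1 : th * a ≤ T * T := mul_le_mul hth2 haT' (by linarith) hT0.le
    nlinarith
  set al := x ^ ((1 : ℝ) / n) with hal
  have hal0 : 0 < al := Real.rpow_pos_of_pos hx0 _
  have haln : al ^ n = x := by
    rw [hal, ← Real.rpow_natCast, ← Real.rpow_mul hx0.le]
    rw [one_div, inv_mul_cancel₀ hn0, Real.rpow_one]
  have hT21 : (1 : ℝ) ≤ (T : ℝ) ^ 2 := by nlinarith
  have halup : al ≤ (T : ℝ) ^ 2 := by
    by_contra hcon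
    rw [not_le] at hcon
    have h1 : 1 ≤ al := by linarith
    have h2 : al ≤ al ^ n := le_self_pow₀ h1 (by omega)
    linarith
  have hlow : 1 / (T : ℝ) ^ 2 ≤ al ^ (n - 1) := by
    rcases le_total 1 al with h1 | h1
    · have h2 : 1 ≤ al ^ (n - 1) := one_le_pow₀ h1
      have h3 : 1 / (T : ℝ) ^ 2 ≤ 1 := by rw [div_le_one (by positivity)]; exact hT21
      linarith
    · have h2 : al ^ n ≤ al ^ (n - 1) := pow_le_pow_of_le_one hal0.le h1 (by omega)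
      linarith
  refine ⟨?_, hal0.le, halup⟩
  have hgeom : (∑ i ∈ Finset.range n, (r : ℝ) ^ i * al ^ (n - 1 - i)) * ((r : ℝ) - al) = (r : ℝ) ^ n - al ^ n :=
    (Commute.all (r : ℝ) al).geom_sum₂_mul n
  have hsum : al ^ (n - 1) ≤ ∑ i ∈ Finset.range n, (r : ℝ) ^ i * al ^ (n - 1 - i) := by
    have h1 := Finset.single_le_sum (f := fun i => (r : ℝ) ^ i * al ^ (n - 1 - i))
      (fun i _ => by positivity) (Finset.mem_range.2 (by omega : 0 < n))
    simpa using h1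
  have hdiff : |(r : ℝ) ^ n - al ^ n| ≤ (ht r) ^ (-kap) := by
    have h1 : (b : ℝ) * (r : ℝ) ^ n - th * a = b * ((r : ℝ) ^ n - al ^ n) := by
      rw [haln, hx]
      field_simp
    rw [h1, abs_mul, abs_of_pos hb0] at habs
    have h2 : |(r : ℝ) ^ n - al ^ n| ≤ b * |(r : ℝ) ^ n - al ^ n| :=
      le_mul_of_one_le_left (abs_nonneg _) hb1
    exact h2.trans habs
  have hkey : 1 / (T : ℝ) ^ 2 * |(r : ℝ) - al| ≤ (ht r) ^ (-kap) := by
    refine le_trans ?_ hdiff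
    rw [← hgeom, abs_mul]
    apply mul_le_mul_of_nonneg_right _ (abs_nonneg _)
    rw [abs_of_nonneg (le_trans (by positivity) hsum)]
    exact hlow.trans hsum
  have h3 : |(r : ℝ) - al| ≤ (T : ℝ) ^ 2 * (ht r) ^ (-kap) := by
    have h4 := mul_le_mul_of_nonneg_left hkey (by positivity : (0 : ℝ) ≤ (T : ℝ) ^ 2)
    have h5 : (T : ℝ) ^ 2 * (1 / (T : ℝ) ^ 2 * |(r : ℝ) - al|) = |(r : ℝ) - al| := by field_simp
    rwa [h5] at h4
  refine h3.trans (le_of_eq ?_)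
  have h4 : (T : ℝ) ^ 2 = Real.exp (2 * Real.log T) := by
    rw [two_mul, Real.exp_add, Real.exp_log hT0, sq]
  rw [h4, Real.rpow_def_of_pos (by linarith), ← Real.exp_add]
  congr 1
  ring

end H4AR
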