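import Pool.Agent.H4.AR.Def

/-!
H4/AR/Hs: elementary properties of the Hasse derivative `hs i f`.

`hs i f = sum over e in the support of f of (mch e i * coeff_e f) X^(e - i)` (truncated subtraction; the
product of binomials `mch e i` is 0 unless i ≤ e componentwise).

PROOFS. coeff_hs: coefficient at e of the sum; for e' in the support with e' - i = e and mch e' i ≠ 0 one has
i ≤ e', so e' = e + i; if e + i is not in the support the right side is 0, too. All the other statements follow by
comparing coefficients with `coeff_hs` (`MvPolynomial.ext`). degreeOf_hs_le: if e is in the support of hs i f then e+i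
is in the support of f (`MvPolynomial.degreeOf_le_iff` or `degreeOf_eq_sup`). mch_le: binomials ≤ 2^(e j).
-/

namespace H4AR

open MvPolynomial

variable {m : ℕ} {R : Type} [CommRing R]

theorem mch_eq_zero {e i : Fin m →₀ ℕ} (h : ¬ i ≤ e) : mch e i = 0 := by
  rw [Finsupp.le_def] at h
  push Not at h
  obtain ⟨j, hj⟩ := h
  unfold mch
  exact Finset.prod_eq_zero (Finset.mem_univ j) (Nat.choose_eq_zero_of_lt hj)

theorem mch_self (e : Fin m →₀ ℕ) : mch e e = 1 := by
  unfold mch
  exact Finset.prod_eq_one fun j _ => Nat.choose_self _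

theorem mch_le (e i : Fin m →₀ ℕ) : mch e i ≤ 2 ^ (∑ j, e j) := by
  unfold mch
  rw [← Finset.prod_pow_eq_pow_sum]
  refine Finset.prod_le_prod (fun j _ => Nat.zero_le _) fun j _ => ?_
  exact Nat.choose_le_two_pow _ _

theorem coeff_hs (i e : Fin m →₀ ℕ) (f : MvPolynomial (Fin m) R) :
    (hs i f).coeff e = (mch (e + i) i : R) * f.coeff (e + i) := by
  classical
  unfold hs
  rw [coeff_sum]
  simp only [coeff_monomial]
  rw [Finset.sum_eq_single (e + i)]
  · rw [if_pos (add_tsub_cancel_right e i)]
  · intro e' _ hne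
    split_ifs with h
    · by_cases hi : i ≤ e'
      · exfalso
        apply hne
        rw [← h, tsub_add_cancel_of_le hi]
      · rw [mch_eq_zero hi, Nat.cast_zero, zero_mul]
    · rfl
  · intro h
    rw [notMem_support_iff] at h
    rw [h, mul_zero, ite_self]

theorem hs_zero_right (i : Fin m →₀ ℕ) : hs i (0 : MvPolynomial (Fin m) R) = 0 := by
  ext e
  rw [coeff_hs, coeff_zero, coeff_zero, mul_zero]

theorem hs_add (i : Fin m →₀ ℕ) (f g : MvPolynomial (Fin m) R) : hs i (f + g) = hs i f + hs i g := by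
  ext e
  rw [coeff_hs, coeff_add, coeff_add, coeff_hs, coeff_hs, mul_add]

theorem hs_sum (i : Fin m →₀ ℕ) {ι : Type} (s : Finset ι) (F : ι → MvPolynomial (Fin m) R) :
    hs i (∑ x ∈ s, F x) = ∑ x ∈ s, hs i (F x) := by
  ext e
  rw [coeff_hs, coeff_sum, coeff_sum, Finset.mul_sum]
  exact Finset.sum_congr rfl fun x _ => (coeff_hs i e (F x)).symm

theorem hs_C_mul (i : Fin m →₀ ℕ) (a : R) (f : MvPolynomial (Fin m) R) :
    hs i (C a * f) = C a * hs i f := by
  ext e
  rw [coeff_hs, coeff_C_mul, coeff_C_mul, coeff_hs]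
  ring

theorem hs_smul (i : Fin m →₀ ℕ) (a : R) (f : MvPolynomial (Fin m) R) :
    hs i (a • f) = a • hs i f := by
  rw [smul_eq_C_mul, smul_eq_C_mul, hs_C_mul]

theorem hs_map {S : Type} [CommRing S] (phi : R →+* S) (i : Fin m →₀ ℕ) (f : MvPolynomial (Fin m) R) :
    hs i (MvPolynomial.map phi f) = MvPolynomial.map phi (hs i f) := by
  ext e
  rw [coeff_hs, coeff_map, coeff_map, coeff_hs, map_mul, map_natCast]

theorem degreeOf_hs_le (i : Fin m →₀ ℕ) (f : MvPolynomial (Fin m) R) (j : Fin m) :
    (hs i f).degreeOf j ≤ f.degreeOf j := by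
  rw [degreeOf_le_iff]
  intro e he
  rw [mem_support_iff, coeff_hs] at he
  have h1 : e + i ∈ f.support := by
    rw [mem_support_iff]
    intro h0
    exact he (by rw [h0, mul_zero])
  have h2 := monomial_le_degreeOf j h1
  rw [Finsupp.add_apply] at h2
  omega

theorem hs_zero_left (f : MvPolynomial (Fin m) R) : hs 0 f = f := by
  ext e
  rw [coeff_hs, add_zero]
  have h1 : mch e 0 = 1 := by
    unfold mch
    exact Finset.prod_eq_one fun j _ => by rw [Finsupp.coe_zero, Pi.zero_apply, Nat.choose_zero_right]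
  rw [h1, Nat.cast_one, one_mul]

end H4AR
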