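import Pool.Agent.H4.AR.ClsDef
import Pool.Agent.H4.AR.Hs

/-!
H4/AR/ClassB: bound for the coefficients of the linear conditions.

PROOF. S = sum e_j ≤ Dg, q0 = S/n ≤ S ≤ Dg, Q ≤ Dg. |mch e i| ≤ 2^S ≤ 2^Dg ≤ T^Dg (mch_le). b0^q0 * |b c|^(Q-q0) * |w q0 io|
≤ T^q0 * (T*T)^(Q-q0) * T^q0 ≤ T^(2 Q) ≤ T^(2 Dg) if q0 ≤ Q (if q0 > Q then Q - q0 = 0 and the bound is T^(2 q0) ≤ T^(2 Dg)).
prod_{l,s} (mu l s)^(sumc/n) ≤ prod T^(sumc) = T^(sum over l, s of sumc v e l s) = T^(k S) ≤ T^(k Dg)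
(sum over s of sumc v e l s = S). Total T^((k+3) Dg).
-/

namespace H4AR

theorem abs_cf_le {m k D : ℕ} (n b b0 Q T Dg : ℕ) (hn : 1 ≤ n) (hT : 2 ≤ T) (hb : b ≤ T) (hb0 : b0 ≤ T)
    (c : ℤ) (hc : |c| ≤ T) (w : ℕ → Fin D → ℤ) (hw : ∀ q i, |w q i| ≤ (T : ℤ) ^ q)
    (mu : Fin k → Bool → ℕ) (hmu : ∀ l s, 1 ≤ mu l s ∧ mu l s ≤ T) (v : Fin m → Fin k → Bool)
    (i e : Fin m →₀ ℕ) (io : Fin D) (he : ∑ j, e j ≤ Dg) (hQ : Q ≤ Dg) :
    |cf n b b0 Q c w mu v i e io| ≤ (T : ℤ) ^ ((k + 3) * Dg) := by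
  have hT1 : (1 : ℤ) ≤ T := by exact_mod_cast (by omega : 1 ≤ T)
  have hT0 : (0 : ℤ) ≤ T := by omega
  set S := ∑ j, e j with hS
  set q := S / n with hq
  have hqS : q ≤ S := Nat.div_le_self S n
  have h1 : |(mch e i : ℤ)| ≤ (T : ℤ) ^ Dg := by
    have h2 : mch e i ≤ 2 ^ S := mch_le e i
    have h3 : (2 : ℕ) ^ S ≤ T ^ Dg :=
      (Nat.pow_le_pow_left hT S).trans (Nat.pow_le_pow_right (by omega) he)
    rw [Nat.abs_cast]
    exact_mod_cast h2.trans h3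
  have h2 : |((b0 : ℤ)) ^ q| ≤ (T : ℤ) ^ q := by
    rw [abs_pow, Nat.abs_cast]
    exact pow_le_pow_left₀ (by positivity) (by exact_mod_cast hb0) q
  have h3 : |(((b : ℤ)) * c) ^ (Q - q)| ≤ (T : ℤ) ^ (2 * (Q - q)) := by
    rw [abs_pow, abs_mul, Nat.abs_cast, pow_mul]
    apply pow_le_pow_left₀ (by positivity)
    rw [sq]
    exact mul_le_mul (by exact_mod_cast hb) hc (abs_nonneg _) hT0
  have h4 : |w q io| ≤ (T : ℤ) ^ q := hw q io
  have h5 : |∏ l, ∏ s, (mu l s : ℤ) ^ (sumc v e l s / n)| ≤ (T : ℤ) ^ (k * Dg) := by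
    rw [Finset.abs_prod]
    have h6 : ∀ l ∈ (Finset.univ : Finset (Fin k)), |∏ s, (mu l s : ℤ) ^ (sumc v e l s / n)| ≤ (T : ℤ) ^ Dg := by
      intro l _
      rw [Finset.abs_prod, Fintype.prod_bool]
      have h7 : ∀ s, |(mu l s : ℤ) ^ (sumc v e l s / n)| ≤ (T : ℤ) ^ (sumc v e l s) := by
        intro s
        rw [abs_pow, Nat.abs_cast]
        have h9 : (mu l s : ℤ) ≤ T := by exact_mod_cast (hmu l s).2
        refine (pow_le_pow_left₀ (by positivity) h9 _).trans ?_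
        exact pow_le_pow_right₀ hT1 (Nat.div_le_self _ _)
      have h8 : sumc v e l true + sumc v e l false = S := by
        unfold sumc
        rw [← Finset.sum_add_distrib, hS]
        apply Finset.sum_congr rfl
        intro j _
        cases v j l <;> simp
      calc |(mu l true : ℤ) ^ (sumc v e l true / n)| * |(mu l false : ℤ) ^ (sumc v e l false / n)|
          ≤ (T : ℤ) ^ (sumc v e l true) * (T : ℤ) ^ (sumc v e l false) :=
            mul_le_mul (h7 true) (h7 false) (abs_nonneg _) (by positivity)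
        _ = (T : ℤ) ^ S := by rw [← pow_add, h8]
        _ ≤ (T : ℤ) ^ Dg := pow_le_pow_right₀ hT1 he
    calc ∏ l, |∏ s, (mu l s : ℤ) ^ (sumc v e l s / n)| ≤ ∏ _l : Fin k, (T : ℤ) ^ Dg :=
          Finset.prod_le_prod (fun _ _ => abs_nonneg _) h6
      _ = (T : ℤ) ^ (k * Dg) := by
          rw [Finset.prod_const, Finset.card_univ, Fintype.card_fin, ← pow_mul, mul_comm]
  unfold cf
  rw [abs_mul, abs_mul, abs_mul, abs_mul, ← hS, ← hq]
  calc |(mch e i : ℤ)| * |((b0 : ℤ)) ^ q| * |(((b : ℤ)) * c) ^ (Q - q)| * |w q io| *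
        |∏ l, ∏ s, (mu l s : ℤ) ^ (sumc v e l s / n)|
      ≤ (T : ℤ) ^ Dg * (T : ℤ) ^ q * (T : ℤ) ^ (2 * (Q - q)) * (T : ℤ) ^ q * (T : ℤ) ^ (k * Dg) := by
        gcongr
    _ = (T : ℤ) ^ (Dg + q + 2 * (Q - q) + q + k * Dg) := by
        rw [← pow_add, ← pow_add, ← pow_add, ← pow_add]
    _ ≤ (T : ℤ) ^ ((k + 3) * Dg) := by
        apply pow_le_pow_right₀ hT1
        have h6 : (k + 3) * Dg = k * Dg + 3 * Dg := by ring
        rw [h6]
        omega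

end H4AR
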