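import Mathlib

/-!
H4/AR/Count: number of multi-indices of small weight.

PROOF. For an index e with sum e_j/d_j < m/4: 1 ≤ exp(m - 4 sum e_j/d_j) = prod_j exp(1 - 4 e_j/d_j). So the number is at most
prod_j sum_{i=0}^{d_j} exp(1 - 4 i/d_j) (`Finset.prod_univ_sum`, sum over the whole box of a product). With
x = exp(-4/d), d = d_j ≥ 100: exp(4/d) ≥ 1 + 4/d gives x ≤ d/(d+4), 1 - x ≥ 4/(d+4), sum_{i ≤ d} x^i ≤ 1/(1-x) ≤ (d+4)/4.
So each factor is ≤ e (d+4)/4 ≤ (7/10)(d+1), because e < 2.7182818286 (`Real.exp_one_lt_d9`) and (d+4)/(d+1) ≤ 104/101: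
2.7182818286/4 * 104/101 < 0.6998.
-/

namespace H4AR

private theorem cnt_factor (d : ℕ) (hd : 100 ≤ d) :
    ∑ i ∈ Finset.range (d + 1), Real.exp (1 - 4 * ((i : ℝ) / (d : ℝ))) ≤
      (7 / 10 : ℝ) * ((d : ℝ) + 1) := by
  have hdR : (100 : ℝ) ≤ d := by exact_mod_cast hd
  have hd0 : (0 : ℝ) < d := by linarith
  obtain ⟨x, hx⟩ : ∃ x, x = Real.exp (-(4 / (d : ℝ))) := ⟨_, rfl⟩
  have h1 : ∑ i ∈ Finset.range (d + 1), Real.exp (1 - 4 * ((i : ℝ) / (d : ℝ))) =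
      Real.exp 1 * ∑ i ∈ Finset.range (d + 1), x ^ i := by
    rw [Finset.mul_sum]
    refine Finset.sum_congr rfl fun i _ => ?_
    rw [hx, ← Real.exp_nat_mul, ← Real.exp_add]
    congr 1
    ring
  have hx0 : 0 < x := by rw [hx]; exact Real.exp_pos _
  have hx1 : x ≤ (d : ℝ) / (d + 4) := by
    rw [hx, Real.exp_neg]
    have h2 : 4 / (d : ℝ) + 1 ≤ Real.exp (4 / (d : ℝ)) := Real.add_one_le_exp _
    have h3 : (0 : ℝ) < 4 / (d : ℝ) + 1 := by positivity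
    have h4 : (Real.exp (4 / (d : ℝ)))⁻¹ ≤ (4 / (d : ℝ) + 1)⁻¹ := inv_anti₀ h3 h2
    refine h4.trans (le_of_eq ?_)
    field_simp
    ring
  have h5 := geom_sum_mul_neg x (d + 1)
  obtain ⟨S, hS⟩ : ∃ S, S = ∑ i ∈ Finset.range (d + 1), x ^ i := ⟨_, rfl⟩
  rw [← hS] at h5 h1
  have hS0 : 0 ≤ S := by rw [hS]; positivity
  have h6 : 4 / ((d : ℝ) + 4) ≤ 1 - x := by
    have h7 : 4 / ((d : ℝ) + 4) = 1 - (d : ℝ) / (d + 4) := by
      field_simp
      ring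
    linarith
  have h7 : S * (4 / ((d : ℝ) + 4)) ≤ 1 := by
    have h8 : S * (4 / ((d : ℝ) + 4)) ≤ S * (1 - x) := mul_le_mul_of_nonneg_left h6 hS0
    have h9 : 0 < x ^ (d + 1) := by positivity
    linarith
  have h8 : S ≤ ((d : ℝ) + 4) / 4 := by
    rw [mul_div_assoc'] at h7
    rw [div_le_iff₀ (by positivity)] at h7
    linarith
  have h9 := Real.exp_one_lt_d9
  rw [h1]
  have h10 : Real.exp 1 * S ≤ 2.7182818286 * (((d : ℝ) + 4) / 4) := by
    gcongr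
  linarith

theorem count_idx (m : ℕ) (d : Fin m → ℕ) (hd : ∀ j, 100 ≤ d j) :
    (((Fintype.piFinset fun j => Finset.range (d j + 1)).filter
      (fun e : Fin m → ℕ => ∑ j, (e j : ℝ) / (d j : ℝ) < m / 4)).card : ℝ) ≤
      (7 / 10 : ℝ) ^ m * ∏ j, ((d j : ℝ) + 1) := by
  classical
  obtain ⟨P, hP⟩ : ∃ P : Finset (Fin m → ℕ), P = Fintype.piFinset fun j => Finset.range (d j + 1) :=
    ⟨_, rfl⟩
  rw [← hP, Finset.card_eq_sum_ones]
  push_cast
  calc ∑ _e ∈ P.filter (fun e : Fin m → ℕ => ∑ j, (e j : ℝ) / (d j : ℝ) < m / 4), (1 : ℝ)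
      ≤ ∑ e ∈ P.filter (fun e : Fin m → ℕ => ∑ j, (e j : ℝ) / (d j : ℝ) < m / 4),
          ∏ j, Real.exp (1 - 4 * ((e j : ℝ) / (d j : ℝ))) := by
        refine Finset.sum_le_sum fun e he => ?_
        have h1 := (Finset.mem_filter.1 he).2
        rw [← Real.exp_sum, Finset.sum_sub_distrib, ← Finset.mul_sum, Finset.sum_const,
          Finset.card_univ, Fintype.card_fin, nsmul_eq_mul, mul_one]
        refine Real.one_le_exp ?_
        linarith
    _ ≤ ∑ e ∈ P, ∏ j, Real.exp (1 - 4 * ((e j : ℝ) / (d j : ℝ))) := by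
        refine Finset.sum_le_sum_of_subset_of_nonneg (Finset.filter_subset _ _) fun e _ _ => ?_
        positivity
    _ = ∏ j, ∑ i ∈ Finset.range (d j + 1), Real.exp (1 - 4 * ((i : ℝ) / (d j : ℝ))) := by
        rw [hP, Finset.prod_univ_sum]
    _ ≤ ∏ j, (7 / 10 : ℝ) * ((d j : ℝ) + 1) := by
        refine Finset.prod_le_prod (fun j _ => ?_) fun j _ => cnt_factor (d j) (hd j)
        positivity
    _ = (7 / 10 : ℝ) ^ m * ∏ j, ((d j : ℝ) + 1) := by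
        rw [Finset.prod_mul_distrib, Finset.prod_const, Finset.card_univ, Fintype.card_fin]

end H4AR
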