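import Pool.Agent.H4.AR.ClassV
import Pool.Agent.H4.AR.ClassB
import Pool.Agent.H4.AR.Count
import Pool.Agent.H4.AR.L1

/-!
H4/AR/AuxP: the auxiliary polynomial (Siegel's lemma).

PROOF. Box = exponents e with e_j ≤ d_j; N = prod (d_j+1) unknown coefficients x_e (index type: (j : Fin m) → Fin (d j + 1),
or the subtype of the finset of finsupps; convert with `Finsupp.equivFunOnFinite`). Equations: indexed by
(i, rho, io) with i a multi-index in the box with wt d i < m/4, rho in Fin n × (Fin k → Bool → Fin n) (n^(2k+1) classes),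
io in Fin D: sum over the e in the box with cls n v e = rho of x_e * cf n b b0 Q c w mu v i e io = 0, Q = (sum d)/n
(so (sum e)/n ≤ Q on the box). The number of equations is ≤ (7/10)^m N n^(2k+1) D ≤ N/2 (count_idx, hnum), and > 0
(i = 0 has weight 0 < m/4, n ≥ 1, D ≥ 1), the entries of the matrix are ≤ T^((k+3) Dg), Dg = sum d (abs_cf_le; B ≤ T).
`Int.Matrix.exists_ne_zero_int_vec_norm_le`: x ≠ 0 integral, A x = 0, |x_e| ≤ (N * max 1 |A|)^(M/(N-M)) ≤ N T^((k+3) Dg)
because the exponent is ≤ 1 (M ≤ N/2) and the base ≥ 1. N ≤ 2^Dg ≤ T^Dg (d+1 ≤ 2^d). f = sum x_e X^e ≠ 0, degrees ≤ d_j,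
l1 f ≤ N * N * T^((k+3) Dg) ≤ T^((k+5) Dg). For i outside of the box (some i_j > d_j) with weight < m/4: the coefficient
of sh at i is 0 because mch e i = 0 for all e in the box (coeff_sh_eq_sum). For i in the box: class_vanish; for classes
rho not of the form above (entries ≥ n) the sum is empty.
-/

set_option autoImplicit false

namespace H4AR

open MvPolynomial

attribute [local instance] Matrix.seminormedAddCommGroup

/-- exponents of the box as finsupps -/
private noncomputable def ax_t {m : ℕ} (d : Fin m → ℕ) (e : (j : Fin m) → Fin (d j + 1)) : Fin m →₀ ℕ :=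
  Finsupp.equivFunOnFinite.symm fun j => (e j : ℕ)

private theorem ax_t_apply {m : ℕ} (d : Fin m → ℕ) (e : (j : Fin m) → Fin (d j + 1)) (j : Fin m) :
    ax_t d e j = (e j : ℕ) := rfl

private theorem ax_t_inj {m : ℕ} (d : Fin m → ℕ) : Function.Injective (ax_t d) := by
  intro e e' h
  funext j
  have := DFunLike.congr_fun h j
  rw [ax_t_apply, ax_t_apply] at this
  exact Fin.ext this

private theorem ax_box {m : ℕ} (d : Fin m → ℕ) {i : Fin m →₀ ℕ} (h : ∀ j, i j ≤ d j) :
    ∃ e : (j : Fin m) → Fin (d j + 1), ax_t d e = i := by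
  refine ⟨fun j => ⟨i j, Nat.lt_succ_of_le (h j)⟩, ?_⟩
  ext j
  rfl

private theorem ax_sum_le {m : ℕ} (d : Fin m → ℕ) (e : (j : Fin m) → Fin (d j + 1)) :
    ∑ j, ax_t d e j ≤ ∑ j, d j :=
  Finset.sum_le_sum fun j _ => by rw [ax_t_apply]; exact Nat.lt_succ_iff.1 (e j).2

/-- number of the multi-indices of small weight in the box -/
private theorem ax_count {m : ℕ} (d : Fin m → ℕ) (hd : ∀ j, 100 ≤ d j) :
    (Fintype.card {i : (j : Fin m) → Fin (d j + 1) // wt d (ax_t d i) < m / 4} : ℝ) ≤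
      (7 / 10 : ℝ) ^ m * ∏ j, ((d j : ℝ) + 1) := by
  classical
  refine le_trans ?_ (count_idx m d hd)
  rw [Fintype.card_subtype]
  have h : (Finset.univ.filter fun i : (j : Fin m) → Fin (d j + 1) => wt d (ax_t d i) < m / 4).card ≤
      ((Fintype.piFinset fun j => Finset.range (d j + 1)).filter
      (fun e : Fin m → ℕ => ∑ j, (e j : ℝ) / (d j : ℝ) < m / 4)).card := by
    apply Finset.card_le_card_of_injOn (fun i j => (i j : ℕ))
    · intro i hi
      rw [Finset.mem_coe, Finset.mem_filter] at hi ⊢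
      refine ⟨Fintype.mem_piFinset.2 fun j => Finset.mem_range.2 (i j).2, ?_⟩
      exact hi.2
    · intro i _ i' _ h
      funext j
      exact Fin.ext (congrFun h j)
  exact_mod_cast h

/-- the equations have a small solution -/
private theorem ax_siegel {α β : Type} [Fintype α] [Fintype β] [DecidableEq α] [DecidableEq β]
    (A : Matrix α β ℤ) {N K : ℝ} (hN : (Fintype.card β : ℝ) = N)
    (hM : 2 * (Fintype.card α : ℝ) ≤ N) (h0 : 0 < Fintype.card α) (hK : 1 ≤ K) (hA : ∀ i j, |A i j| ≤ K) :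
    ∃ t : β → ℤ, t ≠ 0 ∧ Matrix.mulVec A t = 0 ∧ ∀ j, ((|t j| : ℤ) : ℝ) ≤ N * K := by
  have ha : (0 : ℝ) < Fintype.card α := by exact_mod_cast h0
  have hlt : Fintype.card α < Fintype.card β := by
    have : (Fintype.card α : ℝ) < Fintype.card β := by rw [hN]; linarith
    exact_mod_cast this
  obtain ⟨t, ht, hAt, hn⟩ := Int.Matrix.exists_ne_zero_int_vec_norm_le A hlt h0
  refine ⟨t, ht, hAt, fun j => ?_⟩
  have hnorm : ‖A‖ ≤ K := by
    rw [Matrix.norm_le_iff (by linarith)]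
    intro i j
    have := hA i j
    rw [Int.norm_eq_abs]
    exact_mod_cast this
  have h1 : max 1 ‖A‖ ≤ K := max_le hK hnorm
  have hN1 : 1 ≤ N := by
    rw [← hN]
    have : 1 ≤ Fintype.card β := by omega
    exact_mod_cast this
  have hb1 : 1 ≤ (Fintype.card β : ℝ) * max 1 ‖A‖ := by
    have e1 : (1 : ℝ) ≤ Fintype.card β := by rw [hN]; exact hN1
    have e2 : (1 : ℝ) ≤ max 1 ‖A‖ := le_max_left _ _
    nlinarith
  have hexp : (Fintype.card α : ℝ) / (Fintype.card β - Fintype.card α) ≤ 1 := by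
    rw [div_le_one (by rw [hN]; linarith), hN]
    linarith
  have h2 : ‖t j‖ ≤ ‖t‖ := norm_le_pi_norm t j
  calc ((|t j| : ℤ) : ℝ) = ‖t j‖ := by rw [Int.norm_eq_abs]; push_cast; rfl
    _ ≤ ‖t‖ := h2
    _ ≤ ((Fintype.card β : ℝ) * max 1 ‖A‖) ^ ((Fintype.card α : ℝ) / (Fintype.card β - Fintype.card α)) := hn
    _ ≤ ((Fintype.card β : ℝ) * max 1 ‖A‖) ^ (1 : ℝ) := Real.rpow_le_rpow_of_exponent_le hb1 hexp
    _ = (Fintype.card β : ℝ) * max 1 ‖A‖ := Real.rpow_one _
    _ ≤ N * K := by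
        rw [hN]
        exact mul_le_mul_of_nonneg_left h1 (by linarith)

theorem aux_poly (n k m D : ℕ) (hn : 1 ≤ n) (hm : 1 ≤ m) (hD : 1 ≤ D)
    (hnum : 2 * (D : ℝ) * (n : ℝ) ^ (2 * k + 1) * (7 / 10 : ℝ) ^ m ≤ 1) (th : ℝ) (hth : 0 < th) (c : ℤ)
    (hc : c ≠ 0) (B : ℕ) (hcB : |c| ≤ B) (w : ℕ → Fin D → ℤ)
    (hw : ∀ q, (c : ℝ) ^ q * th ^ q = ∑ i, (w q i : ℝ) * th ^ (i : ℕ))
    (hwB : ∀ q i, |w q i| ≤ (B : ℤ) ^ q) (T : ℕ) (hT : 2 ≤ T) (hBT : B ≤ T) (b b0 : ℕ) (hb : 1 ≤ b)
    (hbT : b ≤ T) (hb0 : 1 ≤ b0) (hb0T : b0 ≤ T) (mu : Fin k → Bool → ℕ)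
    (hmu : ∀ l s, 1 ≤ mu l s ∧ mu l s ≤ T) (v : Fin m → Fin k → Bool) (d : Fin m → ℕ)
    (hd : ∀ j, 100 ≤ d j) :
    ∃ f : MvPolynomial (Fin m) ℤ, f ≠ 0 ∧ (∀ j, f.degreeOf j ≤ d j) ∧
      l1 f ≤ (T : ℝ) ^ ((k + 5) * ∑ j, d j) ∧
      ∀ i : Fin m →₀ ℕ, wt d i < m / 4 → (sh (alp n b b0 th mu v) (toR f)).coeff i = 0 := by
  classical
  set Dg := ∑ j, d j with hDg
  set Q := Dg / n with hQ
  -- the matrix
  set ι := {i : (j : Fin m) → Fin (d j + 1) // wt d (ax_t d i) < m / 4} with hι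
  set A : Matrix (ι × Fin n × (Fin k → Bool → Fin n) × Fin D) ((j : Fin m) → Fin (d j + 1)) ℤ :=
    fun q e => if cls n v (ax_t d e) = ((q.2.1 : ℕ), fun l s => (q.2.2.1 l s : ℕ)) then
      cf n b b0 Q c w mu v (ax_t d q.1.1) (ax_t d e) q.2.2.2 else 0 with hA
  have hT1 : (1 : ℝ) ≤ T := by
    have : 1 ≤ T := by omega
    exact_mod_cast this
  set N : ℝ := ∏ j, ((d j : ℝ) + 1) with hN
  have hNpos : 0 < N := Finset.prod_pos fun j _ => by positivity
  have hcardβ : (Fintype.card ((j : Fin m) → Fin (d j + 1)) : ℝ) = N := by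
    rw [Fintype.card_pi, hN]
    push_cast
    refine Finset.prod_congr rfl fun j _ => ?_
    rw [Fintype.card_fin]
    push_cast
    ring
  have hcardα : (Fintype.card (ι × Fin n × (Fin k → Bool → Fin n) × Fin D) : ℝ) =
      (Fintype.card ι : ℝ) * ((n : ℝ) ^ (2 * k + 1) * D) := by
    rw [Fintype.card_prod, Fintype.card_prod, Fintype.card_prod]
    simp only [Fintype.card_fin, Fintype.card_pi, Finset.prod_const, Finset.card_univ, Fintype.card_bool]
    push_cast
    have e1 : ((n : ℝ) ^ 2) ^ k = (n : ℝ) ^ (2 * k) := by rw [← pow_mul]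
    have e2 : (n : ℝ) ^ (2 * k + 1) = (n : ℝ) ^ (2 * k) * n := pow_succ _ _
    rw [e2]
    rw [← e1]
    ring
  have hcnt := ax_count d hd
  have hM : 2 * (Fintype.card (ι × Fin n × (Fin k → Bool → Fin n) × Fin D) : ℝ) ≤ N := by
    rw [hcardα]
    calc 2 * ((Fintype.card ι : ℝ) * ((n : ℝ) ^ (2 * k + 1) * D))
        ≤ 2 * (((7 / 10 : ℝ) ^ m * N) * ((n : ℝ) ^ (2 * k + 1) * D)) := by gcongr
      _ = (2 * (D : ℝ) * (n : ℝ) ^ (2 * k + 1) * (7 / 10 : ℝ) ^ m) * N := by ring
      _ ≤ 1 * N := by gcongr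
      _ = N := one_mul N
  have h0 : 0 < Fintype.card (ι × Fin n × (Fin k → Bool → Fin n) × Fin D) := by
    rw [Fintype.card_pos_iff]
    refine ⟨⟨⟨fun j => 0, ?_⟩, ⟨0, hn⟩, fun _ _ => ⟨0, hn⟩, ⟨0, hD⟩⟩⟩
    have h1 : wt d (ax_t d fun j => 0) = 0 := by
      unfold wt
      refine Finset.sum_eq_zero fun j _ => ?_
      rw [ax_t_apply]; simp
    rw [h1]
    have : (0 : ℝ) < m := by exact_mod_cast hm
    positivity
  have hAb : ∀ q e, ((|A q e| : ℤ) : ℝ) ≤ (T : ℝ) ^ ((k + 3) * Dg) := by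
    intro q e
    rw [hA]
    simp only
    split_ifs
    · have h1 := abs_cf_le n b b0 Q T Dg hn hT hbT hb0T c (hcB.trans (by exact_mod_cast hBT)) w
        (fun q' i' => (hwB q' i').trans (pow_le_pow_left₀ (by positivity) (by exact_mod_cast hBT) _))
        mu hmu v (ax_t d q.1.1) (ax_t d e) q.2.2.2 (ax_sum_le d e) (Nat.div_le_self _ _)
      exact_mod_cast h1
    · simp only [abs_zero, Int.cast_zero]
      positivity
  have hAb' : ∀ q e, |((A q e : ℤ) : ℝ)| ≤ (T : ℝ) ^ ((k + 3) * Dg) := by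
    intro q e
    have := hAb q e
    rwa [Int.cast_abs] at this
  obtain ⟨x, hx0, hAx, hxb⟩ := ax_siegel A hcardβ hM h0 (K := (T : ℝ) ^ ((k + 3) * Dg)) (one_le_pow₀ hT1)
    (fun q e => by exact_mod_cast hAb' q e)
  -- the polynomial
  set f : MvPolynomial (Fin m) ℤ := ∑ e, monomial (ax_t d e) (x e) with hf
  have hcoef : ∀ e, f.coeff (ax_t d e) = x e := by
    intro e
    rw [hf, MvPolynomial.coeff_sum]
    rw [Finset.sum_eq_single e]
    · rw [MvPolynomial.coeff_monomial, if_pos rfl]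
    · intro e' _ hne
      rw [MvPolynomial.coeff_monomial, if_neg fun h => hne (ax_t_inj d h)]
    · intro h; exact absurd (Finset.mem_univ e) h
  have hsupp : f.support ⊆ Finset.univ.image (ax_t d) := by
    intro i hi
    rw [MvPolynomial.mem_support_iff, hf, MvPolynomial.coeff_sum] at hi
    obtain ⟨e, _, he⟩ := Finset.exists_ne_zero_of_sum_ne_zero hi
    rw [MvPolynomial.coeff_monomial] at he
    by_cases h : ax_t d e = i
    · exact Finset.mem_image.2 ⟨e, Finset.mem_univ e, h⟩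
    · rw [if_neg h] at he; exact absurd rfl he
  have hsuppd : ∀ i ∈ f.support, ∀ j, i j ≤ d j := by
    intro i hi j
    obtain ⟨e, _, rfl⟩ := Finset.mem_image.1 (hsupp hi)
    rw [ax_t_apply]
    exact Nat.lt_succ_iff.1 (e j).2
  refine ⟨f, ?_, ?_, ?_, ?_⟩
  · intro h
    apply hx0
    funext e
    rw [← hcoef e, h]
    simp
  · intro j
    rw [MvPolynomial.degreeOf_le_iff]
    exact fun i hi => hsuppd i hi j
  · rw [l1_eq_sum f _ hsupp, Finset.sum_image fun e _ e' _ h => ax_t_inj d h]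
    have hNT : N ≤ (T : ℝ) ^ Dg := by
      rw [hN, hDg, ← Finset.prod_pow_eq_pow_sum]
      refine Finset.prod_le_prod (fun j _ => by positivity) fun j _ => ?_
      have h1 : d j + 1 ≤ 2 ^ d j := Nat.lt_two_pow_self
      calc (d j : ℝ) + 1 = ((d j + 1 : ℕ) : ℝ) := by push_cast; ring
        _ ≤ ((2 ^ d j : ℕ) : ℝ) := by exact_mod_cast h1
        _ = (2 : ℝ) ^ d j := by push_cast; ring
        _ ≤ (T : ℝ) ^ d j := pow_le_pow_left₀ (by norm_num) (by exact_mod_cast hT) _
    calc ∑ e, |((f.coeff (ax_t d e) : ℤ) : ℝ)| ≤ ∑ e : (j : Fin m) → Fin (d j + 1), N * (T : ℝ) ^ ((k + 3) * Dg) := by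
          refine Finset.sum_le_sum fun e _ => ?_
          rw [hcoef e, ← Int.cast_abs]
          exact hxb e
      _ = N * (N * (T : ℝ) ^ ((k + 3) * Dg)) := by
          rw [Finset.sum_const, Finset.card_univ, nsmul_eq_mul, hcardβ]
      _ ≤ (T : ℝ) ^ Dg * ((T : ℝ) ^ Dg * (T : ℝ) ^ ((k + 3) * Dg)) := by gcongr
      _ = (T : ℝ) ^ ((k + 5) * Dg) := by
          rw [← pow_add, ← pow_add]; congr 1; ring
  · intro i hi
    by_cases hbox : ∀ j, i j ≤ d j
    · obtain ⟨i0, hi0⟩ := ax_box d hbox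
      apply class_vanish n b b0 Q hn hb hb0 th hth c hc w hw mu (fun l s => (hmu l s).1) v f
      · intro e he
        apply Nat.div_le_div_right
        exact Finset.sum_le_sum fun j _ => hsuppd e he j
      · intro rho io
        by_cases hrho : rho.1 < n ∧ ∀ l s, rho.2 l s < n
        · have hw1 : wt d (ax_t d i0) < m / 4 := by rw [hi0]; exact hi
          have heq := congrFun hAx (⟨i0, hw1⟩, ⟨rho.1, hrho.1⟩, (fun l s => ⟨rho.2 l s, hrho.2 l s⟩), io)
          rw [Matrix.mulVec, dotProduct] at heq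
          simp only [hA, Pi.zero_apply] at heq
          rw [← heq]
          rw [Finset.sum_filter]
          have h1 : ∑ e ∈ f.support, (if cls n v e = rho then f.coeff e * cf n b b0 Q c w mu v i e io else 0) =
              ∑ e ∈ Finset.univ.image (ax_t d),
                (if cls n v e = rho then f.coeff e * cf n b b0 Q c w mu v i e io else 0) := by
            apply Finset.sum_subset hsupp
            intro e _ he
            rw [MvPolynomial.notMem_support_iff] at he
            rw [he]; simp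
          rw [h1, Finset.sum_image fun e _ e' _ h => ax_t_inj d h]
          refine Finset.sum_congr rfl fun e _ => ?_
          rw [hcoef e, hi0]
          by_cases hcls : cls n v (ax_t d e) = rho
          · rw [if_pos hcls, if_pos hcls, mul_comm]
          · rw [if_neg hcls, if_neg hcls, zero_mul]
        · apply Finset.sum_eq_zero
          intro e he
          exfalso
          apply hrho
          rw [← (Finset.mem_filter.1 he).2]
          exact ⟨Nat.mod_lt _ hn, fun l s => Nat.mod_lt _ hn⟩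
    · rw [coeff_sh_eq_sum]
      refine Finset.sum_eq_zero fun e he => ?_
      have h1 : ¬ i ≤ e := by
        intro h
        apply hbox
        intro j
        have he' : e ∈ f.support := MvPolynomial.support_map_subset _ _ he
        exact (h j).trans (hsuppd e he' j)
      rw [mch_eq_zero h1]
      simp

end H4AR
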