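import Mathlib

/-!
H4/AR/BoxA: double counting of a = b * p_1 ... p_K with p_i in disjoint windows W_i.

PROOF. Every a in E which has a prime factor in every W_i gives at least one pair (x, b) with x in the product of the
W_i and b * prod x_i = a, b in [1,T]: choose x_i | a in W_i; the x_i are distinct primes (disjoint windows), so their
product divides a (`Finset.prod_primes_dvd` or coprimality), b = a / prod, b ≥ 1, b ≤ a ≤ T. Different a give different
pairs. So the sum over x of #{b} (= number of pairs (x,b) with b * prod x_i in E) is at least the number of a in E with a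
prime factor in every window, which is at least card E - sum_i #{a ≤ T without prime factor in W_i}.
-/

namespace H4AR

theorem box_double (K : ℕ) (W : Fin K → Finset ℕ) (hW : ∀ i, ∀ p ∈ W i, p.Prime)
    (hdis : ∀ i j, i ≠ j → Disjoint (W i) (W j)) (T : ℕ) (E : Finset ℕ) (hE : E ⊆ Finset.Icc 1 T) :
    (E.card : ℝ) - ∑ i, (((Finset.Icc 1 T).filter (fun a => ∀ p ∈ W i, ¬ p ∣ a)).card : ℝ) ≤
      ∑ x ∈ Fintype.piFinset W, (((Finset.Icc 1 T).filter (fun b => b * ∏ i, x i ∈ E)).card : ℝ) := by
  classical
  set bad : Fin K → Finset ℕ := fun i => (Finset.Icc 1 T).filter (fun a => ∀ p ∈ W i, ¬ p ∣ a)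
    with hbad
  set G : Finset ℕ := E.filter (fun a => ∀ i, ∃ p ∈ W i, p ∣ a) with hG
  set P : Finset (Σ _ : Fin K → ℕ, ℕ) := (Fintype.piFinset W).sigma
    (fun x => (Finset.Icc 1 T).filter (fun b => b * ∏ i, x i ∈ E)) with hP
  have hPc : (P.card : ℝ) = ∑ x ∈ Fintype.piFinset W,
      (((Finset.Icc 1 T).filter (fun b => b * ∏ i, x i ∈ E)).card : ℝ) := by
    rw [hP, Finset.card_sigma]
    push_cast
    rfl
  have h1 : E.card ≤ G.card + ∑ i, (bad i).card := by
    have h2 : E ⊆ G ∪ Finset.univ.biUnion bad := by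
      intro a ha
      by_cases h : ∀ i, ∃ p ∈ W i, p ∣ a
      · exact Finset.mem_union_left _ (Finset.mem_filter.2 ⟨ha, h⟩)
      · push Not at h
        obtain ⟨i, hi⟩ := h
        exact Finset.mem_union_right _ (Finset.mem_biUnion.2
          ⟨i, Finset.mem_univ _, Finset.mem_filter.2 ⟨hE ha, hi⟩⟩)
    calc E.card ≤ (G ∪ Finset.univ.biUnion bad).card := Finset.card_le_card h2
      _ ≤ G.card + (Finset.univ.biUnion bad).card := Finset.card_union_le _ _
      _ ≤ G.card + ∑ i, (bad i).card := Nat.add_le_add_left Finset.card_biUnion_le _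
  have h3 : G.card ≤ P.card := by
    set xf : ℕ → Fin K → ℕ := fun a i =>
      if h : ∃ p ∈ W i, p ∣ a then Classical.choose h else 0 with hxf
    have hx : ∀ a ∈ G, ∀ i, xf a i ∈ W i ∧ xf a i ∣ a := by
      intro a ha i
      have h := (Finset.mem_filter.1 ha).2 i
      have h4 : xf a i = Classical.choose h := dif_pos h
      rw [h4]
      exact Classical.choose_spec h
    have hdvd : ∀ a ∈ G, ∏ i, xf a i ∣ a := by
      intro a ha
      refine Finset.prod_dvd_of_isRelPrime ?_ fun i _ => (hx a ha i).2
      intro i _ j _ hij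
      show IsRelPrime (xf a i) (xf a j)
      rw [← Nat.coprime_iff_isRelPrime, Nat.coprime_primes (hW i _ (hx a ha i).1)
        (hW j _ (hx a ha j).1)]
      intro h
      have h5 := Finset.disjoint_left.1 (hdis i j hij) (hx a ha i).1
      rw [h] at h5
      exact h5 (hx a ha j).1
    refine Finset.card_le_card_of_injOn (fun a => ⟨xf a, a / ∏ i, xf a i⟩) ?_ ?_
    · intro a ha
      have ha' : a ∈ G := Finset.mem_coe.1 ha
      have haE := (Finset.mem_filter.1 ha').1
      have haT := Finset.mem_Icc.1 (hE haE)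
      refine Finset.mem_coe.2 (Finset.mem_sigma.2 ⟨?_, ?_⟩)
      · rw [Fintype.mem_piFinset]
        exact fun i => (hx a ha' i).1
      · refine Finset.mem_filter.2 ⟨Finset.mem_Icc.2 ⟨?_, ?_⟩, ?_⟩
        · exact Nat.div_pos (Nat.le_of_dvd haT.1 (hdvd a ha'))
            (Nat.pos_of_dvd_of_pos (hdvd a ha') haT.1)
        · exact (Nat.div_le_self _ _).trans haT.2
        · show a / (∏ i, xf a i) * ∏ i, xf a i ∈ E
          rw [Nat.div_mul_cancel (hdvd a ha')]
          exact haE
    · intro a ha a' ha' h
      have h4 : xf a = xf a' := congrArg Sigma.fst h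
      have h5 : a / ∏ i, xf a i = a' / ∏ i, xf a' i := by
        have := congrArg Sigma.snd h
        exact this
      rw [← Nat.div_mul_cancel (hdvd a ha), ← Nat.div_mul_cancel (hdvd a' ha'), h5, h4]
  have h4 : (E.card : ℝ) ≤ G.card + ∑ i, ((bad i).card : ℝ) := by exact_mod_cast h1
  have h5 : (G.card : ℝ) ≤ P.card := by exact_mod_cast h3
  rw [← hPc]
  linarith

end H4AR
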