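import Mathlib

/-!
H4/AR/BoxB: tuples having a component in a thin dyadic cell are negligible.

The dyadic cell of p in W_i is {q in W_i : Nat.log 2 q = Nat.log 2 p}; thin = fewer than N0 elements.

PROOF. #{b in [1,T] : b * prod x ∈ E} ≤ T / prod x_i. Sum over the x with a thin component i (union bound over i):
T * (sum over p in W_i in a thin cell of 1/p) * prod_{i' ≠ i} (sum over W_i' of 1/p) (product of sums,
`Finset.prod_univ_sum`; i' ≠ i factors ≤ L+1). A thin cell at level j (primes in [2^j, 2^(j+1))) contributes at most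
N0/2^j, all levels are ≥ j0, the sum of the geometric series is ≤ 2 N0/2^j0. Total ≤ K * T * (2 N0/2^j0) * (L+1)^(K-1), and
(L+1)^(K-1) ≤ (L+1)^K because L ≥ 0.
-/

namespace H4AR

private lemma geo (j0 M : ℕ) : ∑ j ∈ Finset.Ico j0 M, (1:ℝ) / 2 ^ j ≤ 2 / 2 ^ j0 := by
  rcases le_total M j0 with h | h
  · rw [Finset.Ico_eq_empty_of_le h]
    simp only [Finset.sum_empty]
    positivity
  · have : ∑ j ∈ Finset.Ico j0 M, (1:ℝ) / 2 ^ j = 2 / 2 ^ j0 - 2 / 2 ^ M := by
      induction M, h using Nat.le_induction with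
      | base => simp
      | succ n hn ih =>
        rw [Finset.sum_Ico_succ_top hn, ih, pow_succ]
        field_simp
        ring
    rw [this]
    have : (0:ℝ) ≤ 2 / 2 ^ M := by positivity
    linarith

private lemma thin_sum (W : Finset ℕ) (j0 N0 : ℕ) (hj : ∀ p ∈ W, 2 ^ j0 ≤ p) :
    ∑ p ∈ W.filter (fun p => (W.filter (fun q => Nat.log 2 q = Nat.log 2 p)).card < N0),
      (1:ℝ) / p ≤ 2 * N0 / 2 ^ j0 := by
  set Wt := W.filter (fun p => (W.filter (fun q => Nat.log 2 q = Nat.log 2 p)).card < N0) with hWt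
  set M := (W.sup (fun p => Nat.log 2 p)) + 1 with hM
  have hne : ∀ p ∈ W, p ≠ 0 := by
    intro p hp h0
    have h1 := hj p hp
    rw [h0] at h1
    have h2 : 0 < 2 ^ j0 := by positivity
    omega
  have hmaps : ∀ p ∈ Wt, Nat.log 2 p ∈ Finset.Ico j0 M := by
    intro p hp
    have hpW : p ∈ W := (Finset.mem_filter.1 hp).1
    rw [Finset.mem_Ico]
    refine ⟨?_, ?_⟩
    · exact Nat.le_log_of_pow_le (by norm_num) (hj p hpW)
    · exact Nat.lt_succ_of_le (Finset.le_sup (f := fun p => Nat.log 2 p) hpW)
  rw [← Finset.sum_fiberwise_of_maps_to hmaps]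
  calc _ ≤ ∑ j ∈ Finset.Ico j0 M, (N0:ℝ) * (1 / 2 ^ j) := by
        apply Finset.sum_le_sum
        intro j hj'
        rcases (Wt.filter (fun p => Nat.log 2 p = j)).eq_empty_or_nonempty with h | ⟨p0, hp0⟩
        · rw [h, Finset.sum_empty]
          positivity
        · have hp0' := Finset.mem_filter.1 hp0
          have hp0'' := Finset.mem_filter.1 hp0'.1
          have hsub : Wt.filter (fun p => Nat.log 2 p = j) ⊆
              W.filter (fun q => Nat.log 2 q = Nat.log 2 p0) := by
            intro p hp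
            rw [Finset.mem_filter] at hp ⊢
            exact ⟨(Finset.mem_filter.1 hp.1).1, by rw [hp.2, hp0'.2]⟩
          have hcard : (Wt.filter (fun p => Nat.log 2 p = j)).card ≤ N0 :=
            le_trans (Finset.card_le_card hsub) hp0''.2.le
          calc ∑ p ∈ Wt.filter (fun p => Nat.log 2 p = j), (1:ℝ) / p
              ≤ ∑ p ∈ Wt.filter (fun p => Nat.log 2 p = j), (1:ℝ) / 2 ^ j := by
                apply Finset.sum_le_sum
                intro p hp
                have hp' := Finset.mem_filter.1 hp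
                have hpW : p ∈ W := (Finset.mem_filter.1 hp'.1).1
                have h1 : 2 ^ j ≤ p := by
                  rw [← hp'.2]
                  exact Nat.pow_log_le_self 2 (hne p hpW)
                have h2 : (2:ℝ) ^ j ≤ p := by exact_mod_cast h1
                exact one_div_le_one_div_of_le (by positivity) h2
            _ = (Wt.filter (fun p => Nat.log 2 p = j)).card * ((1:ℝ) / 2 ^ j) := by
                rw [Finset.sum_const, nsmul_eq_mul]
            _ ≤ _ := by gcongr
    _ = N0 * ∑ j ∈ Finset.Ico j0 M, ((1:ℝ) / 2 ^ j) := by rw [Finset.mul_sum]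
    _ ≤ N0 * (2 / 2 ^ j0) := by
        gcongr
        exact geo j0 M
    _ = _ := by ring

theorem box_thin (K : ℕ) (W : Fin K → Finset ℕ) (L : ℝ) (hL : 0 ≤ L)
    (hsum : ∀ i, ∑ p ∈ W i, (1 : ℝ) / p ≤ L + 1) (j0 N0 : ℕ) (hj : ∀ i, ∀ p ∈ W i, 2 ^ j0 ≤ p)
    (T : ℕ) (E : Finset ℕ) (hE : E ⊆ Finset.Icc 1 T) :
    ∑ x ∈ (Fintype.piFinset W).filter
        (fun x => ∃ i, ((W i).filter (fun q => Nat.log 2 q = Nat.log 2 (x i))).card < N0),
      (((Finset.Icc 1 T).filter (fun b => b * ∏ i, x i ∈ E)).card : ℝ) ≤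
      K * T * (2 * N0 / 2 ^ j0) * (L + 1) ^ K := by
  set Th : Fin K → Finset ℕ := fun i => (W i).filter
    (fun p => ((W i).filter (fun q => Nat.log 2 q = Nat.log 2 p)).card < N0) with hTh
  have hpos : ∀ x ∈ Fintype.piFinset W, 0 < ∏ i, x i := by
    intro x hx
    apply Finset.prod_pos
    intro i _
    exact lt_of_lt_of_le (by positivity) (hj i (x i) (Fintype.mem_piFinset.1 hx i))
  have hcount : ∀ x ∈ Fintype.piFinset W,
      (((Finset.Icc 1 T).filter (fun b => b * ∏ i, x i ∈ E)).card : ℝ) ≤
        T * ∏ i, (1 / (x i : ℝ)) := by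
    intro x hx
    have h1 : ((Finset.Icc 1 T).filter (fun b => b * ∏ i, x i ∈ E)) ⊆
        Finset.Icc 1 (T / ∏ i, x i) := by
      intro b hb
      rw [Finset.mem_filter] at hb
      have := Finset.mem_Icc.1 (hE hb.2)
      rw [Finset.mem_Icc]
      exact ⟨(Finset.mem_Icc.1 hb.1).1, (Nat.le_div_iff_mul_le (hpos x hx)).2 this.2⟩
    have h2 := Finset.card_le_card h1
    rw [Nat.card_Icc, Nat.add_sub_cancel] at h2
    have h3 : ((T / ∏ i, x i : ℕ) : ℝ) ≤ T / ∏ i, (x i : ℝ) := by
      have := @Nat.cast_div_le ℝ _ _ _ T (∏ i, x i)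
      rw [Nat.cast_prod] at this
      exact this
    calc (((Finset.Icc 1 T).filter (fun b => b * ∏ i, x i ∈ E)).card : ℝ)
        ≤ ((T / ∏ i, x i : ℕ) : ℝ) := by exact_mod_cast h2
      _ ≤ T / ∏ i, (x i : ℝ) := h3
      _ = T * ∏ i, (1 / (x i : ℝ)) := by
          rw [div_eq_mul_inv, ← Finset.prod_inv_distrib]
          simp only [one_div]
  have hf0 : ∀ x : Fin K → ℕ, 0 ≤ (T : ℝ) * ∏ i, (1 / (x i : ℝ)) := by
    intro x
    apply mul_nonneg (Nat.cast_nonneg _)
    apply Finset.prod_nonneg
    intro i _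
    positivity
  have hset : ∀ i, (Fintype.piFinset W).filter (fun x => x i ∈ Th i) =
      Fintype.piFinset (Function.update W i (Th i)) := by
    intro i
    ext x
    rw [Finset.mem_filter, Fintype.mem_piFinset, Fintype.mem_piFinset]
    constructor
    · rintro ⟨h1, h2⟩ j
      rcases eq_or_ne j i with h | h
      · subst h
        rw [Function.update_self]
        exact h2
      · rw [Function.update_of_ne h]
        exact h1 j
    · intro h
      have h2 := h i
      rw [Function.update_self] at h2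
      refine ⟨fun j => ?_, h2⟩
      rcases eq_or_ne j i with h' | h'
      · subst h'
        exact (Finset.mem_filter.1 h2).1
      · have h3 := h j
        rw [Function.update_of_ne h'] at h3
        exact h3
  have hS0 : ∀ (A : Finset ℕ), 0 ≤ ∑ p ∈ A, (1:ℝ) / p := by
    intro A
    apply Finset.sum_nonneg
    intro p _
    positivity
  have hbound : ∀ i, ∑ x ∈ (Fintype.piFinset W).filter (fun x => x i ∈ Th i),
      (T : ℝ) * ∏ i, (1 / (x i : ℝ)) ≤ T * (2 * N0 / 2 ^ j0) * (L + 1) ^ K := by
    intro i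
    rw [hset i, ← Finset.mul_sum,
      ← Finset.prod_univ_sum (Function.update W i (Th i)) (fun _ p => (1:ℝ) / (p:ℝ)),
      ← Finset.mul_prod_erase Finset.univ _ (Finset.mem_univ i), mul_assoc]
    apply mul_le_mul_of_nonneg_left _ (Nat.cast_nonneg _)
    rw [Function.update_self]
    apply mul_le_mul
    · exact thin_sum (W i) j0 N0 (hj i)
    · calc ∏ x ∈ Finset.univ.erase i, ∑ p ∈ Function.update W i (Th i) x, (1:ℝ) / p
          ≤ ∏ x ∈ Finset.univ.erase i, (L + 1) := by
            apply Finset.prod_le_prod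
            · intro j _
              exact hS0 _
            · intro j hj'
              rw [Function.update_of_ne (Finset.ne_of_mem_erase hj')]
              exact hsum j
        _ = (L + 1) ^ (Finset.univ.erase i).card := by rw [Finset.prod_const]
        _ ≤ (L + 1) ^ K := by
            apply pow_le_pow_right₀ (by linarith)
            calc (Finset.univ.erase i).card ≤ (Finset.univ : Finset (Fin K)).card :=
                  Finset.card_erase_le
              _ = K := by rw [Finset.card_univ, Fintype.card_fin]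
    · apply Finset.prod_nonneg
      intro j _
      exact hS0 _
    · positivity
  calc _ ≤ ∑ x ∈ (Fintype.piFinset W).filter
        (fun x => ∃ i, ((W i).filter (fun q => Nat.log 2 q = Nat.log 2 (x i))).card < N0),
        (T : ℝ) * ∏ i, (1 / (x i : ℝ)) :=
        Finset.sum_le_sum (fun x hx => hcount x (Finset.mem_filter.1 hx).1)
    _ = ∑ x ∈ Fintype.piFinset W, (if (∃ i, ((W i).filter
          (fun q => Nat.log 2 q = Nat.log 2 (x i))).card < N0) then
            (T : ℝ) * ∏ i, (1 / (x i : ℝ)) else 0) := by rw [Finset.sum_filter]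
    _ ≤ ∑ x ∈ Fintype.piFinset W, ∑ i, (if x i ∈ Th i then
            (T : ℝ) * ∏ i, (1 / (x i : ℝ)) else 0) := by
        apply Finset.sum_le_sum
        intro x hx
        have h0 : ∀ i ∈ (Finset.univ : Finset (Fin K)), 0 ≤ (if x i ∈ Th i then
            (T : ℝ) * ∏ i, (1 / (x i : ℝ)) else 0) := by
          intro i _
          split_ifs
          · exact hf0 x
          · exact le_rfl
        split_ifs with h
        · obtain ⟨i, hi⟩ := h
          have hmem : x i ∈ Th i := Finset.mem_filter.2 ⟨Fintype.mem_piFinset.1 hx i, hi⟩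
          refine le_trans ?_ (Finset.single_le_sum h0 (Finset.mem_univ i))
          rw [if_pos hmem]
        · exact Finset.sum_nonneg h0
    _ = ∑ i, ∑ x ∈ Fintype.piFinset W, (if x i ∈ Th i then
            (T : ℝ) * ∏ i, (1 / (x i : ℝ)) else 0) := Finset.sum_comm
    _ = ∑ i, ∑ x ∈ (Fintype.piFinset W).filter (fun x => x i ∈ Th i),
            (T : ℝ) * ∏ i, (1 / (x i : ℝ)) := by
        apply Finset.sum_congr rfl
        intro i _
        rw [Finset.sum_filter]
    _ ≤ ∑ _i : Fin K, T * (2 * N0 / 2 ^ j0) * (L + 1) ^ K :=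
        Finset.sum_le_sum (fun i _ => hbound i)
    _ = _ := by
        rw [Finset.sum_const, Finset.card_univ, Fintype.card_fin, nsmul_eq_mul]
        ring

end H4AR
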