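import Mathlib

/-!
H4/AR/BoxC: a dyadic cell and a number b0 with positive density.

PROOF. Levels J : Fin K → ℕ; cell P_i(J) = {q in W_i : Nat.log 2 q = J i}. Every x in the product of the W_i lies in the
product of exactly one family of cells, J i = Nat.log 2 (x i). Call J good if all P_i(J) have at least N0 elements
(N0 ≥ 1). Put lam_i(J) = sum of 1/p over P_i(J). Sum over all J (finitely many: levels up to the maximum) of
prod_i lam_i(J) = prod_i (sum over W_i of 1/p) ≤ Lam. Suppose that for every good J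
S(J) := sum over x in the cell J of #{b} < (eps/(4 Lam)) T prod lam_i(J) (the product is > 0). Summing over the good J (if there
are any; if there is none the left side of hbig is 0 < eps T/4) we get less than eps T/4: contradiction to hbig. So some
good J has S(J) ≥ (eps/(4 Lam)) T prod lam_i(J) ≥ (eps/(4 Lam)) T prod (|P_i|/2^(J i + 1)), as p < 2^(J i+1).
In this cell b * prod x_i ≤ T and x_i ≥ 2^(J i) force b ≤ B := floor(T / prod 2^(J i)) (natural number division), so
S(J) = sum_{b=1}^{B} #{x in cell : b prod x_i ∈ E}; B prod 2^(J i) ≤ T. If all these counts were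
< eps/(4 * 2^K * Lam) * prod |P_i| then S(J) < B * ... ≤ (T/prod 2^(J i)) eps/(4 * 2^K Lam) prod |P_i|: contradiction
(B = 0 would give S(J) = 0). Take P i = P_i(J).
-/

namespace H4AR

private theorem boxc_alg (eps k Lam T Q cP : ℝ) :
    eps / (4 * k * Lam) * (T / Q) * cP = eps / (4 * Lam) * T * (cP / (k * Q)) := by
  simp only [div_eq_mul_inv, mul_inv]
  ring

theorem box_cell (K : ℕ) (W : Fin K → Finset ℕ) (hW : ∀ i, ∀ p ∈ W i, 1 ≤ p) (N0 : ℕ) (hN0 : 1 ≤ N0)
    (Lam : ℝ) (hLam : 0 < Lam) (hsum : ∏ i, ∑ p ∈ W i, (1 : ℝ) / p ≤ Lam) (T : ℕ) (hT : 1 ≤ T)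
    (E : Finset ℕ) (hE : E ⊆ Finset.Icc 1 T) (eps : ℝ) (heps : 0 < eps)
    (hbig : eps / 4 * T ≤ ∑ x ∈ (Fintype.piFinset W).filter
        (fun x => ¬ ∃ i, ((W i).filter (fun q => Nat.log 2 q = Nat.log 2 (x i))).card < N0),
      (((Finset.Icc 1 T).filter (fun b => b * ∏ i, x i ∈ E)).card : ℝ)) :
    ∃ (b0 : ℕ) (P : Fin K → Finset ℕ), 1 ≤ b0 ∧ (∀ i, P i ⊆ W i) ∧ (∀ i, N0 ≤ (P i).card) ∧
      eps / (4 * 2 ^ K * Lam) * ∏ i, ((P i).card : ℝ) ≤
        (((Fintype.piFinset P).filter (fun x => b0 * ∏ i, x i ∈ E)).card : ℝ) := by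
  classical
  set cell : Fin K → ℕ → Finset ℕ := fun i j => (W i).filter (fun q => Nat.log 2 q = j) with hcell
  set X := (Fintype.piFinset W).filter
    (fun x => ¬ ∃ i, ((W i).filter (fun q => Nat.log 2 q = Nat.log 2 (x i))).card < N0) with hX
  set F : (Fin K → ℕ) → ℝ := fun x =>
    (((Finset.Icc 1 T).filter (fun b => b * ∏ i, x i ∈ E)).card : ℝ) with hF
  set R : (Fin K → ℕ) → ℝ := fun x => ∏ i, (1 : ℝ) / (x i) with hR
  set lev : (Fin K → ℕ) → (Fin K → ℕ) := fun x i => Nat.log 2 (x i) with hlev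
  set JJ := X.image lev with hJJ
  have hT0 : (0 : ℝ) < T := by exact_mod_cast hT
  have hXne : X.Nonempty := by
    by_contra h
    rw [Finset.not_nonempty_iff_eq_empty] at h
    rw [h, Finset.sum_empty] at hbig
    have : 0 < eps / 4 * T := by positivity
    linarith
  have hJne : JJ.Nonempty := hXne.image _
  have hmaps : ∀ x ∈ X, lev x ∈ JJ := fun x hx => Finset.mem_image_of_mem _ hx
  have hR0 : ∀ x, 0 ≤ R x := fun x => Finset.prod_nonneg fun i _ => by positivity
  have hRsum : ∑ x ∈ X, R x ≤ Lam := by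
    calc ∑ x ∈ X, R x ≤ ∑ x ∈ Fintype.piFinset W, R x :=
          Finset.sum_le_sum_of_subset_of_nonneg (Finset.filter_subset _ _) fun x _ _ => hR0 x
      _ = ∏ i, ∑ p ∈ W i, (1 : ℝ) / p := by
          rw [Finset.prod_univ_sum]
      _ ≤ Lam := hsum
  obtain ⟨c, hc⟩ : ∃ c : ℝ, c = eps / (4 * Lam) := ⟨_, rfl⟩
  have hc0 : 0 < c := by rw [hc]; positivity
  obtain ⟨J, hJ, hJle⟩ : ∃ J ∈ JJ, ∑ x ∈ X.filter (fun x => lev x = J), c * T * R x ≤
      ∑ x ∈ X.filter (fun x => lev x = J), F x := by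
    refine Finset.exists_le_of_sum_le hJne ?_
    rw [Finset.sum_fiberwise_of_maps_to hmaps, Finset.sum_fiberwise_of_maps_to hmaps,
      ← Finset.mul_sum]
    calc c * T * ∑ x ∈ X, R x ≤ c * T * Lam := mul_le_mul_of_nonneg_left hRsum (by positivity)
      _ = eps / 4 * T := by
        rw [hc]
        field_simp
      _ ≤ _ := hbig
  obtain ⟨x0, hx0, hx0J⟩ := Finset.mem_image.1 hJ
  set P : Fin K → Finset ℕ := fun i => cell i (J i) with hP
  have hPW : ∀ i, P i ⊆ W i := fun i => Finset.filter_subset _ _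
  have hPc : ∀ i, N0 ≤ (P i).card := by
    intro i
    have h1 := (Finset.mem_filter.1 hx0).2
    push Not at h1
    have h2 := h1 i
    have h3 : P i = (W i).filter (fun q => Nat.log 2 q = Nat.log 2 (x0 i)) := by
      rw [hP, hcell, ← hx0J]
    rw [h3]
    exact h2
  have hfib : X.filter (fun x => lev x = J) = Fintype.piFinset P := by
    ext x
    rw [Finset.mem_filter, Fintype.mem_piFinset]
    constructor
    · rintro ⟨h1, h2⟩ i
      have h3 := Fintype.mem_piFinset.1 (Finset.mem_filter.1 h1).1 i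
      exact Finset.mem_filter.2 ⟨h3, congrFun h2 i⟩
    · intro h1
      have h2 : ∀ i, Nat.log 2 (x i) = J i := fun i => (Finset.mem_filter.1 (h1 i)).2
      refine ⟨Finset.mem_filter.2 ⟨?_, ?_⟩, funext h2⟩
      · rw [Fintype.mem_piFinset]
        exact fun i => hPW i (h1 i)
      · push Not
        intro i
        rw [h2 i]
        exact hPc i
  rw [hfib, ← Finset.mul_sum] at hJle
  obtain ⟨Q, hQ⟩ : ∃ Q : ℕ, Q = ∏ i, 2 ^ (J i) := ⟨_, rfl⟩
  have hQ0 : 0 < Q := by
    rw [hQ]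
    exact Finset.prod_pos fun i _ => pow_pos (by norm_num) _
  have hQ0' : (0 : ℝ) < Q := by exact_mod_cast hQ0
  obtain ⟨cP, hcP⟩ : ∃ cP : ℝ, cP = ∏ i, ((P i).card : ℝ) := ⟨_, rfl⟩
  have hcP0 : 0 < cP := by
    rw [hcP]
    refine Finset.prod_pos fun i _ => ?_
    have := hPc i
    have h1 : 0 < (P i).card := by omega
    exact_mod_cast h1
  have hRJ : cP / (2 ^ K * Q) ≤ ∑ x ∈ Fintype.piFinset P, R x := by
    have h1 : cP / (2 ^ K * Q) = ∑ x ∈ Fintype.piFinset P, ∏ i, (1 : ℝ) / 2 ^ (J i + 1) := by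
      rw [Finset.sum_const, Fintype.card_piFinset, nsmul_eq_mul]
      have h2 : ∏ i, (1 : ℝ) / 2 ^ (J i + 1) = 1 / (2 ^ K * Q) := by
        rw [Finset.prod_div_distrib, Finset.prod_const_one]
        congr 1
        simp only [pow_succ]
        rw [Finset.prod_mul_distrib, Finset.prod_const, Finset.card_univ, Fintype.card_fin, hQ]
        push_cast
        ring
      rw [h2, hcP]
      push_cast
      ring
    rw [h1]
    refine Finset.sum_le_sum fun x hx => Finset.prod_le_prod (fun i _ => by positivity)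
      fun i _ => ?_
    have hxi := Fintype.mem_piFinset.1 hx i
    have h2 : Nat.log 2 (x i) = J i := (Finset.mem_filter.1 hxi).2
    have h3 : 1 ≤ x i := hW i _ (hPW i hxi)
    have h4 : x i < 2 ^ (J i + 1) := by
      rw [← h2]
      exact Nat.lt_pow_succ_log_self (by norm_num) _
    have h5 : (0 : ℝ) < x i := by exact_mod_cast h3
    refine one_div_le_one_div_of_le h5 ?_
    exact_mod_cast h4.le
  obtain ⟨B, hB⟩ : ∃ B : ℕ, B = T / Q := ⟨_, rfl⟩
  obtain ⟨δ, hδ⟩ : ∃ δ : ℝ, δ = eps / (4 * 2 ^ K * Lam) := ⟨_, rfl⟩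
  have hδ0 : 0 < δ := by rw [hδ]; positivity
  set cnt : ℕ → ℝ := fun b =>
    (((Fintype.piFinset P).filter (fun x => b * ∏ i, x i ∈ E)).card : ℝ) with hcnt
  have hSle : ∑ x ∈ Fintype.piFinset P, F x ≤ ∑ b ∈ Finset.Icc 1 B, cnt b := by
    have h1 : ∀ x ∈ Fintype.piFinset P, F x ≤
        ∑ b ∈ Finset.Icc 1 B, if b * ∏ i, x i ∈ E then (1 : ℝ) else 0 := by
      intro x hx
      have h2 : (Finset.Icc 1 T).filter (fun b => b * ∏ i, x i ∈ E) ⊆
          (Finset.Icc 1 B).filter (fun b => b * ∏ i, x i ∈ E) := by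
        intro b hb
        obtain ⟨h3, h4⟩ := Finset.mem_filter.1 hb
        refine Finset.mem_filter.2 ⟨Finset.mem_Icc.2 ⟨(Finset.mem_Icc.1 h3).1, ?_⟩, h4⟩
        have h5 := (Finset.mem_Icc.1 (hE h4)).2
        have h6 : Q ≤ ∏ i, x i := by
          rw [hQ]
          refine Finset.prod_le_prod' fun i _ => ?_
          have hxi := Fintype.mem_piFinset.1 hx i
          have h7 : Nat.log 2 (x i) = J i := (Finset.mem_filter.1 hxi).2
          have h8 : 1 ≤ x i := hW i _ (hPW i hxi)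
          rw [← h7]
          exact Nat.pow_log_le_self 2 (by omega)
        rw [hB, Nat.le_div_iff_mul_le hQ0]
        exact (Nat.mul_le_mul_left b h6).trans h5
      have h3 : F x ≤ (((Finset.Icc 1 B).filter (fun b => b * ∏ i, x i ∈ E)).card : ℝ) := by
        have h3' := Finset.card_le_card h2
        show ((((Finset.Icc 1 T).filter (fun b => b * ∏ i, x i ∈ E)).card : ℝ)) ≤ _
        exact_mod_cast h3'
      refine h3.trans (le_of_eq ?_)
      rw [Finset.sum_boole]
    refine (Finset.sum_le_sum h1).trans (le_of_eq ?_)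
    rw [Finset.sum_comm]
    refine Finset.sum_congr rfl fun b _ => ?_
    rw [Finset.sum_boole]
  have hlow : δ * (T / Q) * cP ≤ ∑ x ∈ Fintype.piFinset P, F x := by
    refine le_trans ?_ hJle
    calc δ * (T / Q) * cP = c * T * (cP / (2 ^ K * Q)) := by
          rw [hδ, hc]
          exact boxc_alg eps (2 ^ K) Lam T Q cP
      _ ≤ c * T * ∑ x ∈ Fintype.piFinset P, R x :=
        mul_le_mul_of_nonneg_left hRJ (by positivity)
  have hBle : (B : ℝ) ≤ T / Q := by
    rw [hB]
    exact Nat.cast_div_le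
  have hBne : (Finset.Icc 1 B).Nonempty := by
    by_contra h
    rw [Finset.not_nonempty_iff_eq_empty] at h
    rw [h, Finset.sum_empty] at hSle
    have : 0 < δ * (T / Q) * cP := by positivity
    linarith
  obtain ⟨b0, hb0, hb0le⟩ : ∃ b ∈ Finset.Icc 1 B, δ * cP ≤ cnt b := by
    refine Finset.exists_le_of_sum_le hBne ?_
    rw [Finset.sum_const, Nat.card_Icc, nsmul_eq_mul]
    have h1 : ((B + 1 - 1 : ℕ) : ℝ) = B := by
      rw [Nat.add_sub_cancel]
    rw [h1]
    calc (B : ℝ) * (δ * cP) ≤ T / Q * (δ * cP) :=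
          mul_le_mul_of_nonneg_right hBle (by positivity)
      _ = δ * (T / Q) * cP := by ring
      _ ≤ _ := hlow.trans hSle
  rw [hδ, hcP] at hb0le
  exact ⟨b0, P, (Finset.mem_Icc.1 hb0).1, hPW, hPc, hb0le⟩

end H4AR
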