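import Pool.Agent.H4.AR.Win
import Pool.Agent.H4.AR.BoxA
import Pool.Agent.H4.AR.BoxB
import Pool.Agent.H4.AR.BoxC

/-!
H4/AR/Box: a set E of density > eps in [1,T] contains a proportion ≥ del of a box b0 * P_1 * ... * P_K of products of
primes, |P_i| ≥ N0, where del depends on K and eps only (not on N0).

PROOF. We may assume K ≥ 1 (K = 0: take b0 in E: the product over the empty set is 1, del = 1, E nonempty as
eps T < card E; or treat K = 0 like the rest) and eps ≤ 1 (replace eps by min eps 1). L = log(8 K/eps) ≥ 0 (so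
exp(-L) = eps/(8K)), Lam = (L+1)^K, del = eps/(4 * 2^K * Lam). Given N0 (we may assume N0 ≥ 1) choose j0 with
K * (2 N0/2^j0) * (L+1)^K ≤ eps/4, windows from `exists_windows` with z = 2^j0 (primes > 2^j0), and T0 such that
prod_{p in W_i} p ≤ eps T/(8K) for T ≥ T0 and all i. For T ≥ T0 (T0 ≥ 1): count_no_prime:
#{a ≤ T without prime factor in W_i} ≤ T eps/(8K) + eps T/(8K) = eps T/(4K). box_double: the sum over x of #{b} is ≥
eps T - eps T/4 ≥ eps T/2. box_thin: the tuples with a thin component contribute ≤ eps T/4. So hbig of box_cell holds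
(split the sum with `Finset.sum_filter_add_sum_filter_not`); prod_i sum 1/p ≤ Lam.
-/

namespace H4AR

theorem box (K : ℕ) (eps : ℝ) (heps : 0 < eps) :
    ∃ del : ℝ, 0 < del ∧ ∀ N0 : ℕ, ∃ T0 : ℕ, ∀ T : ℕ, T0 ≤ T → ∀ E : Finset ℕ, E ⊆ Finset.Icc 1 T →
      eps * T < E.card →
      ∃ (b0 : ℕ) (P : Fin K → Finset ℕ), 1 ≤ b0 ∧ (∀ i, ∀ p ∈ P i, p.Prime) ∧ (∀ i, N0 ≤ (P i).card) ∧
        del * ∏ i, ((P i).card : ℝ) ≤
          (((Fintype.piFinset P).filter (fun x => b0 * ∏ i, x i ∈ E)).card : ℝ) := by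
  rcases Nat.eq_zero_or_pos K with hK | hK
  · subst hK
    refine ⟨1, one_pos, fun N0 => ⟨0, fun T _ E hE hcard => ?_⟩⟩
    have hne : E.Nonempty := by
      rw [← Finset.card_pos]
      have h1 : (0 : ℝ) < E.card := lt_of_le_of_lt (by positivity) hcard
      exact_mod_cast h1
    obtain ⟨b0, hb0⟩ := hne
    refine ⟨b0, fun _ => ∅, (Finset.mem_Icc.1 (hE hb0)).1, fun i => i.elim0, fun i => i.elim0, ?_⟩
    have h1 : (fun i => i.elim0 : Fin 0 → ℕ) ∈ (Fintype.piFinset (fun _ : Fin 0 => (∅ : Finset ℕ))).filter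
        (fun x => b0 * ∏ i, x i ∈ E) := by
      rw [Finset.mem_filter, Fintype.mem_piFinset]
      refine ⟨fun i => i.elim0, ?_⟩
      simpa using hb0
    have h2 : 1 ≤ ((Fintype.piFinset (fun _ : Fin 0 => (∅ : Finset ℕ))).filter
        (fun x => b0 * ∏ i, x i ∈ E)).card := Finset.card_pos.2 ⟨_, h1⟩
    have h3 : (1 : ℝ) ≤ ((Fintype.piFinset (fun _ : Fin 0 => (∅ : Finset ℕ))).filter
        (fun x => b0 * ∏ i, x i ∈ E)).card := by exact_mod_cast h2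
    simpa using h3
  have hKR : (1 : ℝ) ≤ K := by exact_mod_cast hK
  have hK0 : (0 : ℝ) < K := by linarith
  obtain ⟨e, he⟩ : ∃ e : ℝ, e = min eps 1 := ⟨_, rfl⟩
  have he0 : 0 < e := by
    rw [he]
    exact lt_min heps one_pos
  have he1 : e ≤ 1 := by
    rw [he]
    exact min_le_right _ _
  have hee : e ≤ eps := by
    rw [he]
    exact min_le_left _ _
  obtain ⟨L, hL⟩ : ∃ L : ℝ, L = Real.log (8 * K / e) := ⟨_, rfl⟩
  have hKe : 1 ≤ 8 * K / e := by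
    rw [le_div_iff₀ he0]
    linarith
  have hL0 : 0 ≤ L := by
    rw [hL]
    exact Real.log_nonneg hKe
  have hexp : Real.exp (-L) = e / (8 * K) := by
    rw [hL, Real.exp_neg, Real.exp_log (by linarith), inv_div]
  have hLam : 0 < (L + 1) ^ K := by positivity
  refine ⟨e / (4 * 2 ^ K * (L + 1) ^ K), by positivity, fun N0 => ?_⟩
  obtain ⟨N1, hN1⟩ : ∃ N1 : ℕ, N1 = max N0 1 := ⟨_, rfl⟩
  have hN11 : 1 ≤ N1 := by
    rw [hN1]
    exact le_max_right _ _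
  have hN10 : N0 ≤ N1 := by
    rw [hN1]
    exact le_max_left _ _
  obtain ⟨j0, hj0⟩ := pow_unbounded_of_one_lt (K * (2 * N1) * (L + 1) ^ K * 4 / e) (one_lt_two (α := ℝ))
  have hj0' : K * (2 * N1 / 2 ^ j0) * (L + 1) ^ K ≤ e / 4 := by
    rw [div_lt_iff₀ he0] at hj0
    have h2 : (0 : ℝ) < 2 ^ j0 := by positivity
    have h3 : (K : ℝ) * (2 * N1 / 2 ^ j0) * (L + 1) ^ K = (K * (2 * N1) * (L + 1) ^ K) / 2 ^ j0 := by ring
    rw [h3, div_le_iff₀ h2]
    linarith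
  obtain ⟨W, hW1, hW2, hW3, hW4⟩ := exists_windows K L hL0 (2 ^ j0)
  obtain ⟨T0, hT0⟩ := exists_nat_ge ((∑ i, ∏ p ∈ W i, (p : ℝ)) * (8 * K) / e + 1)
  refine ⟨T0, fun T hT E hE hcard => ?_⟩
  have hprod0 : ∀ i, (0 : ℝ) ≤ ∏ p ∈ W i, (p : ℝ) := fun i => Finset.prod_nonneg fun p _ => Nat.cast_nonneg p
  have hTR : (∑ i, ∏ p ∈ W i, (p : ℝ)) * (8 * K) / e + 1 ≤ T := hT0.trans (by exact_mod_cast hT)
  have hsum0 : (0 : ℝ) ≤ ∑ i, ∏ p ∈ W i, (p : ℝ) := Finset.sum_nonneg fun i _ => hprod0 i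
  have hT1R : (1 : ℝ) ≤ T := by
    have : 0 ≤ (∑ i, ∏ p ∈ W i, (p : ℝ)) * (8 * K) / e := by positivity
    linarith
  have hT1 : 1 ≤ T := by exact_mod_cast hT1R
  have hprod : ∀ i, ∏ p ∈ W i, (p : ℝ) ≤ e * T / (8 * K) := by
    intro i
    have h1 : ∏ p ∈ W i, (p : ℝ) ≤ ∑ i, ∏ p ∈ W i, (p : ℝ) :=
      Finset.single_le_sum (f := fun i => ∏ p ∈ W i, (p : ℝ)) (fun i _ => hprod0 i) (Finset.mem_univ i)
    rw [le_div_iff₀ (by positivity)]
    have h2 : (∑ i, ∏ p ∈ W i, (p : ℝ)) * (8 * K) / e ≤ T := by linarith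
    rw [div_le_iff₀ he0] at h2
    have h3 : (∏ p ∈ W i, (p : ℝ)) * (8 * K) ≤ (∑ i, ∏ p ∈ W i, (p : ℝ)) * (8 * K) :=
      mul_le_mul_of_nonneg_right h1 (by positivity)
    linarith
  have hWp : ∀ i, ∀ p ∈ W i, p.Prime := fun i p hp => (hW1 i p hp).1
  have hcnt : ∀ i, (((Finset.Icc 1 T).filter (fun a => ∀ p ∈ W i, ¬ p ∣ a)).card : ℝ) ≤ e * T / (4 * K) := by
    intro i
    refine (count_no_prime (W i) (hWp i) T).trans ?_
    have h1 : Real.exp (-∑ p ∈ W i, (1 : ℝ) / p) ≤ e / (8 * K) := by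
      rw [← hexp]
      exact Real.exp_le_exp.2 (neg_le_neg (hW2 i))
    have h2 : (T : ℝ) * Real.exp (-∑ p ∈ W i, (1 : ℝ) / p) ≤ T * (e / (8 * K)) :=
      mul_le_mul_of_nonneg_left h1 (by linarith)
    have h3 := hprod i
    have h4 : (T : ℝ) * (e / (8 * K)) + e * T / (8 * K) = e * T / (4 * K) := by
      field_simp
      ring
    linarith
  have hdbl := box_double K W hWp hW4 T E hE
  have hsumcnt : ∑ i, (((Finset.Icc 1 T).filter (fun a => ∀ p ∈ W i, ¬ p ∣ a)).card : ℝ) ≤ e * T / 4 := by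
    have h1 : ∑ i, (((Finset.Icc 1 T).filter (fun a => ∀ p ∈ W i, ¬ p ∣ a)).card : ℝ) ≤
        ∑ _i : Fin K, e * T / (4 * K) := Finset.sum_le_sum fun i _ => hcnt i
    rw [Finset.sum_const, Finset.card_univ, Fintype.card_fin, nsmul_eq_mul] at h1
    have h2 : (K : ℝ) * (e * T / (4 * K)) = e * T / 4 := by
      field_simp
    linarith
  have hj : ∀ i, ∀ p ∈ W i, 2 ^ j0 ≤ p := fun i p hp => (hW1 i p hp).2.le
  have hthin := box_thin K W L hL0 hW3 j0 N1 hj T E hE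
  have hthin2 : (K : ℝ) * T * (2 * N1 / 2 ^ j0) * (L + 1) ^ K ≤ e * T / 4 := by
    have h1 : (K : ℝ) * T * (2 * N1 / 2 ^ j0) * (L + 1) ^ K = T * (K * (2 * N1 / 2 ^ j0) * (L + 1) ^ K) := by ring
    rw [h1]
    have h2 := mul_le_mul_of_nonneg_left hj0' (by linarith : (0 : ℝ) ≤ T)
    linarith
  have hsplit := Finset.sum_filter_add_sum_filter_not (Fintype.piFinset W)
    (fun x => ∃ i, ((W i).filter (fun q => Nat.log 2 q = Nat.log 2 (x i))).card < N1)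
    (fun x => (((Finset.Icc 1 T).filter (fun b => b * ∏ i, x i ∈ E)).card : ℝ))
  have hET : e * T ≤ eps * T := mul_le_mul_of_nonneg_right hee (by linarith)
  have heT : 0 < e * T := by positivity
  have hlam : ∏ i, ∑ p ∈ W i, (1 : ℝ) / p ≤ (L + 1) ^ K := by
    have h1 : ∏ i, ∑ p ∈ W i, (1 : ℝ) / p ≤ ∏ _i : Fin K, (L + 1) :=
      Finset.prod_le_prod (fun i _ => Finset.sum_nonneg fun p _ => by positivity) (fun i _ => hW3 i)
    rwa [Finset.prod_const, Finset.card_univ, Fintype.card_fin] at h1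
  obtain ⟨b0, P, hb0, hP1, hP2, hP3⟩ := box_cell K W (fun i p hp => (hWp i p hp).one_lt.le) N1 hN11
    ((L + 1) ^ K) hLam hlam T hT1 E hE e he0 (by linarith)
  exact ⟨b0, P, hb0, fun i p hp => hWp i p (hP1 i hp), fun i => hN10.trans (hP2 i), hP3⟩

end H4AR
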