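import Pool.Agent.H4.AR.SievB
import Pool.Agent.H4.AR.BoxA
import Pool.Agent.H4.AR.BoxB
import Pool.Agent.H4.AR.BoxC

/-!
H4/AR/BoxT: quantitative version of Box: a set E in [1,T] with more than T/(log T)^c elements contains a proportion
≥ 1/log T of a box b0 * P_1 * ... * P_K of products of primes, |P_i| ≥ exp((log T)^c). (Compare the proof of `box` in
Box.lean, which is the same argument with fixed windows.)

PROOF. If K = 0: take b0 in E (E is nonempty as T/(log T)^c ≥ 0; 1/log T ≤ 1 for T ≥ 3), as in Box.lean. Let K ≥ 1,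
L = log T, q = 1/(K+2), c = q/2 > 0. Windows W_i = PI (exp(L^((i+1) q))) (exp(L^((i+2) q))), the set of the primes p with
exp(L^((i+1) q)) < p ≤ exp(L^((i+2) q)), i = 0, ..., K-1 (Pool.Agent.H75.AP.PI; `MertB.mem_PI`; real powers). T large: L ≥ 2^(1/q) etc., so exp(L^q) ≥ 3 and the upper ends are
≤ exp(L) = T as (i+2) q ≤ (K+1)/(K+2) < 1. The windows are disjoint.
(1) sieve_window (y = exp(L^((i+1)q)), z = exp(L^((i+2)q))): #{a ≤ T without prime factor in W_i} ≤ Cs T L^(-q).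
(2) Sum over W_i of 1/p ≤ sum over the primes ≤ T of 1/p ≤ log L + Cm (mertens_upper; PI 0 T); Lam1 := log L + Cm (≥ 1 for T
large), so box_thin can be used with its L := Lam1 - 1 ≥ 0 (then L+1 = Lam1).
(3) Let e = card E/T, so L^(-c) < e ≤ 1. box_double: the sum over x of #{b} is ≥ card E - K Cs T L^(-q) ≥ (3/4) e T, as
K Cs L^(-q) ≤ L^(-c)/4 for T large.
(4) j0 = Nat.log 2 (Nat.floor(exp(L^q))) or any natural number with 2^j0 ≤ exp(L^q) ≤ 2^(j0+1); N1 = Nat.ceil(exp(L^c)) ≥ 1, box_thin: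
the tuples with a thin component contribute ≤ K T (2 N1/2^j0) Lam1^K ≤ K T * 16 exp(L^c - L^q) (log L + Cm)^K
≤ T L^(-c)/4 ≤ e T/4 for T large (L^q = (L^c)^2 - L^c tends to infinity faster than any multiple of log L).
(5) So hbig of box_cell holds with eps = e and N0 = N1 (split the sum with `Finset.sum_filter_add_sum_filter_not`), Lam = Lam1^K,
and the density obtained is e/(4 * 2^K * Lam1^K) ≥ L^(-c)/(4 * 2^K (log L + Cm)^K) ≥ 1/L for T large (c ≤ 1/4 < 1).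
All conditions for T large: use L = log T tends to infinity and `isLittleO` facts (Real.isLittleO_log_rpow_atTop,
isLittleO_exp...), or explicit eventual statements in L with Filter.Eventually and the substitution L = log T.
-/

namespace H4AR

private theorem boxt_ev (K : ℕ) (Cs Cm c : ℝ) (hc : 0 < c) (hc1 : c < 1) :
    ∃ L0 : ℝ, ∀ L : ℝ, L0 ≤ L → 2 ≤ L ∧ 2 ≤ L ^ c ∧ 1 ≤ Real.log L ∧
      4 * (K * Cs) ≤ L ^ c ∧ 4 * 2 ^ K * (Real.log L + Cm) ^ K ≤ L ^ (1 - c) ∧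
      32 * K * L ≤ Real.exp (L ^ c) := by
  have h1 : ∀ᶠ L : ℝ in Filter.atTop, 2 ≤ L := Filter.eventually_ge_atTop 2
  have h2 : ∀ᶠ L : ℝ in Filter.atTop, 2 ≤ L ^ c := (tendsto_rpow_atTop hc).eventually_ge_atTop _
  have h3 : ∀ᶠ L : ℝ in Filter.atTop, 1 ≤ Real.log L := Real.tendsto_log_atTop.eventually_ge_atTop _
  have h3' : ∀ᶠ L : ℝ in Filter.atTop, |Cm| ≤ Real.log L := Real.tendsto_log_atTop.eventually_ge_atTop _
  have h4 : ∀ᶠ L : ℝ in Filter.atTop, 4 * (K * Cs) ≤ L ^ c := (tendsto_rpow_atTop hc).eventually_ge_atTop _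
  have h5 := (isLittleO_log_rpow_rpow_atTop (K : ℝ) (sub_pos.2 hc1)).bound
    (show (0 : ℝ) < 1 / (4 * 4 ^ K) by positivity)
  have h6 : ∀ᶠ L : ℝ in Filter.atTop, 32 * (K : ℝ) ≤ Real.exp (1 * L ^ c) / (L ^ c) ^ (1 / c) :=
    ((tendsto_exp_mul_div_rpow_atTop (1 / c) 1 one_pos).comp
      (tendsto_rpow_atTop hc)).eventually_ge_atTop _
  obtain ⟨L0, hL0⟩ := Filter.eventually_atTop.1
    (h1.and (h2.and (h3.and (h3'.and (h4.and (h5.and h6))))))
  refine ⟨L0, fun L hL => ?_⟩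
  obtain ⟨g1, g2, g3, g3', g4, g5, g6⟩ := hL0 L hL
  refine ⟨g1, g2, g3, g4, ?_, ?_⟩
  · have hLp : 0 < L := by linarith
    have hlog0 : 0 ≤ Real.log L := by linarith
    have e1 : (Real.log L + Cm) ^ K ≤ (2 * Real.log L) ^ K := by
      have : |Real.log L + Cm| ≤ 2 * Real.log L := by
        rw [abs_le]
        constructor
        · linarith [neg_abs_le Cm]
        · linarith [le_abs_self Cm]
      calc (Real.log L + Cm) ^ K ≤ |Real.log L + Cm| ^ K := by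
            rw [← abs_pow]
            exact le_abs_self _
        _ ≤ _ := pow_le_pow_left₀ (abs_nonneg _) this K
    rw [Real.rpow_natCast, Real.norm_of_nonneg (by positivity),
      Real.norm_of_nonneg (Real.rpow_nonneg hLp.le _)] at g5
    have e2 : (4 : ℝ) * 4 ^ K * Real.log L ^ K ≤ L ^ (1 - c) := by
      have hp : (0 : ℝ) < 4 * 4 ^ K := by positivity
      have := mul_le_mul_of_nonneg_left g5 hp.le
      have e3 : 4 * 4 ^ K * (1 / (4 * 4 ^ K) * L ^ (1 - c)) = L ^ (1 - c) := by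
        field_simp
      linarith
    calc 4 * 2 ^ K * (Real.log L + Cm) ^ K ≤ 4 * 2 ^ K * (2 * Real.log L) ^ K := by gcongr
      _ = 4 * 4 ^ K * Real.log L ^ K := by
          rw [mul_pow, show (4 : ℝ) ^ K = 2 ^ K * 2 ^ K by rw [← mul_pow]; norm_num]
          ring
      _ ≤ _ := e2
  · have hLp : 0 < L := by linarith
    have e1 : (L ^ c) ^ (1 / c) = L := by
      rw [← Real.rpow_mul hLp.le, mul_one_div_cancel hc.ne', Real.rpow_one]
    rw [e1, one_mul, le_div_iff₀ hLp] at g6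
    exact g6

theorem box_t (K : ℕ) : ∃ (c : ℝ) (T0 : ℕ), 0 < c ∧ ∀ T : ℕ, T0 ≤ T → ∀ E : Finset ℕ, E ⊆ Finset.Icc 1 T →
    (T : ℝ) / (Real.log T) ^ c < E.card →
    ∃ (b0 : ℕ) (P : Fin K → Finset ℕ), 1 ≤ b0 ∧ (∀ i, ∀ p ∈ P i, p.Prime) ∧
      (∀ i, Real.exp ((Real.log T) ^ c) ≤ ((P i).card : ℝ)) ∧
      1 / Real.log T * ∏ i, ((P i).card : ℝ) ≤
        (((Fintype.piFinset P).filter (fun x => b0 * ∏ i, x i ∈ E)).card : ℝ) := by
  rcases Nat.eq_zero_or_pos K with hK | hK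
  · subst hK
    refine ⟨1, 3, one_pos, fun T hT E hE hcard => ?_⟩
    have hT3 : (3 : ℝ) ≤ T := by exact_mod_cast hT
    have hlog : 1 ≤ Real.log T := by
      rw [Real.le_log_iff_exp_le (by linarith)]
      linarith [Real.exp_one_lt_d9]
    have hne : E.Nonempty := by
      rw [← Finset.card_pos]
      have h1 : (0 : ℝ) < E.card := lt_of_le_of_lt (by positivity) hcard
      exact_mod_cast h1
    obtain ⟨b0, hb0⟩ := hne
    refine ⟨b0, fun _ => ∅, (Finset.mem_Icc.1 (hE hb0)).1, fun i => i.elim0, fun i => i.elim0, ?_⟩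
    have h1 : (fun i => i.elim0 : Fin 0 → ℕ) ∈ (Fintype.piFinset (fun _ : Fin 0 => (∅ : Finset ℕ))).filter
        (fun x => b0 * ∏ i, x i ∈ E) := by
      rw [Finset.mem_filter, Fintype.mem_piFinset]
      refine ⟨fun i => i.elim0, ?_⟩
      simpa using hb0
    have h2 : 1 ≤ ((Fintype.piFinset (fun _ : Fin 0 => (∅ : Finset ℕ))).filter
        (fun x => b0 * ∏ i, x i ∈ E)).card := Finset.card_pos.2 ⟨_, h1⟩
    have h3 : (1 : ℝ) ≤ ((Fintype.piFinset (fun _ : Fin 0 => (∅ : Finset ℕ))).filter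
        (fun x => b0 * ∏ i, x i ∈ E)).card := by exact_mod_cast h2
    have h4 : 1 / Real.log T ≤ 1 := by
      rw [div_le_one (by linarith)]
      exact hlog
    calc 1 / Real.log T * ∏ i : Fin 0, (((∅ : Finset ℕ)).card : ℝ) = 1 / Real.log T := by simp
      _ ≤ 1 := h4
      _ ≤ _ := h3
  obtain ⟨Cs, hCs, hsv⟩ := sieve_window
  obtain ⟨Cm, hCm, hmert⟩ := Pool.Agent.H75.AP.mertens_upper
  have hKR : (1 : ℝ) ≤ K := by exact_mod_cast hK
  obtain ⟨q, hq⟩ : ∃ q : ℝ, q = 1 / (K + 2) := ⟨_, rfl⟩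
  have hq0 : 0 < q := by rw [hq]; positivity
  have hqK : (K + 2) * q = 1 := by
    rw [hq]
    field_simp
  obtain ⟨c, hc⟩ : ∃ c : ℝ, c = q / 2 := ⟨_, rfl⟩
  have hc0 : 0 < c := by rw [hc]; positivity
  have hq1 : q ≤ 1 := by nlinarith
  have hc1 : c < 1 := by linarith
  obtain ⟨L0, hL0⟩ := boxt_ev K Cs Cm c hc0 hc1
  obtain ⟨T0, hT0⟩ := exists_nat_ge (Real.exp L0)
  refine ⟨c, max T0 1, hc0, fun T hT E hE hcard => ?_⟩
  have hT1 : 1 ≤ T := (le_max_right _ _).trans hT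
  have hTr : (0 : ℝ) < T := by exact_mod_cast hT1
  obtain ⟨L, hL⟩ : ∃ L : ℝ, L = Real.log T := ⟨_, rfl⟩
  have hLL0 : L0 ≤ L := by
    rw [hL, Real.le_log_iff_exp_le hTr]
    exact hT0.trans (by exact_mod_cast (le_max_left _ _).trans hT)
  have hexpL : Real.exp L = T := by rw [hL, Real.exp_log hTr]
  obtain ⟨g1, g2, g3, g4, g5, g6⟩ := hL0 L hLL0
  have hLp : 0 < L := by linarith
  have hL1 : 1 ≤ L := by linarith
  rw [← hL] at hcard ⊢
  -- powers
  have hqc : L ^ q = L ^ c * L ^ c := by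
    rw [← Real.rpow_add hLp]
    congr 1
    linarith
  have hLq4 : 2 * L ^ c ≤ L ^ q := by
    rw [hqc]
    nlinarith
  have hLc0 : 0 < L ^ c := Real.rpow_pos_of_pos hLp _
  have hLq0 : 0 < L ^ q := Real.rpow_pos_of_pos hLp _
  have hexp2 : (3 : ℝ) ≤ Real.exp 2 := by
    have h := Real.add_one_le_exp (2 : ℝ)
    linarith
  have hexpq3 : 3 ≤ Real.exp (L ^ q) := hexp2.trans (Real.exp_le_exp.2 (by linarith))
  obtain ⟨lo, hlo⟩ : ∃ lo : Fin K → ℝ, lo = fun i : Fin K => Real.exp (L ^ ((((i : ℕ) : ℝ) + 1) * q)) := ⟨_, rfl⟩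
  obtain ⟨up, hup⟩ : ∃ up : Fin K → ℝ, up = fun i : Fin K => Real.exp (L ^ ((((i : ℕ) : ℝ) + 2) * q)) := ⟨_, rfl⟩
  have hlo1 : ∀ i, Real.exp (L ^ q) ≤ lo i := by
    intro i
    rw [hlo]
    refine Real.exp_le_exp.2 (Real.rpow_le_rpow_of_exponent_le hL1 ?_)
    have : (0 : ℝ) ≤ ((i : ℕ) : ℝ) := Nat.cast_nonneg _
    nlinarith
  have hloup : ∀ i, lo i ≤ up i := by
    intro i
    rw [hlo, hup]
    refine Real.exp_le_exp.2 (Real.rpow_le_rpow_of_exponent_le hL1 ?_)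
    nlinarith
  have hupT : ∀ i, up i ≤ T := by
    intro i
    rw [hup, ← hexpL]
    refine Real.exp_le_exp.2 ?_
    have h1 : L ^ ((((i : ℕ) : ℝ) + 2) * q) ≤ L ^ (1 : ℝ) := by
      refine Real.rpow_le_rpow_of_exponent_le hL1 ?_
      have h2 : ((i : ℕ) : ℝ) ≤ K := by exact_mod_cast i.2.le
      nlinarith
    rwa [Real.rpow_one] at h1
  have hlo3 : ∀ i, 3 ≤ lo i := fun i => hexpq3.trans (hlo1 i)
  have hlo0 : ∀ i, 0 ≤ lo i := fun i => by linarith [hlo3 i]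
  obtain ⟨W, hW⟩ : ∃ W : Fin K → Finset ℕ, W = fun i => Pool.Agent.H75.AP.PI (lo i) (up i) := ⟨_, rfl⟩
  have hWmem : ∀ i p, p ∈ W i ↔ p.Prime ∧ lo i < (p : ℝ) ∧ (p : ℝ) ≤ up i := by
    intro i p
    rw [hW]
    exact Pool.Agent.H75.AP.MertB.mem_PI (hlo0 i)
  have hWp : ∀ i, ∀ p ∈ W i, p.Prime := fun i p hp => ((hWmem i p).1 hp).1
  have hdis' : ∀ i j : Fin K, i < j → Disjoint (W i) (W j) := by
    intro i j hij
    rw [Finset.disjoint_left]
    intro p hp hp'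
    have h1 := ((hWmem i p).1 hp).2.2
    have h2 := ((hWmem j p).1 hp').2.1
    have h3 : up i ≤ lo j := by
      rw [hlo, hup]
      refine Real.exp_le_exp.2 (Real.rpow_le_rpow_of_exponent_le hL1 ?_)
      have h4 : ((i : ℕ) : ℝ) + 1 ≤ (j : ℕ) := by
        have : (i : ℕ) + 1 ≤ (j : ℕ) := hij
        exact_mod_cast this
      nlinarith
    linarith
  have hdis : ∀ i j, i ≠ j → Disjoint (W i) (W j) := by
    intro i j hij
    rcases lt_or_gt_of_ne hij with h | h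
    · exact hdis' i j h
    · exact (hdis' j i h).symm
  have hcnt : ∀ i, (((Finset.Icc 1 T).filter (fun a => ∀ p ∈ W i, ¬ p ∣ a)).card : ℝ) ≤
      Cs * T * (L ^ q)⁻¹ := by
    intro i
    have h1 := hsv (lo i) (up i) T (hlo3 i) (hloup i) (hupT i)
    have h2 : Cs * T * Real.log (lo i) / Real.log (up i) = Cs * T * (L ^ q)⁻¹ := by
      rw [hlo, hup]
      simp only [Real.log_exp]
      have h3 : L ^ ((((i : ℕ) : ℝ) + 2) * q) = L ^ ((((i : ℕ) : ℝ) + 1) * q) * L ^ q := by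
        rw [← Real.rpow_add hLp]
        congr 1
        ring
      have h4 : L ^ ((((i : ℕ) : ℝ) + 1) * q) ≠ 0 := (Real.rpow_pos_of_pos hLp _).ne'
      rw [h3]
      field_simp
    rw [h2] at h1
    rw [hW]
    exact h1
  have hLam1 : 1 ≤ Real.log L + Cm := by linarith
  have hsumW : ∀ i, ∑ p ∈ W i, (1 : ℝ) / p ≤ (Real.log L + Cm - 1) + 1 := by
    intro i
    have h3T : (3 : ℝ) ≤ T := (hlo3 i).trans ((hloup i).trans (hupT i))
    have h1 := hmert T h3T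
    rw [← hL] at h1
    have h2 : W i ⊆ Pool.Agent.H75.AP.PI 0 T := by
      intro p hp
      have h3 := (hWmem i p).1 hp
      rw [Pool.Agent.H75.AP.MertB.mem_PI le_rfl]
      exact ⟨h3.1, by linarith [hlo3 i], h3.2.2.trans (hupT i)⟩
    have h4 : ∑ p ∈ W i, (1 : ℝ) / p ≤ ∑ p ∈ Pool.Agent.H75.AP.PI 0 T, (1 : ℝ) / p :=
      Finset.sum_le_sum_of_subset_of_nonneg h2 fun p _ _ => by positivity
    linarith
  obtain ⟨Lam, hLam⟩ : ∃ Lam : ℝ, Lam = (Real.log L + Cm) ^ K := ⟨_, rfl⟩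
  have hLam1' : 1 ≤ Lam := by
    rw [hLam]
    exact one_le_pow₀ hLam1
  rw [← hLam] at g5
  -- density
  obtain ⟨e, he⟩ : ∃ e : ℝ, e = E.card / T := ⟨_, rfl⟩
  have heT : e * T = E.card := by
    rw [he]
    field_simp
  have heL : (L ^ c)⁻¹ < e := by
    rw [he, lt_div_iff₀ hTr]
    calc (L ^ c)⁻¹ * T = T / L ^ c := by
          rw [div_eq_mul_inv]
          ring
      _ < _ := hcard
  have he0 : 0 < e := lt_trans (by positivity) heL
  -- bad numbers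
  have hdbl := box_double K W hWp hdis T E hE
  have hbad : ∑ i, (((Finset.Icc 1 T).filter (fun a => ∀ p ∈ W i, ¬ p ∣ a)).card : ℝ) ≤ e * T / 4 := by
    have h1 : ∑ i, (((Finset.Icc 1 T).filter (fun a => ∀ p ∈ W i, ¬ p ∣ a)).card : ℝ) ≤
        ∑ _i : Fin K, Cs * T * (L ^ q)⁻¹ := Finset.sum_le_sum fun i _ => hcnt i
    rw [Finset.sum_const, Finset.card_univ, Fintype.card_fin, nsmul_eq_mul] at h1
    have h2 : (K : ℝ) * (Cs * T * (L ^ q)⁻¹) ≤ (L ^ c)⁻¹ * T / 4 := by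
      rw [hqc, mul_inv]
      have h3 : K * Cs * (L ^ c)⁻¹ ≤ 1 / 4 := by
        rw [← div_eq_mul_inv, div_le_iff₀ hLc0]
        linarith
      have h4 : (0 : ℝ) ≤ (L ^ c)⁻¹ * T := by positivity
      have h5 := mul_le_mul_of_nonneg_right h3 h4
      calc (K : ℝ) * (Cs * T * ((L ^ c)⁻¹ * (L ^ c)⁻¹)) = K * Cs * (L ^ c)⁻¹ * ((L ^ c)⁻¹ * T) := by ring
        _ ≤ 1 / 4 * ((L ^ c)⁻¹ * T) := h5
        _ = _ := by ring
    have h6 : (L ^ c)⁻¹ * T ≤ e * T := mul_le_mul_of_nonneg_right heL.le hTr.le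
    linarith
  -- thin tuples
  obtain ⟨j0, hj0⟩ : ∃ j0 : ℕ, j0 = Nat.log 2 ⌊Real.exp (L ^ q)⌋₊ := ⟨_, rfl⟩
  have hfl0 : ⌊Real.exp (L ^ q)⌋₊ ≠ 0 := by
    rw [← Nat.pos_iff_ne_zero, Nat.floor_pos]
    linarith
  have hj1 : (2 : ℝ) ^ j0 ≤ Real.exp (L ^ q) := by
    have h1 : 2 ^ j0 ≤ ⌊Real.exp (L ^ q)⌋₊ := by
      rw [hj0]
      exact Nat.pow_log_le_self 2 hfl0
    have h2 : ((2 ^ j0 : ℕ) : ℝ) ≤ (⌊Real.exp (L ^ q)⌋₊ : ℝ) := by exact_mod_cast h1
    push_cast at h2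
    exact h2.trans (Nat.floor_le (Real.exp_pos _).le)
  have hj2 : Real.exp (L ^ q) ≤ 2 * 2 ^ j0 := by
    have h1 : ⌊Real.exp (L ^ q)⌋₊ < 2 ^ (j0 + 1) := by
      rw [hj0]
      exact Nat.lt_pow_succ_log_self (by norm_num) _
    have h2 : ((⌊Real.exp (L ^ q)⌋₊ + 1 : ℕ) : ℝ) ≤ ((2 ^ (j0 + 1) : ℕ) : ℝ) := by exact_mod_cast h1
    push_cast at h2
    have h3 := Nat.lt_floor_add_one (Real.exp (L ^ q))
    rw [pow_succ] at h2
    linarith
  have hj : ∀ i, ∀ p ∈ W i, 2 ^ j0 ≤ p := by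
    intro i p hp
    have h1 := ((hWmem i p).1 hp).2.1
    have h2 : ((2 ^ j0 : ℕ) : ℝ) ≤ (p : ℝ) := by
      push_cast
      linarith [hlo1 i]
    exact_mod_cast h2
  obtain ⟨N1, hN1⟩ : ∃ N1 : ℕ, N1 = ⌈Real.exp (L ^ c)⌉₊ := ⟨_, rfl⟩
  have hN1a : Real.exp (L ^ c) ≤ N1 := by
    rw [hN1]
    exact Nat.le_ceil _
  have hexpc1 : 1 ≤ Real.exp (L ^ c) := Real.one_le_exp hLc0.le
  have hN11 : 1 ≤ N1 := by
    have : (1 : ℝ) ≤ N1 := hexpc1.trans hN1a
    exact_mod_cast this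
  have hN1b : (N1 : ℝ) ≤ 2 * Real.exp (L ^ c) := by
    rw [hN1]
    have := Nat.ceil_lt_add_one (Real.exp_pos (L ^ c)).le
    linarith
  have hthin := box_thin K W (Real.log L + Cm - 1) (by linarith) hsumW j0 N1 hj T E hE
  have hthin2 : (K : ℝ) * T * (2 * N1 / 2 ^ j0) * (Real.log L + Cm - 1 + 1) ^ K ≤ e * T / 4 := by
    rw [sub_add_cancel, ← hLam]
    have h2j : (0 : ℝ) < 2 ^ j0 := by positivity
    have h1 : (2 * N1 / 2 ^ j0 : ℝ) ≤ 8 / Real.exp (L ^ c) := by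
      rw [div_le_div_iff₀ h2j (Real.exp_pos _)]
      have h3 : Real.exp (L ^ c) * Real.exp (L ^ c) ≤ 2 * 2 ^ j0 := by
        rw [← Real.exp_add]
        refine le_trans (Real.exp_le_exp.2 ?_) hj2
        linarith
      have h4 : (N1 : ℝ) * Real.exp (L ^ c) ≤ 2 * Real.exp (L ^ c) * Real.exp (L ^ c) :=
        mul_le_mul_of_nonneg_right hN1b (Real.exp_pos _).le
      nlinarith
    have h5 : Lam ≤ L ^ (1 - c) := by
      have h6 : (1 : ℝ) ≤ 4 * 2 ^ K := by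
        have : (1 : ℝ) ≤ 2 ^ K := one_le_pow₀ (by norm_num)
        linarith
      nlinarith
    have h7 : L ^ (1 - c) = L * (L ^ c)⁻¹ := by
      rw [Real.rpow_sub hLp, Real.rpow_one, div_eq_mul_inv]
    have h8 : K * (8 / Real.exp (L ^ c)) * Lam ≤ (L ^ c)⁻¹ / 4 := by
      have h9 : 0 < Real.exp (L ^ c) := Real.exp_pos _
      calc K * (8 / Real.exp (L ^ c)) * Lam ≤ K * (8 / Real.exp (L ^ c)) * (L * (L ^ c)⁻¹) := by
            rw [← h7]
            gcongr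
        _ = (32 * K * L) / Real.exp (L ^ c) * ((L ^ c)⁻¹ / 4) := by ring
        _ ≤ 1 * ((L ^ c)⁻¹ / 4) := by
            refine mul_le_mul_of_nonneg_right ?_ (by positivity)
            rw [div_le_one h9]
            exact g6
        _ = _ := one_mul _
    calc (K : ℝ) * T * (2 * N1 / 2 ^ j0) * Lam ≤ K * T * (8 / Real.exp (L ^ c)) * Lam := by gcongr
      _ = T * (K * (8 / Real.exp (L ^ c)) * Lam) := by ring
      _ ≤ T * ((L ^ c)⁻¹ / 4) := by gcongr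
      _ ≤ T * (e / 4) := by gcongr
      _ = _ := by ring
  have hsplit := Finset.sum_filter_add_sum_filter_not (Fintype.piFinset W)
    (fun x => ∃ i, ((W i).filter (fun q => Nat.log 2 q = Nat.log 2 (x i))).card < N1)
    (fun x => (((Finset.Icc 1 T).filter (fun b => b * ∏ i, x i ∈ E)).card : ℝ))
  have hlam : ∏ i, ∑ p ∈ W i, (1 : ℝ) / p ≤ Lam := by
    have h1 : ∏ i, ∑ p ∈ W i, (1 : ℝ) / p ≤ ∏ _i : Fin K, (Real.log L + Cm) := by
      refine Finset.prod_le_prod (fun i _ => Finset.sum_nonneg fun p _ => by positivity) (fun i _ => ?_)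
      have := hsumW i
      linarith
    rw [Finset.prod_const, Finset.card_univ, Fintype.card_fin] at h1
    rw [hLam]
    exact h1
  have heT0 : 0 < e * T := by positivity
  obtain ⟨b0, P, hb0, hP1, hP2, hP3⟩ := box_cell K W (fun i p hp => (hWp i p hp).one_lt.le) N1 hN11
    Lam (by linarith) hlam T hT1 E hE e he0 (by linarith)
  refine ⟨b0, P, hb0, fun i p hp => hWp i p (hP1 i hp), fun i => ?_, ?_⟩
  · exact hN1a.trans (by exact_mod_cast hP2 i)
  · refine le_trans (mul_le_mul_of_nonneg_right ?_ (Finset.prod_nonneg fun i _ => Nat.cast_nonneg _)) hP3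
    have hLamp : 0 < 4 * 2 ^ K * Lam := by positivity
    rw [div_le_div_iff₀ hLp hLamp, one_mul]
    calc 4 * 2 ^ K * Lam ≤ L ^ (1 - c) := g5
      _ = (L ^ c)⁻¹ * L := by
        rw [Real.rpow_sub hLp, Real.rpow_one, div_eq_mul_inv]
        ring
      _ ≤ e * L := by gcongr

end H4AR
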