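import Pool.Agent.H4.AR.Def

/-!
H4/AR/Ord: an integer polynomial P ≠ 0 in one variable of small height cannot vanish to high order at a rational number
of large height: if i is the order of P at r = p/q then ht(r)^i ≤ sum of |coefficients of P|.

PROOF. Let i be the multiplicity of r as a root of P over Q (`Polynomial.rootMultiplicity`); (X - r)^i divides P over Q
and (P.comp (X + C r)).coeff i ≠ 0 (P = (X-r)^i Q with Q(r) ≠ 0; P(X+r) = X^i Q(X+r), its coefficient at i is Q(r)).
With r = p/q in lowest terms, L = C q * X - C p in Z[X] is primitive (coprime coefficients), so L^i is primitive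
(`Polynomial.IsPrimitive.mul`/`pow`) and L^i divides P over Q (it is q^i (X-r)^i), hence over Z
(`Polynomial.IsPrimitive.dvd_of_fraction_map_dvd_fraction_map` or `Polynomial.IsPrimitive.Int.dvd_iff_map_cast_dvd_map_cast`).
P = L^i * S, S ≠ 0: leading coefficients: |lead P| = q^i |lead S| ≥ q^i. If p ≠ 0: trailing coefficients
(`Polynomial.trailingCoeff_mul`): |trailing P| ≥ |p|^i. Both are ≤ the sum of the absolute values of the coefficients, so
max(|p|,q)^i ≤ sum. If p = 0 then ht r = 1 (q = 1) and the sum is ≥ 1.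
-/

namespace H4AR

open Polynomial

private theorem coeff_le (P : Polynomial ℤ) (n : ℕ) (hn : P.coeff n ≠ 0) :
    |((P.coeff n : ℤ) : ℝ)| ≤ ∑ j ∈ P.support, |((P.coeff j : ℤ) : ℝ)| :=
  Finset.single_le_sum (f := fun j => |((P.coeff j : ℤ) : ℝ)|) (fun _ _ => abs_nonneg _)
    (Polynomial.mem_support_iff.2 hn)

theorem ord_bound (P : Polynomial ℤ) (hP : P ≠ 0) (r : ℚ) :
    ∃ i : ℕ, ((P.map (Int.castRingHom ℚ)).comp (Polynomial.X + Polynomial.C r)).coeff i ≠ 0 ∧
      (ht r) ^ i ≤ ∑ j ∈ P.support, |((P.coeff j : ℤ) : ℝ)| := by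
  obtain ⟨p', hp'⟩ : ∃ p' : Polynomial ℚ, p' = P.map (Int.castRingHom ℚ) := ⟨_, rfl⟩
  have hP' : p' ≠ 0 := by
    rw [hp']
    exact (Polynomial.map_ne_zero_iff Int.cast_injective).2 hP
  obtain ⟨i, hi⟩ : ∃ i, i = p'.rootMultiplicity r := ⟨_, rfl⟩
  obtain ⟨Q, hQ, hQr⟩ := Polynomial.exists_eq_pow_rootMultiplicity_mul_and_not_dvd p' hP' r
  rw [← hi] at hQ
  have hQe : Q.eval r ≠ 0 := by
    intro h0
    exact hQr (Polynomial.dvd_iff_isRoot.2 h0)
  refine ⟨i, ?_, ?_⟩
  · rw [← hp', hQ, Polynomial.mul_comp, Polynomial.pow_comp, Polynomial.sub_comp, Polynomial.X_comp,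
      Polynomial.C_comp, add_sub_cancel_right, Polynomial.coeff_X_pow_mul', if_pos le_rfl,
      Nat.sub_self, Polynomial.coeff_zero_eq_eval_zero, Polynomial.eval_comp]
    simpa using hQe
  · -- the primitive polynomial
    obtain ⟨L, hL⟩ : ∃ L : Polynomial ℤ, L = C (r.den : ℤ) * X + C (-r.num) := ⟨_, rfl⟩
    have hden : (r.den : ℤ) ≠ 0 := by exact_mod_cast r.den_nz
    have hL1 : L.coeff 1 = r.den := by
      rw [hL, Polynomial.coeff_add, Polynomial.coeff_C_mul, Polynomial.coeff_X_one,
        Polynomial.coeff_C, if_neg one_ne_zero, mul_one, add_zero]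
    have hL0 : L.coeff 0 = -r.num := by
      rw [hL, Polynomial.coeff_add, Polynomial.coeff_C_mul, Polynomial.coeff_X_zero,
        Polynomial.coeff_C_zero, mul_zero, zero_add]
    have hLp : L.IsPrimitive := by
      rw [Polynomial.isPrimitive_iff_isUnit_of_C_dvd]
      intro a ha
      rw [Polynomial.C_dvd_iff_dvd_coeff] at ha
      have h1 := ha 1
      have h0 := ha 0
      rw [hL1] at h1
      rw [hL0, dvd_neg] at h0
      have h2 : IsCoprime (r.num : ℤ) (r.den : ℤ) := Rat.isCoprime_num_den r
      exact h2.isUnit_of_dvd' h0 h1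
    have hLi : ∀ k : ℕ, (L ^ k).IsPrimitive := by
      intro k
      induction k with
      | zero =>
        rw [pow_zero]
        exact Polynomial.isPrimitive_one
      | succ k ih =>
        rw [pow_succ]
        exact ih.mul hLp
    have hLm : (L.map (Int.castRingHom ℚ)) = C (r.den : ℚ) * (X - C r) := by
      have hr : (r.den : ℚ) * r = r.num := by
        rw [mul_comm]
        exact Rat.mul_den_eq_num r
      rw [hL]
      rw [Polynomial.map_add, Polynomial.map_mul, Polynomial.map_X, Polynomial.map_C,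
        Polynomial.map_C, mul_sub, ← Polynomial.C_mul, hr, sub_eq_add_neg, ← Polynomial.C_neg]
      simp
    have hdv : L ^ i ∣ P := by
      rw [Polynomial.IsPrimitive.Int.dvd_iff_map_cast_dvd_map_cast _ _ (hLi i), ← hp', hQ,
        Polynomial.map_pow, hLm, mul_pow]
      refine ⟨C ((r.den : ℚ)⁻¹) ^ i * Q, ?_⟩
      have h1 : C (r.den : ℚ) * C ((r.den : ℚ)⁻¹) = 1 := by
        rw [← Polynomial.C_mul, mul_inv_cancel₀ (by exact_mod_cast r.den_nz), Polynomial.C_1]
      calc (X - C r) ^ i * Q = (C (r.den : ℚ) * C ((r.den : ℚ)⁻¹)) ^ i * (X - C r) ^ i * Q := by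
            rw [h1, one_pow, one_mul]
        _ = _ := by ring
    obtain ⟨S, hS⟩ := hdv
    have hS0 : S ≠ 0 := by
      rintro rfl
      rw [mul_zero] at hS
      exact hP hS
    have key : ∀ (x y : ℤ) (n : ℕ), x ≠ 0 → P.coeff n = y ^ i * x → y ≠ 0 →
        |(y : ℝ)| ^ i ≤ ∑ j ∈ P.support, |((P.coeff j : ℤ) : ℝ)| := by
      intro x y n hx hn hy
      refine le_trans ?_ (coeff_le P n ?_)
      · rw [hn, Int.cast_mul, Int.cast_pow, abs_mul, abs_pow]
        have h1 : (1 : ℝ) ≤ |(x : ℝ)| := by exact_mod_cast Int.one_le_abs hx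
        exact le_mul_of_one_le_right (by positivity) h1
      · rw [hn]
        exact mul_ne_zero (pow_ne_zero _ hy) hx
    rcases le_total |(r.num : ℝ)| (r.den : ℝ) with hle | hle
    · have h1 : ht r = |((r.den : ℤ) : ℝ)| := by
        unfold ht
        rw [max_eq_right hle]
        simp
      rw [h1]
      refine key S.leadingCoeff r.den P.natDegree (by simpa using hS0) ?_ hden
      have h2 : P.leadingCoeff = L.leadingCoeff ^ i * S.leadingCoeff := by
        rw [hS, Polynomial.leadingCoeff_mul, Polynomial.leadingCoeff_pow]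
      rw [Polynomial.leadingCoeff] at h2
      rw [h2, hL, Polynomial.leadingCoeff_linear hden]
    · have h1 : ht r = |(r.num : ℝ)| := by
        unfold ht
        rw [max_eq_left hle]
      have hn0 : r.num ≠ 0 := by
        intro h0
        rw [h0] at hle
        have h3 : (0 : ℝ) < r.den := by exact_mod_cast r.den_pos
        simp at hle
      have hpow : ∀ k : ℕ, (L ^ k).trailingCoeff = L.trailingCoeff ^ k := by
        intro k
        induction k with
        | zero =>
          rw [pow_zero, pow_zero, Polynomial.trailingCoeff_eq_coeff_zero (by simp),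
            Polynomial.coeff_one_zero]
        | succ k ih => rw [pow_succ, Polynomial.trailingCoeff_mul, ih, pow_succ]
      have h2 : P.trailingCoeff = L.trailingCoeff ^ i * S.trailingCoeff := by
        rw [hS, Polynomial.trailingCoeff_mul, hpow]
      have h3 : L.trailingCoeff = -r.num := by
        rw [Polynomial.trailingCoeff_eq_coeff_zero (by rw [hL0]; exact neg_ne_zero.2 hn0), hL0]
      have h4 : ht r = |((-r.num : ℤ) : ℝ)| := by
        rw [h1]
        push_cast
        rw [abs_neg]
      rw [h4]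
      refine key S.trailingCoeff (-r.num) P.natTrailingDegree
        (Polynomial.trailingCoeff_nonzero_iff_nonzero.2 hS0) ?_ (neg_ne_zero.2 hn0)
      rw [Polynomial.trailingCoeff] at h2
      rw [h2, h3]

end H4AR
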