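import Pool.Agent.H4.AR.Split
import Pool.Agent.H4.AR.Ord
import Pool.Agent.H4.AR.L1

/-!
H4/AR/COrd: if F in Z[X_0..X_m] factors over Q as W(X_0) G(X_1..X_m), and the coefficient of G(X+r') at e is not 0, then
for some a with ht(r_0)^a ≤ l1 F the coefficient of F(X+r) at cons a e is not 0.

PROOF. G ≠ 0: choose u with G.coeff u ≠ 0. P in Z[X] the polynomial with coefficients P_a = F.coeff (cons a u), so by
coeff_split P over Q is G_u * W (as a polynomial in one variable: coefficients W.coeff (single 0 a)), P ≠ 0 as W ≠ 0.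
The sum of |P_a| is ≤ l1 F. `ord_bound` for P and r 0: a with ht(r_0)^a ≤ l1 F and (P(X + r_0)).coeff a ≠ 0, so the
coefficient of W(X + r_0) at a is not 0 (one variable: translate between Polynomial ℚ and MvPolynomial (Fin 1) ℚ, e.g.
by `Polynomial.comp` and `MvPolynomial.aeval`, or by the explicit formula coeff_sh_eq_sum and
`Polynomial.coeff_X_add_C_pow`-type formula for the Polynomial side). By sh_split and coeff_split the coefficient of
F(X+r) at cons a e is (coefficient of W(X+r_0) at a) * (coefficient of G(X+r') at e) ≠ 0.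
-/

namespace H4AR

open MvPolynomial

/-- a polynomial in one variable as an element of `MvPolynomial (Fin 1)` -/
private theorem coeff_uni (W : MvPolynomial (Fin 1) ℚ) (a : ℕ) :
    (MvPolynomial.aeval (fun _ : Fin 1 => (Polynomial.X : Polynomial ℚ)) W).coeff a =
      W.coeff (Finsupp.single 0 a) := by
  classical
  induction W using MvPolynomial.induction_on' with
  | monomial u c =>
    rw [MvPolynomial.aeval_monomial, Finsupp.prod_fintype _ _ (fun _ => pow_zero _), Fin.prod_univ_one,
      MvPolynomial.coeff_monomial, Polynomial.algebraMap_eq, Polynomial.coeff_C_mul_X_pow]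
    have : (u = Finsupp.single 0 a) ↔ a = u 0 := by
      constructor
      · rintro rfl; simp
      · intro h
        refine Finsupp.ext fun j => ?_
        rw [Subsingleton.elim j 0, Finsupp.single_eq_same, h]
    simp only [this]
  | add p q hp hq => rw [map_add, Polynomial.coeff_add, hp, hq, MvPolynomial.coeff_add]

private theorem comp_uni (W : MvPolynomial (Fin 1) ℚ) (r : ℚ) :
    (MvPolynomial.aeval (fun _ : Fin 1 => (Polynomial.X : Polynomial ℚ)) W).comp
        (Polynomial.X + Polynomial.C r) =
      MvPolynomial.aeval (fun _ : Fin 1 => (Polynomial.X : Polynomial ℚ)) (sh (fun _ => r) W) := by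
  have h : (Polynomial.aeval (Polynomial.X + Polynomial.C r : Polynomial ℚ)).comp
      (MvPolynomial.aeval (fun _ : Fin 1 => (Polynomial.X : Polynomial ℚ))) =
      (MvPolynomial.aeval (fun _ : Fin 1 => (Polynomial.X : Polynomial ℚ))).comp (sh (fun _ => r)) := by
    apply MvPolynomial.algHom_ext
    intro j
    rw [AlgHom.comp_apply, AlgHom.comp_apply, sh_X, map_add, MvPolynomial.aeval_X, MvPolynomial.aeval_C,
      Polynomial.aeval_X, Polynomial.algebraMap_eq]
  have h2 := DFunLike.congr_fun h W
  rw [AlgHom.comp_apply, AlgHom.comp_apply] at h2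
  rw [← h2]
  rfl

theorem coeff_order {m : ℕ} (F : MvPolynomial (Fin (m + 1)) ℤ) (W : MvPolynomial (Fin 1) ℚ)
    (G : MvPolynomial (Fin m) ℚ)
    (hF : toQ F = rename (fun _ : Fin 1 => (0 : Fin (m + 1))) W * rename Fin.succ G) (hW : W ≠ 0)
    (r : Fin (m + 1) → ℚ) (e : Fin m →₀ ℕ) (he : (sh (fun j => r j.succ) G).coeff e ≠ 0) :
    ∃ a : ℕ, (sh r (toQ F)).coeff (Finsupp.cons a e) ≠ 0 ∧ (ht (r 0)) ^ a ≤ l1 F := by
  classical
  have hG : G ≠ 0 := by
    rintro rfl
    rw [map_zero, coeff_zero] at he
    exact he rfl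
  obtain ⟨u, hu⟩ := MvPolynomial.ne_zero_iff.1 hG
  have hco : ∀ a : ℕ, ((F.coeff (Finsupp.cons a u) : ℤ) : ℚ) = W.coeff (Finsupp.single 0 a) * G.coeff u := by
    intro a
    have h1 : (toQ F).coeff (Finsupp.cons a u) = ((F.coeff (Finsupp.cons a u) : ℤ) : ℚ) := by
      unfold toQ
      rw [MvPolynomial.coeff_map]
      rfl
    rw [← h1, hF, coeff_split]
  -- the polynomial in one variable
  let I : Finset ℕ := F.support.image (fun e => e 0)
  let P : Polynomial ℤ := ∑ a ∈ I, Polynomial.monomial a (F.coeff (Finsupp.cons a u))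
  have hPc : ∀ a, P.coeff a = F.coeff (Finsupp.cons a u) := by
    intro a
    show (∑ a ∈ I, Polynomial.monomial a (F.coeff (Finsupp.cons a u))).coeff a = _
    rw [Polynomial.finsetSum_coeff]
    simp only [Polynomial.coeff_monomial]
    rw [Finset.sum_ite_eq' I a (fun b => F.coeff (Finsupp.cons b u))]
    split_ifs with ha
    · rfl
    · by_contra hne
      apply ha
      refine Finset.mem_image.2 ⟨Finsupp.cons a u, ?_, Finsupp.cons_zero a u⟩
      rw [MvPolynomial.mem_support_iff]
      exact fun h => hne h.symm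
  obtain ⟨w, hw⟩ := MvPolynomial.ne_zero_iff.1 hW
  have hw1 : w = Finsupp.single 0 (w 0) := by
    refine Finsupp.ext fun j => ?_
    rw [Subsingleton.elim j 0, Finsupp.single_eq_same]
  have hP : P ≠ 0 := by
    intro h0
    have h1 := hPc (w 0)
    rw [h0, Polynomial.coeff_zero] at h1
    have h2 := hco (w 0)
    rw [← h1, ← hw1] at h2
    exact mul_ne_zero hw hu (by rw [← h2]; simp)
  obtain ⟨i, hi1, hi2⟩ := ord_bound P hP (r 0)
  refine ⟨i, ?_, hi2.trans ?_⟩
  · rw [hF, sh_split, coeff_split]
    refine mul_ne_zero (fun h0 => hi1 ?_) he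
    have hmap : P.map (Int.castRingHom ℚ) =
        Polynomial.C (G.coeff u) * MvPolynomial.aeval (fun _ : Fin 1 => (Polynomial.X : Polynomial ℚ)) W := by
      ext a
      rw [Polynomial.coeff_map, hPc, Polynomial.coeff_C_mul, coeff_uni, mul_comm]
      exact hco a
    rw [hmap, Polynomial.mul_comp, Polynomial.C_comp, comp_uni, Polynomial.coeff_C_mul, coeff_uni, h0, mul_zero]
  · have hinj : Function.Injective (fun a : ℕ => (Finsupp.cons a u : Fin (m + 1) →₀ ℕ)) := by
      intro a b hab
      have := DFunLike.congr_fun hab 0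
      simpa using this
    have h1 : ∑ j ∈ P.support, |((P.coeff j : ℤ) : ℝ)| =
        ∑ e ∈ P.support.image (fun a : ℕ => (Finsupp.cons a u : Fin (m + 1) →₀ ℕ)), |((F.coeff e : ℤ) : ℝ)| := by
      rw [Finset.sum_image (fun a _ b _ h => hinj h)]
      apply Finset.sum_congr rfl
      intro j _
      rw [hPc]
    rw [h1]
    unfold l1
    apply Finset.sum_le_sum_of_subset_of_nonneg
    · intro e he'
      obtain ⟨a, ha, rfl⟩ := Finset.mem_image.1 he'
      rw [MvPolynomial.mem_support_iff, ← hPc]
      exact Polynomial.mem_support_iff.1 ha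
    · intro e _ _
      exact abs_nonneg _

end H4AR
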