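import Pool.Agent.H4.AR.ClsDef
import Pool.Agent.H4.AR.Shift

/-!
H4/AR/ClassV: the linear conditions of one class imply the vanishing of a coefficient of f(X + alpha).

PROOF. alpha_j = alp ... j > 0. t0 = (th b0/b)^(1/n), t_{l,s} = (mu l s)^(1/n) (positive reals, t^n = the base):
alpha_j = t0 * prod_l t_{l, v_j(l)} (`Real.mul_rpow`, `Real.finset_prod_rpow`), so for every exponent e
prod_j alpha_j^(e_j) = t0^(S0) prod_{l,s} t_{l,s}^(sumc v e l s), S0 = sum e_j. Division with remainder by n: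
= [t0^(S0 % n) prod t_{l,s}^(sumc % n)] (th b0/b)^(S0/n) prod (mu l s)^(sumc/n). The bracket depends on cls e only,
call it tau(cls e). Multiply by (b c)^Q, with q0 = S0/n ≤ Q: (b c)^Q (th b0/b)^q0 = b0^q0 (b c)^(Q-q0) c^q0 th^q0
= b0^q0 (b c)^(Q-q0) sum_io w q0 io th^io. So
(b c)^Q * mch e i * prod alpha^e = tau(cls e) * sum_io cf(e, io) th^io.
By coeff_sh_eq_sum the coefficient of sh alpha (toR f) at i, multiplied by prod alpha_j^(i_j) > 0 is
sum_e f_e mch(e,i) prod alpha_j^(e_j) (terms with i not ≤ e vanish, mch = 0; the support of toR f is the support of f or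
contained in it; coefficients of toR f are the casts). Multiply by (b c)^Q ≠ 0, group the e by their class
(`Finset.sum_fiberwise`): sum over classes rho of tau(rho) sum_io th^io (sum over e in the class of f_e cf(e,io)) = 0.
-/

set_option autoImplicit false

namespace H4AR

open MvPolynomial

private theorem cv_base {x : ℝ} (hx : 0 < x) {n : ℕ} (hn : 1 ≤ n) (N : ℕ) :
    (x ^ ((1 : ℝ) / n)) ^ N = (x ^ ((1 : ℝ) / n)) ^ (N % n) * x ^ (N / n) := by
  have hn0 : (n : ℝ) ≠ 0 := by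
    have : n ≠ 0 := by omega
    exact_mod_cast this
  have h1 : (x ^ ((1 : ℝ) / n)) ^ n = x := by
    rw [← Real.rpow_natCast, ← Real.rpow_mul hx.le, one_div, inv_mul_cancel₀ hn0, Real.rpow_one]
  conv_lhs => rw [← Nat.mod_add_div N n, pow_add, pow_mul, h1]

private theorem cv_prod {m k : ℕ} (t : Fin k → Bool → ℝ) (v : Fin m → Fin k → Bool) (e : Fin m →₀ ℕ) (l : Fin k) :
    ∏ j, t l (v j l) ^ e j = ∏ s, t l s ^ sumc v e l s := by
  unfold sumc
  have h1 : ∀ s : Bool, t l s ^ (∑ j, if v j l = s then e j else 0) =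
      ∏ j, t l s ^ (if v j l = s then e j else 0) := by
    intro s
    rw [Finset.prod_pow_eq_pow_sum]
  rw [Finset.prod_congr rfl fun s _ => h1 s, Finset.prod_comm]
  refine Finset.prod_congr rfl fun j _ => ?_
  rw [Fintype.prod_bool]
  cases v j l <;> simp

/-- the bracket depending only on the class -/
private noncomputable def cv_tau {k : ℕ} (t0 : ℝ) (t : Fin k → Bool → ℝ) (rho : ℕ × (Fin k → Bool → ℕ)) : ℝ :=
  t0 ^ rho.1 * ∏ l, ∏ s, t l s ^ rho.2 l s

theorem class_vanish {m k D : ℕ} (n b b0 Q : ℕ) (hn : 1 ≤ n) (hb : 1 ≤ b) (hb0 : 1 ≤ b0) (th : ℝ)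
    (hth : 0 < th) (c : ℤ) (hc : c ≠ 0) (w : ℕ → Fin D → ℤ)
    (hw : ∀ q, (c : ℝ) ^ q * th ^ q = ∑ i, (w q i : ℝ) * th ^ (i : ℕ)) (mu : Fin k → Bool → ℕ)
    (hmu : ∀ l s, 1 ≤ mu l s) (v : Fin m → Fin k → Bool) (f : MvPolynomial (Fin m) ℤ)
    (hQ : ∀ e ∈ f.support, (∑ j, e j) / n ≤ Q) (i : Fin m →₀ ℕ)
    (hvan : ∀ (rho : ℕ × (Fin k → Bool → ℕ)) (io : Fin D),
      ∑ e ∈ f.support.filter (fun e => cls n v e = rho), f.coeff e * cf n b b0 Q c w mu v i e io = 0) :
    (sh (alp n b b0 th mu v) (toR f)).coeff i = 0 := by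
  classical
  have hb' : (0 : ℝ) < b := by exact_mod_cast hb
  have hb0' : (0 : ℝ) < b0 := by exact_mod_cast hb0
  have hmu' : ∀ l s, (0 : ℝ) < mu l s := fun l s => by exact_mod_cast hmu l s
  have hc' : (c : ℝ) ≠ 0 := by exact_mod_cast hc
  set t0 : ℝ := (th * b0 / b) ^ ((1 : ℝ) / n) with ht0
  set t : Fin k → Bool → ℝ := fun l s => (mu l s : ℝ) ^ ((1 : ℝ) / n) with ht
  set α : Fin m → ℝ := alp n b b0 th mu v with hα
  have hx0 : 0 < th * b0 / b := by positivity
  have hαj : ∀ j, α j = t0 * ∏ l, t l (v j l) := by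
    intro j
    rw [hα]
    unfold alp vx
    have e1 : th * ((b0 * ∏ l, mu l (v j l) : ℕ) : ℝ) / b = (th * b0 / b) * ∏ l, (mu l (v j l) : ℝ) := by
      push_cast; ring
    rw [e1, Real.mul_rpow hx0.le (Finset.prod_nonneg fun l _ => (hmu' l _).le),
      Real.finsetProd_rpow _ _ fun l _ => (hmu' l _).le]
  have hαpos : ∀ j, 0 < α j := by
    intro j
    rw [hαj]
    have h1 : 0 < t0 := Real.rpow_pos_of_pos hx0 _
    have h2 : 0 < ∏ l, t l (v j l) := Finset.prod_pos fun l _ => Real.rpow_pos_of_pos (hmu' l _) _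
    positivity
  -- the key identity
  have key : ∀ e : Fin m →₀ ℕ, (∑ j, e j) / n ≤ Q →
      ((b : ℝ) * c) ^ Q * ((mch e i : ℝ) * ∏ j, α j ^ e j) =
        cv_tau t0 t (cls n v e) * ∑ io, (cf n b b0 Q c w mu v i e io : ℝ) * th ^ (io : ℕ) := by
    intro e he
    have e1 : ∏ j, α j ^ e j = t0 ^ (∑ j, e j) * ∏ l, ∏ s, t l s ^ sumc v e l s := by
      have h1 : ∀ j, α j ^ e j = t0 ^ e j * ∏ l, t l (v j l) ^ e j := by
        intro j
        rw [hαj, mul_pow, Finset.prod_pow]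
      rw [Finset.prod_congr rfl fun j _ => h1 j, Finset.prod_mul_distrib, Finset.prod_pow_eq_pow_sum,
        Finset.prod_comm]
      congr 1
      exact Finset.prod_congr rfl fun l _ => cv_prod t v e l
    have e2 : ∏ l, ∏ s, t l s ^ sumc v e l s =
        (∏ l, ∏ s, t l s ^ (sumc v e l s % n)) * ∏ l, ∏ s, (mu l s : ℝ) ^ (sumc v e l s / n) := by
      rw [← Finset.prod_mul_distrib]
      refine Finset.prod_congr rfl fun l _ => ?_
      rw [← Finset.prod_mul_distrib]
      exact Finset.prod_congr rfl fun s _ => cv_base (hmu' l s) hn _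
    have e3 : t0 ^ (∑ j, e j) = t0 ^ ((∑ j, e j) % n) * (th * b0 / b) ^ ((∑ j, e j) / n) :=
      cv_base hx0 hn _
    set q0 := (∑ j, e j) / n with hq0
    have e4 : ((b : ℝ) * c) ^ Q * (th * b0 / b) ^ q0 =
        (b0 : ℝ) ^ q0 * ((b : ℝ) * c) ^ (Q - q0) * ∑ io, (w q0 io : ℝ) * th ^ (io : ℕ) := by
      rw [← hw q0]
      have h1 : ((b : ℝ) * c) ^ Q = ((b : ℝ) * c) ^ (Q - q0) * ((b : ℝ) * c) ^ q0 := by
        rw [← pow_add]; congr 1; omega
      rw [h1, div_pow, mul_pow th, mul_pow (b : ℝ) (c : ℝ) q0]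
      field_simp
    have e5 : ∑ io, (cf n b b0 Q c w mu v i e io : ℝ) * th ^ (io : ℕ) =
        (mch e i : ℝ) * ((b0 : ℝ) ^ q0 * ((b : ℝ) * c) ^ (Q - q0) * ∑ io, (w q0 io : ℝ) * th ^ (io : ℕ)) *
          ∏ l, ∏ s, (mu l s : ℝ) ^ (sumc v e l s / n) := by
      rw [Finset.mul_sum, Finset.mul_sum, Finset.sum_mul]
      refine Finset.sum_congr rfl fun io _ => ?_
      unfold cf
      rw [← hq0]
      push_cast
      ring
    rw [e5, ← e4, e1, e2, e3]
    unfold cv_tau cls
    simp only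
    ring
  -- the coefficient
  have hcoef : (sh α (toR f)).coeff i = ∑ e ∈ f.support, ((f.coeff e : ℤ) : ℝ) * (mch e i : ℝ) *
      ∏ j, α j ^ (e j - i j) := by
    rw [coeff_sh_eq_sum]
    have hc1 : ∀ e, (toR f).coeff e = ((f.coeff e : ℤ) : ℝ) := by
      intro e; unfold toR; rw [MvPolynomial.coeff_map]; rfl
    rw [Finset.sum_congr rfl fun e _ => by rw [hc1 e]]
    apply Finset.sum_subset
    · exact MvPolynomial.support_map_subset _ _
    · intro e _ he
      rw [MvPolynomial.notMem_support_iff, hc1] at he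
      rw [he]; ring
  have hprodpos : 0 < ∏ j, α j ^ (i j) := Finset.prod_pos fun j _ => pow_pos (hαpos j) _
  have hmul : (sh α (toR f)).coeff i * ∏ j, α j ^ (i j) =
      ∑ e ∈ f.support, ((f.coeff e : ℤ) : ℝ) * ((mch e i : ℝ) * ∏ j, α j ^ e j) := by
    rw [hcoef, Finset.sum_mul]
    refine Finset.sum_congr rfl fun e _ => ?_
    by_cases hle : ∀ j, i j ≤ e j
    · have h1 : (∏ j, α j ^ (e j - i j)) * ∏ j, α j ^ (i j) = ∏ j, α j ^ e j := by
        rw [← Finset.prod_mul_distrib]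
        refine Finset.prod_congr rfl fun j _ => ?_
        rw [← pow_add, Nat.sub_add_cancel (hle j)]
      rw [mul_assoc, h1]; ring
    · push Not at hle
      obtain ⟨j, hj⟩ := hle
      have h0 : mch e i = 0 := by
        unfold mch
        exact Finset.prod_eq_zero (Finset.mem_univ j) (Nat.choose_eq_zero_of_lt hj)
      rw [h0]; push_cast; ring
  have hzero : ((b : ℝ) * c) ^ Q * ((sh α (toR f)).coeff i * ∏ j, α j ^ (i j)) = 0 := by
    rw [hmul, Finset.mul_sum]
    have h1 : ∀ e ∈ f.support, ((b : ℝ) * c) ^ Q * (((f.coeff e : ℤ) : ℝ) * ((mch e i : ℝ) * ∏ j, α j ^ e j)) =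
        cv_tau t0 t (cls n v e) * ∑ io, ((f.coeff e * cf n b b0 Q c w mu v i e io : ℤ) : ℝ) * th ^ (io : ℕ) := by
      intro e he
      have := key e (hQ e he)
      calc ((b : ℝ) * c) ^ Q * (((f.coeff e : ℤ) : ℝ) * ((mch e i : ℝ) * ∏ j, α j ^ e j))
          = ((f.coeff e : ℤ) : ℝ) * (((b : ℝ) * c) ^ Q * ((mch e i : ℝ) * ∏ j, α j ^ e j)) := by ring
        _ = ((f.coeff e : ℤ) : ℝ) * (cv_tau t0 t (cls n v e) * ∑ io, (cf n b b0 Q c w mu v i e io : ℝ) * th ^ (io : ℕ)) := by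
            rw [this]
        _ = _ := by
            rw [Finset.mul_sum, Finset.mul_sum, Finset.mul_sum]
            refine Finset.sum_congr rfl fun io _ => ?_
            push_cast
            ring
    rw [Finset.sum_congr rfl h1]
    rw [← Finset.sum_fiberwise_of_maps_to (s := f.support) (t := f.support.image (cls n v)) (g := cls n v)
      (fun e he => Finset.mem_image_of_mem _ he)]
    refine Finset.sum_eq_zero fun rho _ => ?_
    have h2 : ∀ e ∈ f.support.filter (fun e => cls n v e = rho),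
        cv_tau t0 t (cls n v e) * ∑ io, ((f.coeff e * cf n b b0 Q c w mu v i e io : ℤ) : ℝ) * th ^ (io : ℕ) =
        cv_tau t0 t rho * ∑ io, ((f.coeff e * cf n b b0 Q c w mu v i e io : ℤ) : ℝ) * th ^ (io : ℕ) := by
      intro e he
      rw [(Finset.mem_filter.1 he).2]
    rw [Finset.sum_congr rfl h2, ← Finset.mul_sum, Finset.sum_comm]
    apply mul_eq_zero_of_right
    refine Finset.sum_eq_zero fun io _ => ?_
    rw [← Finset.sum_mul, ← Int.cast_sum, hvan rho io]
    simp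
  have hne : ((b : ℝ) * c) ^ Q ≠ 0 := pow_ne_zero _ (mul_ne_zero hb'.ne' hc')
  rcases mul_eq_zero.1 hzero with h | h
  · exact absurd h hne
  · rcases mul_eq_zero.1 h with h | h
    · exact h
    · exact absurd h hprodpos.ne'

end H4AR
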