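import Pool.Agent.H4.AR.Def

/-!
H4/AR/ClsDef: classes of exponents modulo n and the integral coefficients of the linear conditions.

For vertices v_j in {0,1}^k (j < m) and an exponent e: sumc v e l s = sum of the e_j with v_j(l) = s;
cls = (sum of all e_j mod n, (sumc v e l s mod n)_{l,s}).
-/

namespace H4AR

/-- sum of the `e j` over the `j` with `v j l = s` -/
def sumc {m k : ℕ} (v : Fin m → Fin k → Bool) (e : Fin m →₀ ℕ) (l : Fin k) (s : Bool) : ℕ :=
  ∑ j, if v j l = s then e j else 0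

/-- class of an exponent modulo `n` -/
def cls {m k : ℕ} (n : ℕ) (v : Fin m → Fin k → Bool) (e : Fin m →₀ ℕ) : ℕ × (Fin k → Bool → ℕ) :=
  ((∑ j, e j) % n, fun l s => sumc v e l s % n)

/-- coefficient of the linear condition -/
def cf {m k D : ℕ} (n b b0 Q : ℕ) (c : ℤ) (w : ℕ → Fin D → ℤ) (mu : Fin k → Bool → ℕ)
    (v : Fin m → Fin k → Bool) (i e : Fin m →₀ ℕ) (io : Fin D) : ℤ :=
  (mch e i : ℤ) * (b0 : ℤ) ^ ((∑ j, e j) / n) * ((b : ℤ) * c) ^ (Q - (∑ j, e j) / n) *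
    w ((∑ j, e j) / n) io * ∏ l, ∏ s, (mu l s : ℤ) ^ (sumc v e l s / n)

/-- the real number `(th * vx b0 mu (v j) / b)^(1/n)` -/
noncomputable def alp {m k : ℕ} (n b b0 : ℕ) (th : ℝ) (mu : Fin k → Bool → ℕ)
    (v : Fin m → Fin k → Bool) (j : Fin m) : ℝ := (th * (vx b0 mu (v j) : ℝ) / b) ^ ((1 : ℝ) / n)

end H4AR
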