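import Pool.Agent.H4.AR.CubeC

/-!
H4/AR/Mono: a dense subset of a product of k large finite sets contains a nondegenerate cube.

PROOF. cube_count gives at least del^(2^k) (prod |X_i|)^2 pairs (x,y) with all vertices in A. The number of pairs with
x_i = y_i for a given i is (prod |X_j|)^2/|X_i| ≤ (prod |X_j|)^2/N, so at most (k/N)(prod |X_j|)^2 pairs are degenerate;
k/N < del^(2^k) (hN). prod |X_j| > 0 since |X_j| ≥ N ≥ 1 (hN and del > 0 force N ≥ 1; for k = 0 the condition on i is
empty). For the count of pairs with x_i = y_i: the pairs inject into (piFinset X) × (functions off i), or use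
`Finset.card_le_card_of_injOn` with (x,y) -> (x, y restricted to {j ≠ i}); or write the number as a product over the
coordinates of |X_j|^2 (j ≠ i) and |X_i|: the set of pairs corresponds to the piFinset of the sets X_j × X_j, and the
diagonal of X_i (`Fintype.card_piFinset`).
-/

namespace H4AR

private theorem mono_bad {α : Type} [DecidableEq α] (k : ℕ) (X : Fin k → Finset α) (i : Fin k) :
    ((Fintype.piFinset X ×ˢ Fintype.piFinset X).filter (fun q => q.1 i = q.2 i)).card * (X i).card ≤
      (∏ j, (X j).card) ^ 2 := by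
  rw [← Finset.card_product, sq, ← Fintype.card_piFinset, ← Finset.card_product]
  refine Finset.card_le_card_of_injOn
    (fun q : ((Fin k → α) × (Fin k → α)) × α => (q.1.1, Function.update q.1.2 i q.2)) ?_ ?_
  · rintro ⟨⟨x, y⟩, a⟩ hq
    rw [Finset.mem_coe, Finset.mem_product, Finset.mem_filter, Finset.mem_product] at hq
    obtain ⟨⟨⟨hx, hy⟩, -⟩, ha⟩ := hq
    rw [Finset.mem_coe, Finset.mem_product]
    refine ⟨hx, ?_⟩
    rw [Fintype.mem_piFinset] at hy ⊢
    intro j
    show Function.update y i a j ∈ X j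
    by_cases hj : j = i
    · subst hj
      rw [Function.update_self]
      exact ha
    · rw [Function.update_of_ne hj]
      exact hy j
  · rintro ⟨⟨x, y⟩, a⟩ hq ⟨⟨x', y'⟩, a'⟩ hq' he
    rw [Finset.mem_coe, Finset.mem_product, Finset.mem_filter, Finset.mem_product] at hq hq'
    have h1 : x i = y i := hq.1.2
    have h1' : x' i = y' i := hq'.1.2
    have he1 : x = x' := congrArg Prod.fst he
    have he2 : Function.update y i a = Function.update y' i a' := congrArg Prod.snd he
    have ha : a = a' := by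
      have := congrFun he2 i
      rwa [Function.update_self, Function.update_self] at this
    have hy : y = y' := by
      funext j
      by_cases hj : j = i
      · subst hj
        rw [← h1, ← h1', he1]
      · have := congrFun he2 j
        rwa [Function.update_of_ne hj, Function.update_of_ne hj] at this
    rw [he1, ha, hy]

theorem exists_cube {α : Type} [DecidableEq α] (k : ℕ) (X : Fin k → Finset α) (A : Finset (Fin k → α))
    (hA : A ⊆ Fintype.piFinset X) (del : ℝ) (hdel : 0 < del) (N : ℕ) (hX : ∀ i, N ≤ (X i).card)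
    (hN : (k : ℝ) < del ^ (2 ^ k) * N) (hd : del * ∏ i, ((X i).card : ℝ) ≤ A.card) :
    ∃ x y : Fin k → α, (∀ i, x i ∈ X i ∧ y i ∈ X i ∧ x i ≠ y i) ∧
      ∀ v : Fin k → Bool, (fun i => if v i then y i else x i) ∈ A := by
  have hN0 : 0 < N := by
    rcases Nat.eq_zero_or_pos N with h | h
    · exfalso
      rw [h, Nat.cast_zero, mul_zero] at hN
      exact absurd hN (not_lt.2 (Nat.cast_nonneg k))
    · exact h
  have hN0' : (0 : ℝ) < N := by exact_mod_cast hN0
  have hcount := cube_count k X A hA del hdel.le hd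
  obtain ⟨e, he⟩ : ∃ e : ℝ, e = del ^ (2 ^ k) := ⟨_, rfl⟩
  rw [← he] at hcount hN
  obtain ⟨P, hP⟩ : ∃ P : ℝ, P = ∏ i, ((X i).card : ℝ) := ⟨_, rfl⟩
  rw [← hP] at hcount
  have hPpos : 0 < P := by
    rw [hP]
    refine Finset.prod_pos fun i _ => ?_
    exact lt_of_lt_of_le hN0' (by exact_mod_cast hX i)
  set Gd := (Fintype.piFinset X ×ˢ Fintype.piFinset X).filter
    (fun q => ∀ v : Fin k → Bool, (fun i => if v i then q.2 i else q.1 i) ∈ A) with hGd
  set B : Fin k → Finset ((Fin k → α) × (Fin k → α)) := fun i =>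
    (Fintype.piFinset X ×ˢ Fintype.piFinset X).filter (fun q => q.1 i = q.2 i) with hB
  have hBc : ∀ i, ((B i).card : ℝ) ≤ P ^ 2 / N := by
    intro i
    rw [le_div_iff₀ hN0']
    have h1 := mono_bad k X i
    have h2 : (((B i).card * (X i).card : ℕ) : ℝ) ≤ P ^ 2 := by
      have h3 : (((B i).card * (X i).card : ℕ) : ℝ) ≤ (((∏ j, (X j).card) ^ 2 : ℕ) : ℝ) := by
        exact_mod_cast h1
      refine h3.trans (le_of_eq ?_)
      rw [hP]
      push_cast
      rfl
    push_cast at h2
    refine le_trans ?_ h2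
    exact mul_le_mul_of_nonneg_left (by exact_mod_cast hX i) (Nat.cast_nonneg _)
  have hex : ∃ q ∈ Gd, ∀ i, q ∉ B i := by
    by_contra hcon
    push Not at hcon
    have hsub : Gd ⊆ Finset.univ.biUnion B := by
      intro q hq
      obtain ⟨i, hi⟩ := hcon q hq
      exact Finset.mem_biUnion.2 ⟨i, Finset.mem_univ i, hi⟩
    have h1 : (Gd.card : ℝ) ≤ ∑ i, ((B i).card : ℝ) := by
      have h2 := (Finset.card_le_card hsub).trans Finset.card_biUnion_le
      exact_mod_cast h2
    have h2 : ∑ i, ((B i).card : ℝ) ≤ k * (P ^ 2 / N) := by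
      refine (Finset.sum_le_sum fun i _ => hBc i).trans (le_of_eq ?_)
      rw [Finset.sum_const, Finset.card_univ, Fintype.card_fin, nsmul_eq_mul]
    have h3 : e * P ^ 2 ≤ k * (P ^ 2 / N) := hcount.trans (h1.trans h2)
    have h4 : e * N ≤ k := by
      have h5 : (0 : ℝ) < P ^ 2 := pow_pos hPpos 2
      have h6 : (e * N) * P ^ 2 ≤ k * P ^ 2 := by
        calc (e * N) * P ^ 2 = (e * P ^ 2) * N := by ring
          _ ≤ (k * (P ^ 2 / N)) * N := mul_le_mul_of_nonneg_right h3 hN0'.le
          _ = k * P ^ 2 := by rw [mul_assoc, div_mul_cancel₀ _ hN0'.ne']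
      exact le_of_mul_le_mul_right h6 h5
    exact absurd hN (not_lt.2 h4)
  obtain ⟨⟨x, y⟩, hq, hnb⟩ := hex
  rw [hGd, Finset.mem_filter, Finset.mem_product] at hq
  obtain ⟨⟨hx, hy⟩, hv⟩ := hq
  refine ⟨x, y, fun i => ⟨Fintype.mem_piFinset.1 hx i, Fintype.mem_piFinset.1 hy i, ?_⟩, hv⟩
  intro he
  apply hnb i
  rw [hB]
  exact Finset.mem_filter.2 ⟨Finset.mem_product.2 ⟨hx, hy⟩, he⟩

end H4AR
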