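import Pool.Agent.H4.AR.CubeC

/-!
H4/AR/Rain: if every colour is sparse on every line, a dense set contains a cube whose vertices have pairwise far colours.

PROOF. cube_count: at least del^(2^k) Q^2 pairs (x,y), Q = prod |X_i| > 0, have all their vertices in A. Fix vertices
v ≠ v' and count the pairs (x,y) with both vertices in A and |c(vertex v) - c(vertex v')| ≤ w. Choose i with v i ≠ v' i,
say v i = false, v' i = true (otherwise exchange x and y). Fix x and all coordinates of y except y_i: then vertex v is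
fixed, and vertex v' = update (vertex v') i (y i); the number of y_i in X_i with vertex v' in A and colour in the
2w+1 values around c(vertex v) is ≤ (2w+1) eta |X_i| (hcol for every value). So the number of bad pairs is
≤ (2w+1) eta Q^2. There are at most (2^k)^2 = 4^k pairs v,v'. As 4^k (2w+1) eta < del^(2^k) some pair (x,y) has all
vertices in A and all differences > w.
(Counting with one coordinate free: sum over (x,y) in piFinset × piFinset; use the bijection
y <-> (Function.update y i y0, y i), or `Fintype.piFinset`-fibres: group the y by their restriction to j ≠ i.)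
-/

namespace H4AR

private lemma line_count {α : Type} [DecidableEq α] {k : ℕ} (X : Fin k → Finset α)
    (A : Finset (Fin k → α)) (c : (Fin k → α) → ℤ) (w : ℕ) (eta : ℝ) (i : Fin k)
    (hcol : ∀ (x : Fin k → α) (g : ℤ),
      (((X i).filter (fun t => Function.update x i t ∈ A ∧ c (Function.update x i t) = g)).card : ℝ) ≤
        eta * (X i).card) (x : Fin k → α) (c0 : ℤ) :
    (((X i).filter (fun t => Function.update x i t ∈ A ∧
      |c0 - c (Function.update x i t)| ≤ (w : ℤ))).card : ℝ) ≤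
        (2 * w + 1) * (eta * (X i).card) := by
  have hsub : (X i).filter (fun t => Function.update x i t ∈ A ∧
        |c0 - c (Function.update x i t)| ≤ (w : ℤ)) ⊆
      (Finset.Icc (c0 - w) (c0 + w)).biUnion (fun g => (X i).filter
        (fun t => Function.update x i t ∈ A ∧ c (Function.update x i t) = g)) := by
    intro t ht
    rw [Finset.mem_filter] at ht
    rw [Finset.mem_biUnion]
    refine ⟨c (Function.update x i t), ?_, ?_⟩
    · rw [Finset.mem_Icc]
      have h1 := abs_le.mp ht.2.2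
      constructor
      · linarith [h1.2]
      · linarith [h1.1]
    · exact Finset.mem_filter.mpr ⟨ht.1, ht.2.1, rfl⟩
  have h1 : (((X i).filter (fun t => Function.update x i t ∈ A ∧
      |c0 - c (Function.update x i t)| ≤ (w : ℤ))).card : ℝ) ≤
      ∑ g ∈ Finset.Icc (c0 - w) (c0 + w), (((X i).filter
        (fun t => Function.update x i t ∈ A ∧ c (Function.update x i t) = g)).card : ℝ) := by
    exact_mod_cast (Finset.card_le_card hsub).trans Finset.card_biUnion_le
  refine h1.trans ((Finset.sum_le_sum fun g _ => hcol x g).trans (le_of_eq ?_))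
  rw [Finset.sum_const, Int.card_Icc, nsmul_eq_mul]
  have h2 : (c0 + w + 1 - (c0 - w)).toNat = 2 * w + 1 := by omega
  rw [h2]
  push_cast
  ring

private def vt {α : Type} {k : ℕ} (v : Fin k → Bool) (x y : Fin k → α) : Fin k → α :=
  fun i => if v i then y i else x i

private lemma bad_count {α : Type} [DecidableEq α] {k : ℕ} (X : Fin k → Finset α)
    (A : Finset (Fin k → α)) (c : (Fin k → α) → ℤ) (w : ℕ) (eta : ℝ) (i : Fin k)
    (hX : 1 ≤ (X i).card)
    (hcol : ∀ (x : Fin k → α) (g : ℤ),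
      (((X i).filter (fun t => Function.update x i t ∈ A ∧ c (Function.update x i t) = g)).card : ℝ) ≤
        eta * (X i).card) (v v' : Fin k → Bool) (hv : v i = false) (hv' : v' i = true) :
    (((Fintype.piFinset X ×ˢ Fintype.piFinset X).filter (fun q => vt v q.1 q.2 ∈ A ∧
      vt v' q.1 q.2 ∈ A ∧ |c (vt v q.1 q.2) - c (vt v' q.1 q.2)| ≤ (w : ℤ))).card : ℝ) ≤
      (2 * w + 1) * eta * (∏ i, ((X i).card : ℝ)) ^ 2 := by
  set P := Fintype.piFinset X with hP
  set f : (Fin k → α) → (Fin k → α) → ℝ := fun x y =>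
    if (vt v x y ∈ A ∧ vt v' x y ∈ A ∧ |c (vt v x y) - c (vt v' x y)| ≤ (w : ℤ)) then 1 else 0
    with hf
  have hPc : (P.card : ℝ) = ∏ i, ((X i).card : ℝ) := by
    rw [hP, Fintype.card_piFinset]
    push_cast
    rfl
  have hXi : (0 : ℝ) < ((X i).card : ℝ) := by exact_mod_cast (by omega : 0 < (X i).card)
  have key : ∀ x, (∑ y ∈ P, f x y) * ((X i).card : ℝ) ≤
      (P.card : ℝ) * ((2 * w + 1) * (eta * (X i).card)) := by
    intro x
    have h1 : (∑ y ∈ P, f x y) * ((X i).card : ℝ) = ∑ q ∈ P ×ˢ X i, f x q.1 := by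
      rw [Finset.sum_product, Finset.sum_mul]
      refine Finset.sum_congr rfl fun y _ => ?_
      change f x y * _ = ∑ _s ∈ X i, f x y
      rw [Finset.sum_const, nsmul_eq_mul, mul_comm]
    have h2 : ∑ q ∈ P ×ˢ X i, f x q.1 = ∑ q ∈ P ×ˢ X i, f x (Function.update q.1 i q.2) := by
      have hmem : ∀ q ∈ P ×ˢ X i, ((Function.update q.1 i q.2, q.1 i) : (Fin k → α) × α) ∈
          P ×ˢ X i := by
        intro q hq
        rw [Finset.mem_product] at hq ⊢
        have hq1 := hq.1
        rw [hP, Fintype.mem_piFinset] at hq1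
        refine ⟨?_, hq1 i⟩
        rw [hP, Fintype.mem_piFinset]
        intro j
        by_cases hj : j = i
        · subst hj
          simpa using hq.2
        · simpa [Function.update_of_ne hj] using hq1 j
      refine Finset.sum_nbij' (fun q => (Function.update q.1 i q.2, q.1 i))
        (fun q => (Function.update q.1 i q.2, q.1 i)) hmem hmem ?_ ?_ ?_
      · intro q _
        simp
      · intro q _
        simp
      · intro q _
        simp
    rw [h1, h2, Finset.sum_product]
    have h3 : ∀ y ∈ P, ∑ s ∈ X i, f x (Function.update y i s) ≤ (2 * w + 1) * (eta * (X i).card) := by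
      intro y _
      have hv1 : ∀ s, vt v x (Function.update y i s) = vt v x y := by
        intro s
        funext j
        unfold vt
        by_cases hj : j = i
        · subst hj
          simp [hv]
        · rw [Function.update_of_ne hj]
      have hv2 : ∀ s, vt v' x (Function.update y i s) = Function.update (vt v' x y) i s := by
        intro s
        funext j
        unfold vt
        by_cases hj : j = i
        · subst hj
          simp [hv']
        · rw [Function.update_of_ne hj, Function.update_of_ne hj]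
      have h4 : ∑ s ∈ X i, f x (Function.update y i s) ≤
          (((X i).filter (fun t => Function.update (vt v' x y) i t ∈ A ∧
            |c (vt v x y) - c (Function.update (vt v' x y) i t)| ≤ (w : ℤ))).card : ℝ) := by
        rw [Finset.card_filter]
        push_cast
        refine Finset.sum_le_sum fun s _ => ?_
        simp only [hf, hv1, hv2]
        by_cases hc : Function.update (vt v' x y) i s ∈ A ∧
            |c (vt v x y) - c (Function.update (vt v' x y) i s)| ≤ (w : ℤ)
        · rw [if_pos hc]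
          split_ifs <;> norm_num
        · rw [if_neg hc, if_neg fun h => hc ⟨h.2.1, h.2.2⟩]
      exact h4.trans (line_count X A c w eta i hcol (vt v' x y) (c (vt v x y)))
    calc ∑ y ∈ P, ∑ s ∈ X i, f x (Function.update y i s)
        ≤ ∑ _y ∈ P, (2 * (w : ℝ) + 1) * (eta * (X i).card) := Finset.sum_le_sum h3
      _ = _ := by rw [Finset.sum_const, nsmul_eq_mul]
  have h5 : ∀ x, ∑ y ∈ P, f x y ≤ (P.card : ℝ) * ((2 * w + 1) * eta) := by
    intro x
    have h6 := key x
    have h7 : (P.card : ℝ) * ((2 * w + 1) * (eta * (X i).card)) =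
        (P.card : ℝ) * ((2 * w + 1) * eta) * ((X i).card : ℝ) := by ring
    rw [h7] at h6
    exact le_of_mul_le_mul_right h6 hXi
  have h8 : (((P ×ˢ P).filter (fun q => vt v q.1 q.2 ∈ A ∧
      vt v' q.1 q.2 ∈ A ∧ |c (vt v q.1 q.2) - c (vt v' q.1 q.2)| ≤ (w : ℤ))).card : ℝ) =
      ∑ x ∈ P, ∑ y ∈ P, f x y := by
    rw [Finset.card_filter]
    push_cast
    rw [Finset.sum_product]
  rw [h8]
  calc ∑ x ∈ P, ∑ y ∈ P, f x y ≤ ∑ _x ∈ P, (P.card : ℝ) * ((2 * w + 1) * eta) :=
        Finset.sum_le_sum fun x _ => h5 x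
    _ = (2 * w + 1) * eta * (∏ i, ((X i).card : ℝ)) ^ 2 := by
        rw [Finset.sum_const, nsmul_eq_mul, hPc]
        ring

theorem exists_rainbow {α : Type} [DecidableEq α] (k : ℕ) (X : Fin k → Finset α)
    (hX : ∀ i, 1 ≤ (X i).card) (A : Finset (Fin k → α)) (hA : A ⊆ Fintype.piFinset X)
    (c : (Fin k → α) → ℤ) (w : ℕ) (del eta : ℝ) (hdel : 0 ≤ del) (heta : 0 ≤ eta)
    (hd : del * ∏ i, ((X i).card : ℝ) ≤ A.card)
    (hcol : ∀ (i : Fin k) (x : Fin k → α) (g : ℤ),
      (((X i).filter (fun t => Function.update x i t ∈ A ∧ c (Function.update x i t) = g)).card : ℝ) ≤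
        eta * (X i).card)
    (hnum : (4 : ℝ) ^ k * (2 * w + 1) * eta < del ^ (2 ^ k)) :
    ∃ x y : Fin k → α, (∀ i, x i ∈ X i ∧ y i ∈ X i) ∧
      (∀ v : Fin k → Bool, (fun i => if v i then y i else x i) ∈ A) ∧
      ∀ v v' : Fin k → Bool, v ≠ v' →
        (w : ℤ) < |c (fun i => if v i then y i else x i) - c (fun i => if v' i then y i else x i)| := by
  by_contra hno
  have hcc := cube_count k X A hA del hdel hd
  set P := Fintype.piFinset X with hP
  set Q : ℝ := ∏ i, ((X i).card : ℝ) with hQ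
  have hQ0 : 0 < Q := Finset.prod_pos fun i _ => by
    have := hX i
    exact_mod_cast (by omega : 0 < (X i).card)
  have hbad : ∀ v v' : Fin k → Bool, v ≠ v' →
      (((P ×ˢ P).filter (fun q => vt v q.1 q.2 ∈ A ∧
        vt v' q.1 q.2 ∈ A ∧ |c (vt v q.1 q.2) - c (vt v' q.1 q.2)| ≤ (w : ℤ))).card : ℝ) ≤
      (2 * w + 1) * eta * Q ^ 2 := by
    intro v v' hvv
    obtain ⟨i, hi⟩ := Function.ne_iff.mp hvv
    cases h1 : v i with
    | false =>
      have h2 : v' i = true := by
        cases h3 : v' i with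
        | false => exact absurd (h1.trans h3.symm) hi
        | true => rfl
      exact bad_count X A c w eta i (hX i) (hcol i) v v' h1 h2
    | true =>
      have h2 : v' i = false := by
        cases h3 : v' i with
        | false => rfl
        | true => exact absurd (h1.trans h3.symm) hi
      have h4 := bad_count X A c w eta i (hX i) (hcol i) v' v h2 h1
      have h5 : (P ×ˢ P).filter (fun q => vt v q.1 q.2 ∈ A ∧
          vt v' q.1 q.2 ∈ A ∧ |c (vt v q.1 q.2) - c (vt v' q.1 q.2)| ≤ (w : ℤ)) =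
          (P ×ˢ P).filter (fun q => vt v' q.1 q.2 ∈ A ∧
          vt v q.1 q.2 ∈ A ∧ |c (vt v' q.1 q.2) - c (vt v q.1 q.2)| ≤ (w : ℤ)) := by
        refine Finset.filter_congr fun q _ => ?_
        rw [abs_sub_comm]
        tauto
      rw [h5]
      exact h4
  have hsub : (P ×ˢ P).filter
        (fun q => ∀ v : Fin k → Bool, (fun i => if v i then q.2 i else q.1 i) ∈ A) ⊆
      ((Finset.univ : Finset ((Fin k → Bool) × (Fin k → Bool))).filter
        (fun z => z.1 ≠ z.2)).biUnion (fun z => (P ×ˢ P).filter (fun q => vt z.1 q.1 q.2 ∈ A ∧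
        vt z.2 q.1 q.2 ∈ A ∧ |c (vt z.1 q.1 q.2) - c (vt z.2 q.1 q.2)| ≤ (w : ℤ))) := by
    intro q hq
    rw [Finset.mem_filter] at hq
    have hq1 := Finset.mem_product.mp hq.1
    have hx := Fintype.mem_piFinset.mp hq1.1
    have hy := Fintype.mem_piFinset.mp hq1.2
    have h1 : ∃ v v' : Fin k → Bool, v ≠ v' ∧
        |c (fun i => if v i then q.2 i else q.1 i) - c (fun i => if v' i then q.2 i else q.1 i)| ≤
          (w : ℤ) := by
      by_contra hcon
      push Not at hcon
      exact hno ⟨q.1, q.2, fun i => ⟨hx i, hy i⟩, hq.2, fun v v' hvv => hcon v v' hvv⟩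
    obtain ⟨v, v', hvv, hle⟩ := h1
    rw [Finset.mem_biUnion]
    refine ⟨(v, v'), Finset.mem_filter.mpr ⟨Finset.mem_univ _, hvv⟩, ?_⟩
    exact Finset.mem_filter.mpr ⟨hq.1, hq.2 v, hq.2 v', hle⟩
  set W : Finset ((Fin k → Bool) × (Fin k → Bool)) :=
    (Finset.univ : Finset ((Fin k → Bool) × (Fin k → Bool))).filter (fun z => z.1 ≠ z.2) with hW
  have hWc : (W.card : ℝ) ≤ (4 : ℝ) ^ k := by
    have h9 : W.card ≤ 4 ^ k := by
      refine (Finset.card_filter_le _ _).trans ?_
      rw [Finset.card_univ, Fintype.card_prod, Fintype.card_fun, Fintype.card_fin,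
        Fintype.card_bool, ← Nat.mul_pow]
    have h9' : (W.card : ℝ) ≤ ((4 ^ k : ℕ) : ℝ) := Nat.cast_le.mpr h9
    rw [Nat.cast_pow] at h9'
    exact h9'
  have h6 : (((P ×ˢ P).filter
        (fun q => ∀ v : Fin k → Bool, (fun i => if v i then q.2 i else q.1 i) ∈ A)).card : ℝ) ≤
      ∑ z ∈ W, (((P ×ˢ P).filter (fun q => vt z.1 q.1 q.2 ∈ A ∧
        vt z.2 q.1 q.2 ∈ A ∧ |c (vt z.1 q.1 q.2) - c (vt z.2 q.1 q.2)| ≤ (w : ℤ))).card : ℝ) := by
    exact_mod_cast (Finset.card_le_card hsub).trans Finset.card_biUnion_le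
  have h7 : ∑ z ∈ W, (((P ×ˢ P).filter (fun q => vt z.1 q.1 q.2 ∈ A ∧
        vt z.2 q.1 q.2 ∈ A ∧ |c (vt z.1 q.1 q.2) - c (vt z.2 q.1 q.2)| ≤ (w : ℤ))).card : ℝ) ≤
      (4 : ℝ) ^ k * ((2 * w + 1) * eta * Q ^ 2) := by
    have h8 : ∑ z ∈ W, (((P ×ˢ P).filter (fun q => vt z.1 q.1 q.2 ∈ A ∧
        vt z.2 q.1 q.2 ∈ A ∧ |c (vt z.1 q.1 q.2) - c (vt z.2 q.1 q.2)| ≤ (w : ℤ))).card : ℝ) ≤
        ∑ _z ∈ W, ((2 * w + 1) * eta * Q ^ 2) :=
      Finset.sum_le_sum fun z hz => hbad z.1 z.2 (Finset.mem_filter.mp hz).2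
    refine h8.trans ?_
    rw [Finset.sum_const, nsmul_eq_mul]
    have hnn : (0 : ℝ) ≤ (2 * (w : ℝ) + 1) * eta * Q ^ 2 :=
      mul_nonneg (mul_nonneg (by linarith [Nat.cast_nonneg (α := ℝ) w]) heta) (sq_nonneg Q)
    exact mul_le_mul_of_nonneg_right hWc hnn
  have h10 := (hcc.trans h6).trans h7
  have hQ2 : 0 < Q ^ 2 := pow_pos hQ0 2
  have h11 : (4 : ℝ) ^ k * ((2 * w + 1) * eta * Q ^ 2) = (4 : ℝ) ^ k * (2 * w + 1) * eta * Q ^ 2 := by
    ring
  rw [h11] at h10
  have h12 := le_of_mul_le_mul_right h10 hQ2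
  linarith

end H4AR
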