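import Pool.Agent.H4.AR.Def
import Pool.Agent.H4.AR.Box
import Pool.Agent.H4.AR.Mono
import Pool.Agent.H4.AR.Rain

/-!
H4/AR/Comb: combinatorial dichotomy. A set of density > eps in [1,T], coloured by integers, contains a monochromatic
cube b0 * prod p_i(v_i) of dimension k1 with primes p_i(0) ≠ p_i(1), or a cube b0 * prod mu_i(v_i) of dimension k2 with
pairwise far colours.

PROOF. K = k2 * k1, `box` gives del. Put eta > 0 with 4^k2 (2w+1) eta < del^(2^k2) and N0 ≥ 1 with
k1 < eta^(2^k1) N0. T0 from `box` for N0. Let b0, P be as in `box`. Blocks: index Fin K by Fin k2 × Fin k1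
(`finProdFinEquiv`): P' i j = P (finProdFinEquiv (i,j)). alpha = (Fin k1 → ℕ), X i = Fintype.piFinset (P' i) (blocks),
A = set of x in piFinset X with b0 * prod_i prod_j x i j in E. card X i = prod_j card (P' i j) ≥ 1, A has density ≥ del
(bijection between piFinset P and piFinset X by currying; `Fintype.prod_prod_type`, `Equiv.curry`).
Colour of x: c(b0 * prod prod x i j).
Case 1: there are i, x, g with #{t in X i : update x i t in A and colour = g} > eta |X i| (we may take x's other blocks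
in X if the set is nonempty; only b0' = b0 * prod_{i' ≠ i} prod_j x i' j ≥ 1 matters: it is ≥ 1 because some
update x i t is in A, so that b0' * (...) in E ⊆ [1,T]). The set A' of these t is a subset of piFinset (P' i) of density
≥ eta: `exists_cube` (k = k1, N = N0): first alternative with p j false = x j, p j true = y j (primes in P' i j) and
the vertices b0' * prod_j p_j(v_j) in E, all of colour g.
Case 2: otherwise `exists_rainbow` (k = k2): second alternative with mu i false = prod_j x i j, mu i true = prod_j y i j.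
(vx b0 mu v = b0 * prod_i mu i (v i).) mu ≥ 1 because primes.
-/

namespace H4AR

theorem comb (k1 k2 w : ℕ) (eps : ℝ) (heps : 0 < eps) :
    ∃ T0 : ℕ, ∀ T : ℕ, T0 ≤ T → ∀ E : Finset ℕ, E ⊆ Finset.Icc 1 T → eps * T < E.card →
      ∀ c : ℕ → ℤ,
      (∃ (b0 : ℕ) (p : Fin k1 → Bool → ℕ), 1 ≤ b0 ∧ (∀ i s, (p i s).Prime) ∧
        (∀ i, p i false ≠ p i true) ∧ (∀ v, vx b0 p v ∈ E) ∧ ∀ v v', c (vx b0 p v) = c (vx b0 p v')) ∨
      (∃ (b0 : ℕ) (mu : Fin k2 → Bool → ℕ), 1 ≤ b0 ∧ (∀ i s, 1 ≤ mu i s) ∧ (∀ v, vx b0 mu v ∈ E) ∧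
        ∀ v v', v ≠ v' → (w : ℤ) < |c (vx b0 mu v) - c (vx b0 mu v')|) := by
  obtain ⟨e, _⟩ : ∃ e : Fin k2 × Fin k1 ≃ Fin (k2 * k1), e = finProdFinEquiv := ⟨_, rfl⟩
  obtain ⟨del, hdel, hbox⟩ := box (k2 * k1) eps heps
  obtain ⟨eta, heta⟩ : ∃ eta : ℝ, eta = del ^ (2 ^ k2) / (4 ^ k2 * (2 * w + 1) * 2) := ⟨_, rfl⟩
  have heta0 : 0 < eta := by rw [heta]; positivity
  have hnum : (4 : ℝ) ^ k2 * (2 * w + 1) * eta < del ^ (2 ^ k2) := by
    have h1 : (4 : ℝ) ^ k2 * (2 * w + 1) * eta = del ^ (2 ^ k2) / 2 := by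
      rw [heta]
      field_simp
    rw [h1]
    exact half_lt_self (by positivity)
  obtain ⟨N0, hN0⟩ := exists_nat_gt ((k1 : ℝ) / eta ^ (2 ^ k1))
  have hN : (k1 : ℝ) < eta ^ (2 ^ k1) * N0 := by
    rw [div_lt_iff₀ (by positivity)] at hN0
    linarith
  have hN1 : 1 ≤ N0 := by
    have h1 : (0 : ℝ) < N0 := lt_of_le_of_lt (by positivity) hN0
    have h2 : 0 < N0 := by exact_mod_cast h1
    exact h2
  obtain ⟨T0, hT0⟩ := hbox N0
  refine ⟨T0, fun T hT E hE hcard c => ?_⟩
  obtain ⟨b0, P, hb0, hP, hPc, hPd⟩ := hT0 T hT E hE hcard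
  obtain ⟨P', hP'⟩ : ∃ P' : Fin k2 → Fin k1 → Finset ℕ,
      P' = fun i j => P (e (i, j)) := ⟨_, rfl⟩
  have hP'p : ∀ i j, ∀ p ∈ P' i j, p.Prime := by
    intro i j p hp
    rw [hP'] at hp
    exact hP _ p hp
  have hP'c : ∀ i j, N0 ≤ (P' i j).card := by
    intro i j
    rw [hP']
    exact hPc _
  obtain ⟨X, hX⟩ : ∃ X : Fin k2 → Finset (Fin k1 → ℕ), X = fun i => Fintype.piFinset (P' i) :=
    ⟨_, rfl⟩
  have hXc : ∀ i, ((X i).card : ℝ) = ∏ j, ((P' i j).card : ℝ) := by
    intro i
    rw [hX]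
    dsimp only
    rw [Fintype.card_piFinset]
    push_cast
    rfl
  obtain ⟨A, hA⟩ : ∃ A : Finset (Fin k2 → Fin k1 → ℕ),
      A = (Fintype.piFinset X).filter (fun x => b0 * ∏ i, ∏ j, x i j ∈ E) := ⟨_, rfl⟩
  have hAX : A ⊆ Fintype.piFinset X := by
    rw [hA]
    exact Finset.filter_subset _ _
  have hAE : ∀ x ∈ A, b0 * ∏ i, ∏ j, x i j ∈ E := by
    intro x hx
    rw [hA, Finset.mem_filter] at hx
    exact hx.2
  have hAcard : ((Fintype.piFinset P).filter (fun x => b0 * ∏ i, x i ∈ E)).card = A.card := by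
    rw [hA]
    refine Finset.card_nbij' (fun x i j => x (e (i, j)))
      (fun y t => y (e.symm t).1 (e.symm t).2) ?_ ?_ ?_ ?_
    · intro x hx
      simp only [Finset.coe_filter, Set.mem_ofPred_eq, Fintype.mem_piFinset] at hx ⊢
      refine ⟨fun i => ?_, ?_⟩
      · rw [hX]
        simp only [Fintype.mem_piFinset]
        intro j
        rw [hP']
        exact hx.1 _
      · have h1 := hx.2
        rw [← e.prod_comp, Fintype.prod_prod_type] at h1
        exact h1
    · intro y hy
      simp only [Finset.coe_filter, Set.mem_ofPred_eq, Fintype.mem_piFinset] at hy ⊢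
      refine ⟨fun t => ?_, ?_⟩
      · have h1 := hy.1 (e.symm t).1
        rw [hX] at h1
        simp only [Fintype.mem_piFinset] at h1
        have h2 := h1 (e.symm t).2
        rw [hP'] at h2
        simp only [Prod.mk.eta, Equiv.apply_symm_apply] at h2
        exact h2
      · rw [← e.prod_comp, Fintype.prod_prod_type]
        simp only [Equiv.symm_apply_apply]
        exact hy.2
    · intro x _
      funext t
      simp only [Prod.mk.eta, Equiv.apply_symm_apply]
    · intro y _
      funext i j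
      simp only [Equiv.symm_apply_apply]
  have hprod : ∏ i, ((P i).card : ℝ) = ∏ i, ((X i).card : ℝ) := by
    rw [← e.prod_comp, Fintype.prod_prod_type]
    refine Finset.prod_congr rfl fun i _ => ?_
    rw [hXc i, hP']
  have hd : del * ∏ i, ((X i).card : ℝ) ≤ A.card := by
    rw [← hprod, ← hAcard]
    exact hPd
  by_cases hcase : ∃ (i : Fin k2) (x : Fin k2 → Fin k1 → ℕ) (g : ℤ),
      eta * (X i).card < (((X i).filter (fun t => Function.update x i t ∈ A ∧
        c (b0 * ∏ i', ∏ j, Function.update x i t i' j) = g)).card : ℝ)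
  · left
    obtain ⟨i, x, g, hig⟩ := hcase
    obtain ⟨A', hA'⟩ : ∃ A' : Finset (Fin k1 → ℕ), A' = (X i).filter (fun t =>
      Function.update x i t ∈ A ∧ c (b0 * ∏ i', ∏ j, Function.update x i t i' j) = g) := ⟨_, rfl⟩
    have hA's : A' ⊆ Fintype.piFinset (P' i) := by
      rw [hA', hX]
      exact Finset.filter_subset _ _
    obtain ⟨x', y', hxy, hv⟩ := exists_cube k1 (P' i) A' hA's eta heta0 N0 (hP'c i) hN (by
      rw [← hXc i, hA']
      exact hig.le)
    obtain ⟨b1, hb1⟩ : ∃ b1 : ℕ, b1 = b0 * ∏ i' ∈ Finset.univ.erase i, ∏ j, x i' j := ⟨_, rfl⟩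
    have hvx : ∀ t : Fin k1 → ℕ, b0 * ∏ i', ∏ j, Function.update x i t i' j = b1 * ∏ j, t j := by
      intro t
      rw [hb1, mul_assoc, ← Finset.prod_erase_mul Finset.univ _ (Finset.mem_univ i),
        Function.update_self]
      congr 2
      refine Finset.prod_congr rfl fun i' hi' => ?_
      rw [Function.update_of_ne (Finset.mem_erase.1 hi').1]
    have hvv : ∀ v : Fin k1 → Bool, vx b1 (fun j s => if s then y' j else x' j) v ∈ E ∧
        c (vx b1 (fun j s => if s then y' j else x' j) v) = g := by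
      intro v
      have h1 := hv v
      rw [hA', Finset.mem_filter] at h1
      obtain ⟨_, h2, h3⟩ := h1
      have h4 := hAE _ h2
      rw [hvx] at h3 h4
      exact ⟨h4, h3⟩
    refine ⟨b1, fun j s => if s then y' j else x' j, ?_, ?_, ?_, fun v => (hvv v).1,
      fun v v' => ((hvv v).2).trans ((hvv v').2).symm⟩
    · have h1 := hE (hvv fun _ => false).1
      rw [Finset.mem_Icc] at h1
      unfold vx at h1
      have h2 := h1.1
      by_contra h3
      have h4 : b1 = 0 := by omega
      rw [h4, zero_mul] at h2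
      omega
    · intro j s
      cases s
      · exact hP'p i j _ (hxy j).1
      · exact hP'p i j _ (hxy j).2.1
    · intro j
      simpa using (hxy j).2.2
  · right
    have hcol : ∀ (i : Fin k2) (x : Fin k2 → Fin k1 → ℕ) (g : ℤ),
        (((X i).filter (fun t => Function.update x i t ∈ A ∧
          (fun x : Fin k2 → Fin k1 → ℕ => c (b0 * ∏ i', ∏ j, x i' j)) (Function.update x i t) =
            g)).card : ℝ) ≤ eta * (X i).card := by
      intro i x g
      by_contra h1
      exact hcase ⟨i, x, g, not_le.1 h1⟩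
    have hX1 : ∀ i, 1 ≤ (X i).card := by
      intro i
      have h1 : (X i).card = ∏ j, (P' i j).card := by
        rw [hX]
        exact Fintype.card_piFinset _
      rw [h1]
      exact Nat.one_le_iff_ne_zero.2 (Finset.prod_ne_zero_iff.2 fun j _ => by
        have := hP'c i j
        omega)
    obtain ⟨x, y, hxy, hv, hcv⟩ := exists_rainbow k2 X hX1 A hAX
      (fun x : Fin k2 → Fin k1 → ℕ => c (b0 * ∏ i', ∏ j, x i' j)) w del eta hdel.le heta0.le hd
      hcol hnum
    have hvx : ∀ v : Fin k2 → Bool, vx b0 (fun i s => ∏ j, (if s then y i else x i) j) v =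
        b0 * ∏ i', ∏ j, (fun i => if v i then y i else x i) i' j := fun v => rfl
    refine ⟨b0, fun i s => ∏ j, (if s then y i else x i) j, hb0, ?_, fun v => ?_,
      fun v v' hvv => ?_⟩
    · intro i s
      have hmem : (if s then y i else x i) ∈ X i := by
        split_ifs
        · exact (hxy i).2
        · exact (hxy i).1
      rw [hX] at hmem
      rw [Fintype.mem_piFinset] at hmem
      exact Nat.one_le_iff_ne_zero.2 (Finset.prod_ne_zero_iff.2 fun j _ =>
        (hP'p i j _ (hmem j)).ne_zero)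
    · rw [hvx]
      exact hAE _ (hv v)
    · rw [hvx, hvx]
      exact hcv v v' hvv

end H4AR
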