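import Mathlib

/-!
H4/AR/CubeC: a subset A of density ≥ del of a product of k finite sets contains all 2^k vertices
(v -> y_i if v_i, x_i otherwise) for at least a proportion del^(2^k) of all pairs (x, y).

PROOF. Functional version, by induction on k: for nonempty finite sets X_i and f : (Fin k → α) → ℝ, f ≥ 0, the average
over x, y in the product of the X_i of prod_v f(vertex v) is ≥ (average of f)^(2^k). k = 0: equality (one point, the
empty function; one vertex). Step: split off the coordinate 0 (Fin.cons, `Fin.consEquiv`, `Fin.prod_univ_succ`,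
`Fintype.piFinset` of a Fin (k+1) family): for y, y' in X_0 put g_{y,y'}(x) = f(cons y x) f(cons y' x) on the other
coordinates. The cube product of f for (cons y x, cons y' x') is the cube product of g_{y,y'} for (x,x'). By induction
the average over x,x' is ≥ (E_x g_{y,y'})^(2^k), and by the power mean inequality
(`inner_le_nnorm_mul_nnorm` is not needed; use `Real.pow_arith_mean_le_arith_mean_pow` or
`inner`... or `Finset.inner`...; exponent 2^k) the average over (y,y') of it is ≥ (E_{y,y'} E_x g)^(2^k), and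
E_{y,y'} E_x f(cons y x) f(cons y' x) = E_x (E_y f(cons y x))^2 ≥ (E_x E_y f)^2 (Cauchy-Schwarz).
If some X_i is empty both sides of the statement are 0 (k ≥ 1). Then take f the indicator of A.
-/

set_option autoImplicit false

namespace H4AR

open Finset

private theorem sum_pi_succ {α : Type} [DecidableEq α] {k : ℕ} (X : Fin (k + 1) → Finset α)
    (F : (Fin (k + 1) → α) → ℝ) :
    ∑ x ∈ Fintype.piFinset X, F x =
      ∑ a ∈ X 0, ∑ x ∈ Fintype.piFinset (fun i : Fin k => X i.succ), F (Fin.cons a x : Fin (k + 1) → α) := by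
  rw [← Finset.sum_product']
  refine Finset.sum_nbij' (fun x => (x 0, fun i => x i.succ)) (fun p => (Fin.cons p.1 p.2 : Fin (k + 1) → α))
    ?_ ?_ ?_ ?_ ?_
  · intro x hx
    rw [Fintype.mem_piFinset] at hx
    rw [Finset.mem_product, Fintype.mem_piFinset]
    exact ⟨hx 0, fun i => hx i.succ⟩
  · intro p hp
    rw [Finset.mem_product, Fintype.mem_piFinset] at hp
    rw [Fintype.mem_piFinset]
    intro i
    refine Fin.cases ?_ (fun j => ?_) i
    · simpa using hp.1
    · simpa using hp.2 j
  · intro x _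
    funext i
    refine Fin.cases ?_ (fun j => ?_) i <;> simp
  · intro p _
    simp
  · intro x _
    congr 1
    funext i
    refine Fin.cases ?_ (fun j => ?_) i <;> simp

private theorem prod_bool_succ {k : ℕ} (G : (Fin (k + 1) → Bool) → ℝ) :
    ∏ v, G v = ∏ v : Fin k → Bool, (G (Fin.cons false v : Fin (k + 1) → Bool) *
      G (Fin.cons true v : Fin (k + 1) → Bool)) := by
  rw [← Equiv.prod_comp (Fin.consEquiv (fun _ : Fin (k + 1) => Bool)), Fintype.prod_prod_type,
    Finset.prod_comm]
  refine Finset.prod_congr rfl fun v _ => ?_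
  rw [Fintype.prod_bool, mul_comm]
  rfl

private theorem vert_cons {α : Type} {k : ℕ} (a a' : α) (x y : Fin k → α) (b : Bool) (v : Fin k → Bool) :
    (fun i : Fin (k + 1) => if (Fin.cons b v : Fin (k + 1) → Bool) i then (Fin.cons a' y : Fin (k + 1) → α) i
      else (Fin.cons a x : Fin (k + 1) → α) i) =
      (Fin.cons (if b then a' else a) (fun i => if v i then y i else x i) : Fin (k + 1) → α) := by
  funext i
  refine Fin.cases ?_ (fun j => ?_) i
  · simp
  · simp

private theorem cube_num {k p : ℕ} (hp : 2 ^ k = p + 1) {n P F Tt S : ℝ} (hn : 0 < n) (hP' : 0 < P) (hF0 : 0 ≤ F)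
    (h4 : F ^ 2 ≤ P * Tt) (h3 : (Tt / P) ^ (p + 1) / (n ^ 2) ^ p ≤ S) :
    (n * P) ^ 2 * (F / (n * P)) ^ 2 ^ (k + 1) ≤ P ^ 2 * S := by
  refine le_trans ?_ (mul_le_mul_of_nonneg_left h3 (by positivity))
  have h5 : (F / P) ^ 2 ≤ Tt / P := by
    rw [div_pow, div_le_div_iff₀ (by positivity) hP']
    nlinarith
  have h6 : ((F / P) ^ 2) ^ (p + 1) ≤ (Tt / P) ^ (p + 1) := pow_le_pow_left₀ (by positivity) h5 _
  calc (n * P) ^ 2 * (F / (n * P)) ^ 2 ^ (k + 1)
      = P ^ 2 * (((F / P) ^ 2) ^ (p + 1) / (n ^ 2) ^ p) := by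
        rw [pow_succ 2 k, hp, mul_comm (p + 1) 2, pow_mul]
        have e1 : (F / (n * P)) ^ 2 = (F / P) ^ 2 / n ^ 2 := by field_simp
        rw [e1, div_pow, pow_succ (n ^ 2) p]
        field_simp
    _ ≤ P ^ 2 * ((Tt / P) ^ (p + 1) / (n ^ 2) ^ p) := by gcongr

private theorem cube_fn {α : Type} [DecidableEq α] (k : ℕ) : ∀ (X : Fin k → Finset α), (∀ i, (X i).Nonempty) →
    ∀ f : (Fin k → α) → ℝ, (∀ x, 0 ≤ f x) →
    (∏ i, ((X i).card : ℝ)) ^ 2 * ((∑ x ∈ Fintype.piFinset X, f x) / ∏ i, ((X i).card : ℝ)) ^ (2 ^ k) ≤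
      ∑ x ∈ Fintype.piFinset X, ∑ y ∈ Fintype.piFinset X,
        ∏ v : Fin k → Bool, f (fun i => if v i then y i else x i) := by
  induction k with
  | zero =>
    intro X _ f _
    have h1 : Fintype.piFinset X = {fun i => i.elim0} := by
      ext x
      rw [Fintype.mem_piFinset, Finset.mem_singleton]
      constructor
      · intro _; funext i; exact i.elim0
      · intro _ i; exact i.elim0
    rw [h1]
    simp only [Finset.univ_eq_empty, Finset.prod_empty, Finset.sum_singleton, one_pow, one_mul, div_one, pow_zero,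
      pow_one]
    rw [Fintype.prod_unique]
    apply le_of_eq
    congr 1
    funext i
    exact i.elim0
  | succ k ih =>
    intro X hX f hf
    set X' : Fin k → Finset α := fun i => X i.succ with hX'
    have hP' : 0 < ∏ i, ((X' i).card : ℝ) :=
      Finset.prod_pos fun i _ => by exact_mod_cast Finset.card_pos.2 (hX i.succ)
    set P : ℝ := ∏ i, ((X' i).card : ℝ) with hP
    have hn : 0 < ((X 0).card : ℝ) := by exact_mod_cast Finset.card_pos.2 (hX 0)
    set n : ℝ := ((X 0).card : ℝ) with hndef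
    rw [Fin.prod_univ_succ]
    have hfold : (∏ i : Fin k, ((X i.succ).card : ℝ)) = P := rfl
    rw [hfold, ← hndef]
    -- the right side
    have hR : ∑ x ∈ Fintype.piFinset X, ∑ y ∈ Fintype.piFinset X,
        ∏ v : Fin (k + 1) → Bool, f (fun i => if v i then y i else x i) =
        ∑ q ∈ X 0 ×ˢ X 0, ∑ x ∈ Fintype.piFinset X', ∑ y ∈ Fintype.piFinset X',
          ∏ v : Fin k → Bool, (fun z => f (Fin.cons q.1 z : Fin (k + 1) → α) *
            f (Fin.cons q.2 z : Fin (k + 1) → α)) (fun i => if v i then y i else x i) := by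
      rw [Finset.sum_product, sum_pi_succ]
      refine Finset.sum_congr rfl fun a _ => ?_
      symm
      rw [Finset.sum_comm]
      symm
      refine Finset.sum_congr rfl fun x _ => ?_
      rw [sum_pi_succ]
      refine Finset.sum_congr rfl fun a' _ => ?_
      refine Finset.sum_congr rfl fun y _ => ?_
      rw [prod_bool_succ]
      refine Finset.prod_congr rfl fun v _ => ?_
      rw [vert_cons, vert_cons]
      simp
    rw [hR]
    -- induction
    set t : α × α → ℝ := fun q => ∑ z ∈ Fintype.piFinset X', f (Fin.cons q.1 z : Fin (k + 1) → α) *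
            f (Fin.cons q.2 z : Fin (k + 1) → α) with ht
    have ht0 : ∀ q, 0 ≤ t q := fun q => Finset.sum_nonneg fun z _ => mul_nonneg (hf _) (hf _)
    have h1 : ∀ q ∈ X 0 ×ˢ X 0, P ^ 2 * (t q / P) ^ (2 ^ k) ≤
        ∑ x ∈ Fintype.piFinset X', ∑ y ∈ Fintype.piFinset X',
          ∏ v : Fin k → Bool, (fun z => f (Fin.cons q.1 z : Fin (k + 1) → α) *
            f (Fin.cons q.2 z : Fin (k + 1) → α)) (fun i => if v i then y i else x i) := fun q _ =>
      ih X' (fun i => hX i.succ) _ (fun z => mul_nonneg (hf _) (hf _))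
    refine le_trans ?_ (Finset.sum_le_sum h1)
    rw [← Finset.mul_sum]
    -- power mean
    obtain ⟨p, hp⟩ : ∃ p, 2 ^ k = p + 1 := ⟨2 ^ k - 1, by have := Nat.one_le_two_pow (n := k); omega⟩
    have h3 : (∑ q ∈ X 0 ×ˢ X 0, t q / P) ^ (p + 1) / ((X 0 ×ˢ X 0).card : ℝ) ^ p ≤
        ∑ q ∈ X 0 ×ˢ X 0, (t q / P) ^ (p + 1) :=
      pow_sum_div_card_le_sum_pow (fun q _ => div_nonneg (ht0 q) hP'.le) p
    have hcard : ((X 0 ×ˢ X 0).card : ℝ) = n ^ 2 := by
      rw [Finset.card_product]; push_cast; rw [← hndef]; ring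
    rw [hcard] at h3
    -- Cauchy-Schwarz
    have h4 : (∑ x ∈ Fintype.piFinset X, f x) ^ 2 ≤ P * ∑ q ∈ X 0 ×ˢ X 0, t q := by
      have e1 : ∑ q ∈ X 0 ×ˢ X 0, t q =
          ∑ z ∈ Fintype.piFinset X', (∑ a ∈ X 0, f (Fin.cons a z : Fin (k + 1) → α)) ^ 2 := by
        rw [ht, Finset.sum_comm]
        refine Finset.sum_congr rfl fun z _ => ?_
        rw [Finset.sum_product, sq, Finset.sum_mul_sum]
      have e2 : ∑ x ∈ Fintype.piFinset X, f x =
          ∑ z ∈ Fintype.piFinset X', ∑ a ∈ X 0, f (Fin.cons a z : Fin (k + 1) → α) := by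
        rw [sum_pi_succ, Finset.sum_comm]
      rw [e1, e2]
      have e3 := sq_sum_le_card_mul_sum_sq (s := Fintype.piFinset X')
        (f := fun z => ∑ a ∈ X 0, f (Fin.cons a z : Fin (k + 1) → α))
      have e4 : ((Fintype.piFinset X').card : ℝ) = P := by
        rw [Fintype.card_piFinset, hP]; push_cast; rfl
      rwa [e4] at e3
    have hF0 : 0 ≤ ∑ x ∈ Fintype.piFinset X, f x := Finset.sum_nonneg fun x _ => hf x
    set F : ℝ := ∑ x ∈ Fintype.piFinset X, f x with hF
    set Tt : ℝ := ∑ q ∈ X 0 ×ˢ X 0, t q with hT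
    rw [← Finset.sum_div] at h3
    rw [hp]
    exact cube_num hp hn hP' hF0 h4 h3

theorem cube_count {α : Type} [DecidableEq α] (k : ℕ) (X : Fin k → Finset α) (A : Finset (Fin k → α))
    (hA : A ⊆ Fintype.piFinset X) (del : ℝ) (hdel : 0 ≤ del)
    (hd : del * ∏ i, ((X i).card : ℝ) ≤ A.card) :
    del ^ (2 ^ k) * (∏ i, ((X i).card : ℝ)) ^ 2 ≤
      (((Fintype.piFinset X ×ˢ Fintype.piFinset X).filter
        (fun q => ∀ v : Fin k → Bool, (fun i => if v i then q.2 i else q.1 i) ∈ A)).card : ℝ) := by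
  by_cases hX : ∀ i, (X i).Nonempty
  · have hP : 0 < ∏ i, ((X i).card : ℝ) :=
      Finset.prod_pos fun i _ => by exact_mod_cast Finset.card_pos.2 (hX i)
    have h := cube_fn k X hX (fun x => if x ∈ A then 1 else 0) (fun x => by split_ifs <;> norm_num)
    have h1 : ∑ x ∈ Fintype.piFinset X, (if x ∈ A then (1 : ℝ) else 0) = A.card := by
      rw [Finset.sum_ite_mem, Finset.inter_eq_right.2 hA]; simp
    have h2 : ∑ x ∈ Fintype.piFinset X, ∑ y ∈ Fintype.piFinset X,
        ∏ v : Fin k → Bool, (if (fun i => if v i then y i else x i) ∈ A then (1 : ℝ) else 0) =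
        (((Fintype.piFinset X ×ˢ Fintype.piFinset X).filter
        (fun q => ∀ v : Fin k → Bool, (fun i => if v i then q.2 i else q.1 i) ∈ A)).card : ℝ) := by
      rw [← Finset.sum_product', Finset.card_filter]
      push_cast
      refine Finset.sum_congr rfl fun q _ => ?_
      by_cases hq : ∀ v : Fin k → Bool, (fun i => if v i then q.2 i else q.1 i) ∈ A
      · rw [if_pos hq]
        exact Finset.prod_eq_one fun v _ => if_pos (hq v)
      · rw [if_neg hq]
        push Not at hq
        obtain ⟨v, hv⟩ := hq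
        exact Finset.prod_eq_zero (Finset.mem_univ v) (if_neg hv)
    rw [h1, h2] at h
    refine le_trans ?_ h
    have h3 : del ≤ (A.card : ℝ) / ∏ i, ((X i).card : ℝ) := by rwa [le_div_iff₀ hP]
    rw [mul_comm]
    gcongr
  · push Not at hX
    obtain ⟨i, hi⟩ := hX
    have hP : ∏ i, ((X i).card : ℝ) = 0 := by
      apply Finset.prod_eq_zero (Finset.mem_univ i)
      simp [hi]
    rw [hP]
    simp

end H4AR
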