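import Mathlib

/-!
H4/AR/CubeMul: a nowhere vanishing function on the cube {0,1}^k whose 2-faces satisfy r(v) r(v+e_i+e_j) =
r(v+e_i) r(v+e_j) is multiplicative: r(v) = r(0) prod_{v_i = 1} r(e_i)/r(0).

PROOF. First for all v and i with v_i = false: r(v + e_i)/r(v) = r(e_i)/r(0), by induction on the number of ones of v:
if v = v' + e_j (j ≠ i, v'_j = false) then the face relation at v' gives r(v'+e_j+e_i)/r(v'+e_j) = r(v'+e_i)/r(v').
Then the claim by induction on the number of ones of v (remove one coordinate).
-/

namespace H4AR

/-- the vertex of a set of coordinates -/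
private def cm_v {k : ℕ} (s : Finset (Fin k)) (i : Fin k) : Bool := decide (i ∈ s)

private theorem cm_empty {k : ℕ} : cm_v (∅ : Finset (Fin k)) = fun _ => false := by
  funext i
  simp [cm_v]

private theorem cm_insert {k : ℕ} (s : Finset (Fin k)) (j : Fin k) :
    Function.update (cm_v s) j true = cm_v (insert j s) := by
  funext i
  by_cases h : i = j
  · subst h
    simp [cm_v]
  · rw [Function.update_of_ne h]
    simp [cm_v, h]

private theorem cm_of {k : ℕ} (v : Fin k → Bool) :
    v = cm_v (Finset.univ.filter fun i => v i = true) := by
  funext i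
  simp [cm_v]

private theorem cm_notMem {k : ℕ} {s : Finset (Fin k)} {i : Fin k} (h : i ∉ s) :
    cm_v s i = false := by
  simp [cm_v, h]

private theorem cm_one {k : ℕ} (r : (Fin k → Bool) → ℚ) (hr : ∀ v, r v ≠ 0)
    (hface : ∀ (v : Fin k → Bool) (i j : Fin k), i ≠ j → v i = false → v j = false →
      r v * r (Function.update (Function.update v i true) j true) =
        r (Function.update v i true) * r (Function.update v j true)) (s : Finset (Fin k)) :
    ∀ i, i ∉ s → r (cm_v (insert i s)) * r (cm_v ∅) = r (cm_v s) * r (cm_v {i}) := by
  induction s using Finset.induction_on with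
  | empty =>
    intro i _
    rw [insert_empty_eq, mul_comm]
  | insert j t hj ih =>
    intro i hi
    rw [Finset.mem_insert, not_or] at hi
    obtain ⟨hij, hit⟩ := hi
    have h1 := hface (cm_v t) i j hij (cm_notMem hit) (cm_notMem hj)
    rw [cm_insert, cm_insert, cm_insert, Finset.insert_comm] at h1
    have h2 := ih i hit
    have h3 := hr (cm_v t)
    refine mul_left_cancel₀ h3 ?_
    linear_combination r (cm_v ∅) * h1 + r (cm_v (insert j t)) * h2

theorem cube_mul {k : ℕ} (r : (Fin k → Bool) → ℚ) (hr : ∀ v, r v ≠ 0)
    (hface : ∀ (v : Fin k → Bool) (i j : Fin k), i ≠ j → v i = false → v j = false →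
      r v * r (Function.update (Function.update v i true) j true) =
        r (Function.update v i true) * r (Function.update v j true)) (v : Fin k → Bool) :
    r v = r (fun _ => false) *
      ∏ i, (if v i then r (Function.update (fun _ => false) i true) / r (fun _ => false) else 1) := by
  have key : ∀ s : Finset (Fin k), r (cm_v s) = r (cm_v ∅) *
      ∏ i ∈ s, (r (cm_v {i}) / r (cm_v ∅)) := by
    intro s
    induction s using Finset.induction_on with
    | empty => rw [Finset.prod_empty, mul_one]
    | insert j t hj ih =>
      rw [Finset.prod_insert hj]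
      have h1 := cm_one r hr hface t j hj
      have h2 := hr (cm_v ∅)
      refine mul_right_cancel₀ h2 ?_
      rw [h1, ih]
      field_simp
  have h1 := key (Finset.univ.filter fun i => v i = true)
  rw [← cm_of v, cm_empty, Finset.prod_filter] at h1
  have h2 : ∀ i : Fin k, Function.update (fun _ => false) i true = cm_v {i} := by
    intro i
    rw [← cm_empty, cm_insert, insert_empty_eq]
  simp only [h2]
  exact h1

end H4AR
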