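import Pool.Agent.H4.AR.LogH
import Pool.Agent.H4.AR.RootN

/-!
H4/AR/CurveE: a large integer pair (X,Y) with a small value of Phi(b X^n, a Y^n) gives an exceptional approximation.

Phi(u,v) = sum_{i ≤ D} P_i u^i v^(D-i), D = natDegree P.

PROOF. K ≥ 1 larger than the constants of near_root and growth and than 1/s, s from root_sep. M = max(|X|,|Y|)
≥ (T U)^C, T ≥ C ≥ 2, so TU ≥ 2 and M is larger than any fixed power of T U times any fixed constant (C large: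
(TU)^C ≥ C' (T U)^c because TU ≥ T ≥ C). Put V = |Phi(b X^n, a Y^n)| ≤ U M^(nD-5).
(i) Y ≠ 0: otherwise M = |X|, V = |P_D| (b |X|^n)^D ≥ M^(nD) > U M^(nD-5).
(ii) rho = b X^n/(a Y^n) (real): V = |P(rho)| (a |Y|^n)^D. If |rho| ≥ K: V ≥ (1/2)(b|X|^n)^D and b |X|^n ≥ M^n (if M = |X| as
b ≥ 1; if M = |Y|: b|X|^n ≥ a |Y|^n ≥ M^n): V ≥ M^(nD)/2 > U M^(nD-5), contradiction. So |rho| < K, and
M ≤ K T |Y| (if M = |X|: M^n ≤ b|X|^n < K a |Y|^n ≤ K T |Y|^n ≤ (K T |Y|)^n).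
(iii) |P(rho)| = V/(a|Y|^n)^D ≤ U M^(nD-5) (KT)^(nD)/M^(nD) = U (KT)^(nD) M^(-5) =: eps0, tiny (< 1/K, < s/(4K)).
near_root: real root y with |rho - y| ≤ K eps0 < s/2; |y| ≥ s, so rho ≠ 0 has the sign of y; X ≠ 0. th = |y| > 0,
th or -th is a root. r = |X|/|Y| > 0 (rational), |rho| = b r^n/a, ||rho| - th| = |rho - y|, so
|b r^n - th a| ≤ T K eps0 ≤ M^(-9/2) ≤ ht(r)^(-9/2) (ht(r) ≤ M as |X|/|Y| in lowest terms has smaller
numerator and denominator).
(iv) If b r^n = th a we are in the first alternative. Otherwise rho ≠ y, and P(rho) ≠ 0: another root y' ≠ y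
would be closer than s/2+... (|rho - y| < s/2, so a root equal to rho is at distance < s from y, hence equals y).
With r = p/q in lowest terms, rho = ± b p^n/(a q^n), and (a q^n)^D P(rho) is a nonzero integer: |P(rho)| ≥ (T q^n)^(-D).
So (T q^n)^D ≥ 1/eps0 = M^5/(U (KT)^(nD)) ≥ T^D M^4, ht(r) ≥ q ≥ M^(4/(nD)) ≥ T^CN (M ≥ T^(CN n D)).
Hence Exc n b a th (9/2) (T^CN) r.
-/

namespace H4AR

private theorem hom_eq (P : Polynomial ℤ) (x y : ℝ) (hy : y ≠ 0) :
    ∑ i ∈ Finset.range (P.natDegree + 1), ((P.coeff i : ℤ) : ℝ) * x ^ i * y ^ (P.natDegree - i) =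
      y ^ P.natDegree * Polynomial.aeval (x / y) P := by
  rw [Polynomial.aeval_eq_sum_range, Finset.mul_sum]
  refine Finset.sum_congr rfl fun i hi => ?_
  have hi' : i ≤ P.natDegree := by simpa [Nat.lt_succ_iff] using hi
  rw [zsmul_eq_mul, div_pow]
  have h : y ^ P.natDegree = y ^ (P.natDegree - i) * y ^ i := by
    rw [← pow_add, Nat.sub_add_cancel hi']
  rw [h]
  field_simp

private theorem hom_zero (P : Polynomial ℤ) (x : ℝ) :
    ∑ i ∈ Finset.range (P.natDegree + 1), ((P.coeff i : ℤ) : ℝ) * x ^ i * (0 : ℝ) ^ (P.natDegree - i) =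
      ((P.coeff P.natDegree : ℤ) : ℝ) * x ^ P.natDegree := by
  rw [Finset.sum_eq_single P.natDegree]
  · simp
  · intro i hi hne
    have hi' : i ≤ P.natDegree := by simpa [Nat.lt_succ_iff] using hi
    have : P.natDegree - i ≠ 0 := by omega
    rw [zero_pow this, mul_zero]
  · intro h
    exact absurd (Finset.mem_range.mpr (Nat.lt_succ_self _)) h

/-- a nonzero value at a rational point is not too small -/
private theorem val_low (P : Polynomial ℤ) (u v : ℤ) (hv : 0 < v)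
    (h : Polynomial.aeval ((u : ℝ) / (v : ℝ)) P ≠ 0) :
    1 ≤ (v : ℝ) ^ P.natDegree * |Polynomial.aeval ((u : ℝ) / (v : ℝ)) P| := by
  have hv' : (0 : ℝ) < v := by exact_mod_cast hv
  have h1 := hom_eq P (u : ℝ) (v : ℝ) hv'.ne'
  have h2 : ((∑ i ∈ Finset.range (P.natDegree + 1), P.coeff i * u ^ i * v ^ (P.natDegree - i) : ℤ) : ℝ) =
      (v : ℝ) ^ P.natDegree * Polynomial.aeval ((u : ℝ) / (v : ℝ)) P := by
    rw [← h1]
    push_cast
    rfl
  have h3 : (∑ i ∈ Finset.range (P.natDegree + 1), P.coeff i * u ^ i * v ^ (P.natDegree - i) : ℤ) ≠ 0 := by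
    intro h0
    rw [h0, Int.cast_zero] at h2
    exact mul_ne_zero (pow_ne_zero _ hv'.ne') h h2.symm
  have h4 : (1 : ℝ) ≤ |((∑ i ∈ Finset.range (P.natDegree + 1),
      P.coeff i * u ^ i * v ^ (P.natDegree - i) : ℤ) : ℝ)| := by
    rw [← Int.cast_abs]
    exact_mod_cast Int.one_le_abs h3
  rw [h2, abs_mul, abs_pow, abs_of_pos hv'] at h4
  exact h4

theorem curve_exc (n : ℕ) (hn : 2 ≤ n) (P : Polynomial ℤ) (hP0 : P.coeff 0 ≠ 0)
    (hsq : Squarefree (P.map (Int.castRingHom ℚ))) (hnD : 5 ≤ n * P.natDegree) (CN : ℕ) :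
    ∃ C : ℕ, ∀ T : ℕ, C ≤ T → ∀ b a : ℕ, 1 ≤ b → b ≤ T → 1 ≤ a → a ≤ T → ∀ U : ℝ, 1 ≤ U →
      ∀ X Y : ℤ, ((T : ℝ) * U) ^ C ≤ max |(X : ℝ)| |(Y : ℝ)| →
      |∑ i ∈ Finset.range (P.natDegree + 1),
        ((P.coeff i : ℤ) : ℝ) * ((b : ℝ) * (X : ℝ) ^ n) ^ i * ((a : ℝ) * (Y : ℝ) ^ n) ^ (P.natDegree - i)| ≤
        U * (max |(X : ℝ)| |(Y : ℝ)|) ^ (n * P.natDegree - 5) →
      ∃ th : ℝ, 0 < th ∧ (Polynomial.aeval th P = 0 ∨ Polynomial.aeval (-th) P = 0) ∧
        ((∃ r : ℚ, 0 < r ∧ (b : ℝ) * (r : ℝ) ^ n = th * (a : ℝ)) ∨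
          ∃ r : ℚ, Exc n b a th (9 / 2) ((T : ℝ) ^ CN) r) := by
  classical
  have hP : P ≠ 0 := by rintro rfl; simp at hP0
  obtain ⟨K1, hK1, near⟩ := near_root P hP hsq
  obtain ⟨K2, hK2, grow⟩ := growth P hP
  obtain ⟨s, hs, hs1, hs2⟩ := root_sep P hP hP0
  obtain ⟨κ, hκ⟩ := exists_nat_ge (K1 + K2 + 4 / s)
  have hs0 : 0 < 4 / s := by positivity
  have hκ1 : K1 ≤ (κ : ℝ) := by linarith
  have hκ2 : K2 ≤ (κ : ℝ) := by linarith
  have hκ3 : 4 / s ≤ (κ : ℝ) := by linarith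
  have hκ4 : (1 : ℝ) ≤ κ := by linarith
  set D := P.natDegree with hD
  set N := n * D with hN
  have hD0 : 0 < D := by
    rcases Nat.eq_zero_or_pos D with h | h
    · rw [hN, h] at hnD
      omega
    · exact h
  refine ⟨κ + CN * N + 4 * N + D + 10, ?_⟩
  intro T hT b a hb hbT ha haT U hU X Y hM hΦ
  set M := max |(X : ℝ)| |(Y : ℝ)| with hMdef
  have hT1 : (1 : ℝ) ≤ T := by
    have : 1 ≤ T := by omega
    exact_mod_cast this
  have hTκ : (κ : ℝ) ≤ T := by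
    have : κ ≤ T := by omega
    exact_mod_cast this
  have hT2 : (2 : ℝ) ≤ T := by
    have : 2 ≤ T := by omega
    exact_mod_cast this
  have hb1 : (1 : ℝ) ≤ b := by exact_mod_cast hb
  have ha1 : (1 : ℝ) ≤ a := by exact_mod_cast ha
  have haT' : (a : ℝ) ≤ T := by exact_mod_cast haT
  have hbT' : (b : ℝ) ≤ T := by exact_mod_cast hbT
  set W := (T : ℝ) * U with hW
  have hTW : (T : ℝ) ≤ W := le_mul_of_one_le_right (by linarith) hU
  have hUW : U ≤ W := le_mul_of_one_le_left (by linarith) hT1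
  have hκW : (κ : ℝ) ≤ W := hTκ.trans hTW
  have hW2 : (2 : ℝ) ≤ W := hT2.trans hTW
  have hW1 : (1 : ℝ) ≤ W := by linarith
  have pw : ∀ e : ℕ, e ≤ κ + CN * N + 4 * N + D + 10 → W ^ e ≤ M := fun e he =>
    (pow_le_pow_right₀ hW1 he).trans hM
  have hM1 : 1 ≤ M := by simpa using pw 0 (Nat.zero_le _)
  have hM0 : 0 < M := by linarith
  have hMW2 : W ^ 2 ≤ M := pw 2 (by omega)
  have hM2U : 2 * U < M := by
    have h1 : 2 * U ≤ W * W := mul_le_mul hW2 hUW (by linarith) (by linarith)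
    have h2 : W ^ 3 ≤ M := pw 3 (by omega)
    nlinarith
  have hMpow : M ≤ M ^ 5 := le_self_pow₀ hM1 (by norm_num)
  have hN5 : N - 5 + 5 = N := Nat.sub_add_cancel hnD
  have hMN : M ^ N = M ^ (N - 5) * M ^ 5 := by rw [← pow_add, hN5]
  -- a lower bound M^N / 2 for the form is impossible
  have big : ∀ V : ℝ, M ^ N / 2 ≤ V → V ≤ U * M ^ (N - 5) → False := by
    intro V h1 h2
    have h3 : M ^ (N - 5) * M ^ 5 / 2 ≤ U * M ^ (N - 5) := by rw [← hMN]; linarith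
    have h4 : 0 < M ^ (N - 5) := by positivity
    have h5 : M ^ 5 ≤ 2 * U := by
      by_contra h
      push Not at h
      nlinarith
    linarith
  -- Y ≠ 0
  have hY : Y ≠ 0 := by
    rintro rfl
    have hMX : M = |(X : ℝ)| := by
      rw [hMdef]; simp
    have h1 : ∑ i ∈ Finset.range (D + 1), ((P.coeff i : ℤ) : ℝ) * ((b : ℝ) * (X : ℝ) ^ n) ^ i *
        ((a : ℝ) * ((0 : ℤ) : ℝ) ^ n) ^ (D - i) = ((P.coeff D : ℤ) : ℝ) * ((b : ℝ) * (X : ℝ) ^ n) ^ D := by
      have h2 : (a : ℝ) * ((0 : ℤ) : ℝ) ^ n = 0 := by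
        rw [Int.cast_zero, zero_pow (by omega), mul_zero]
      rw [h2]
      exact hom_zero P _
    rw [h1, abs_mul, abs_pow, abs_mul, abs_pow, ← hMX] at hΦ
    have h3 : (1 : ℝ) ≤ |((P.coeff D : ℤ) : ℝ)| := by
      have : P.coeff D ≠ 0 := by
        rw [hD]
        exact Polynomial.leadingCoeff_ne_zero.mpr hP
      rw [← Int.cast_abs]
      exact_mod_cast Int.one_le_abs this
    have h4 : M ^ n ≤ |(b : ℝ)| * M ^ n := by
      rw [abs_of_pos (by linarith)]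
      exact le_mul_of_one_le_left (by positivity) hb1
    have h5 : M ^ N ≤ (|(b : ℝ)| * M ^ n) ^ D := by
      rw [hN, pow_mul]
      exact pow_le_pow_left₀ (by positivity) h4 D
    have h6 : M ^ N ≤ |((P.coeff D : ℤ) : ℝ)| * (|(b : ℝ)| * M ^ n) ^ D :=
      h5.trans (le_mul_of_one_le_left (by positivity) h3)
    have h7 : 0 < M ^ N := by positivity
    exact big _ (by linarith) hΦ
  have hYR : (Y : ℝ) ≠ 0 := by exact_mod_cast hY
  have hYa : 0 < |(Y : ℝ)| := abs_pos.mpr hYR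
  have hy0 : (a : ℝ) * (Y : ℝ) ^ n ≠ 0 := mul_ne_zero (by linarith) (pow_ne_zero _ hYR)
  rw [hom_eq P _ _ hy0] at hΦ
  set ρ := (b : ℝ) * (X : ℝ) ^ n / ((a : ℝ) * (Y : ℝ) ^ n) with hρ
  set v := Polynomial.aeval ρ P with hv
  have hyabs : |(a : ℝ) * (Y : ℝ) ^ n| = (a : ℝ) * |(Y : ℝ)| ^ n := by
    rw [abs_mul, abs_pow, abs_of_pos (by linarith)]
  have hxabs : |(b : ℝ) * (X : ℝ) ^ n| = (b : ℝ) * |(X : ℝ)| ^ n := by
    rw [abs_mul, abs_pow, abs_of_pos (by linarith)]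
  have hxy : |ρ| * ((a : ℝ) * |(Y : ℝ)| ^ n) = (b : ℝ) * |(X : ℝ)| ^ n := by
    rw [← hyabs, ← hxabs, hρ, abs_div]
    exact div_mul_cancel₀ _ (abs_ne_zero.mpr hy0)
  rw [abs_mul, abs_pow, hyabs] at hΦ
  have hYn : |(Y : ℝ)| ^ n ≤ (a : ℝ) * |(Y : ℝ)| ^ n := le_mul_of_one_le_left (by positivity) ha1
  have hXn : |(X : ℝ)| ^ n ≤ (b : ℝ) * |(X : ℝ)| ^ n := le_mul_of_one_le_left (by positivity) hb1
  -- |rho| < kappa
  have hρκ : |ρ| < κ := by
    by_contra hcon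
    push Not at hcon
    have h1 : |ρ| ^ D / 2 ≤ |v| := grow ρ (hκ2.trans hcon)
    have h2 : M ^ n ≤ (b : ℝ) * |(X : ℝ)| ^ n := by
      rcases max_choice |(X : ℝ)| |(Y : ℝ)| with h | h
      · rw [hMdef, h]
        exact hXn
      · rw [hMdef, h, ← hxy]
        refine hYn.trans (le_mul_of_one_le_left (by positivity) (hκ4.trans hcon))
    have h3 : M ^ N / 2 ≤ ((a : ℝ) * |(Y : ℝ)| ^ n) ^ D * |v| := by
      calc M ^ N / 2 = (M ^ n) ^ D / 2 := by rw [hN, pow_mul]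
        _ ≤ ((b : ℝ) * |(X : ℝ)| ^ n) ^ D / 2 := by
            have := pow_le_pow_left₀ (by positivity) h2 D
            linarith
        _ = ((a : ℝ) * |(Y : ℝ)| ^ n) ^ D * (|ρ| ^ D / 2) := by rw [← hxy, mul_pow]; ring
        _ ≤ _ := mul_le_mul_of_nonneg_left h1 (by positivity)
    exact big _ h3 hΦ
  -- M ≤ kappa T |Y|
  have hκT : 1 ≤ (κ : ℝ) * T := by nlinarith
  have hMY : M ≤ (κ : ℝ) * T * |(Y : ℝ)| := by
    rcases max_choice |(X : ℝ)| |(Y : ℝ)| with h | h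
    · rw [hMdef, h]
      refine le_of_pow_le_pow_left₀ (n := n) (by omega) (by positivity) ?_
      calc |(X : ℝ)| ^ n ≤ (b : ℝ) * |(X : ℝ)| ^ n := hXn
        _ = |ρ| * ((a : ℝ) * |(Y : ℝ)| ^ n) := hxy.symm
        _ ≤ (κ : ℝ) * ((T : ℝ) * |(Y : ℝ)| ^ n) :=
            mul_le_mul hρκ.le (mul_le_mul_of_nonneg_right haT' (by positivity)) (by positivity) (by positivity)
        _ = ((κ : ℝ) * T) * |(Y : ℝ)| ^ n := by ring
        _ ≤ ((κ : ℝ) * T) ^ n * |(Y : ℝ)| ^ n :=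
            mul_le_mul_of_nonneg_right (le_self_pow₀ hκT (by omega)) (by positivity)
        _ = _ := by ring
    · rw [hMdef, h]
      exact le_mul_of_one_le_left (by positivity) hκT
  -- E
  set E := U * ((κ : ℝ) * T) ^ N with hE
  have hE0 : 0 < E := by positivity
  have hEW : E ≤ W ^ (2 * N + 1) := by
    calc E ≤ W * (W * W) ^ N := mul_le_mul hUW
            (pow_le_pow_left₀ (by positivity) (mul_le_mul hκW hTW (by linarith) (by linarith)) N)
            (by positivity) (by linarith)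
      _ = W ^ (2 * N + 1) := by rw [← pow_two, ← pow_mul]; ring
  have hvE : |v| ≤ E / M ^ 5 := by
    rw [le_div_iff₀ (by positivity)]
    have h1 : M ^ N ≤ ((κ : ℝ) * T) ^ N * |(Y : ℝ)| ^ N := by
      rw [← mul_pow]
      exact pow_le_pow_left₀ hM0.le hMY N
    have h2 : |(Y : ℝ)| ^ N * |v| ≤ U * M ^ (N - 5) := by
      refine le_trans (mul_le_mul_of_nonneg_right ?_ (abs_nonneg v)) hΦ
      rw [hN, pow_mul]
      exact pow_le_pow_left₀ (by positivity) hYn D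
    have h3 : M ^ N * |v| ≤ ((κ : ℝ) * T) ^ N * (U * M ^ (N - 5)) := by
      calc M ^ N * |v| ≤ (((κ : ℝ) * T) ^ N * |(Y : ℝ)| ^ N) * |v| :=
            mul_le_mul_of_nonneg_right h1 (abs_nonneg v)
        _ = ((κ : ℝ) * T) ^ N * (|(Y : ℝ)| ^ N * |v|) := by ring
        _ ≤ _ := mul_le_mul_of_nonneg_left h2 (by positivity)
    have h4 : 0 < M ^ (N - 5) := by positivity
    refine le_of_mul_le_mul_left ?_ h4
    calc M ^ (N - 5) * (|v| * M ^ 5) = M ^ N * |v| := by rw [hMN]; ring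
      _ ≤ _ := h3
      _ = M ^ (N - 5) * E := by rw [hE]; ring
  -- kappa E / M^5 < s / 4 and < 1
  have hsmall : (κ : ℝ) * (E / M ^ 5) * κ < 1 := by
    have h1 : (κ : ℝ) * E * κ ≤ W ^ (2 * N + 3) := by
      calc (κ : ℝ) * E * κ ≤ W * W ^ (2 * N + 1) * W :=
            mul_le_mul (mul_le_mul hκW hEW hE0.le (by linarith)) hκW (by positivity) (by positivity)
        _ = _ := by ring
    have h2 : W ^ (2 * N + 4) ≤ M := pw _ (by omega)
    have h3 : W ^ (2 * N + 3) < W ^ (2 * N + 4) := pow_lt_pow_right₀ (by linarith) (by omega)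
    have h4 : (κ : ℝ) * E * κ < M ^ 5 := by linarith
    calc (κ : ℝ) * (E / M ^ 5) * κ = (κ : ℝ) * E * κ / M ^ 5 := by ring
      _ < 1 := (div_lt_one (by positivity)).mpr h4
  have hsmall1 : E / M ^ 5 < 1 / κ := by
    rw [lt_div_iff₀ (by linarith)]
    have h1 : 0 < E / M ^ 5 := by positivity
    have h2 : E / M ^ 5 * κ ≤ (κ : ℝ) * (E / M ^ 5) * κ := by
      have : E / M ^ 5 ≤ (κ : ℝ) * (E / M ^ 5) := le_mul_of_one_le_left h1.le hκ4
      exact mul_le_mul_of_nonneg_right this (by linarith)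
    linarith
  have hsmall2 : (κ : ℝ) * (E / M ^ 5) < s / 4 := by
    have h1 : 4 ≤ κ * s := by
      rw [div_le_iff₀ hs] at hκ3
      linarith
    have h2 : 0 < (κ : ℝ) * (E / M ^ 5) := by positivity
    by_contra hcon
    push Not at hcon
    have h3 : s / 4 * κ ≤ (κ : ℝ) * (E / M ^ 5) * κ := mul_le_mul_of_nonneg_right hcon (by linarith)
    linarith
  -- the root
  obtain ⟨y, hyroot, hyd⟩ : ∃ y : ℝ, Polynomial.aeval y P = 0 ∧ |ρ - y| ≤ (κ : ℝ) * (E / M ^ 5) := by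
    rcases near ρ with h | ⟨y, h1, h2⟩
    · exfalso
      have h3 : 1 / (κ : ℝ) ≤ 1 / K1 := one_div_le_one_div_of_le (by linarith) hκ1
      linarith
    · refine ⟨y, h1, h2.trans ?_⟩
      exact mul_le_mul hκ1 hvE (abs_nonneg _) (by linarith)
  have hys := hs1 y hyroot
  have hρ0 : ρ ≠ 0 := by
    intro h0
    rw [h0, zero_sub, abs_neg] at hyd
    linarith
  have hX : X ≠ 0 := by
    rintro rfl
    apply hρ0
    rw [hρ, Int.cast_zero, zero_pow (by omega), mul_zero, zero_div]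
  have hXR : (X : ℝ) ≠ 0 := by exact_mod_cast hX
  have hth : 0 < |y| := by linarith
  refine ⟨|y|, hth, ?_, ?_⟩
  · rcases abs_choice y with h | h
    · left; rw [h]; exact hyroot
    · right; rw [h, neg_neg]; exact hyroot
  -- the rational number
  set r' : ℚ := (X : ℚ) / (Y : ℚ) with hr'
  have hr'0 : r' ≠ 0 := div_ne_zero (by exact_mod_cast hX) (by exact_mod_cast hY)
  have hr'R : ((r' : ℚ) : ℝ) = (X : ℝ) / (Y : ℝ) := by rw [hr']; push_cast; rfl
  have hrpos : 0 < |r'| := abs_pos.mpr hr'0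
  have hrR : ((|r'| : ℚ) : ℝ) = |(X : ℝ)| / |(Y : ℝ)| := by
    rw [Rat.cast_abs, hr'R, abs_div]
  have hρr : (b : ℝ) * ((|r'| : ℚ) : ℝ) ^ n = |ρ| * a := by
    rw [hrR, div_pow]
    have h1 : |(Y : ℝ)| ^ n ≠ 0 := pow_ne_zero _ hYa.ne'
    field_simp
    linarith [hxy]
  have hdiff : |(b : ℝ) * ((|r'| : ℚ) : ℝ) ^ n - |y| * (a : ℝ)| ≤ (T : ℝ) * (κ * (E / M ^ 5)) := by
    rw [hρr, ← sub_mul, abs_mul, abs_of_pos (show (0 : ℝ) < a by linarith), mul_comm]
    exact mul_le_mul haT' ((abs_abs_sub_abs_le_abs_sub ρ y).trans hyd) (abs_nonneg _) (by linarith)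
  by_cases hEq : (b : ℝ) * ((|r'| : ℚ) : ℝ) ^ n = |y| * (a : ℝ)
  · left
    exact ⟨|r'|, hrpos, hEq⟩
  right
  refine ⟨|r'|, hrpos, ?_, ?_⟩
  · -- height at least T^CN
    have hv0 : v ≠ 0 := by
      intro hv0
      have h1 : ρ = y := by
        by_contra hne
        have := hs2 ρ y hv0 hyroot hne
        linarith
      apply hEq
      rw [hρr, h1]
    have hq : (0 : ℤ) < (a : ℤ) * (r'.den : ℤ) ^ n := by
      have h1 : (0 : ℤ) < r'.den := by exact_mod_cast r'.den_pos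
      have h2 : (0 : ℤ) < a := by exact_mod_cast ha
      positivity
    have hρq : ρ = (((b : ℤ) * r'.num ^ n : ℤ) : ℝ) / (((a : ℤ) * (r'.den : ℤ) ^ n : ℤ) : ℝ) := by
      have h1 : ((r' : ℚ) : ℝ) = (r'.num : ℝ) / (r'.den : ℝ) := by
        exact_mod_cast congrArg (fun q : ℚ => (q : ℝ)) (Rat.num_div_den r').symm
      have h2 : ρ = (b : ℝ) * ((r' : ℚ) : ℝ) ^ n / a := by
        rw [hρ, hr'R, div_pow]
        have h3 : (Y : ℝ) ^ n ≠ 0 := pow_ne_zero _ hYR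
        field_simp
      rw [h2, h1, div_pow]
      push_cast
      have h4 : ((r'.den : ℕ) : ℝ) ^ n ≠ 0 := by
        have : (0 : ℝ) < r'.den := by exact_mod_cast r'.den_pos
        positivity
      field_simp
    have h5 := val_low P ((b : ℤ) * r'.num ^ n) ((a : ℤ) * (r'.den : ℤ) ^ n) hq (by rw [← hρq]; exact hv0)
    rw [← hρq, ← hv, ← hD] at h5
    push_cast at h5
    set q : ℝ := (r'.den : ℝ) with hqdef
    have hq1 : 1 ≤ q := by
      rw [hqdef]
      exact_mod_cast r'.den_pos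
    have h6 : M ^ 5 ≤ (T : ℝ) ^ D * q ^ N * E := by
      have h7 : ((a : ℝ) * q ^ n) ^ D ≤ (T : ℝ) ^ D * q ^ N := by
        rw [hN, pow_mul, ← mul_pow]
        exact pow_le_pow_left₀ (by positivity) (mul_le_mul_of_nonneg_right haT' (by positivity)) D
      have h8 : 1 ≤ (T : ℝ) ^ D * q ^ N * (E / M ^ 5) :=
        h5.trans (mul_le_mul h7 hvE (abs_nonneg _) (by positivity))
      have h9 : (T : ℝ) ^ D * q ^ N * (E / M ^ 5) = (T : ℝ) ^ D * q ^ N * E / M ^ 5 := by ring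
      rw [h9, le_div_iff₀ (by positivity), one_mul] at h8
      exact h8
    have h10 : (T : ℝ) ^ D * E ≤ M := by
      calc (T : ℝ) ^ D * E ≤ W ^ D * W ^ (2 * N + 1) :=
            mul_le_mul (pow_le_pow_left₀ (by linarith) hTW D) hEW hE0.le (by positivity)
        _ = W ^ (D + (2 * N + 1)) := (pow_add W D (2 * N + 1)).symm
        _ ≤ M := pw _ (by omega)
    have h11 : M ^ 4 ≤ q ^ N := by
      have h12 : M ^ 5 ≤ M * q ^ N := by
        calc M ^ 5 ≤ (T : ℝ) ^ D * q ^ N * E := h6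
          _ = ((T : ℝ) ^ D * E) * q ^ N := by ring
          _ ≤ M * q ^ N := mul_le_mul_of_nonneg_right h10 (by positivity)
      refine le_of_mul_le_mul_left ?_ hM0
      calc M * M ^ 4 = M ^ 5 := by ring
        _ ≤ _ := h12
    have h13 : (T : ℝ) ^ CN ≤ q := by
      by_contra hcon
      push Not at hcon
      have h14 : q ^ N < ((T : ℝ) ^ CN) ^ N := pow_lt_pow_left₀ hcon (by linarith) (by omega)
      have h15 : ((T : ℝ) ^ CN) ^ N ≤ M := by
        rw [← pow_mul]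
        exact (pow_le_pow_left₀ (by linarith) hTW _).trans (pw _ (by omega))
      have h16 : M ≤ M ^ 4 := le_self_pow₀ hM1 (by norm_num)
      linarith
    refine h13.trans ?_
    unfold ht
    refine le_trans ?_ (le_max_right _ _)
    rw [Rat.den_abs_eq_den]
  · -- the approximation
    have hhtM : ht |r'| ≤ M := by
      unfold ht
      rw [Rat.den_abs_eq_den, Rat.num_abs_eq_abs_num, Int.cast_abs, abs_abs]
      refine max_le ?_ ?_
      · have h1 : r'.num ∣ X := by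
          have := Rat.num_dvd X hY
          rwa [Rat.divInt_eq_div] at this
        have h2 : r'.num.natAbs ≤ X.natAbs :=
          Nat.le_of_dvd (Int.natAbs_pos.mpr hX) (Int.natAbs_dvd_natAbs.mpr h1)
        have h3 : |(r'.num : ℝ)| ≤ |(X : ℝ)| := by
          rw [← Int.cast_abs, ← Int.cast_abs, Int.abs_eq_natAbs, Int.abs_eq_natAbs]
          exact_mod_cast h2
        exact h3.trans (le_max_left _ _)
      · have h1 : (r'.den : ℤ) ∣ Y := by
          have := Rat.den_dvd X Y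
          rwa [Rat.divInt_eq_div] at this
        have h2 : r'.den ≤ Y.natAbs :=
          Nat.le_of_dvd (Int.natAbs_pos.mpr hY) (Int.natCast_dvd.mp h1)
        have h3 : (r'.den : ℝ) ≤ |(Y : ℝ)| := by
          rw [← Int.cast_abs, Int.abs_eq_natAbs]
          exact_mod_cast h2
        exact h3.trans (le_max_right _ _)
    have hht1 : 1 ≤ ht |r'| := one_le_ht _
    have h1 : M ^ (-(9 / 2) : ℝ) ≤ (ht |r'|) ^ (-(9 / 2) : ℝ) :=
      Real.rpow_le_rpow_of_nonpos (by linarith) hhtM (by norm_num)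
    refine le_trans (hdiff.trans ?_) h1
    have h2 : (T : ℝ) * κ * E ≤ M ^ ((1 : ℝ) / 2) := by
      have h3 : ((T : ℝ) * κ * E) ^ 2 ≤ M := by
        calc ((T : ℝ) * κ * E) ^ 2 ≤ (W * W * W ^ (2 * N + 1)) ^ 2 :=
              pow_le_pow_left₀ (by positivity)
                (mul_le_mul (mul_le_mul hTW hκW (by linarith) (by linarith)) hEW hE0.le (by positivity)) 2
          _ = W ^ (4 * N + 6) := by ring
          _ ≤ M := pw _ (by omega)
      rw [← Real.sqrt_eq_rpow]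
      exact Real.le_sqrt_of_sq_le h3
    have h4 : M ^ ((1 : ℝ) / 2) / M ^ 5 = M ^ (-(9 / 2) : ℝ) := by
      rw [← Real.rpow_natCast M 5, ← Real.rpow_sub hM0]
      norm_num
    calc (T : ℝ) * (κ * (E / M ^ 5)) = (T : ℝ) * κ * E / M ^ 5 := by ring
      _ ≤ M ^ ((1 : ℝ) / 2) / M ^ 5 := div_le_div_of_nonneg_right h2 (by positivity)
      _ = _ := h4

end H4AR
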