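import Pool.Agent.H4.AR.Shift

/-!
H4/AR/Split: products W(X_0) * G(X_1..X_m) in m+1 variables.

Notation: `rename (fun _ : Fin 1 => (0 : Fin (m+1))) W` is W as a polynomial in X_0, `rename Fin.succ G` is G as a
polynomial in X_1..X_m.

PROOFS. coeff_split: coefficient of a product (`MvPolynomial.coeff_mul`): the first factor has only exponents
`single 0 a`, the second only exponents `cons 0 e` (`MvPolynomial.coeff_rename_embDomain`, `coeff_rename_mapDomain`,
`Finsupp.cons`); or check it for monomials and use bilinearity.
hs_split: compare coefficients, or check it for monomials: mch (cons a u) (cons b D) = C(a,b) * mch u D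
(`Fin.prod_univ_succ`).
sh_split: both sides are products of ring homomorphisms applied to W and to G: it is enough that
sh r (rename _ W) = rename _ (sh _ W) (algHom_ext on variables) and the same for G.
degree_split etc. are not needed.
-/

namespace H4AR

open MvPolynomial

variable {m : ℕ} {R : Type} [CommRing R]

private theorem cons_eq (u : Fin 1 →₀ ℕ) (v : Fin m →₀ ℕ) :
    Finsupp.mapDomain (fun _ : Fin 1 => (0 : Fin (m + 1))) u + Finsupp.mapDomain Fin.succ v =
      Finsupp.cons (u 0) v := by
  have h1 : Finsupp.mapDomain (fun _ : Fin 1 => (0 : Fin (m + 1))) u = Finsupp.single 0 (u 0) := by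
    conv_lhs => rw [show u = Finsupp.single 0 (u 0) from by
      refine Finsupp.ext fun i => ?_
      rw [Subsingleton.elim i 0, Finsupp.single_eq_same]]
    rw [Finsupp.mapDomain_single]
  rw [h1]
  ext i
  rw [Finsupp.add_apply]
  refine Fin.cases ?_ (fun j => ?_) i
  · rw [Finsupp.cons_zero, Finsupp.single_eq_same, Finsupp.mapDomain_of_notMem_range, add_zero]
    rintro ⟨j, hj⟩
    exact Fin.succ_ne_zero j hj
  · rw [Finsupp.cons_succ, Finsupp.mapDomain_apply (Fin.succ_injective m),
      Finsupp.single_eq_of_ne (Fin.succ_ne_zero j), zero_add]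

private theorem fin1_eq (u : Fin 1 →₀ ℕ) (a : ℕ) : u = Finsupp.single 0 a ↔ u 0 = a := by
  constructor
  · rintro rfl
    rw [Finsupp.single_eq_same]
  · rintro rfl
    refine Finsupp.ext fun i => ?_
    rw [Subsingleton.elim i 0, Finsupp.single_eq_same]

theorem coeff_split (W : MvPolynomial (Fin 1) R) (G : MvPolynomial (Fin m) R) (a : ℕ) (e : Fin m →₀ ℕ) :
    (rename (fun _ : Fin 1 => (0 : Fin (m + 1))) W * rename Fin.succ G).coeff (Finsupp.cons a e) =
      W.coeff (Finsupp.single 0 a) * G.coeff e := by
  induction W using MvPolynomial.induction_on' with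
  | add p q hp hq => rw [map_add, add_mul, coeff_add, hp, hq, coeff_add, add_mul]
  | monomial u α =>
    induction G using MvPolynomial.induction_on' with
    | add p q hp hq => rw [map_add, mul_add, coeff_add, hp, hq, coeff_add, mul_add]
    | monomial v β =>
      rw [rename_monomial, rename_monomial, monomial_mul, cons_eq, coeff_monomial, coeff_monomial,
        coeff_monomial]
      by_cases h1 : u 0 = a
      · by_cases h2 : v = e
        · rw [if_pos (by rw [h1, h2]), if_pos ((fin1_eq u a).2 h1), if_pos h2]
        · rw [if_neg, if_neg h2, mul_zero]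
          intro h3
          apply h2
          have h4 := congrArg Finsupp.tail h3
          rwa [Finsupp.tail_cons, Finsupp.tail_cons] at h4
      · rw [if_neg, if_neg (fun h => h1 ((fin1_eq u a).1 h)), zero_mul]
        intro h3
        apply h1
        have h4 := congrArg (fun f => f 0) h3
        simpa using h4

private theorem mch_cons (a b : ℕ) (u v : Fin m →₀ ℕ) :
    mch (Finsupp.cons a u) (Finsupp.cons b v) = a.choose b * mch u v := by
  unfold mch
  rw [Fin.prod_univ_succ]
  simp only [Finsupp.cons_zero, Finsupp.cons_succ]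

private theorem mch_one (a b : ℕ) :
    mch (Finsupp.single (0 : Fin 1) a) (Finsupp.single (0 : Fin 1) b) = a.choose b := by
  unfold mch
  rw [Fin.prod_univ_one, Finsupp.single_eq_same, Finsupp.single_eq_same]

private theorem cons_add' (a b : ℕ) (u v : Fin m →₀ ℕ) :
    Finsupp.cons a u + Finsupp.cons b v = Finsupp.cons (a + b) (u + v) := by
  ext i
  rw [Finsupp.add_apply]
  refine Fin.cases ?_ (fun j => ?_) i
  · simp only [Finsupp.cons_zero]
  · simp only [Finsupp.cons_succ, Finsupp.add_apply]

theorem hs_split (W : MvPolynomial (Fin 1) R) (G : MvPolynomial (Fin m) R) (a : ℕ) (D : Fin m →₀ ℕ) :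
    hs (Finsupp.cons a D) (rename (fun _ : Fin 1 => (0 : Fin (m + 1))) W * rename Fin.succ G) =
      rename (fun _ : Fin 1 => (0 : Fin (m + 1))) (hs (Finsupp.single 0 a) W) *
        rename Fin.succ (hs D G) := by
  ext e
  obtain ⟨b, e', rfl⟩ : ∃ (b : ℕ) (e' : Fin m →₀ ℕ), e = Finsupp.cons b e' :=
    ⟨e 0, Finsupp.tail e, (Finsupp.cons_tail e).symm⟩
  rw [coeff_hs, cons_add', coeff_split, coeff_split, coeff_hs, coeff_hs, mch_cons,
    ← Finsupp.single_add, mch_one]
  push_cast
  ring

private theorem sh_ren {n : ℕ} (f : Fin n → Fin (m + 1)) (r : Fin (m + 1) → R)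
    (W : MvPolynomial (Fin n) R) : sh r (rename f W) = rename f (sh (fun j => r (f j)) W) := by
  have h1 : (sh r).comp (rename f) = (rename f).comp (sh (fun j => r (f j))) := by
    refine MvPolynomial.algHom_ext fun i => ?_
    rw [AlgHom.comp_apply, AlgHom.comp_apply, rename_X, sh_X, sh_X, map_add, rename_X, rename_C]
  exact congrArg (fun g => g W) h1

theorem sh_split (r : Fin (m + 1) → R) (W : MvPolynomial (Fin 1) R) (G : MvPolynomial (Fin m) R) :
    sh r (rename (fun _ : Fin 1 => (0 : Fin (m + 1))) W * rename Fin.succ G) =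
      rename (fun _ : Fin 1 => (0 : Fin (m + 1))) (sh (fun _ => r 0) W) *
        rename Fin.succ (sh (fun j => r j.succ) G) := by
  rw [map_mul, sh_ren, sh_ren]

end H4AR
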