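import Pool.Agent.H4.AR.L1
import Pool.Agent.H4.AR.Split

/-!
H4/AR/Decomp: f(X_0,...,X_m) = sum_{i<s} h_i(X_0) g_i(X_1..X_m) with g_i linearly independent, h_i linearly
independent over Q, s ≤ deg_0 f + 1, where the g_i are coefficient polynomials of f (so integral, l1 (g_i) ≤ l1 f).

PROOF. Let f_l in Z[X_1..X_m], l ≤ d0, be the coefficients of f with respect to X_0 (e.g.
(`MvPolynomial.finSuccEquiv ℤ m f`).coeff l; its coefficient at e is the coefficient of f at cons l e,
`MvPolynomial.finSuccEquiv_coeff_coeff`). Choose a maximal set I of indices such that the toQ f_l, l in I, are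
linearly independent (`exists_linearIndependent`-type lemmas, or induction); I ≠ ∅ since f ≠ 0, |I| ≤ d0+1. For every
l: toQ f_l = sum_{i in I} c(l,i) toQ f_i, with c(l,i) = delta_{li} for l in I. Then
f = sum_l X_0^l f_l = sum_{i in I} h_i(X_0) f_i, h_i = sum_l c(l,i) X^l. The h_i are linearly independent: the
coefficient of h_i at l in I is delta_{li}. Enumerate I by Fin s. l1 (f_i) ≤ l1 f because the exponents cons i e are
distinct exponents of f; degrees similarly (`MvPolynomial.degreeOf_coeff_finSuccEquiv`).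
-/

namespace H4AR

open MvPolynomial

/-- the coefficient polynomials -/
private noncomputable def decF {m : ℕ} (f : MvPolynomial (Fin (m + 1)) ℤ) (l : ℕ) :
    MvPolynomial (Fin m) ℤ := (finSuccEquiv ℤ m f).coeff l

private theorem decF_coeff {m : ℕ} (f : MvPolynomial (Fin (m + 1)) ℤ) (l : ℕ) (e : Fin m →₀ ℕ) :
    (decF f l).coeff e = f.coeff (Finsupp.cons l e) := finSuccEquiv_coeff_coeff e f l

private theorem decF_l1 {m : ℕ} (f : MvPolynomial (Fin (m + 1)) ℤ) (l : ℕ) :
    l1 (decF f l) ≤ l1 f := by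
  classical
  unfold l1
  have hinj : Set.InjOn (fun e : Fin m →₀ ℕ => Finsupp.cons l e) (decF f l).support := by
    intro e _ e' _ h
    have h1 : Finsupp.tail (Finsupp.cons l e) = Finsupp.tail (Finsupp.cons l e') :=
      congrArg Finsupp.tail h
    rwa [Finsupp.tail_cons, Finsupp.tail_cons] at h1
  have h1 : ∑ e ∈ (decF f l).support, |((MvPolynomial.coeff e (decF f l) : ℤ) : ℝ)| =
      ∑ e ∈ (decF f l).support.image (fun e => Finsupp.cons l e),
        |((MvPolynomial.coeff e f : ℤ) : ℝ)| := by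
    rw [Finset.sum_image hinj]
    refine Finset.sum_congr rfl fun e _ => ?_
    rw [decF_coeff]
  rw [h1]
  refine Finset.sum_le_sum_of_subset_of_nonneg ?_ fun e _ _ => abs_nonneg _
  intro e he
  obtain ⟨e', he', rfl⟩ := Finset.mem_image.1 he
  rw [mem_support_iff, ← decF_coeff]
  exact mem_support_iff.1 he'

theorem decomp {m : ℕ} (f : MvPolynomial (Fin (m + 1)) ℤ) (hf : f ≠ 0) (d0 : ℕ) (h0 : f.degreeOf 0 ≤ d0) :
    ∃ (s : ℕ) (g : Fin s → MvPolynomial (Fin m) ℤ) (h : Fin s → MvPolynomial (Fin 1) ℚ),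
      1 ≤ s ∧ s ≤ d0 + 1 ∧ LinearIndependent ℚ (fun i => toQ (g i)) ∧ LinearIndependent ℚ h ∧
      toQ f = ∑ i, rename (fun _ : Fin 1 => (0 : Fin (m + 1))) (h i) * rename Fin.succ (toQ (g i)) ∧
      (∀ i, l1 (g i) ≤ l1 f) ∧ ∀ i (j : Fin m), (g i).degreeOf j ≤ f.degreeOf j.succ := by
  classical
  -- coefficients vanish beyond d0
  have hz : ∀ a : ℕ, d0 < a → ∀ e : Fin m →₀ ℕ, f.coeff (Finsupp.cons a e) = 0 := by
    intro a ha e
    by_contra hne
    have h1 := degreeOf_le_iff.1 h0 (Finsupp.cons a e) (mem_support_iff.2 hne)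
    rw [Finsupp.cons_zero] at h1
    omega
  obtain ⟨κ, a, hinj, hspan, hli⟩ := exists_linearIndependent' ℚ
    (fun l : Fin (d0 + 1) => toQ (decF f (l : ℕ)))
  have hfin : Finite κ := Finite.of_injective a hinj
  have hft : Fintype κ := Fintype.ofFinite κ
  obtain ⟨e⟩ : Nonempty (κ ≃ Fin (Fintype.card κ)) := ⟨Fintype.equivFin κ⟩
  set s := Fintype.card κ with hs
  set b : Fin s → Fin (d0 + 1) := fun i => a (e.symm i) with hb
  have hbinj : Function.Injective b := fun i j hij => e.symm.injective (hinj hij)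
  have hsle : s ≤ d0 + 1 := by
    have := Fintype.card_le_of_injective b hbinj
    simpa using this
  have hwli : LinearIndependent ℚ (fun i : Fin s => toQ (decF f (b i : ℕ))) :=
    hli.comp e.symm e.symm.injective
  have hrange : Set.range (fun i : Fin s => toQ (decF f (b i : ℕ))) =
      Set.range ((fun l : Fin (d0 + 1) => toQ (decF f (l : ℕ))) ∘ a) := by
    ext x
    constructor
    · rintro ⟨i, rfl⟩
      exact ⟨e.symm i, rfl⟩
    · rintro ⟨k, rfl⟩
      refine ⟨e k, ?_⟩
      simp only [hb, Equiv.symm_apply_apply, Function.comp_apply]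
  have hex : ∀ l : Fin (d0 + 1), ∃ c : Fin s → ℚ,
      ∑ i, c i • toQ (decF f (b i : ℕ)) = toQ (decF f (l : ℕ)) := by
    intro l
    have h1 : toQ (decF f (l : ℕ)) ∈ Submodule.span ℚ
        (Set.range (fun i : Fin s => toQ (decF f (b i : ℕ)))) := by
      rw [hrange, hspan]
      exact Submodule.subset_span ⟨l, rfl⟩
    exact (Submodule.mem_span_range_iff_exists_fun ℚ).1 h1
  choose c hc using hex
  have hcb : ∀ i j, c (b i) j = if j = i then 1 else 0 := by
    intro i j
    have h1 : ∑ k, (c (b i) k - if k = i then 1 else 0) • toQ (decF f (b k : ℕ)) = 0 := by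
      simp only [sub_smul, Finset.sum_sub_distrib]
      rw [hc (b i)]
      simp
    have h2 := Fintype.linearIndependent_iff.1 hwli _ h1 j
    linarith
  have hs1 : 1 ≤ s := by
    by_contra hlt
    have hs0 : s = 0 := by omega
    apply hf
    ext e'
    rw [coeff_zero]
    rw [← Finsupp.cons_tail e']
    by_cases hd : d0 < e' 0
    · exact hz _ hd _
    · have h1 := hc ⟨e' 0, by omega⟩
      have h2 : toQ (decF f (e' 0)) = 0 := by
        rw [← h1]
        refine Finset.sum_eq_zero fun i _ => ?_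
        exact absurd i.2 (by omega)
      have h3 := congrArg (MvPolynomial.coeff (Finsupp.tail e')) h2
      unfold toQ at h3
      rw [coeff_map, coeff_zero, decF_coeff] at h3
      have h4 : ((f.coeff (Finsupp.cons (e' 0) (Finsupp.tail e')) : ℤ) : ℚ) = 0 := h3
      exact_mod_cast h4
  set h : Fin s → MvPolynomial (Fin 1) ℚ := fun i =>
    ∑ l : Fin (d0 + 1), monomial (Finsupp.single 0 (l : ℕ)) (c l i) with hh
  have hcoef : ∀ i (l : Fin (d0 + 1)), (h i).coeff (Finsupp.single 0 (l : ℕ)) = c l i := by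
    intro i l
    simp only [hh]
    rw [coeff_sum, Finset.sum_eq_single l]
    · rw [coeff_monomial, if_pos rfl]
    · intro l' _ hl
      rw [coeff_monomial, if_neg]
      intro h1
      apply hl
      have h2 := DFunLike.congr_fun h1 0
      simp only [Finsupp.single_eq_same] at h2
      exact Fin.ext h2
    · intro h1
      exact absurd (Finset.mem_univ l) h1
  have hcoef0 : ∀ i (n : ℕ), d0 < n → (h i).coeff (Finsupp.single 0 n) = 0 := by
    intro i n hn
    simp only [hh]
    rw [coeff_sum]
    refine Finset.sum_eq_zero fun l _ => ?_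
    rw [coeff_monomial, if_neg]
    intro h1
    have h2 := DFunLike.congr_fun h1 0
    simp only [Finsupp.single_eq_same] at h2
    have := l.2
    omega
  refine ⟨s, fun i => decF f (b i : ℕ), h, hs1, hsle, hwli, ?_, ?_, fun i => decF_l1 f _, ?_⟩
  · rw [Fintype.linearIndependent_iff]
    intro y hy i
    have h1 := congrArg (MvPolynomial.coeff (Finsupp.single 0 ((b i : Fin (d0 + 1)) : ℕ))) hy
    rw [coeff_sum, coeff_zero] at h1
    have h2 : ∀ j, (y j • h j).coeff (Finsupp.single 0 ((b i : Fin (d0 + 1)) : ℕ)) =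
        y j * (if j = i then 1 else 0) := by
      intro j
      rw [coeff_smul, hcoef, hcb, smul_eq_mul]
    rw [Finset.sum_congr rfl fun j _ => h2 j] at h1
    simpa using h1
  · ext e'
    rw [← Finsupp.cons_tail e']
    rw [coeff_sum]
    have h1 : ∀ i, (rename (fun _ : Fin 1 => (0 : Fin (m + 1))) (h i) *
        rename Fin.succ (toQ (decF f (b i : ℕ)))).coeff (Finsupp.cons (e' 0) (Finsupp.tail e')) =
        (h i).coeff (Finsupp.single 0 (e' 0)) * (toQ (decF f (b i : ℕ))).coeff (Finsupp.tail e') :=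
      fun i => coeff_split _ _ _ _
    rw [Finset.sum_congr rfl fun i _ => h1 i]
    have h2 : (toQ f).coeff (Finsupp.cons (e' 0) (Finsupp.tail e')) =
        ((f.coeff (Finsupp.cons (e' 0) (Finsupp.tail e')) : ℤ) : ℚ) := by
      unfold toQ
      rw [coeff_map]
      rfl
    rw [h2]
    by_cases hd : d0 < e' 0
    · rw [hz _ hd]
      symm
      rw [Int.cast_zero]
      refine Finset.sum_eq_zero fun i _ => ?_
      rw [hcoef0 i _ hd, zero_mul]
    · have hl : e' 0 < d0 + 1 := by omega
      have h3 := congrArg (MvPolynomial.coeff (Finsupp.tail e')) (hc ⟨e' 0, hl⟩)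
      rw [coeff_sum] at h3
      have h4 : (toQ (decF f (e' 0))).coeff (Finsupp.tail e') =
          ((f.coeff (Finsupp.cons (e' 0) (Finsupp.tail e')) : ℤ) : ℚ) := by
        unfold toQ
        rw [coeff_map, decF_coeff]
        rfl
      rw [← h4]
      refine h3.symm.trans ?_
      refine Finset.sum_congr rfl fun i _ => ?_
      rw [coeff_smul, smul_eq_mul]
      congr 1
      exact (hcoef i ⟨e' 0, hl⟩).symm
  · intro i j
    exact degreeOf_coeff_finSuccEquiv f j _

end H4AR
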