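import Pool.Agent.H4.AR.Split

/-!
H4/AR/DetF: factorisation of the determinant of Roth's lemma. If f = sum_i h_i(X_0) g_i(X_1..X_m) then
det_{a,b} (hs (cons (nu b) (D a)) f) = det(hs (single 0 (nu b)) (h i)) * det(hs (D a) (g i)).

PROOF. toQ commutes with det (`RingHom.map_det`, `Matrix.map_apply`; toQ is the ring homomorphism map (Int.castRingHom ℚ))
and with hs (hs_map). hs (cons (nu b) (D a)) (toQ f) = sum_i rename_0(hs (single 0 (nu b)) (h i)) *
rename_succ(hs (D a) (toQ (g i))) by hs_sum and hs_split. So the matrix (a,b) is A * B^T with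
A a i = rename_succ(hs (D a)(toQ (g i))), B b i = rename_0(hs (single 0 (nu b)) (h i)); `Matrix.det_mul`,
`Matrix.det_transpose`, and det commutes with the algebra homomorphisms rename.
-/

namespace H4AR

open MvPolynomial

theorem det_factor {m s : ℕ} (f : MvPolynomial (Fin (m + 1)) ℤ) (g : Fin s → MvPolynomial (Fin m) ℤ)
    (h : Fin s → MvPolynomial (Fin 1) ℚ)
    (hdec : toQ f = ∑ i, rename (fun _ : Fin 1 => (0 : Fin (m + 1))) (h i) * rename Fin.succ (toQ (g i)))
    (D : Fin s → (Fin m →₀ ℕ)) (nu : Fin s → ℕ) :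
    toQ (Matrix.of fun a b : Fin s => hs (Finsupp.cons (nu b) (D a)) f).det =
      rename (fun _ : Fin 1 => (0 : Fin (m + 1)))
          (Matrix.of fun b i : Fin s => hs (Finsupp.single 0 (nu b)) (h i)).det *
        rename Fin.succ (toQ (Matrix.of fun a i : Fin s => hs (D a) (g i)).det) := by
  have e1 : toQ (Matrix.of fun a b : Fin s => hs (Finsupp.cons (nu b) (D a)) f).det =
      (Matrix.of fun a b : Fin s => hs (Finsupp.cons (nu b) (D a)) (toQ f)).det := by
    unfold toQ
    rw [RingHom.map_det]
    congr 1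
    ext1 a b
    simp only [RingHom.mapMatrix_apply, Matrix.map_apply, Matrix.of_apply]
    rw [hs_map]
  have e2 : toQ (Matrix.of fun a i : Fin s => hs (D a) (g i)).det =
      (Matrix.of fun a i : Fin s => hs (D a) (toQ (g i))).det := by
    unfold toQ
    rw [RingHom.map_det]
    congr 1
    ext1 a b
    simp only [RingHom.mapMatrix_apply, Matrix.map_apply, Matrix.of_apply]
    rw [hs_map]
  have e3 : (Matrix.of fun a b : Fin s => hs (Finsupp.cons (nu b) (D a)) (toQ f)) =
      (Matrix.of fun a i : Fin s => rename (Fin.succ : Fin m → Fin (m + 1)) (hs (D a) (toQ (g i)))) *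
        (Matrix.of fun b i : Fin s =>
          rename (fun _ : Fin 1 => (0 : Fin (m + 1))) (hs (Finsupp.single 0 (nu b)) (h i))).transpose := by
    ext1 a b
    rw [Matrix.mul_apply, Matrix.of_apply, hdec, hs_sum]
    apply Finset.sum_congr rfl
    intro i _
    rw [hs_split, Matrix.transpose_apply, Matrix.of_apply, Matrix.of_apply, mul_comm]
  rw [e1, e3, Matrix.det_mul, Matrix.det_transpose, mul_comm, e2, AlgHom.map_det, AlgHom.map_det]
  rfl

end H4AR
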