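import Pool.Agent.H4.AR.Def

/-!
H4/AR/Face: four exceptional approximations at the same scale with a1 a4 = a2 a3 satisfy r1 r4 = r2 r3 exactly.

PROOF. Let e0 = exp(-(kap h)), y_i = th a_i in [1/T, T^2], x_i = b r_i^n, |x_i - y_i| ≤ e0. By hk and h ≥ 0:
kap h ≥ (6n+5) log T, so e0 ≤ T^(-11) ≤ 1/(2T) and x_i ∈ [1/(2T), 2 T^2]. As y1 y4 = y2 y3:
|x1 x4 - x2 x3| ≤ |x1-y1| x4 + y1 |x4-y4| + the same for 2,3 ≤ 6 T^2 e0. Put A = r1 r4, B = r2 r3 > 0;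
x1 x4 = b^2 A^n, x2 x3 = b^2 B^n, so |A^n - B^n| ≤ 6 T^2 e0. Suppose A ≠ B. |A^n - B^n| ≥ |A - B| A^(n-1)
(A^n - B^n = (A-B) sum A^i B^(n-1-i), the term i = n-1). A^n = x1 x4/b^2 ≥ 1/(4 T^4) and hence
A^(n-1) ≥ (4 T^4)^(-n) (if A ≥ 1 clear; if A < 1 then A ≥ A^n ≥ 1/(4T^4)). So |A - B| ≤ 6 T^2 (4 T^4)^n e0 ≤ T^(6n+5) e0.
On the other hand A - B ≠ 0 is a rational number with denominator dividing the product of the four denominators
(`Rat` arithmetic: (A-B) * product of the dens is a nonzero integer), so |A - B| ≥ prod 1/ht(r_i) ≥ exp(-(4 (1+del) h)).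
Taking logarithms: kap h ≤ (6n+5) log T + 4(1+del) h, contradicting hk.
-/

namespace H4AR

private lemma den_le_exp (r : ℚ) (c : ℝ) (h : Real.log (ht r) ≤ c) : (r.den : ℝ) ≤ Real.exp c := by
  have h1 : (r.den : ℝ) ≤ ht r := le_max_right _ _
  have h2 : (0 : ℝ) < r.den := by exact_mod_cast r.den_pos
  have h3 : 0 < ht r := lt_of_lt_of_le h2 h1
  calc (r.den : ℝ) ≤ ht r := h1
    _ = Real.exp (Real.log (ht r)) := (Real.exp_log h3).symm
    _ ≤ Real.exp c := Real.exp_le_exp.mpr h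

private lemma rat_gap (r : Fin 4 → ℚ) (hne : r 0 * r 3 ≠ r 1 * r 2) :
    (1 : ℝ) ≤ |((r 0 : ℝ) * r 3 - (r 1 : ℝ) * r 2)| *
      (((r 0).den : ℝ) * ((r 1).den : ℝ) * ((r 2).den : ℝ) * ((r 3).den : ℝ)) := by
  have hd : ∀ i, ((r i).den : ℚ) ≠ 0 := fun i => by exact_mod_cast (r i).den_ne_zero
  have hn : ∀ i, (r i) * ((r i).den : ℚ) = ((r i).num : ℚ) := fun i => Rat.mul_den_eq_num (r i)
  have key : (r 0 * r 3 - r 1 * r 2) *
      (((r 0).den : ℚ) * ((r 1).den : ℚ) * ((r 2).den : ℚ) * ((r 3).den : ℚ)) =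
      (((r 0).num * (r 3).num * (r 1).den * (r 2).den - (r 1).num * (r 2).num * (r 0).den * (r 3).den : ℤ) : ℚ) := by
    push_cast
    rw [← hn 0, ← hn 1, ← hn 2, ← hn 3]
    ring
  have hnz : ((r 0).num * (r 3).num * (r 1).den * (r 2).den -
      (r 1).num * (r 2).num * (r 0).den * (r 3).den : ℤ) ≠ 0 := by
    intro h0
    rw [h0] at key
    have : (r 0 * r 3 - r 1 * r 2) *
      (((r 0).den : ℚ) * ((r 1).den : ℚ) * ((r 2).den : ℚ) * ((r 3).den : ℚ)) ≠ 0 := by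
      apply mul_ne_zero (sub_ne_zero.mpr hne)
      exact mul_ne_zero (mul_ne_zero (mul_ne_zero (hd 0) (hd 1)) (hd 2)) (hd 3)
    exact this (by rw [key]; simp)
  have h1 := Int.one_le_abs hnz
  have h2 : (1 : ℚ) ≤ |(r 0 * r 3 - r 1 * r 2) *
      (((r 0).den : ℚ) * ((r 1).den : ℚ) * ((r 2).den : ℚ) * ((r 3).den : ℚ))| := by
    rw [key]
    exact_mod_cast h1
  rw [abs_mul, abs_of_nonneg (a := (((r 0).den : ℚ) * ((r 1).den : ℚ) * ((r 2).den : ℚ) * ((r 3).den : ℚ)))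
    (by positivity)] at h2
  exact_mod_cast h2

private lemma pow_gap (A B : ℝ) (hA : 0 < A) (hB : 0 < B) (n : ℕ) (hn : 1 ≤ n) :
    |A - B| * A ^ (n - 1) ≤ |A ^ n - B ^ n| := by
  have h := (Commute.all A B).geom_sum₂_mul n
  rw [← h, abs_mul, mul_comm]
  apply mul_le_mul_of_nonneg_right _ (abs_nonneg _)
  rw [abs_of_nonneg (by positivity)]
  have hm : n - 1 ∈ Finset.range n := Finset.mem_range.mpr (by omega)
  have := Finset.single_le_sum (f := fun i => A ^ i * B ^ (n - 1 - i)) (s := Finset.range n)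
    (fun i _ => by positivity) hm
  simpa using this

theorem face (n b T : ℕ) (hn : 1 ≤ n) (hT : 2 ≤ T) (hb : 1 ≤ b) (hbT : b ≤ T) (th kap del h : ℝ)
    (hth1 : 1 / (T : ℝ) ≤ th) (hth2 : th ≤ T) (hdel : 0 ≤ del) (hh : 0 ≤ h) (a : Fin 4 → ℕ)
    (ha1 : ∀ i, 1 ≤ a i) (haT : ∀ i, a i ≤ T) (ha : a 0 * a 3 = a 1 * a 2) (r : Fin 4 → ℚ)
    (hr : ∀ i, 0 < r i)
    (hcl : ∀ i, |(b : ℝ) * (r i : ℝ) ^ n - th * (a i : ℝ)| ≤ Real.exp (-(kap * h)))
    (hup : ∀ i, Real.log (ht (r i)) ≤ (1 + del) * h)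
    (hk : (6 * n + 5) * Real.log T < (kap - 4 * (1 + del)) * h) :
    r 0 * r 3 = r 1 * r 2 := by
  by_contra hne
  have hT2 : (2 : ℝ) ≤ T := by exact_mod_cast hT
  have hT0 : (0 : ℝ) < T := by linarith
  have hb1 : (1 : ℝ) ≤ b := by exact_mod_cast hb
  have hbT' : (b : ℝ) ≤ T := by exact_mod_cast hbT
  set e0 : ℝ := Real.exp (-(kap * h)) with he0
  have he0p : 0 < e0 := Real.exp_pos _
  -- the bound for `e0`
  have hE : e0 * (T : ℝ) ^ (6 * n + 5) * Real.exp (4 * (1 + del) * h) < 1 := by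
    have hTp : (T : ℝ) ^ (6 * n + 5) = Real.exp ((6 * n + 5) * Real.log T) := by
      have h1 : ((6 : ℝ) * n + 5) * Real.log T = ((6 * n + 5 : ℕ) : ℝ) * Real.log T := by push_cast; ring
      rw [h1, Real.exp_nat_mul, Real.exp_log hT0]
    rw [hTp, he0, ← Real.exp_add, ← Real.exp_add, Real.exp_lt_one_iff]
    nlinarith
  have hexp1 : 1 ≤ Real.exp (4 * (1 + del) * h) := by
    apply Real.one_le_exp
    positivity
  have hE1 : e0 * (T : ℝ) ^ (6 * n + 5) ≤ 1 := by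
    have : 0 ≤ e0 * (T : ℝ) ^ (6 * n + 5) := by positivity
    nlinarith
  have hE2 : e0 ≤ 1 / (2 * T) := by
    rw [le_div_iff₀ (by positivity)]
    have h1 : 2 * (T : ℝ) ≤ (T : ℝ) ^ (6 * n + 5) := by
      calc 2 * (T : ℝ) ≤ T * T := by nlinarith
        _ = (T : ℝ) ^ 2 := by ring
        _ ≤ (T : ℝ) ^ (6 * n + 5) := pow_le_pow_right₀ (by linarith) (by omega)
    calc e0 * (2 * (T : ℝ)) ≤ e0 * (T : ℝ) ^ (6 * n + 5) := by gcongr
      _ ≤ 1 := hE1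
  have ha1' : ∀ i, (1 : ℝ) ≤ a i := fun i => by exact_mod_cast ha1 i
  have haT' : ∀ i, (a i : ℝ) ≤ T := fun i => by exact_mod_cast haT i
  have hthp : 0 < th := lt_of_lt_of_le (by positivity) hth1
  set x : Fin 4 → ℝ := fun i => (b : ℝ) * (r i : ℝ) ^ n with hx
  set y : Fin 4 → ℝ := fun i => th * (a i : ℝ) with hy
  have hxy : ∀ i, |x i - y i| ≤ e0 := hcl
  have hy1 : ∀ i, 1 / (T : ℝ) ≤ y i := fun i => by
    calc 1 / (T : ℝ) ≤ th := hth1
      _ ≤ th * (a i : ℝ) := le_mul_of_one_le_right hthp.le (ha1' i)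
  have hy2 : ∀ i, y i ≤ (T : ℝ) ^ 2 := fun i => by
    calc y i = th * a i := rfl
      _ ≤ T * T := mul_le_mul hth2 (haT' i) (by linarith [ha1' i]) hT0.le
      _ = (T : ℝ) ^ 2 := by ring
  have h12 : 1 / (T : ℝ) = 1 / (2 * T) + 1 / (2 * T) := by field_simp; norm_num
  have hx1 : ∀ i, 1 / (2 * (T : ℝ)) ≤ x i := fun i => by
    have := (abs_le.mp (hxy i)).1
    linarith [hy1 i]
  have h2T1 : 1 / (2 * (T : ℝ)) ≤ 1 := by
    rw [div_le_one (by positivity)]; linarith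
  have hx2 : ∀ i, x i ≤ 2 * (T : ℝ) ^ 2 := fun i => by
    have := (abs_le.mp (hxy i)).2
    nlinarith [hy2 i]
  have hxp : ∀ i, 0 < x i := fun i => lt_of_lt_of_le (by positivity) (hx1 i)
  have hyp : ∀ i, 0 < y i := fun i => lt_of_lt_of_le (by positivity) (hy1 i)
  have hyy : y 0 * y 3 = y 1 * y 2 := by
    have : (a 0 : ℝ) * a 3 = a 1 * a 2 := by exact_mod_cast ha
    simp only [hy]
    linear_combination th * th * this
  have two (i j : Fin 4) : |x i * x j - y i * y j| ≤ 3 * (T : ℝ) ^ 2 * e0 := by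
    have h1 : x i * x j - y i * y j = (x i - y i) * x j + y i * (x j - y j) := by ring
    rw [h1]
    calc |(x i - y i) * x j + y i * (x j - y j)| ≤ |(x i - y i) * x j| + |y i * (x j - y j)| := abs_add_le _ _
      _ = |x i - y i| * x j + y i * |x j - y j| := by
          rw [abs_mul (x i - y i) (x j), abs_mul (y i) (x j - y j), abs_of_pos (hxp j), abs_of_pos (hyp i)]
      _ ≤ e0 * (2 * (T : ℝ) ^ 2) + (T : ℝ) ^ 2 * e0 := by
          apply add_le_add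
          · exact mul_le_mul (hxy i) (hx2 j) (hxp j).le he0p.le
          · exact mul_le_mul (hy2 i) (hxy j) (abs_nonneg _) (by positivity)
      _ = 3 * (T : ℝ) ^ 2 * e0 := by ring
  have hxx : |x 0 * x 3 - x 1 * x 2| ≤ 6 * (T : ℝ) ^ 2 * e0 := by
    have h1 : x 0 * x 3 - x 1 * x 2 = (x 0 * x 3 - y 0 * y 3) - (x 1 * x 2 - y 1 * y 2) := by
      rw [hyy]; ring
    rw [h1]
    calc _ ≤ |x 0 * x 3 - y 0 * y 3| + |x 1 * x 2 - y 1 * y 2| := abs_sub _ _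
      _ ≤ 3 * (T : ℝ) ^ 2 * e0 + 3 * (T : ℝ) ^ 2 * e0 := add_le_add (two 0 3) (two 1 2)
      _ = 6 * (T : ℝ) ^ 2 * e0 := by ring
  set A : ℝ := (r 0 : ℝ) * r 3 with hA
  set B : ℝ := (r 1 : ℝ) * r 2 with hB
  have hr' : ∀ i, (0 : ℝ) < r i := fun i => by exact_mod_cast hr i
  have hAp : 0 < A := mul_pos (hr' 0) (hr' 3)
  have hBp : 0 < B := mul_pos (hr' 1) (hr' 2)
  have hx03 : x 0 * x 3 = (b : ℝ) ^ 2 * A ^ n := by
    simp only [hx, hA, mul_pow]; ring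
  have hx12 : x 1 * x 2 = (b : ℝ) ^ 2 * B ^ n := by
    simp only [hx, hB, mul_pow]; ring
  have hAB : |A ^ n - B ^ n| ≤ 6 * (T : ℝ) ^ 2 * e0 := by
    have h1 : x 0 * x 3 - x 1 * x 2 = (b : ℝ) ^ 2 * (A ^ n - B ^ n) := by rw [hx03, hx12]; ring
    rw [h1, abs_mul, abs_of_nonneg (by positivity : (0 : ℝ) ≤ (b : ℝ) ^ 2)] at hxx
    calc |A ^ n - B ^ n| ≤ (b : ℝ) ^ 2 * |A ^ n - B ^ n| :=
          le_mul_of_one_le_left (abs_nonneg _) (one_le_pow₀ hb1)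
      _ ≤ _ := hxx
  set c : ℝ := 1 / (4 * (T : ℝ) ^ 4) with hc
  have hcp : 0 < c := by positivity
  have hc1 : c ≤ 1 := by
    rw [hc, div_le_one (by positivity)]
    have : (1 : ℝ) ≤ (T : ℝ) ^ 4 := one_le_pow₀ (by linarith)
    linarith
  have hAn : c ≤ A ^ n := by
    have h1 : 1 / (2 * (T : ℝ)) * (1 / (2 * (T : ℝ))) ≤ x 0 * x 3 :=
      mul_le_mul (hx1 0) (hx1 3) (by positivity) (hxp 0).le
    rw [hx03] at h1
    have h2 : (b : ℝ) ^ 2 * A ^ n ≤ (T : ℝ) ^ 2 * A ^ n := by gcongr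
    have h3 : 1 / (2 * (T : ℝ)) * (1 / (2 * (T : ℝ))) = (T : ℝ) ^ 2 * c := by
      rw [hc]; field_simp; norm_num
    rw [h3] at h1
    exact le_of_mul_le_mul_left (h1.trans h2) (by positivity)
  have hcA : c ≤ A := by
    rcases le_or_gt 1 A with h1 | h1
    · linarith
    · calc c ≤ A ^ n := hAn
        _ ≤ A ^ 1 := pow_le_pow_of_le_one hAp.le h1.le hn
        _ = A := pow_one _
  have hAn1 : c ^ n ≤ A ^ (n - 1) := by
    calc c ^ n ≤ c ^ (n - 1) := pow_le_pow_of_le_one hcp.le hc1 (by omega)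
      _ ≤ A ^ (n - 1) := by gcongr
  have hgap := pow_gap A B hAp hBp n hn
  have hABc : |A - B| * c ^ n ≤ 6 * (T : ℝ) ^ 2 * e0 := by
    calc |A - B| * c ^ n ≤ |A - B| * A ^ (n - 1) := by gcongr
      _ ≤ |A ^ n - B ^ n| := hgap
      _ ≤ _ := hAB
  have hAB2 : |A - B| ≤ (T : ℝ) ^ (6 * n + 5) * e0 := by
    have h1 : |A - B| = |A - B| * c ^ n * (4 * (T : ℝ) ^ 4) ^ n := by
      rw [mul_assoc, ← mul_pow, hc, one_div_mul_cancel (by positivity), one_pow, mul_one]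
    rw [h1]
    calc |A - B| * c ^ n * (4 * (T : ℝ) ^ 4) ^ n ≤ 6 * (T : ℝ) ^ 2 * e0 * (4 * (T : ℝ) ^ 4) ^ n := by gcongr
      _ = (6 * 4 ^ n) * ((T : ℝ) ^ (2 + 4 * n) * e0) := by
          rw [mul_pow, ← pow_mul, pow_add]; ring
      _ ≤ (T : ℝ) ^ (3 + 2 * n) * ((T : ℝ) ^ (2 + 4 * n) * e0) := by
          apply mul_le_mul_of_nonneg_right _ (by positivity)
          calc (6 : ℝ) * 4 ^ n ≤ 2 ^ 3 * (2 ^ 2) ^ n := by
                have : (0 : ℝ) < 4 ^ n := by positivity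
                norm_num
            _ = 2 ^ (3 + 2 * n) := by rw [← pow_mul, ← pow_add]
            _ ≤ (T : ℝ) ^ (3 + 2 * n) := by gcongr
      _ = (T : ℝ) ^ (6 * n + 5) * e0 := by
          rw [← mul_assoc, ← pow_add]
          congr 2
          ring
  have hden := rat_gap r hne
  have hdd : (((r 0).den : ℝ) * ((r 1).den : ℝ) * ((r 2).den : ℝ) * ((r 3).den : ℝ)) ≤
      Real.exp (4 * (1 + del) * h) := by
    have hi : ∀ i, ((r i).den : ℝ) ≤ Real.exp ((1 + del) * h) := fun i => den_le_exp _ _ (hup i)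
    have h4 : Real.exp (4 * (1 + del) * h) = Real.exp ((1 + del) * h) * Real.exp ((1 + del) * h) *
        Real.exp ((1 + del) * h) * Real.exp ((1 + del) * h) := by
      rw [← Real.exp_add, ← Real.exp_add, ← Real.exp_add]
      congr 1
      ring
    rw [h4]
    gcongr
    · exact hi 0
    · exact hi 1
    · exact hi 2
    · exact hi 3
  have hfin : (1 : ℝ) ≤ (T : ℝ) ^ (6 * n + 5) * e0 * Real.exp (4 * (1 + del) * h) := by
    calc (1 : ℝ) ≤ |A - B| * (((r 0).den : ℝ) * ((r 1).den : ℝ) * ((r 2).den : ℝ) * ((r 3).den : ℝ)) := hden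
      _ ≤ (T : ℝ) ^ (6 * n + 5) * e0 * Real.exp (4 * (1 + del) * h) := by
          apply mul_le_mul hAB2 hdd (by positivity) (by positivity)
  nlinarith

end H4AR
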