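import Mathlib

/-!
H4/AR/NthC: few a ≤ T satisfy b r^n = th a for a rational r.

PROOF. Let a < a' be two elements of S = {a in E}, b r^n = th a, b r'^n = th a': a'/a = (r'/r)^n = (u/v)^n with u > v ≥ 1
coprime. a' v^n = a u^n, so v^n | a, v ≤ a^(1/n) ≤ sqrt a (n ≥ 2), and a'/a ≥ (1+1/v)^n ≥ 1 + 1/v, so
a' - a ≥ a/v ≥ sqrt a. Hence the elements of S in [x, T] are spaced by at least sqrt x, so their number is at most
T/sqrt x + 1. With x = eps T/2: #S ≤ eps T/2 + T/sqrt(eps T/2) + 1 ≤ eps T for T large (depending on eps only).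
-/

namespace H4AR

private theorem nthc_gap (n : ℕ) (hn : 2 ≤ n) (a a' : ℕ) (ha : 1 ≤ a) (haa : a < a') (t : ℚ) (ht : 0 < t)
    (h : (t : ℝ) ^ n * a = a') : Real.sqrt a + a ≤ a' := by
  have haR : (0 : ℝ) < a := by exact_mod_cast ha
  have hden : 0 < t.den := t.den_pos
  have hnum : 0 < t.num := Rat.num_pos.2 ht
  obtain ⟨u, hu⟩ : ∃ u : ℕ, (u : ℤ) = t.num := ⟨t.num.toNat, Int.toNat_of_nonneg hnum.le⟩
  have htR : (t : ℝ) = (u : ℝ) / t.den := by
    rw [Rat.cast_def, ← hu]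
    push_cast
    rfl
  have hdR : (0 : ℝ) < t.den := by exact_mod_cast hden
  have hcop : Nat.Coprime u t.den := by
    have h1 := t.reduced
    rw [← hu] at h1
    simpa using h1
  have hnat : u ^ n * a = a' * t.den ^ n := by
    have h1 : ((u : ℝ) ^ n * a) = a' * (t.den : ℝ) ^ n := by
      rw [← h, htR, div_pow]
      field_simp
    exact_mod_cast h1
  have hdvd : t.den ^ n ∣ a := by
    have h1 : t.den ^ n ∣ u ^ n * a := ⟨a', by rw [hnat, mul_comm]⟩
    exact (Nat.Coprime.pow n n hcop.symm).dvd_of_dvd_mul_left h1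
  have hle : t.den ^ 2 ≤ a :=
    (Nat.pow_le_pow_right hden hn).trans (Nat.le_of_dvd ha hdvd)
  have hsq : (t.den : ℝ) ≤ Real.sqrt a := by
    apply Real.le_sqrt_of_sq_le
    exact_mod_cast hle
  have ht1 : (1 : ℝ) < t := by
    by_contra hneg
    push Not at hneg
    have h1 : (t : ℝ) ^ n ≤ 1 := pow_le_one₀ (by exact_mod_cast ht.le) hneg
    have h2 : (a' : ℝ) ≤ a := by
      rw [← h]
      have := mul_le_mul_of_nonneg_right h1 haR.le
      linarith
    have h3 : a' ≤ a := by exact_mod_cast h2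
    omega
  have hud : t.den + 1 ≤ u := by
    rw [htR, lt_div_iff₀ hdR, one_mul] at ht1
    exact_mod_cast ht1
  have ht2 : 1 + 1 / (t.den : ℝ) ≤ t := by
    rw [htR, le_div_iff₀ hdR]
    have h1 : (1 + 1 / (t.den : ℝ)) * t.den = t.den + 1 := by
      field_simp
    rw [h1]
    exact_mod_cast hud
  have ht3 : (t : ℝ) ≤ (t : ℝ) ^ n := le_self_pow₀ ht1.le (by omega)
  have h4 : (1 + 1 / (t.den : ℝ)) * a ≤ a' := by
    rw [← h]
    exact mul_le_mul_of_nonneg_right (ht2.trans ht3) haR.le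
  have h5 : Real.sqrt a ≤ 1 / (t.den : ℝ) * a := by
    rw [one_div, ← div_eq_inv_mul, le_div_iff₀ hdR]
    have h6 : Real.sqrt a * t.den ≤ Real.sqrt a * Real.sqrt a :=
      mul_le_mul_of_nonneg_left hsq (Real.sqrt_nonneg _)
    rwa [Real.mul_self_sqrt haR.le] at h6
  linarith

theorem nth_count (n : ℕ) (hn : 2 ≤ n) (eps : ℝ) (heps : 0 < eps) :
    ∃ C : ℕ, ∀ T : ℕ, C ≤ T → ∀ b : ℕ, 1 ≤ b → ∀ th : ℝ, 0 < th → ∀ E : Finset ℕ, E ⊆ Finset.Icc 1 T →
      (∀ a ∈ E, ∃ r : ℚ, 0 < r ∧ (b : ℝ) * (r : ℝ) ^ n = th * (a : ℝ)) → (E.card : ℝ) ≤ eps * T := by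
  classical
  obtain ⟨c, hc⟩ : ∃ c : ℝ, c = Real.sqrt (2 / eps) := ⟨_, rfl⟩
  have hc0 : 0 ≤ c := by
    rw [hc]
    exact Real.sqrt_nonneg _
  obtain ⟨C, hC⟩ := exists_nat_ge ((2 * (c + 1) / eps) ^ 2 + 1)
  refine ⟨C, fun T hT b hb th hth E hE hr => ?_⟩
  have hTR : (2 * (c + 1) / eps) ^ 2 + 1 ≤ (T : ℝ) := hC.trans (by exact_mod_cast hT)
  have hT0 : (0 : ℝ) < T := by
    have : 0 ≤ (2 * (c + 1) / eps) ^ 2 := sq_nonneg _
    linarith
  obtain ⟨x, hx⟩ : ∃ x : ℝ, x = eps * T / 2 := ⟨_, rfl⟩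
  have hx0 : 0 < x := by
    rw [hx]
    positivity
  obtain ⟨M, hM⟩ : ∃ M : ℝ, M = Real.sqrt x := ⟨_, rfl⟩
  have hM0 : 0 < M := by
    rw [hM]
    exact Real.sqrt_pos.2 hx0
  -- the gap
  have hgap : ∀ a ∈ E, ∀ a' ∈ E, a < a' → Real.sqrt a + a ≤ a' := by
    intro a ha a' ha' haa
    obtain ⟨r, hr0, hr1⟩ := hr a ha
    obtain ⟨r', hr0', hr1'⟩ := hr a' ha'
    have h1 := (Finset.mem_Icc.1 (hE ha)).1
    have haR : (0 : ℝ) < a := by exact_mod_cast h1
    have hbR : (0 : ℝ) < b := by exact_mod_cast hb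
    have hrR : (0 : ℝ) < r := by exact_mod_cast hr0
    refine nthc_gap n hn a a' h1 haa (r' / r) (by positivity) ?_
    push_cast
    rw [div_pow]
    have h2 : (r : ℝ) ^ n = th * a / b := by
      rw [eq_div_iff hbR.ne', ← hr1]
      ring
    have h3 : (r' : ℝ) ^ n = th * a' / b := by
      rw [eq_div_iff hbR.ne', ← hr1']
      ring
    rw [h2, h3]
    field_simp
  have hsplit : (E.card : ℝ) = ((E.filter (fun a : ℕ => (a : ℝ) < x)).card : ℝ) +
      ((E.filter (fun a : ℕ => ¬ (a : ℝ) < x)).card : ℝ) := by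
    have := Finset.card_filter_add_card_filter_not (s := E) (fun a : ℕ => (a : ℝ) < x)
    exact_mod_cast this.symm
  have hsmall : ((E.filter (fun a : ℕ => (a : ℝ) < x)).card : ℝ) ≤ x := by
    have h1 : E.filter (fun a : ℕ => (a : ℝ) < x) ⊆ Finset.Icc 1 ⌊x⌋₊ := by
      intro a ha
      rw [Finset.mem_filter] at ha
      rw [Finset.mem_Icc]
      exact ⟨(Finset.mem_Icc.1 (hE ha.1)).1, Nat.le_floor ha.2.le⟩
    have h2 := Finset.card_le_card h1
    rw [Nat.card_Icc, Nat.add_sub_cancel] at h2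
    calc ((E.filter (fun a : ℕ => (a : ℝ) < x)).card : ℝ) ≤ (⌊x⌋₊ : ℝ) := by exact_mod_cast h2
      _ ≤ x := Nat.floor_le hx0.le
  have hbig : ((E.filter (fun a : ℕ => ¬ (a : ℝ) < x)).card : ℝ) ≤ T / M + 1 := by
    have hlt : ∀ a ∈ E.filter (fun a : ℕ => ¬ (a : ℝ) < x), ∀ a' ∈ E.filter (fun a : ℕ => ¬ (a : ℝ) < x),
        a < a' → ⌊(a : ℝ) / M⌋₊ < ⌊(a' : ℝ) / M⌋₊ := by
      intro a ha a' ha' haa
      rw [Finset.mem_filter] at ha ha'
      have h1 := hgap a ha.1 a' ha'.1 haa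
      have h2 : M ≤ Real.sqrt a := by
        rw [hM]
        exact Real.sqrt_le_sqrt (not_lt.1 ha.2)
      have h3 : (a : ℝ) / M + 1 ≤ (a' : ℝ) / M := by
        rw [← div_self hM0.ne', ← add_div]
        exact div_le_div_of_nonneg_right (by linarith) hM0.le
      have h4 : ⌊(a : ℝ) / M + 1⌋₊ ≤ ⌊(a' : ℝ) / M⌋₊ := Nat.floor_le_floor h3
      rw [Nat.floor_add_one (by positivity)] at h4
      omega
    have hinj : Set.InjOn (fun a : ℕ => ⌊(a : ℝ) / M⌋₊) (E.filter (fun a : ℕ => ¬ (a : ℝ) < x) : Finset ℕ) := by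
      intro a ha a' ha' h
      rcases lt_trichotomy a a' with h1 | h1 | h1
      · exact absurd h (hlt a ha a' ha' h1).ne
      · exact h1
      · exact absurd h (hlt a' ha' a ha h1).ne'
    have hmaps : Set.MapsTo (fun a : ℕ => ⌊(a : ℝ) / M⌋₊) (E.filter (fun a : ℕ => ¬ (a : ℝ) < x) : Finset ℕ)
        (Finset.range (⌊(T : ℝ) / M⌋₊ + 1) : Finset ℕ) := by
      intro a ha
      rw [Finset.mem_coe, Finset.mem_filter] at ha
      rw [Finset.mem_coe, Finset.mem_range, Nat.lt_succ_iff]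
      apply Nat.floor_le_floor
      apply div_le_div_of_nonneg_right _ hM0.le
      exact_mod_cast (Finset.mem_Icc.1 (hE ha.1)).2
    have h1 := Finset.card_le_card_of_injOn _ hmaps hinj
    rw [Finset.card_range] at h1
    calc ((E.filter (fun a : ℕ => ¬ (a : ℝ) < x)).card : ℝ) ≤ ((⌊(T : ℝ) / M⌋₊ + 1 : ℕ) : ℝ) := by
          exact_mod_cast h1
      _ = (⌊(T : ℝ) / M⌋₊ : ℝ) + 1 := by push_cast; ring
      _ ≤ T / M + 1 := by
          have := Nat.floor_le (show 0 ≤ (T : ℝ) / M by positivity)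
          linarith
  -- the size of `T`
  obtain ⟨s, hs⟩ : ∃ s : ℝ, s = Real.sqrt T := ⟨_, rfl⟩
  have hs2 : s * s = T := by
    rw [hs]
    exact Real.mul_self_sqrt hT0.le
  have hs0 : 0 ≤ s := by
    rw [hs]
    exact Real.sqrt_nonneg _
  have hs1 : 1 ≤ s := by
    have h1 : 0 ≤ (2 * (c + 1) / eps) ^ 2 := sq_nonneg _
    nlinarith
  have hs3 : 2 * (c + 1) / eps ≤ s := by
    rw [hs]
    apply Real.le_sqrt_of_sq_le
    linarith
  have hTM : (T : ℝ) / M = c * s := by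
    have h1 : c * s * M = T := by
      have h2 : c * s * M = Real.sqrt (2 / eps * T * x) := by
        rw [hc, hs, hM, Real.sqrt_mul (by positivity), Real.sqrt_mul (by positivity)]
      have h3 : 2 / eps * T * x = (T : ℝ) ^ 2 := by
        rw [hx]
        field_simp
      rw [h2, h3, Real.sqrt_sq hT0.le]
    rw [div_eq_iff hM0.ne', h1]
  have hfin : c * s + 1 ≤ eps * T / 2 := by
    have h1 : c * s + 1 ≤ (c + 1) * s := by linarith
    have h2 : (c + 1) * s ≤ eps * T / 2 := by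
      rw [div_le_iff₀ heps] at hs3
      have h3 := mul_le_mul_of_nonneg_right hs3 hs0
      rw [← hs2]
      linarith
    linarith
  rw [hsplit]
  rw [hTM] at hbig
  linarith

end H4AR
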