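import Pool.Agent.H4.AR.Num
import Pool.Agent.H4.AR.NthC
import Pool.Agent.H4.AR.CurveE
import Pool.Agent.H4.AR.LinB

/-!
H4/AR/Fin: the main theorem. For 100 per cent of the a ≤ T: all integer points of Phi(b L1^n, a L2^n) = G, deg G ≤ nD - 5,
are polynomially bounded.

PROOF. D = natDegree P, N = n D - 5. The set R of positive reals th such that th or -th is a root of P is finite, with at
most 2 D elements (roots of P and of P(-X) over the reals); let eps' = eps/(4 D) (D ≥ 1 as nD ≥ 5). For every th in R: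
num_thm with kap = 9/2 and the polynomial P or P.comp(-X) (nonzero): constant C_th; CN = max of the C_th (and 1);
monotone: Exc with T^CN implies Exc with T^(C_th), so for T ≥ CN the set A_th of the a in [1,T] having an r with
Exc n b a th (9/2) (T^CN) r has ≤ eps' T elements. nth_count with eps': constant C', the set B_th of the a in [1,T] with
b r^n = th a for some rational r > 0 has ≤ eps' T elements. curve_exc with CN: constant C''. Take
C1 = max(CN, C', C'', 2), and C = a large multiple, see below; T ≥ C, E = union over R of A_th and B_th: card ≤ 2D * 2 eps' T = eps T.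
Let a in [1,T] not in E, G, L1, L2, H and (x,y) as in the statement, X = L1(x,y), Y = L2(x,y), M = max(|X|,|Y|).
The equation says: sum P_i (b X^n)^i (a Y^n)^(D-i) = G(x,y). U = (N+1)^2 * H * (4 H^2)^N ≥ 1 (real).
If M < (T U)^C'': lin_size: max(|x|,|y|) ≤ 4 H^2 max(1,M) ≤ 4 H^2 (T U)^C'' ≤ (T H)^C, because 4, (N+1)^2, 4^N
≤ T (T ≥ C large) so U ≤ T^2 H^(2N+1) and C ≥ ... (everything is a bounded power of T H).
If M ≥ (T U)^C'' then M ≥ 1, |x|,|y| ≤ 4 H^2 M (lin_size), |G(x,y)| ≤ (N+1)^2 H (4 H^2 M)^N = U M^N (eval_size with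
B = 4 H^2 M), and curve_exc gives th in R with a in B_th or a in A_th: contradiction to a not in E.
-/

namespace H4AR

open MvPolynomial

private theorem fin_roots (P : Polynomial ℤ) (hP : P ≠ 0) :
    {th : ℝ | 0 < th ∧ (Polynomial.aeval th P = 0 ∨ Polynomial.aeval (-th) P = 0)}.Finite := by
  have h1 : {th : ℝ | Polynomial.aeval th P = 0}.Finite := by
    refine (Polynomial.rootSet_finite P ℝ).subset fun th hth => ?_
    exact (Polynomial.mem_rootSet).2 ⟨hP, hth⟩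
  have h2 : {th : ℝ | Polynomial.aeval (-th) P = 0}.Finite := by
    have h3 : ((fun x : ℝ => -x) '' {th : ℝ | Polynomial.aeval th P = 0}).Finite := h1.image _
    refine h3.subset fun th hth => ?_
    exact ⟨-th, hth, neg_neg th⟩
  refine (h1.union h2).subset fun th hth => ?_
  exact hth.2

private theorem fin_neg (P : Polynomial ℤ) (hP : P ≠ 0) : P.comp (-Polynomial.X) ≠ 0 := by
  intro h
  apply hP
  have h1 : (P.comp (-Polynomial.X)).comp (-Polynomial.X) = P := by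
    rw [Polynomial.comp_assoc]
    simp
  rw [← h1, h, Polynomial.zero_comp]

private theorem fin_num (n : ℕ) (hn : 2 ≤ n) (P : Polynomial ℤ) (hP : P ≠ 0) (th : ℝ)
    (hth : 0 < th) (hroot : Polynomial.aeval th P = 0 ∨ Polynomial.aeval (-th) P = 0) (eps : ℝ)
    (heps : 0 < eps) :
    ∃ C : ℕ, ∀ T : ℕ, C ≤ T → ∀ b : ℕ, 1 ≤ b → b ≤ T → ∀ E : Finset ℕ, E ⊆ Finset.Icc 1 T →
      (∀ a ∈ E, ∃ r : ℚ, Exc n b a th (9 / 2) ((T : ℝ) ^ C) r) → (E.card : ℝ) ≤ eps * T := by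
  rcases hroot with h | h
  · exact num_thm n hn (9 / 2) (by norm_num) P hP th hth h eps heps
  · refine num_thm n hn (9 / 2) (by norm_num) (P.comp (-Polynomial.X)) (fin_neg P hP) th hth ?_
      eps heps
    rw [Polynomial.aeval_comp]
    simpa using h

/-- the exceptional set -/
private theorem fin_set (n : ℕ) (hn : 2 ≤ n) (P : Polynomial ℤ) (hP : P ≠ 0) (eps : ℝ)
    (heps : 0 < eps) :
    ∃ CN C0 : ℕ, ∀ T : ℕ, C0 ≤ T → ∀ b : ℕ, 1 ≤ b → b ≤ T →
      ∃ E : Finset ℕ, (E.card : ℝ) ≤ eps * T ∧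
        ∀ a : ℕ, 1 ≤ a → a ≤ T → a ∉ E → ∀ th : ℝ, 0 < th →
          (Polynomial.aeval th P = 0 ∨ Polynomial.aeval (-th) P = 0) →
          ¬ ((∃ r : ℚ, 0 < r ∧ (b : ℝ) * (r : ℝ) ^ n = th * (a : ℝ)) ∨
            ∃ r : ℚ, Exc n b a th (9 / 2) ((T : ℝ) ^ CN) r) := by
  classical
  set R : Finset ℝ := (fin_roots P hP).toFinset with hR
  have hmem : ∀ th : ℝ, th ∈ R ↔
      0 < th ∧ (Polynomial.aeval th P = 0 ∨ Polynomial.aeval (-th) P = 0) := by
    intro th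
    rw [hR, Set.Finite.mem_toFinset]
    exact Iff.rfl
  set e' : ℝ := eps / (2 * (R.card + 1)) with he'
  have he0 : 0 < e' := by positivity
  have hex : ∀ th : ℝ, ∃ C : ℕ, th ∈ R → ∀ T : ℕ, C ≤ T → ∀ b : ℕ, 1 ≤ b → b ≤ T →
      ∀ E : Finset ℕ, E ⊆ Finset.Icc 1 T →
      (∀ a ∈ E, ∃ r : ℚ, Exc n b a th (9 / 2) ((T : ℝ) ^ C) r) → (E.card : ℝ) ≤ e' * T := by
    intro th
    by_cases h : th ∈ R
    · obtain ⟨C, hC⟩ := fin_num n hn P hP th ((hmem th).1 h).1 ((hmem th).1 h).2 e' he0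
      exact ⟨C, fun _ => hC⟩
    · exact ⟨0, fun hh => absurd hh h⟩
  choose f hf using hex
  obtain ⟨C', hC'⟩ := nth_count n hn e' he0
  refine ⟨R.sup f + 1, R.sup f + 1 + C', fun T hT b hb hbT => ?_⟩
  have hT1 : 1 ≤ T := by omega
  have hT1R : (1 : ℝ) ≤ T := by exact_mod_cast hT1
  set A : ℝ → Finset ℕ := fun th => (Finset.Icc 1 T).filter
    (fun a => ∃ r : ℚ, Exc n b a th (9 / 2) ((T : ℝ) ^ (R.sup f + 1)) r) with hA
  set B : ℝ → Finset ℕ := fun th => (Finset.Icc 1 T).filter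
    (fun a => ∃ r : ℚ, 0 < r ∧ (b : ℝ) * (r : ℝ) ^ n = th * (a : ℝ)) with hB
  refine ⟨R.biUnion (fun th => A th ∪ B th), ?_, ?_⟩
  · have h1 : ((R.biUnion (fun th => A th ∪ B th)).card : ℝ) ≤
        ∑ th ∈ R, (((A th).card : ℝ) + ((B th).card : ℝ)) := by
      have h2 : (R.biUnion (fun th => A th ∪ B th)).card ≤
          ∑ th ∈ R, ((A th).card + (B th).card) := by
        refine Finset.card_biUnion_le.trans ?_
        apply Finset.sum_le_sum
        intro th _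
        exact Finset.card_union_le _ _
      exact_mod_cast h2
    have h3 : ∑ th ∈ R, (((A th).card : ℝ) + ((B th).card : ℝ)) ≤
        ∑ th ∈ R, (e' * T + e' * T) := by
      apply Finset.sum_le_sum
      intro th hth
      apply add_le_add
      · have hle : f th ≤ R.sup f + 1 := (Finset.le_sup hth).trans (Nat.le_succ _)
        refine hf th hth T (by omega) b hb hbT (A th) (Finset.filter_subset _ _) ?_
        intro a ha
        obtain ⟨r, h0, h1, h2⟩ := (Finset.mem_filter.1 ha).2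
        exact ⟨r, h0, (pow_le_pow_right₀ hT1R hle).trans h1, h2⟩
      · refine hC' T (by omega) b hb th ((hmem th).1 hth).1 (B th) (Finset.filter_subset _ _) ?_
        intro a ha
        exact (Finset.mem_filter.1 ha).2
    rw [Finset.sum_const, nsmul_eq_mul] at h3
    have h4 : (R.card : ℝ) * (e' * T + e' * T) ≤ eps * T := by
      have h5 : (R.card : ℝ) * (e' * T + e' * T) = (eps * T) * (R.card / (R.card + 1)) := by
        rw [he']
        field_simp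
        ring
      rw [h5]
      have h6 : (R.card : ℝ) / (R.card + 1) ≤ 1 := by
        rw [div_le_one (by positivity)]
        linarith
      have h7 : 0 ≤ eps * (T : ℝ) := by positivity
      calc (eps * T) * ((R.card : ℝ) / (R.card + 1)) ≤ (eps * T) * 1 :=
            mul_le_mul_of_nonneg_left h6 h7
        _ = eps * T := mul_one _
    linarith
  · intro a ha haT haE th hth hroot hor
    apply haE
    rw [Finset.mem_biUnion]
    refine ⟨th, (hmem th).2 ⟨hth, hroot⟩, ?_⟩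
    rw [Finset.mem_union]
    rcases hor with h | h
    · right
      exact Finset.mem_filter.2 ⟨Finset.mem_Icc.2 ⟨ha, haT⟩, h⟩
    · left
      exact Finset.mem_filter.2 ⟨Finset.mem_Icc.2 ⟨ha, haT⟩, h⟩

private theorem fin_size (N C2 T H : ℕ) (hH : 1 ≤ H) (hT1 : 4 ≤ T) (hT2 : (N + 1) ^ 2 ≤ T)
    (hT3 : 4 ^ N ≤ T) (C : ℕ) (hC : 2 + (2 * N + 3) * C2 ≤ C) :
    4 * (H : ℝ) ^ 2 * ((T : ℝ) * (((N : ℝ) + 1) ^ 2 * H * (4 * (H : ℝ) ^ 2) ^ N)) ^ C2 ≤
      ((T : ℝ) * H) ^ C := by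
  have hHR : (1 : ℝ) ≤ H := by exact_mod_cast hH
  have hTR : (4 : ℝ) ≤ T := by exact_mod_cast hT1
  have hT2R : ((N : ℝ) + 1) ^ 2 ≤ T := by exact_mod_cast hT2
  have hT3R : (4 : ℝ) ^ N ≤ T := by exact_mod_cast hT3
  have hT1R : (1 : ℝ) ≤ T := by linarith
  have hTH : (1 : ℝ) ≤ (T : ℝ) * H := by nlinarith
  have h1 : (T : ℝ) * (((N : ℝ) + 1) ^ 2 * H * (4 * (H : ℝ) ^ 2) ^ N) ≤
      ((T : ℝ) * H) ^ (2 * N + 3) := by
    have h2 : (T : ℝ) * (((N : ℝ) + 1) ^ 2 * H * (4 * (H : ℝ) ^ 2) ^ N) =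
        (T : ℝ) * ((N : ℝ) + 1) ^ 2 * 4 ^ N * (H * ((H : ℝ) ^ 2) ^ N) := by
      rw [mul_pow]
      ring
    have h3 : (T : ℝ) * ((N : ℝ) + 1) ^ 2 * 4 ^ N ≤ (T : ℝ) ^ (2 * N + 3) := by
      calc (T : ℝ) * ((N : ℝ) + 1) ^ 2 * 4 ^ N ≤ (T : ℝ) * T * T := by
            gcongr
        _ = (T : ℝ) ^ 3 := by ring
        _ ≤ (T : ℝ) ^ (2 * N + 3) := pow_le_pow_right₀ hT1R (by omega)
    have h4 : (H : ℝ) * ((H : ℝ) ^ 2) ^ N ≤ (H : ℝ) ^ (2 * N + 3) := by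
      calc (H : ℝ) * ((H : ℝ) ^ 2) ^ N = (H : ℝ) ^ (2 * N + 1) := by
            rw [← pow_mul]
            ring
        _ ≤ (H : ℝ) ^ (2 * N + 3) := pow_le_pow_right₀ hHR (by omega)
    rw [h2, mul_pow]
    exact mul_le_mul h3 h4 (by positivity) (by positivity)
  have h5 : 4 * (H : ℝ) ^ 2 ≤ ((T : ℝ) * H) ^ 2 := by
    rw [mul_pow]
    have : (4 : ℝ) ≤ (T : ℝ) ^ 2 := by nlinarith
    exact mul_le_mul_of_nonneg_right this (by positivity)
  calc 4 * (H : ℝ) ^ 2 * ((T : ℝ) * (((N : ℝ) + 1) ^ 2 * H * (4 * (H : ℝ) ^ 2) ^ N)) ^ C2 ≤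
      ((T : ℝ) * H) ^ 2 * (((T : ℝ) * H) ^ (2 * N + 3)) ^ C2 := by
        gcongr
    _ = ((T : ℝ) * H) ^ (2 + (2 * N + 3) * C2) := by
        rw [← pow_mul, ← pow_add]
    _ ≤ ((T : ℝ) * H) ^ C := pow_le_pow_right₀ hTH hC

private theorem fin_nat (u v A B w T : ℕ) (h : u + v + 4 + A + B + w ≤ T) :
    u ≤ T ∧ v ≤ T ∧ 4 ≤ T ∧ A ≤ T ∧ B ≤ T ∧ 1 ≤ T := by omega

theorem main (n : ℕ) (hn : 2 ≤ n) (P : Polynomial ℤ) (hnD : 5 ≤ n * P.natDegree) (hP0 : P.coeff 0 ≠ 0)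
    (hsq : Squarefree (P.map (Int.castRingHom ℚ))) (eps : ℝ) (heps : 0 < eps) :
    ∃ C : ℕ, ∀ T : ℕ, C ≤ T → ∀ b : ℕ, 1 ≤ b → b ≤ T →
      ∃ E : Finset ℕ, (E.card : ℝ) ≤ eps * T ∧
        ∀ a : ℕ, 1 ≤ a → a ≤ T → a ∉ E →
          ∀ (G L1 L2 : MvPolynomial (Fin 2) ℤ) (H : ℕ), 1 ≤ H → G.totalDegree ≤ n * P.natDegree - 5 →
            L1.totalDegree ≤ 1 → L2.totalDegree ≤ 1 →
            L1.coeff (Finsupp.single 0 1) * L2.coeff (Finsupp.single 1 1) ≠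
              L1.coeff (Finsupp.single 1 1) * L2.coeff (Finsupp.single 0 1) →
            (∀ e, |G.coeff e| ≤ H) → (∀ e, |L1.coeff e| ≤ H) → (∀ e, |L2.coeff e| ≤ H) →
            ∀ x y : ℤ,
              ∑ i ∈ Finset.range (P.natDegree + 1),
                P.coeff i * ((b : ℤ) * (eval ![x, y] L1) ^ n) ^ i *
                  ((a : ℤ) * (eval ![x, y] L2) ^ n) ^ (P.natDegree - i) = eval ![x, y] G →
              max |x| |y| ≤ ((T : ℤ) * H) ^ C := by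
  have hP : P ≠ 0 := by
    rintro rfl
    exact hP0 (by simp)
  obtain ⟨CN, C0, hset⟩ := fin_set n hn P hP eps heps
  obtain ⟨C2, hcurve⟩ := curve_exc n hn P hP0 hsq hnD CN
  set N : ℕ := n * P.natDegree - 5 with hN
  refine ⟨C0 + C2 + 4 + (N + 1) ^ 2 + 4 ^ N + (2 + (2 * N + 3) * C2), ?_⟩
  intro T hT b hb hbT
  obtain ⟨t1, t2, t3, t4, t5, t6⟩ := fin_nat _ _ _ _ _ _ hT
  obtain ⟨E, hE, hEa⟩ := hset T t1 b hb hbT
  refine ⟨E, hE, ?_⟩
  intro a ha haT haE G L1 L2 H hH hG hL1 hL2 hdet hcG hc1 hc2 x y heq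
  set X : ℤ := eval ![x, y] L1 with hX
  set Y : ℤ := eval ![x, y] L2 with hY
  set M : ℝ := max |(X : ℝ)| |(Y : ℝ)| with hM
  set U : ℝ := ((N : ℝ) + 1) ^ 2 * H * (4 * (H : ℝ) ^ 2) ^ N with hU
  have hHR : (1 : ℝ) ≤ H := by exact_mod_cast hH
  have hU1 : 1 ≤ U := by
    rw [hU]
    have h1 : (1 : ℝ) ≤ ((N : ℝ) + 1) ^ 2 := one_le_pow₀ (by linarith [Nat.cast_nonneg (α := ℝ) N])
    have h2 : (1 : ℝ) ≤ (4 * (H : ℝ) ^ 2) ^ N := one_le_pow₀ (by nlinarith)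
    have h3 : (1 : ℝ) ≤ ((N : ℝ) + 1) ^ 2 * H := by nlinarith
    nlinarith
  have hTR : (1 : ℝ) ≤ T := by exact_mod_cast t6
  have hTU : 1 ≤ (T : ℝ) * U := by nlinarith
  have hlin := lin_size L1 L2 H hH hL1 hL2 hdet hc1 hc2 x y
  rw [← hX, ← hY, ← hM] at hlin
  rcases lt_or_ge M (((T : ℝ) * U) ^ C2) with hlt | hge
  · have h1 : max 1 M ≤ ((T : ℝ) * U) ^ C2 := max_le (one_le_pow₀ hTU) hlt.le
    have h2 : max |(x : ℝ)| |(y : ℝ)| ≤
        ((T : ℝ) * H) ^ (C0 + C2 + 4 + (N + 1) ^ 2 + 4 ^ N + (2 + (2 * N + 3) * C2)) := by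
      calc max |(x : ℝ)| |(y : ℝ)| ≤ 4 * (H : ℝ) ^ 2 * max 1 M := hlin
        _ ≤ 4 * (H : ℝ) ^ 2 * ((T : ℝ) * U) ^ C2 := by gcongr
        _ ≤ _ := fin_size N C2 T H hH t3 t4 t5 _ (Nat.le_add_left _ _)
    exact_mod_cast h2
  · exfalso
    have hM1 : 1 ≤ M := le_trans (one_le_pow₀ hTU) hge
    have hlin' : max |(x : ℝ)| |(y : ℝ)| ≤ 4 * (H : ℝ) ^ 2 * M := by
      rwa [max_eq_right hM1] at hlin
    have hB1 : 1 ≤ 4 * (H : ℝ) ^ 2 * M := by nlinarith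
    have hev := eval_size G N H hH hG hcG x y (4 * (H : ℝ) ^ 2 * M) hB1
      ((le_max_left _ _).trans hlin') ((le_max_right _ _).trans hlin')
    have hval : |∑ i ∈ Finset.range (P.natDegree + 1),
        ((P.coeff i : ℤ) : ℝ) * ((b : ℝ) * (X : ℝ) ^ n) ^ i *
          ((a : ℝ) * (Y : ℝ) ^ n) ^ (P.natDegree - i)| ≤ U * M ^ N := by
      have h1 : ∑ i ∈ Finset.range (P.natDegree + 1),
        ((P.coeff i : ℤ) : ℝ) * ((b : ℝ) * (X : ℝ) ^ n) ^ i *
          ((a : ℝ) * (Y : ℝ) ^ n) ^ (P.natDegree - i) = ((eval ![x, y] G : ℤ) : ℝ) := by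
        rw [← heq]
        push_cast
        rfl
      rw [h1]
      refine hev.trans (le_of_eq ?_)
      rw [hU, mul_pow _ M]
      ring
    obtain ⟨th, hth, hroot, hor⟩ := hcurve T t2 b a hb hbT ha haT U hU1 X Y hge hval
    exact hEa a ha haT haE th hth hroot hor

end H4AR
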