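import Pool.Agent.H4.AR.Num
import Pool.Agent.H4.AR.NthC
import Pool.Agent.H4.AR.CurveF
import Pool.Agent.H4.AR.LinB
import Pool.Agent.H4.AR.SizeR

/-!
H4/AR/Fin2: the main theorem in its general form: Phi(b P^n, a Q^n) = G with P, Q of degree d whose leading forms have no
common zero, deg G ≤ d (nD - 4) - 1. (For linear P, Q see Fin.lean, whose proof can be adapted if it is on main.)

F = the dehomogenised form Phi, D = natDegree F.

PROOF. N = d (nD - 4) - 1. kap = 4 + 1/(2d) > 4. The set R of positive reals th such that th or -th is a root of F is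
finite, with at most 2 D elements (roots of F and of F(-X) over the reals); let eps' = eps/(4 D) (D ≥ 1 as nD ≥ 5). For
every th in R: num_thm with kap and the polynomial F or F.comp(-X) (nonzero): constant C_th; CN = max of the C_th (and 1);
monotone: Exc with T^CN implies Exc with T^(C_th), so for T ≥ CN the set A_th of the a in [1,T] having an r with
Exc n b a th kap (T^CN) r has ≤ eps' T elements. nth_count with eps': constant C', the set B_th of the a in [1,T] with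
b r^n = th a for some rational r > 0 has ≤ eps' T elements. curve_exc2 with CN: constant C''. E = union over R of the
A_th and B_th: card ≤ 2D * 2 eps' T = eps T.
Let a in [1,T] not in E, G, P, Q, H and (x,y) as in the statement, X = P(x,y), Y = Q(x,y), M = max(|X|,|Y|),
N0 = max(|x|,|y|). size_res: N0^d ≤ (c H)^c max(1,M).
The equation says: V := |sum F_i (b X^n)^i (a Y^n)^(D-i)| = |G(x,y)|. U = ((N+1)^2 H)^d ((c H)^c)^(N) ≥ 1 (real).
If M < (T U)^C'': N0 ≤ N0^d ≤ (c H)^c (T U)^C'' (or N0 = 0) ≤ (T H)^C, C large, because constants are ≤ T (T ≥ C) and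
everything is a bounded power of T H.
If M ≥ (T U)^C'' then M ≥ 1; with B = max(1,N0): B^d ≤ (c H)^c M, |G(x,y)| ≤ (N+1)^2 H B^N (eval_size), so
V^d ≤ ((N+1)^2 H)^d (B^d)^N ≤ U M^N, N = d(nD-4)-1, and curve_exc2 gives th in R with a in B_th or a in A_th:
contradiction to a not in E.
-/

namespace H4AR

open MvPolynomial

private theorem fin_roots (P : Polynomial ℤ) (hP : P ≠ 0) :
    {th : ℝ | 0 < th ∧ (Polynomial.aeval th P = 0 ∨ Polynomial.aeval (-th) P = 0)}.Finite := by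
  have h1 : {th : ℝ | Polynomial.aeval th P = 0}.Finite := by
    refine (Polynomial.rootSet_finite P ℝ).subset fun th hth => ?_
    exact (Polynomial.mem_rootSet).2 ⟨hP, hth⟩
  have h2 : {th : ℝ | Polynomial.aeval (-th) P = 0}.Finite := by
    have h3 : ((fun x : ℝ => -x) '' {th : ℝ | Polynomial.aeval th P = 0}).Finite := h1.image _
    refine h3.subset fun th hth => ?_
    exact ⟨-th, hth, neg_neg th⟩
  refine (h1.union h2).subset fun th hth => ?_
  exact hth.2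

private theorem fin_neg (P : Polynomial ℤ) (hP : P ≠ 0) : P.comp (-Polynomial.X) ≠ 0 := by
  intro h
  apply hP
  have h1 : (P.comp (-Polynomial.X)).comp (-Polynomial.X) = P := by
    rw [Polynomial.comp_assoc]
    simp
  rw [← h1, h, Polynomial.zero_comp]

private theorem fin_num (kap : ℝ) (hkap : 4 < kap) (n : ℕ) (hn : 2 ≤ n) (P : Polynomial ℤ) (hP : P ≠ 0) (th : ℝ)
    (hth : 0 < th) (hroot : Polynomial.aeval th P = 0 ∨ Polynomial.aeval (-th) P = 0) (eps : ℝ)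
    (heps : 0 < eps) :
    ∃ C : ℕ, ∀ T : ℕ, C ≤ T → ∀ b : ℕ, 1 ≤ b → b ≤ T → ∀ E : Finset ℕ, E ⊆ Finset.Icc 1 T →
      (∀ a ∈ E, ∃ r : ℚ, Exc n b a th kap ((T : ℝ) ^ C) r) → (E.card : ℝ) ≤ eps * T := by
  rcases hroot with h | h
  · exact num_thm n hn kap hkap P hP th hth h eps heps
  · refine num_thm n hn kap hkap (P.comp (-Polynomial.X)) (fin_neg P hP) th hth ?_
      eps heps
    rw [Polynomial.aeval_comp]
    simpa using h

/-- the exceptional set -/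
private theorem fin_set (kap : ℝ) (hkap : 4 < kap) (n : ℕ) (hn : 2 ≤ n) (P : Polynomial ℤ) (hP : P ≠ 0) (eps : ℝ)
    (heps : 0 < eps) :
    ∃ CN C0 : ℕ, ∀ T : ℕ, C0 ≤ T → ∀ b : ℕ, 1 ≤ b → b ≤ T →
      ∃ E : Finset ℕ, (E.card : ℝ) ≤ eps * T ∧
        ∀ a : ℕ, 1 ≤ a → a ≤ T → a ∉ E → ∀ th : ℝ, 0 < th →
          (Polynomial.aeval th P = 0 ∨ Polynomial.aeval (-th) P = 0) →
          ¬ ((∃ r : ℚ, 0 < r ∧ (b : ℝ) * (r : ℝ) ^ n = th * (a : ℝ)) ∨
            ∃ r : ℚ, Exc n b a th kap ((T : ℝ) ^ CN) r) := by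
  classical
  set R : Finset ℝ := (fin_roots P hP).toFinset with hR
  have hmem : ∀ th : ℝ, th ∈ R ↔
      0 < th ∧ (Polynomial.aeval th P = 0 ∨ Polynomial.aeval (-th) P = 0) := by
    intro th
    rw [hR, Set.Finite.mem_toFinset]
    exact Iff.rfl
  set e' : ℝ := eps / (2 * (R.card + 1)) with he'
  have he0 : 0 < e' := by positivity
  have hex : ∀ th : ℝ, ∃ C : ℕ, th ∈ R → ∀ T : ℕ, C ≤ T → ∀ b : ℕ, 1 ≤ b → b ≤ T →
      ∀ E : Finset ℕ, E ⊆ Finset.Icc 1 T →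
      (∀ a ∈ E, ∃ r : ℚ, Exc n b a th kap ((T : ℝ) ^ C) r) → (E.card : ℝ) ≤ e' * T := by
    intro th
    by_cases h : th ∈ R
    · obtain ⟨C, hC⟩ := fin_num kap hkap n hn P hP th ((hmem th).1 h).1 ((hmem th).1 h).2 e' he0
      exact ⟨C, fun _ => hC⟩
    · exact ⟨0, fun hh => absurd hh h⟩
  choose f hf using hex
  obtain ⟨C', hC'⟩ := nth_count n hn e' he0
  refine ⟨R.sup f + 1, R.sup f + 1 + C', fun T hT b hb hbT => ?_⟩
  have hT1 : 1 ≤ T := by omega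
  have hT1R : (1 : ℝ) ≤ T := by exact_mod_cast hT1
  set A : ℝ → Finset ℕ := fun th => (Finset.Icc 1 T).filter
    (fun a => ∃ r : ℚ, Exc n b a th kap ((T : ℝ) ^ (R.sup f + 1)) r) with hA
  set B : ℝ → Finset ℕ := fun th => (Finset.Icc 1 T).filter
    (fun a => ∃ r : ℚ, 0 < r ∧ (b : ℝ) * (r : ℝ) ^ n = th * (a : ℝ)) with hB
  refine ⟨R.biUnion (fun th => A th ∪ B th), ?_, ?_⟩
  · have h1 : ((R.biUnion (fun th => A th ∪ B th)).card : ℝ) ≤
        ∑ th ∈ R, (((A th).card : ℝ) + ((B th).card : ℝ)) := by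
      have h2 : (R.biUnion (fun th => A th ∪ B th)).card ≤
          ∑ th ∈ R, ((A th).card + (B th).card) := by
        refine Finset.card_biUnion_le.trans ?_
        apply Finset.sum_le_sum
        intro th _
        exact Finset.card_union_le _ _
      exact_mod_cast h2
    have h3 : ∑ th ∈ R, (((A th).card : ℝ) + ((B th).card : ℝ)) ≤
        ∑ th ∈ R, (e' * T + e' * T) := by
      apply Finset.sum_le_sum
      intro th hth
      apply add_le_add
      · have hle : f th ≤ R.sup f + 1 := (Finset.le_sup hth).trans (Nat.le_succ _)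
        refine hf th hth T (by omega) b hb hbT (A th) (Finset.filter_subset _ _) ?_
        intro a ha
        obtain ⟨r, h0, h1, h2⟩ := (Finset.mem_filter.1 ha).2
        exact ⟨r, h0, (pow_le_pow_right₀ hT1R hle).trans h1, h2⟩
      · refine hC' T (by omega) b hb th ((hmem th).1 hth).1 (B th) (Finset.filter_subset _ _) ?_
        intro a ha
        exact (Finset.mem_filter.1 ha).2
    rw [Finset.sum_const, nsmul_eq_mul] at h3
    have h4 : (R.card : ℝ) * (e' * T + e' * T) ≤ eps * T := by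
      have h5 : (R.card : ℝ) * (e' * T + e' * T) = (eps * T) * (R.card / (R.card + 1)) := by
        rw [he']
        field_simp
        ring
      rw [h5]
      have h6 : (R.card : ℝ) / (R.card + 1) ≤ 1 := by
        rw [div_le_one (by positivity)]
        linarith
      have h7 : 0 ≤ eps * (T : ℝ) := by positivity
      calc (eps * T) * ((R.card : ℝ) / (R.card + 1)) ≤ (eps * T) * 1 :=
            mul_le_mul_of_nonneg_left h6 h7
        _ = eps * T := mul_one _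
    linarith
  · intro a ha haT haE th hth hroot hor
    apply haE
    rw [Finset.mem_biUnion]
    refine ⟨th, (hmem th).2 ⟨hth, hroot⟩, ?_⟩
    rw [Finset.mem_union]
    rcases hor with h | h
    · right
      exact Finset.mem_filter.2 ⟨Finset.mem_Icc.2 ⟨ha, haT⟩, h⟩
    · left
      exact Finset.mem_filter.2 ⟨Finset.mem_Icc.2 ⟨ha, haT⟩, h⟩

private theorem fin_size (N d c C2 T H : ℕ) (hH : 1 ≤ H) (hT0 : 1 ≤ T) (hT1 : c ≤ T)
    (hT2 : (N + 1) ^ 2 ≤ T) (C : ℕ) (hC : c + (1 + (d + c * N)) * C2 ≤ C) :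
    ((c : ℝ) * H) ^ c * ((T : ℝ) * ((((N : ℝ) + 1) ^ 2 * H) ^ d * (((c : ℝ) * H) ^ c) ^ N)) ^ C2 ≤
      ((T : ℝ) * H) ^ C := by
  have hHR : (1 : ℝ) ≤ H := by exact_mod_cast hH
  have hTR : (1 : ℝ) ≤ T := by exact_mod_cast hT0
  have hT1R : (c : ℝ) ≤ T := by exact_mod_cast hT1
  have hT2R : ((N : ℝ) + 1) ^ 2 ≤ T := by exact_mod_cast hT2
  have hTH : (1 : ℝ) ≤ (T : ℝ) * H := by nlinarith
  have hT' : (T : ℝ) ≤ (T : ℝ) * H := by nlinarith
  have h1 : ((c : ℝ) * H) ^ c ≤ ((T : ℝ) * H) ^ c := by gcongr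
  have h2 : (((N : ℝ) + 1) ^ 2 * H) ^ d ≤ ((T : ℝ) * H) ^ d := by gcongr
  have h3 : (((c : ℝ) * H) ^ c) ^ N ≤ (((T : ℝ) * H) ^ c) ^ N := by gcongr
  have h4 : (T : ℝ) * ((((N : ℝ) + 1) ^ 2 * H) ^ d * (((c : ℝ) * H) ^ c) ^ N) ≤
      ((T : ℝ) * H) ^ (1 + (d + c * N)) := by
    calc (T : ℝ) * ((((N : ℝ) + 1) ^ 2 * H) ^ d * (((c : ℝ) * H) ^ c) ^ N) ≤
        ((T : ℝ) * H) * (((T : ℝ) * H) ^ d * (((T : ℝ) * H) ^ c) ^ N) := by
          apply mul_le_mul hT' _ (by positivity) (by positivity)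
          exact mul_le_mul h2 h3 (by positivity) (by positivity)
      _ = ((T : ℝ) * H) ^ (1 + (d + c * N)) := by
          rw [← pow_mul, pow_add, pow_add, pow_one]
  calc ((c : ℝ) * H) ^ c * ((T : ℝ) * ((((N : ℝ) + 1) ^ 2 * H) ^ d * (((c : ℝ) * H) ^ c) ^ N)) ^ C2 ≤
      ((T : ℝ) * H) ^ c * (((T : ℝ) * H) ^ (1 + (d + c * N))) ^ C2 := by
        apply mul_le_mul h1 _ (by positivity) (by positivity)
        exact pow_le_pow_left₀ (by positivity) h4 _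
    _ = ((T : ℝ) * H) ^ (c + (1 + (d + c * N)) * C2) := by
        rw [← pow_mul, ← pow_add]
    _ ≤ ((T : ℝ) * H) ^ C := pow_le_pow_right₀ hTH hC

private theorem fin_nat (u v A B w T : ℕ) (h : u + v + 4 + A + B + w ≤ T) :
    u ≤ T ∧ v ≤ T ∧ A ≤ T ∧ B ≤ T ∧ 1 ≤ T := by omega

theorem main2 (n d : ℕ) (hn : 2 ≤ n) (hd : 1 ≤ d) (F : Polynomial ℤ) (hnD : 5 ≤ n * F.natDegree)
    (hF0 : F.coeff 0 ≠ 0) (hsq : Squarefree (F.map (Int.castRingHom ℚ))) (eps : ℝ) (heps : 0 < eps) :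
    ∃ C : ℕ, ∀ T : ℕ, C ≤ T → ∀ b : ℕ, 1 ≤ b → b ≤ T →
      ∃ E : Finset ℕ, (E.card : ℝ) ≤ eps * T ∧
        ∀ a : ℕ, 1 ≤ a → a ≤ T → a ∉ E →
          ∀ (G P Q : MvPolynomial (Fin 2) ℤ) (H : ℕ), 1 ≤ H →
            G.totalDegree ≤ d * (n * F.natDegree - 4) - 1 → P.totalDegree ≤ d → Q.totalDegree ≤ d →
            (∀ z w : ℂ, aeval ![z, w] (homogeneousComponent d P) = 0 →
              aeval ![z, w] (homogeneousComponent d Q) = 0 → z = 0 ∧ w = 0) →
            (∀ e, |G.coeff e| ≤ H) → (∀ e, |P.coeff e| ≤ H) → (∀ e, |Q.coeff e| ≤ H) →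
            ∀ x y : ℤ,
              ∑ i ∈ Finset.range (F.natDegree + 1),
                F.coeff i * ((b : ℤ) * (eval ![x, y] P) ^ n) ^ i *
                  ((a : ℤ) * (eval ![x, y] Q) ^ n) ^ (F.natDegree - i) = eval ![x, y] G →
              max |x| |y| ≤ ((T : ℤ) * H) ^ C := by
  have hF : F ≠ 0 := by
    rintro rfl
    exact hF0 (by simp)
  have hkap : (4 : ℝ) < 4 + 1 / (2 * (d : ℝ)) := by
    have : (0 : ℝ) < d := by exact_mod_cast hd
    have h2 : (0 : ℝ) < 1 / (2 * (d : ℝ)) := by positivity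
    linarith
  obtain ⟨CN, C0, hset⟩ := fin_set (4 + 1 / (2 * (d : ℝ))) hkap n hn F hF eps heps
  obtain ⟨C2, hcurve⟩ := curve_exc2 n d hn hd F hF0 hsq hnD CN
  obtain ⟨c, hc1, hsize⟩ := size_res d hd
  obtain ⟨N, hN⟩ : ∃ N, N = d * (n * F.natDegree - 4) - 1 := ⟨_, rfl⟩
  refine ⟨C0 + C2 + 4 + c + (N + 1) ^ 2 + (c + (1 + (d + c * N)) * C2), ?_⟩
  intro T hT b hb hbT
  obtain ⟨t1, t2, t3, t4, t6⟩ := fin_nat _ _ _ _ _ _ hT
  obtain ⟨E, hE, hEa⟩ := hset T t1 b hb hbT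
  refine ⟨E, hE, ?_⟩
  intro a ha haT haE G P Q H hH hG hP hQ hcop hcG hcP hcQ x y heq
  rw [← hN] at hG
  obtain ⟨X, hX⟩ : ∃ X : ℤ, X = eval ![x, y] P := ⟨_, rfl⟩
  obtain ⟨Y, hY⟩ : ∃ Y : ℤ, Y = eval ![x, y] Q := ⟨_, rfl⟩
  obtain ⟨M, hM⟩ : ∃ M : ℝ, M = max |(X : ℝ)| |(Y : ℝ)| := ⟨_, rfl⟩
  obtain ⟨U, hU⟩ : ∃ U : ℝ, U = (((N : ℝ) + 1) ^ 2 * H) ^ d * (((c : ℝ) * H) ^ c) ^ N := ⟨_, rfl⟩
  have hHR : (1 : ℝ) ≤ H := by exact_mod_cast hH
  have hcR : (1 : ℝ) ≤ c := by exact_mod_cast hc1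
  have hcH : (1 : ℝ) ≤ (c : ℝ) * H := by nlinarith
  have hcHc : (1 : ℝ) ≤ ((c : ℝ) * H) ^ c := one_le_pow₀ hcH
  have hN1 : (1 : ℝ) ≤ ((N : ℝ) + 1) ^ 2 := one_le_pow₀ (by linarith [Nat.cast_nonneg (α := ℝ) N])
  have hN2 : (1 : ℝ) ≤ ((N : ℝ) + 1) ^ 2 * H := by nlinarith
  have hU1 : 1 ≤ U := by
    rw [hU]
    have h1 : (1 : ℝ) ≤ (((N : ℝ) + 1) ^ 2 * H) ^ d := one_le_pow₀ hN2
    have h2 : (1 : ℝ) ≤ (((c : ℝ) * H) ^ c) ^ N := one_le_pow₀ hcHc
    nlinarith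
  have hTR : (1 : ℝ) ≤ T := by exact_mod_cast t6
  have hTU : 1 ≤ (T : ℝ) * U := by nlinarith
  have hlin := hsize P Q H hH hP hQ hcP hcQ hcop x y
  rw [← hX, ← hY, ← hM] at hlin
  obtain ⟨B, hB⟩ : ∃ B : ℝ, B = max 1 (max |(x : ℝ)| |(y : ℝ)|) := ⟨_, rfl⟩
  have hB1 : 1 ≤ B := by rw [hB]; exact le_max_left _ _
  have hBx : max |(x : ℝ)| |(y : ℝ)| ≤ B := by rw [hB]; exact le_max_right _ _
  have hmax1 : (1 : ℝ) ≤ max 1 M := le_max_left _ _
  have hBd : B ^ d ≤ ((c : ℝ) * H) ^ c * max 1 M := by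
    rw [hB]
    rcases le_total 1 (max |(x : ℝ)| |(y : ℝ)|) with h | h
    · rw [max_eq_right h]
      exact hlin
    · rw [max_eq_left h, one_pow]
      nlinarith
  rcases lt_or_ge M (((T : ℝ) * U) ^ C2) with hlt | hge
  · have h1 : max 1 M ≤ ((T : ℝ) * U) ^ C2 := max_le (one_le_pow₀ hTU) hlt.le
    have h2 : max |(x : ℝ)| |(y : ℝ)| ≤
        ((T : ℝ) * H) ^ (C0 + C2 + 4 + c + (N + 1) ^ 2 + (c + (1 + (d + c * N)) * C2)) := by
      calc max |(x : ℝ)| |(y : ℝ)| ≤ B := hBx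
        _ ≤ B ^ d := le_self_pow₀ hB1 (by omega)
        _ ≤ ((c : ℝ) * H) ^ c * max 1 M := hBd
        _ ≤ ((c : ℝ) * H) ^ c * ((T : ℝ) * U) ^ C2 := by
            exact mul_le_mul_of_nonneg_left h1 (by positivity)
        _ ≤ _ := by
            rw [hU]
            exact fin_size N d c C2 T H hH t6 t3 t4 _ (Nat.le_add_left _ _)
    exact_mod_cast h2
  · exfalso
    have hM1 : 1 ≤ M := le_trans (one_le_pow₀ hTU) hge
    rw [max_eq_right hM1] at hBd
    have hev := eval_size G N H hH hG hcG x y B hB1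
      ((le_max_left _ _).trans hBx) ((le_max_right _ _).trans hBx)
    have hval : |∑ i ∈ Finset.range (F.natDegree + 1),
        ((F.coeff i : ℤ) : ℝ) * ((b : ℝ) * (X : ℝ) ^ n) ^ i *
          ((a : ℝ) * (Y : ℝ) ^ n) ^ (F.natDegree - i)| ^ d ≤ U * M ^ N := by
      have h1 : ∑ i ∈ Finset.range (F.natDegree + 1),
        ((F.coeff i : ℤ) : ℝ) * ((b : ℝ) * (X : ℝ) ^ n) ^ i *
          ((a : ℝ) * (Y : ℝ) ^ n) ^ (F.natDegree - i) = ((eval ![x, y] G : ℤ) : ℝ) := by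
        rw [← heq, hX, hY]
        push_cast
        rfl
      rw [h1]
      have h2 : |((eval ![x, y] G : ℤ) : ℝ)| ^ d ≤ (((N : ℝ) + 1) ^ 2 * H * B ^ N) ^ d :=
        pow_le_pow_left₀ (abs_nonneg _) hev _
      have h3 : (((N : ℝ) + 1) ^ 2 * H * B ^ N) ^ d = (((N : ℝ) + 1) ^ 2 * H) ^ d * (B ^ d) ^ N := by
        rw [mul_pow (((N : ℝ) + 1) ^ 2 * H), ← pow_mul, ← pow_mul, mul_comm N d]
      have h4 : (B ^ d) ^ N ≤ (((c : ℝ) * H) ^ c * M) ^ N :=
        pow_le_pow_left₀ (by positivity) hBd _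
      calc |((eval ![x, y] G : ℤ) : ℝ)| ^ d ≤ (((N : ℝ) + 1) ^ 2 * H) ^ d * (B ^ d) ^ N := by
            rw [← h3]
            exact h2
        _ ≤ (((N : ℝ) + 1) ^ 2 * H) ^ d * (((c : ℝ) * H) ^ c * M) ^ N :=
            mul_le_mul_of_nonneg_left h4 (by positivity)
        _ = U * M ^ N := by
            rw [hU, mul_pow _ M]
            ring
    rw [hM] at hge hval
    rw [hN] at hval
    obtain ⟨th, hth, hroot, hor⟩ := hcurve T t2 b a hb hbT ha haT U hU1 X Y hge hval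
    exact hEa a ha haT haE th hth hroot hor

end H4AR
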