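import Pool.Agent.H4.AR.SetT
import Pool.Agent.H4.AR.CurveF
import Pool.Agent.H4.AR.LinB
import Pool.Agent.H4.AR.SizeR

/-!
H4/AR/Fin3: the main theorem with exceptional set T/(log T)^c and constants independent of it. Same statement and proof as
`main2` in Fin2.lean (take its proof from main when it is filled), with `set_t` in place of the exceptional set of measure eps T.

F = the dehomogenised form Phi, D = natDegree F, N = d (nD - 4) - 1, kap = 4 + 1/(2d).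
-/

namespace H4AR

open MvPolynomial

private theorem fin_size (N d c C2 T H : ℕ) (hH : 1 ≤ H) (hT0 : 1 ≤ T) (hT1 : c ≤ T)
    (hT2 : (N + 1) ^ 2 ≤ T) (C : ℕ) (hC : c + (1 + (d + c * N)) * C2 ≤ C) :
    ((c : ℝ) * H) ^ c * ((T : ℝ) * ((((N : ℝ) + 1) ^ 2 * H) ^ d * (((c : ℝ) * H) ^ c) ^ N)) ^ C2 ≤
      ((T : ℝ) * H) ^ C := by
  have hHR : (1 : ℝ) ≤ H := by exact_mod_cast hH
  have hTR : (1 : ℝ) ≤ T := by exact_mod_cast hT0
  have hT1R : (c : ℝ) ≤ T := by exact_mod_cast hT1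
  have hT2R : ((N : ℝ) + 1) ^ 2 ≤ T := by exact_mod_cast hT2
  have hTH : (1 : ℝ) ≤ (T : ℝ) * H := by nlinarith
  have hT' : (T : ℝ) ≤ (T : ℝ) * H := by nlinarith
  have h1 : ((c : ℝ) * H) ^ c ≤ ((T : ℝ) * H) ^ c := by gcongr
  have h2 : (((N : ℝ) + 1) ^ 2 * H) ^ d ≤ ((T : ℝ) * H) ^ d := by gcongr
  have h3 : (((c : ℝ) * H) ^ c) ^ N ≤ (((T : ℝ) * H) ^ c) ^ N := by gcongr
  have h4 : (T : ℝ) * ((((N : ℝ) + 1) ^ 2 * H) ^ d * (((c : ℝ) * H) ^ c) ^ N) ≤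
      ((T : ℝ) * H) ^ (1 + (d + c * N)) := by
    calc (T : ℝ) * ((((N : ℝ) + 1) ^ 2 * H) ^ d * (((c : ℝ) * H) ^ c) ^ N) ≤
        ((T : ℝ) * H) * (((T : ℝ) * H) ^ d * (((T : ℝ) * H) ^ c) ^ N) := by
          apply mul_le_mul hT' _ (by positivity) (by positivity)
          exact mul_le_mul h2 h3 (by positivity) (by positivity)
      _ = ((T : ℝ) * H) ^ (1 + (d + c * N)) := by
          rw [← pow_mul, pow_add, pow_add, pow_one]
  calc ((c : ℝ) * H) ^ c * ((T : ℝ) * ((((N : ℝ) + 1) ^ 2 * H) ^ d * (((c : ℝ) * H) ^ c) ^ N)) ^ C2 ≤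
      ((T : ℝ) * H) ^ c * (((T : ℝ) * H) ^ (1 + (d + c * N))) ^ C2 := by
        apply mul_le_mul h1 _ (by positivity) (by positivity)
        exact pow_le_pow_left₀ (by positivity) h4 _
    _ = ((T : ℝ) * H) ^ (c + (1 + (d + c * N)) * C2) := by
        rw [← pow_mul, ← pow_add]
    _ ≤ ((T : ℝ) * H) ^ C := pow_le_pow_right₀ hTH hC

private theorem fin_nat (u v A B w T : ℕ) (h : u + v + 4 + A + B + w ≤ T) :
    u ≤ T ∧ v ≤ T ∧ A ≤ T ∧ B ≤ T ∧ 1 ≤ T := by omega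

theorem main3 (n d : ℕ) (hn : 2 ≤ n) (hd : 1 ≤ d) (F : Polynomial ℤ) (hnD : 5 ≤ n * F.natDegree)
    (hF0 : F.coeff 0 ≠ 0) (hsq : Squarefree (F.map (Int.castRingHom ℚ))) :
    ∃ (C : ℕ) (c : ℝ), 0 < c ∧ ∀ T : ℕ, C ≤ T → ∀ b : ℕ, 1 ≤ b → b ≤ T →
      ∃ E : Finset ℕ, (E.card : ℝ) ≤ (T : ℝ) / (Real.log T) ^ c ∧
        ∀ a : ℕ, 1 ≤ a → a ≤ T → a ∉ E →
          ∀ (G P Q : MvPolynomial (Fin 2) ℤ) (H : ℕ), 1 ≤ H →
            G.totalDegree ≤ d * (n * F.natDegree - 4) - 1 → P.totalDegree ≤ d → Q.totalDegree ≤ d →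
            (∀ z w : ℂ, aeval ![z, w] (homogeneousComponent d P) = 0 →
              aeval ![z, w] (homogeneousComponent d Q) = 0 → z = 0 ∧ w = 0) →
            (∀ e, |G.coeff e| ≤ H) → (∀ e, |P.coeff e| ≤ H) → (∀ e, |Q.coeff e| ≤ H) →
            ∀ x y : ℤ,
              ∑ i ∈ Finset.range (F.natDegree + 1),
                F.coeff i * ((b : ℤ) * (eval ![x, y] P) ^ n) ^ i *
                  ((a : ℤ) * (eval ![x, y] Q) ^ n) ^ (F.natDegree - i) = eval ![x, y] G →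
              max |x| |y| ≤ ((T : ℤ) * H) ^ C := by
  have hF : F ≠ 0 := by
    rintro rfl
    exact hF0 (by simp)
  have hkap : (4 : ℝ) < 4 + 1 / (2 * (d : ℝ)) := by
    have : (0 : ℝ) < d := by exact_mod_cast hd
    have h2 : (0 : ℝ) < 1 / (2 * (d : ℝ)) := by positivity
    linarith
  obtain ⟨CN, C0, cc, hcc, hset⟩ := set_t n hn (4 + 1 / (2 * (d : ℝ))) hkap F hF
  obtain ⟨C2, hcurve⟩ := curve_exc2 n d hn hd F hF0 hsq hnD CN
  obtain ⟨c, hc1, hsize⟩ := size_res d hd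
  obtain ⟨N, hN⟩ : ∃ N, N = d * (n * F.natDegree - 4) - 1 := ⟨_, rfl⟩
  refine ⟨C0 + C2 + 4 + c + (N + 1) ^ 2 + (c + (1 + (d + c * N)) * C2), cc, hcc, ?_⟩
  intro T hT b hb hbT
  obtain ⟨t1, t2, t3, t4, t6⟩ := fin_nat _ _ _ _ _ _ hT
  obtain ⟨E, hE, hEa⟩ := hset T t1 b hb hbT
  refine ⟨E, hE, ?_⟩
  intro a ha haT haE G P Q H hH hG hP hQ hcop hcG hcP hcQ x y heq
  rw [← hN] at hG
  obtain ⟨X, hX⟩ : ∃ X : ℤ, X = eval ![x, y] P := ⟨_, rfl⟩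
  obtain ⟨Y, hY⟩ : ∃ Y : ℤ, Y = eval ![x, y] Q := ⟨_, rfl⟩
  obtain ⟨M, hM⟩ : ∃ M : ℝ, M = max |(X : ℝ)| |(Y : ℝ)| := ⟨_, rfl⟩
  obtain ⟨U, hU⟩ : ∃ U : ℝ, U = (((N : ℝ) + 1) ^ 2 * H) ^ d * (((c : ℝ) * H) ^ c) ^ N := ⟨_, rfl⟩
  have hHR : (1 : ℝ) ≤ H := by exact_mod_cast hH
  have hcR : (1 : ℝ) ≤ c := by exact_mod_cast hc1
  have hcH : (1 : ℝ) ≤ (c : ℝ) * H := by nlinarith
  have hcHc : (1 : ℝ) ≤ ((c : ℝ) * H) ^ c := one_le_pow₀ hcH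
  have hN1 : (1 : ℝ) ≤ ((N : ℝ) + 1) ^ 2 := one_le_pow₀ (by linarith [Nat.cast_nonneg (α := ℝ) N])
  have hN2 : (1 : ℝ) ≤ ((N : ℝ) + 1) ^ 2 * H := by nlinarith
  have hU1 : 1 ≤ U := by
    rw [hU]
    have h1 : (1 : ℝ) ≤ (((N : ℝ) + 1) ^ 2 * H) ^ d := one_le_pow₀ hN2
    have h2 : (1 : ℝ) ≤ (((c : ℝ) * H) ^ c) ^ N := one_le_pow₀ hcHc
    nlinarith
  have hTR : (1 : ℝ) ≤ T := by exact_mod_cast t6
  have hTU : 1 ≤ (T : ℝ) * U := by nlinarith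
  have hlin := hsize P Q H hH hP hQ hcP hcQ hcop x y
  rw [← hX, ← hY, ← hM] at hlin
  obtain ⟨B, hB⟩ : ∃ B : ℝ, B = max 1 (max |(x : ℝ)| |(y : ℝ)|) := ⟨_, rfl⟩
  have hB1 : 1 ≤ B := by rw [hB]; exact le_max_left _ _
  have hBx : max |(x : ℝ)| |(y : ℝ)| ≤ B := by rw [hB]; exact le_max_right _ _
  have hmax1 : (1 : ℝ) ≤ max 1 M := le_max_left _ _
  have hBd : B ^ d ≤ ((c : ℝ) * H) ^ c * max 1 M := by
    rw [hB]
    rcases le_total 1 (max |(x : ℝ)| |(y : ℝ)|) with h | h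
    · rw [max_eq_right h]
      exact hlin
    · rw [max_eq_left h, one_pow]
      nlinarith
  rcases lt_or_ge M (((T : ℝ) * U) ^ C2) with hlt | hge
  · have h1 : max 1 M ≤ ((T : ℝ) * U) ^ C2 := max_le (one_le_pow₀ hTU) hlt.le
    have h2 : max |(x : ℝ)| |(y : ℝ)| ≤
        ((T : ℝ) * H) ^ (C0 + C2 + 4 + c + (N + 1) ^ 2 + (c + (1 + (d + c * N)) * C2)) := by
      calc max |(x : ℝ)| |(y : ℝ)| ≤ B := hBx
        _ ≤ B ^ d := le_self_pow₀ hB1 (by omega)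
        _ ≤ ((c : ℝ) * H) ^ c * max 1 M := hBd
        _ ≤ ((c : ℝ) * H) ^ c * ((T : ℝ) * U) ^ C2 := by
            exact mul_le_mul_of_nonneg_left h1 (by positivity)
        _ ≤ _ := by
            rw [hU]
            exact fin_size N d c C2 T H hH t6 t3 t4 _ (Nat.le_add_left _ _)
    exact_mod_cast h2
  · exfalso
    have hM1 : 1 ≤ M := le_trans (one_le_pow₀ hTU) hge
    rw [max_eq_right hM1] at hBd
    have hev := eval_size G N H hH hG hcG x y B hB1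
      ((le_max_left _ _).trans hBx) ((le_max_right _ _).trans hBx)
    have hval : |∑ i ∈ Finset.range (F.natDegree + 1),
        ((F.coeff i : ℤ) : ℝ) * ((b : ℝ) * (X : ℝ) ^ n) ^ i *
          ((a : ℝ) * (Y : ℝ) ^ n) ^ (F.natDegree - i)| ^ d ≤ U * M ^ N := by
      have h1 : ∑ i ∈ Finset.range (F.natDegree + 1),
        ((F.coeff i : ℤ) : ℝ) * ((b : ℝ) * (X : ℝ) ^ n) ^ i *
          ((a : ℝ) * (Y : ℝ) ^ n) ^ (F.natDegree - i) = ((eval ![x, y] G : ℤ) : ℝ) := by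
        rw [← heq, hX, hY]
        push_cast
        rfl
      rw [h1]
      have h2 : |((eval ![x, y] G : ℤ) : ℝ)| ^ d ≤ (((N : ℝ) + 1) ^ 2 * H * B ^ N) ^ d :=
        pow_le_pow_left₀ (abs_nonneg _) hev _
      have h3 : (((N : ℝ) + 1) ^ 2 * H * B ^ N) ^ d = (((N : ℝ) + 1) ^ 2 * H) ^ d * (B ^ d) ^ N := by
        rw [mul_pow (((N : ℝ) + 1) ^ 2 * H), ← pow_mul, ← pow_mul, mul_comm N d]
      have h4 : (B ^ d) ^ N ≤ (((c : ℝ) * H) ^ c * M) ^ N :=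
        pow_le_pow_left₀ (by positivity) hBd _
      calc |((eval ![x, y] G : ℤ) : ℝ)| ^ d ≤ (((N : ℝ) + 1) ^ 2 * H) ^ d * (B ^ d) ^ N := by
            rw [← h3]
            exact h2
        _ ≤ (((N : ℝ) + 1) ^ 2 * H) ^ d * (((c : ℝ) * H) ^ c * M) ^ N :=
            mul_le_mul_of_nonneg_left h4 (by positivity)
        _ = U * M ^ N := by
            rw [hU, mul_pow _ M]
            ring
    rw [hM] at hge hval
    rw [hN] at hval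
    obtain ⟨th, hth, hroot, hor⟩ := hcurve T t2 b a hb hbT ha haT U hU1 X Y hge hval
    exact hEa a ha haT haE th hth hroot hor

end H4AR
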