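import Mathlib

/-!
H4/AR/Rad: mean absolute value of a sum of k signs is at least sqrt(k/3); weighted version.

PROOF. rad: Let R(s) = sum_i (if s i then 1 else -1). Sum over s of R^2 = k 2^k and sum over s of R^4 =
(3k^2 - 2k) 2^k ≤ 3 k^2 2^k (induction on k with `Fin.consEquiv`/`Fin.cons`: averages satisfy E R_{k+1}^2 = E R_k^2 + 1,
E R_{k+1}^4 = E R_k^4 + 6 E R_k^2 + 1). For lam > 0 and real x: |x| ≥ lam ((3/2)(x/lam)^2 - (1/2)(x/lam)^4)
(t - (3t^2 - t^4)/2 = t (t-1)^2 (t+2)/2 ≥ 0 for t ≥ 0). Take lam = sqrt(3k) and average: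
E|R| ≥ (3/2) k/lam - (1/2) 3k^2/lam^3 = sqrt(k/3).
khin: step 1, symmetrisation: substituting v -> not v: 2 * sum_v |x0 + sum_i (if v i then w i else 0)| =
sum_v (|A + S_v/2| + |A - S_v/2|) ≥ sum_v |S_v| with A = x0 + (sum w)/2, S_v = sum_i (if v i then w i else -(w i)).
step 2: sum_v |S_v| ≥ (1/k) (sum_i |w i|) sum_v |R(v)|: flipping coordinates with w i < 0 (a bijection of the cube) we may
assume w i ≥ 0; sum_v |S_v| ≥ sum_v S_v sign(R(v)) = sum_i w_i sum_v (sign of v i) sign(R(v)), and by symmetry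
(permuting coordinates: `Equiv.sum_comp` with `Equiv.arrowCongr` or a swap) the inner sum does not depend on i, so it is
(1/k) sum_v R(v) sign(R(v)) = (1/k) sum_v |R(v)|. Together: sum ≥ (1/2)(1/k)(sum|w|) 2^k sqrt(k/3).
-/

namespace H4AR

/-- the sum of signs -/
private noncomputable def R4 {k : ℕ} (s : Fin k → Bool) : ℝ := ∑ i, (if s i then (1 : ℝ) else -1)

private lemma sum_succ_cube {k : ℕ} (f : (Fin (k + 1) → Bool) → ℝ) :
    ∑ s : Fin (k + 1) → Bool, f s =
      ∑ s : Fin k → Bool, (f (Fin.cons true s) + f (Fin.cons false s)) := by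
  rw [← (Fin.consEquiv (fun _ : Fin (k + 1) => Bool)).sum_comp, Fintype.sum_prod_type]
  rw [Fintype.sum_bool, ← Finset.sum_add_distrib]
  rfl

private lemma R4_cons_true {k : ℕ} (s : Fin k → Bool) :
    R4 (Fin.cons true s : Fin (k + 1) → Bool) = R4 s + 1 := by
  simp [R4, Fin.sum_univ_succ]; ring

private lemma R4_cons_false {k : ℕ} (s : Fin k → Bool) :
    R4 (Fin.cons false s : Fin (k + 1) → Bool) = R4 s - 1 := by
  simp [R4, Fin.sum_univ_succ]; ring

private lemma sum_one_cube (k : ℕ) : ∑ _s : Fin k → Bool, (1 : ℝ) = 2 ^ k := by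
  simp

private lemma mom2 (k : ℕ) : ∑ s : Fin k → Bool, R4 s ^ 2 = k * 2 ^ k := by
  induction k with
  | zero => simp [R4]
  | succ k ih =>
    rw [sum_succ_cube]
    have h : ∀ s : Fin k → Bool, (R4 (Fin.cons true s : Fin (k + 1) → Bool) ^ 2 +
        R4 (Fin.cons false s : Fin (k + 1) → Bool) ^ 2) = 2 * R4 s ^ 2 + 2 * 1 := by
      intro s
      rw [R4_cons_true, R4_cons_false]; ring
    rw [Finset.sum_congr rfl (fun s _ => h s), Finset.sum_add_distrib, ← Finset.mul_sum,
      ← Finset.mul_sum, ih, sum_one_cube]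
    push_cast
    ring

private lemma mom4 (k : ℕ) : ∑ s : Fin k → Bool, R4 s ^ 4 = (3 * (k : ℝ) ^ 2 - 2 * k) * 2 ^ k := by
  induction k with
  | zero => simp [R4]
  | succ k ih =>
    rw [sum_succ_cube]
    have h : ∀ s : Fin k → Bool, (R4 (Fin.cons true s : Fin (k + 1) → Bool) ^ 4 +
        R4 (Fin.cons false s : Fin (k + 1) → Bool) ^ 4) = 2 * R4 s ^ 4 + 12 * R4 s ^ 2 + 2 * 1 := by
      intro s
      rw [R4_cons_true, R4_cons_false]; ring
    rw [Finset.sum_congr rfl (fun s _ => h s), Finset.sum_add_distrib, Finset.sum_add_distrib,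
      ← Finset.mul_sum, ← Finset.mul_sum, ← Finset.mul_sum, ih, mom2, sum_one_cube]
    push_cast
    ring

private lemma abs_ge_poly (x l : ℝ) (hl : 0 < l) :
    (3 / 2) * x ^ 2 / l - (1 / 2) * x ^ 4 / l ^ 3 ≤ |x| := by
  set t : ℝ := |x| / l with ht
  have ht0 : 0 ≤ t := by positivity
  have hx : |x| = l * t := by rw [ht]; field_simp
  have hx2 : x ^ 2 = (l * t) ^ 2 := by rw [← hx, sq_abs]
  have hx4 : x ^ 4 = (l * t) ^ 4 := by
    calc x ^ 4 = (x ^ 2) ^ 2 := by ring
      _ = ((l * t) ^ 2) ^ 2 := by rw [hx2]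
      _ = _ := by ring
  rw [hx2, hx4, hx]
  have h1 : (3 / 2) * (l * t) ^ 2 / l - (1 / 2) * (l * t) ^ 4 / l ^ 3 =
      l * ((3 / 2) * t ^ 2 - (1 / 2) * t ^ 4) := by
    field_simp
  rw [h1]
  apply mul_le_mul_of_nonneg_left _ hl.le
  nlinarith [mul_nonneg ht0 (mul_nonneg (sq_nonneg (t - 1)) (by linarith : (0 : ℝ) ≤ t + 2))]

private lemma rad' (k : ℕ) : (2 : ℝ) ^ k * Real.sqrt (k / 3) ≤ ∑ s : Fin k → Bool, |R4 s| := by
  rcases Nat.eq_zero_or_pos k with hk | hk
  · subst hk
    simp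
  · have hk0 : (0 : ℝ) < k := by exact_mod_cast hk
    set l : ℝ := Real.sqrt (3 * k) with hl
    have hl0 : 0 < l := Real.sqrt_pos.mpr (by positivity)
    have hl2 : l ^ 2 = 3 * k := Real.sq_sqrt (by positivity)
    have h1 : ∑ s : Fin k → Bool, ((3 / 2) * R4 s ^ 2 / l - (1 / 2) * R4 s ^ 4 / l ^ 3) ≤
        ∑ s : Fin k → Bool, |R4 s| :=
      Finset.sum_le_sum (fun s _ => abs_ge_poly _ l hl0)
    have h2 : ∑ s : Fin k → Bool, ((3 / 2) * R4 s ^ 2 / l - (1 / 2) * R4 s ^ 4 / l ^ 3) =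
        (3 / 2) * (k * 2 ^ k) / l - (1 / 2) * ((3 * (k : ℝ) ^ 2 - 2 * k) * 2 ^ k) / l ^ 3 := by
      rw [Finset.sum_sub_distrib, ← Finset.sum_div, ← Finset.sum_div, ← Finset.mul_sum,
        ← Finset.mul_sum, mom2, mom4]
    rw [h2] at h1
    refine le_trans ?_ h1
    have hs : Real.sqrt (k / 3) = l / 3 := by
      rw [Real.sqrt_eq_iff_mul_self_eq (by positivity) (by positivity)]
      nlinarith
    rw [hs]
    have hk3 : (k : ℝ) = l ^ 2 / 3 := by rw [hl2]; ring
    have h3 : (3 / 2) * (k * 2 ^ k) / l - (1 / 2) * ((3 * (k : ℝ) ^ 2 - 2 * k) * 2 ^ k) / l ^ 3 =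
        2 ^ k * (l / 3) + 2 ^ k * k / l ^ 3 := by
      have e1 : (3 / 2 : ℝ) * (k * 2 ^ k) / l = 2 ^ k * ((3 / 2) * (k / l)) := by ring
      have e2 : (k : ℝ) / l = l / 3 := by
        rw [div_eq_div_iff hl0.ne' (by norm_num)]
        nlinarith
      have e3 : (1 / 2 : ℝ) * ((3 * (k : ℝ) ^ 2 - 2 * k) * 2 ^ k) / l ^ 3 =
          2 ^ k * ((3 / 2) * (k ^ 2 / l ^ 3)) - 2 ^ k * k / l ^ 3 := by ring
      have e4 : (k : ℝ) ^ 2 / l ^ 3 = l / 9 := by
        rw [div_eq_div_iff (by positivity) (by norm_num)]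
        have : (k : ℝ) ^ 2 * 9 = (3 * k) ^ 2 := by ring
        rw [this, ← hl2]; ring
      rw [e1, e2, e3, e4]; ring
    rw [h3]
    have : (0 : ℝ) ≤ 2 ^ k * k / l ^ 3 := by positivity
    linarith

theorem rad (k : ℕ) : (2 : ℝ) ^ k * Real.sqrt (k / 3) ≤
    ∑ s : Fin k → Bool, |∑ i, (if s i then (1 : ℝ) else -1)| := rad' k

/-- flipping a set of coordinates -/
private def flipE {k : ℕ} (p : Fin k → Bool) : (Fin k → Bool) ≃ (Fin k → Bool) where
  toFun v := fun i => if p i then !(v i) else v i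
  invFun v := fun i => if p i then !(v i) else v i
  left_inv v := by funext i; dsimp only; cases h : p i <;> simp
  right_inv v := by funext i; dsimp only; cases h : p i <;> simp

private lemma coef_eq {k : ℕ} (i j : Fin k) :
    ∑ v : Fin k → Bool, (if v i then (1 : ℝ) else -1) * SignType.sign (R4 v) =
    ∑ v : Fin k → Bool, (if v j then (1 : ℝ) else -1) * SignType.sign (R4 v) := by
  rw [← ((Equiv.swap i j).arrowCongr (Equiv.refl Bool)).sum_comp]
  apply Finset.sum_congr rfl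
  intro v _
  have h1 : R4 (((Equiv.swap i j).arrowCongr (Equiv.refl Bool)) v) = R4 v := by
    simp only [R4, Equiv.arrowCongr_apply, Function.comp, Equiv.coe_refl, id, Equiv.symm_swap]
    exact Equiv.sum_comp (Equiv.swap i j) (fun l => if v l then (1 : ℝ) else -1)
  rw [h1]
  simp [Equiv.arrowCongr_apply, Equiv.swap_apply_left]

private lemma coef_sum {k : ℕ} (i : Fin k) :
    (k : ℝ) * ∑ v : Fin k → Bool, (if v i then (1 : ℝ) else -1) * SignType.sign (R4 v) =
    ∑ v : Fin k → Bool, |R4 v| := by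
  have h1 : (k : ℝ) * ∑ v : Fin k → Bool, (if v i then (1 : ℝ) else -1) * SignType.sign (R4 v) =
      ∑ j : Fin k, ∑ v : Fin k → Bool, (if v j then (1 : ℝ) else -1) * SignType.sign (R4 v) := by
    rw [Finset.sum_congr rfl (fun j _ => coef_eq j i)]
    simp
  rw [h1, Finset.sum_comm]
  apply Finset.sum_congr rfl
  intro v _
  rw [← Finset.sum_mul]
  exact self_mul_sign (R4 v)

private lemma mul_sign_le_abs (x y : ℝ) : x * SignType.sign y ≤ |x| := by
  rcases lt_trichotomy y 0 with h | h | h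
  · rw [sign_neg h]; simp; exact neg_le_abs x
  · rw [h]; simp
  · rw [sign_pos h]; simp; exact le_abs_self x

theorem khin (k : ℕ) (hk : 1 ≤ k) (x0 : ℝ) (w : Fin k → ℝ) :
    (2 : ℝ) ^ k / 2 * (Real.sqrt (k / 3) / k) * ∑ i, |w i| ≤
      ∑ v : Fin k → Bool, |x0 + ∑ i, (if v i then w i else 0)| := by
  have hk0 : (0 : ℝ) < k := by exact_mod_cast hk
  set g : (Fin k → Bool) → ℝ := fun v => x0 + ∑ i, (if v i then w i else 0) with hg
  -- step 1
  have h1 : ∑ v : Fin k → Bool, |∑ i, (if v i then w i else -(w i))| ≤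
      2 * ∑ v : Fin k → Bool, |g v| := by
    have hflip : ∑ v : Fin k → Bool, |g (flipE (fun _ => true) v)| = ∑ v : Fin k → Bool, |g v| :=
      (flipE (fun _ => true)).sum_comp (fun v => |g v|)
    calc ∑ v : Fin k → Bool, |∑ i, (if v i then w i else -(w i))|
        ≤ ∑ v : Fin k → Bool, (|g v| + |g (flipE (fun _ => true) v)|) := by
          apply Finset.sum_le_sum
          intro v _
          have : ∑ i, (if v i then w i else -(w i)) = g v - g (flipE (fun _ => true) v) := by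
            simp only [hg, flipE, Equiv.coe_fn_mk]
            rw [add_sub_add_left_eq_sub, ← Finset.sum_sub_distrib]
            apply Finset.sum_congr rfl
            intro i _
            by_cases hv : v i = true
            · simp [hv]
            · simp [Bool.eq_false_iff.mpr hv]
          rw [this]
          exact abs_sub _ _
      _ = 2 * ∑ v : Fin k → Bool, |g v| := by
          rw [Finset.sum_add_distrib, hflip]; ring
  -- step 2: flipping
  have h2 : ∑ v : Fin k → Bool, |∑ i, (if v i then w i else -(w i))| =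
      ∑ v : Fin k → Bool, |∑ i, ((if v i then (1 : ℝ) else -1) * |w i|)| := by
    rw [← (flipE (fun i => decide (w i < 0))).sum_comp]
    apply Finset.sum_congr rfl
    intro v _
    congr 1
    apply Finset.sum_congr rfl
    intro i _
    simp only [flipE, Equiv.coe_fn_mk]
    by_cases hw : w i < 0
    · rw [abs_of_neg hw]
      by_cases hv : v i = true
      · simp [hw, hv]
      · simp [hw, Bool.eq_false_iff.mpr hv]
    · rw [abs_of_nonneg (not_lt.mp hw)]
      by_cases hv : v i = true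
      · simp [hw, hv]
      · simp [hw, Bool.eq_false_iff.mpr hv]
  have h3 : ∑ i, |w i| * ((∑ v : Fin k → Bool, |R4 v|) / k) ≤
      ∑ v : Fin k → Bool, |∑ i, ((if v i then (1 : ℝ) else -1) * |w i|)| := by
    calc ∑ i, |w i| * ((∑ v : Fin k → Bool, |R4 v|) / k)
        = ∑ i, |w i| * ∑ v : Fin k → Bool, (if v i then (1 : ℝ) else -1) * SignType.sign (R4 v) := by
          apply Finset.sum_congr rfl
          intro i _
          congr 1
          rw [← coef_sum i]
          field_simp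
      _ = ∑ v : Fin k → Bool, (∑ i, (if v i then (1 : ℝ) else -1) * |w i|) * SignType.sign (R4 v) := by
          simp only [Finset.mul_sum, Finset.sum_mul]
          rw [Finset.sum_comm]
          apply Finset.sum_congr rfl
          intro v _
          apply Finset.sum_congr rfl
          intro i _
          ring
      _ ≤ _ := Finset.sum_le_sum (fun v _ => mul_sign_le_abs _ _)
  have h4 : (2 : ℝ) ^ k * Real.sqrt (k / 3) / k * ∑ i, |w i| ≤
      ∑ i, |w i| * ((∑ v : Fin k → Bool, |R4 v|) / k) := by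
    rw [← Finset.sum_mul, mul_comm]
    apply mul_le_mul_of_nonneg_left _ (Finset.sum_nonneg (fun i _ => abs_nonneg _))
    exact div_le_div_of_nonneg_right (rad' k) hk0.le
  have h5 : (2 : ℝ) ^ k * Real.sqrt (k / 3) / k * ∑ i, |w i| ≤ 2 * ∑ v : Fin k → Bool, |g v| :=
    h4.trans (h3.trans (h2 ▸ h1))
  have h6 : (2 : ℝ) ^ k / 2 * (Real.sqrt (k / 3) / k) * ∑ i, |w i| =
      ((2 : ℝ) ^ k * Real.sqrt (k / 3) / k * ∑ i, |w i|) / 2 := by ring
  rw [h6]
  linarith

end H4AR
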