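import Pool.Agent.H4.AR.LogH
import Pool.Agent.H4.AR.Rad

/-!
H4/AR/HSum: if r(v) = r0 prod_{v_i = 1} u_i on {0,1}^k (positive rationals) then the sum over v of 2 log ht(r(v)) is at
least 2^k/2 * sqrt(k/3)/k * sum_i log ht(u_i).

PROOF. Let S be the set of all primes dividing some numerator or denominator of some r(v) or of some u_i. For p in S:
padicValRat p (r v) = padicValRat p r0 + sum_{v_i} padicValRat p (u i) (`padicValRat.mul`, `padicValRat` of products, all
factors nonzero; r0 = r (fun _ => false)). `khin` with x0 = padicValRat p r0, w i = padicValRat p (u i), multiplied by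
log p ≥ 0 and summed over p in S; exchange the sums; `sum_val_eq` for every r v and every u i; log_le_two_log_ht for r v,
log_ht_le for u i.
-/

namespace H4AR

private lemma val_prod (p : ℕ) [Fact p.Prime] {ι : Type} (s : Finset ι) (f : ι → ℚ)
    (h : ∀ i ∈ s, f i ≠ 0) : padicValRat p (∏ i ∈ s, f i) = ∑ i ∈ s, padicValRat p (f i) := by
  classical
  induction s using Finset.induction_on with
  | empty => simp
  | insert a s ha ih =>
    rw [Finset.prod_insert ha, Finset.sum_insert ha, padicValRat.mul (h a (Finset.mem_insert_self a s))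
      (Finset.prod_ne_zero_iff.2 (fun i hi => h i (Finset.mem_insert_of_mem hi))),
      ih (fun i hi => h i (Finset.mem_insert_of_mem hi))]

theorem hsum {k : ℕ} (hk : 1 ≤ k) (r : (Fin k → Bool) → ℚ) (r0 : ℚ) (u : Fin k → ℚ) (h0 : 0 < r0)
    (hu : ∀ i, 0 < u i) (hr : ∀ v, r v = r0 * ∏ i, (if v i then u i else 1)) :
    (2 : ℝ) ^ k / 2 * (Real.sqrt (k / 3) / k) * ∑ i, Real.log (ht (u i)) ≤
      ∑ v : Fin k → Bool, 2 * Real.log (ht (r v)) := by
  classical
  set S : Finset ℕ := (Finset.univ : Finset (Fin k → Bool)).biUnion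
      (fun v => (r v).num.natAbs.primeFactors ∪ (r v).den.primeFactors) ∪
    (Finset.univ : Finset (Fin k)).biUnion
      (fun i => (u i).num.natAbs.primeFactors ∪ (u i).den.primeFactors) with hSdef
  have hS : ∀ p ∈ S, p.Prime := by
    intro p hp
    rw [hSdef, Finset.mem_union, Finset.mem_biUnion, Finset.mem_biUnion] at hp
    rcases hp with ⟨v, _, hv⟩ | ⟨v, _, hv⟩
    · rcases Finset.mem_union.1 hv with h | h
      · exact Nat.prime_of_mem_primeFactors h
      · exact Nat.prime_of_mem_primeFactors h
    · rcases Finset.mem_union.1 hv with h | h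
      · exact Nat.prime_of_mem_primeFactors h
      · exact Nat.prime_of_mem_primeFactors h
  have hrS1 : ∀ v, (r v).num.natAbs.primeFactors ⊆ S := by
    intro v p hp
    rw [hSdef]
    exact Finset.mem_union_left _ (Finset.mem_biUnion.2 ⟨v, Finset.mem_univ v, Finset.mem_union_left _ hp⟩)
  have hrS2 : ∀ v, (r v).den.primeFactors ⊆ S := by
    intro v p hp
    rw [hSdef]
    exact Finset.mem_union_left _ (Finset.mem_biUnion.2 ⟨v, Finset.mem_univ v, Finset.mem_union_right _ hp⟩)
  have huS1 : ∀ v, (u v).num.natAbs.primeFactors ⊆ S := by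
    intro v p hp
    rw [hSdef]
    exact Finset.mem_union_right _ (Finset.mem_biUnion.2 ⟨v, Finset.mem_univ v, Finset.mem_union_left _ hp⟩)
  have huS2 : ∀ v, (u v).den.primeFactors ⊆ S := by
    intro v p hp
    rw [hSdef]
    exact Finset.mem_union_right _ (Finset.mem_biUnion.2 ⟨v, Finset.mem_univ v, Finset.mem_union_right _ hp⟩)
  have hrpos : ∀ v, 0 < r v := by
    intro v
    rw [hr v]
    apply mul_pos h0
    apply Finset.prod_pos
    intro i _
    split_ifs
    · exact hu i
    · exact one_pos
  have hval : ∀ p ∈ S, ∀ v, (padicValRat p (r v) : ℝ) =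
      (padicValRat p r0 : ℝ) + ∑ i, (if v i then (padicValRat p (u i) : ℝ) else 0) := by
    intro p hp v
    have : Fact p.Prime := ⟨hS p hp⟩
    have hne : ∀ i ∈ (Finset.univ : Finset (Fin k)), (if v i then u i else 1) ≠ 0 := by
      intro i _
      split_ifs
      · exact (hu i).ne'
      · exact one_ne_zero
    rw [hr v, padicValRat.mul h0.ne' (Finset.prod_ne_zero_iff.2 hne), val_prod p _ _ hne]
    push_cast
    congr 1
    apply Finset.sum_congr rfl
    intro i _
    split_ifs
    · rfl
    · simp
  have hC : (0 : ℝ) ≤ (2 : ℝ) ^ k / 2 * (Real.sqrt (k / 3) / k) := by positivity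
  have hlog : ∀ p ∈ S, 0 ≤ Real.log (p : ℝ) := fun p hp => Real.log_natCast_nonneg p
  calc (2 : ℝ) ^ k / 2 * (Real.sqrt (k / 3) / k) * ∑ i, Real.log (ht (u i))
      ≤ (2 : ℝ) ^ k / 2 * (Real.sqrt (k / 3) / k) *
        ∑ i, ∑ p ∈ S, |(padicValRat p (u i) : ℝ)| * Real.log p := by
        apply mul_le_mul_of_nonneg_left _ hC
        apply Finset.sum_le_sum
        intro i _
        rw [sum_val_eq (u i) (hu i) S hS (huS1 i) (huS2 i)]
        exact log_ht_le (u i) (hu i)
    _ = ∑ p ∈ S, ((2 : ℝ) ^ k / 2 * (Real.sqrt (k / 3) / k) *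
        ∑ i, |(padicValRat p (u i) : ℝ)|) * Real.log p := by
        rw [Finset.sum_comm, Finset.mul_sum]
        apply Finset.sum_congr rfl
        intro p _
        rw [← Finset.sum_mul]
        ring
    _ ≤ ∑ p ∈ S, (∑ v : Fin k → Bool, |(padicValRat p (r v) : ℝ)|) * Real.log p := by
        apply Finset.sum_le_sum
        intro p hp
        apply mul_le_mul_of_nonneg_right _ (hlog p hp)
        refine le_trans (khin k hk (padicValRat p r0 : ℝ) (fun i => (padicValRat p (u i) : ℝ))) ?_
        apply le_of_eq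
        apply Finset.sum_congr rfl
        intro v _
        rw [hval p hp v]
    _ = ∑ v : Fin k → Bool, ∑ p ∈ S, |(padicValRat p (r v) : ℝ)| * Real.log p := by
        rw [Finset.sum_comm]
        apply Finset.sum_congr rfl
        intro p _
        rw [Finset.sum_mul]
    _ ≤ ∑ v : Fin k → Bool, 2 * Real.log (ht (r v)) := by
        apply Finset.sum_le_sum
        intro v _
        rw [sum_val_eq (r v) (hrpos v) S hS (hrS1 v) (hrS2 v)]
        exact log_le_two_log_ht (r v) (hrpos v)

end H4AR
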