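import Pool.Agent.H4.AR.Leib

/-!
H4/AR/Interp: for s distinct exponents E_1..E_s there are multi-indices D_1..D_s of total degree at most s-1 with
det (mch (E_i) (D_mu)) ≠ 0.

PROOF. Let B(D) be the vector (mch (E_i) D)_i in Q^s. CLAIM: the vectors B(D), |D| ≤ s-1, span Q^s. For k let S_k be
the span of the functions x -> prod_j C(x_j, D_j) on (Fin m →₀ ℕ) with |D| ≤ k (functions to Q). S_0 contains 1, and for
f in S_k, a coordinate j and a constant c the function (x_j - c) f(x) is in S_(k+1), because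
x_j C(x_j, d) = (d+1) C(x_j, d+1) + d C(x_j, d) (`Nat.succ_mul_choose_eq`, `Nat.add_one_mul_choose_eq`). For fixed i
choose for every i' ≠ i a coordinate j(i') with E_i(j) ≠ E_i'(j); the function
x -> prod over i' ≠ i of (x_j(i') - E_i'(j(i'))) is in S_(s-1), vanishes at all E_i' and not at E_i. So every standard
basis vector is in the span of the B(D), |D| ≤ s-1.
A spanning family of Q^s contains s linearly independent members (`exists_linearIndependent`, or
`Module.Basis.ofSpan`-like lemmas, or: the matrix with rows B(D) over the finite set of D with |D| ≤ s-1 has rank s;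
choose a basis among the vectors), and s linearly independent vectors of Q^s have determinant ≠ 0
(`Matrix.linearIndependent_rows_iff_isUnit`, `LinearIndependent` of rows). For s = 0 the determinant is 1.
-/

namespace H4AR

/-- the vector of multi-binomials -/
private def Bv {m s : ℕ} (E : Fin s → (Fin m →₀ ℕ)) (D : Fin m →₀ ℕ) : Fin s → ℚ :=
  fun i => ((mch (E i) D : ℕ) : ℚ)

/-- span of the vectors of multi-binomials of degree at most `k` -/
private def Sk {m s : ℕ} (E : Fin s → (Fin m →₀ ℕ)) (k : ℕ) : Submodule ℚ (Fin s → ℚ) :=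
  Submodule.span ℚ (Bv E '' {D | ∑ j, D j ≤ k})

private theorem Sk_mono {m s : ℕ} (E : Fin s → (Fin m →₀ ℕ)) {k l : ℕ} (h : k ≤ l) : Sk E k ≤ Sk E l := by
  unfold Sk
  apply Submodule.span_mono
  apply Set.image_mono
  intro D hD
  exact le_trans hD h

private theorem one_mem {m s : ℕ} (E : Fin s → (Fin m →₀ ℕ)) : (fun _ => (1 : ℚ)) ∈ Sk E 0 := by
  apply Submodule.subset_span
  refine ⟨0, by simp, ?_⟩
  funext i
  simp [Bv, mch]

private theorem choose_id (n k : ℕ) :
    (n : ℚ) * (n.choose k : ℚ) = ((k : ℚ) + 1) * (n.choose (k + 1) : ℚ) + (k : ℚ) * (n.choose k : ℚ) := by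
  rcases le_or_gt k n with h | h
  · have h1 := Nat.choose_succ_right_eq n k
    have h2 : ((n.choose (k + 1) : ℕ) : ℚ) * ((k : ℚ) + 1) = (n.choose k : ℚ) * ((n : ℚ) - k) := by
      rw [← Nat.cast_sub h]
      exact_mod_cast h1
    linear_combination -h2
  · rw [Nat.choose_eq_zero_of_lt h, Nat.choose_eq_zero_of_lt (by omega)]
    simp

private theorem mch_id {m : ℕ} (e D : Fin m →₀ ℕ) (j : Fin m) :
    (e j : ℚ) * ((mch e D : ℕ) : ℚ)
      = ((D j : ℚ) + 1) * ((mch e (D + Finsupp.single j 1) : ℕ) : ℚ) + (D j : ℚ) * ((mch e D : ℕ) : ℚ) := by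
  unfold mch
  rw [Nat.cast_prod, Nat.cast_prod]
  rw [← Finset.mul_prod_erase Finset.univ (fun i => ((e i).choose (D i) : ℚ)) (Finset.mem_univ j),
    ← Finset.mul_prod_erase Finset.univ
      (fun i => ((e i).choose ((D + Finsupp.single j 1 : Fin m →₀ ℕ) i) : ℚ)) (Finset.mem_univ j)]
  have h1 : ∏ i ∈ Finset.univ.erase j, ((e i).choose ((D + Finsupp.single j 1 : Fin m →₀ ℕ) i) : ℚ)
      = ∏ i ∈ Finset.univ.erase j, ((e i).choose (D i) : ℚ) := by
    apply Finset.prod_congr rfl
    intro i hi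
    have hij : i ≠ j := Finset.ne_of_mem_erase hi
    simp [Finsupp.single_apply, hij.symm]
  rw [h1]
  have h2 := choose_id (e j) (D j)
  simp only [Finsupp.add_apply, Finsupp.single_eq_same]
  linear_combination (∏ i ∈ Finset.univ.erase j, ((e i).choose (D i) : ℚ)) * h2

private theorem mul_mem {m s : ℕ} (E : Fin s → (Fin m →₀ ℕ)) (k : ℕ) (j : Fin m) (c : ℚ)
    {f : Fin s → ℚ} (hf : f ∈ Sk E k) : (fun i => ((E i j : ℚ) - c) * f i) ∈ Sk E (k + 1) := by
  unfold Sk at hf
  induction hf using Submodule.span_induction with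
  | mem x hx =>
    obtain ⟨D, hD, rfl⟩ := hx
    have h1 : Bv E D ∈ Sk E (k + 1) :=
      Submodule.subset_span ⟨D, le_trans hD (Nat.le_succ k), rfl⟩
    have h2 : Bv E (D + Finsupp.single j 1) ∈ Sk E (k + 1) := by
      apply Submodule.subset_span
      refine ⟨_, ?_, rfl⟩
      have hD' : ∑ j, D j ≤ k := hD
      have h3 : ∑ i, (D + Finsupp.single j 1 : Fin m →₀ ℕ) i = ∑ i, D i + 1 := by
        simp [Finset.sum_add_distrib, Finsupp.single_apply]
      show ∑ i, (D + Finsupp.single j 1 : Fin m →₀ ℕ) i ≤ k + 1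
      omega
    have h3 : (fun i => ((E i j : ℚ) - c) * Bv E D i)
        = ((D j : ℚ) + 1) • Bv E (D + Finsupp.single j 1) + ((D j : ℚ) - c) • Bv E D := by
      funext i
      have := mch_id (E i) D j
      simp only [Pi.add_apply, Pi.smul_apply, smul_eq_mul, Bv]
      linear_combination this
    rw [h3]
    exact Submodule.add_mem _ (Submodule.smul_mem _ _ h2) (Submodule.smul_mem _ _ h1)
  | zero =>
    have h3 : (fun i => ((E i j : ℚ) - c) * (0 : Fin s → ℚ) i) = 0 := by
      funext i; simp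
    rw [h3]; exact Submodule.zero_mem _
  | add x y _ _ hx hy =>
    have h3 : (fun i => ((E i j : ℚ) - c) * (x + y) i)
        = (fun i => ((E i j : ℚ) - c) * x i) + (fun i => ((E i j : ℚ) - c) * y i) := by
      funext i; simp only [Pi.add_apply]; ring
    rw [h3]; exact Submodule.add_mem _ hx hy
  | smul a x _ hx =>
    have h3 : (fun i => ((E i j : ℚ) - c) * (a • x) i) = a • (fun i => ((E i j : ℚ) - c) * x i) := by
      funext i; simp only [Pi.smul_apply, smul_eq_mul]; ring
    rw [h3]; exact Submodule.smul_mem _ _ hx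

private theorem prod_mem {m s : ℕ} (E : Fin s → (Fin m →₀ ℕ)) (J : Fin s → Fin m) (c : Fin s → ℚ)
    (T : Finset (Fin s)) : (fun i => ∏ t ∈ T, ((E i (J t) : ℚ) - c t)) ∈ Sk E T.card := by
  classical
  induction T using Finset.induction_on with
  | empty => simpa using one_mem E
  | insert a T ha ih =>
    rw [Finset.card_insert_of_notMem ha]
    have := mul_mem E T.card (J a) (c a) ih
    simpa [Finset.prod_insert ha] using this

private theorem single_mem {m s : ℕ} (E : Fin s → (Fin m →₀ ℕ)) (hE : Function.Injective E) (i : Fin s) :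
    (Pi.single i 1 : Fin s → ℚ) ∈ Sk E (s - 1) := by
  classical
  by_cases hm : ∃ i', i' ≠ i
  · obtain ⟨i0, hi0⟩ := hm
    have hex : ∀ i' : Fin s, ∃ j : Fin m, i' ≠ i → E i j ≠ E i' j := by
      intro i'
      by_cases h : i' = i
      · have h0 : E i ≠ E i0 := fun h => hi0 (hE h).symm
        obtain ⟨j, _⟩ := Finsupp.ne_iff.mp h0
        exact ⟨j, fun h' => absurd h h'⟩
      · have h0 : E i ≠ E i' := fun h' => h (hE h').symm
        obtain ⟨j, hj⟩ := Finsupp.ne_iff.mp h0
        exact ⟨j, fun _ => hj⟩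
    choose J hJ using hex
    have h1 := prod_mem E J (fun t => (E t (J t) : ℚ)) (Finset.univ.erase i)
    rw [Finset.card_erase_of_mem (Finset.mem_univ i), Finset.card_univ, Fintype.card_fin] at h1
    set q : ℚ := ∏ t ∈ Finset.univ.erase i, ((E i (J t) : ℚ) - (E t (J t) : ℚ)) with hq
    have hq0 : q ≠ 0 := by
      rw [hq, Finset.prod_ne_zero_iff]
      intro t ht
      have := hJ t (Finset.ne_of_mem_erase ht)
      rw [sub_ne_zero]
      exact_mod_cast this
    have h2 : (Pi.single i 1 : Fin s → ℚ)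
        = q⁻¹ • (fun i' => ∏ t ∈ Finset.univ.erase i, ((E i' (J t) : ℚ) - (E t (J t) : ℚ))) := by
      funext i'
      by_cases h : i' = i
      · subst h
        simp only [Pi.single_eq_same, Pi.smul_apply, smul_eq_mul]
        rw [← hq, inv_mul_cancel₀ hq0]
      · rw [Pi.single_eq_of_ne h]
        simp only [Pi.smul_apply, smul_eq_mul]
        rw [Finset.prod_eq_zero (Finset.mem_erase.mpr ⟨h, Finset.mem_univ i'⟩) (sub_self _), mul_zero]
    rw [h2]
    exact Submodule.smul_mem _ _ h1
  · push Not at hm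
    have h1 : (Pi.single i 1 : Fin s → ℚ) = fun _ => 1 := by
      funext i'
      rw [hm i', Pi.single_eq_same]
    rw [h1]
    exact Sk_mono E (Nat.zero_le _) (one_mem E)

private theorem Sk_top {m s : ℕ} (E : Fin s → (Fin m →₀ ℕ)) (hE : Function.Injective E) :
    Sk E (s - 1) = ⊤ := by
  classical
  rw [eq_top_iff]
  intro f _
  have h1 : f = ∑ i, f i • (Pi.single i 1 : Fin s → ℚ) := by
    funext x
    simp [Finset.sum_apply, Pi.single_apply]
  rw [h1]
  exact Submodule.sum_mem _ (fun i _ => Submodule.smul_mem _ _ (single_mem E hE i))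

theorem exists_binom_det {m s : ℕ} (E : Fin s → (Fin m →₀ ℕ)) (hE : Function.Injective E) :
    ∃ D : Fin s → (Fin m →₀ ℕ), (∀ mu, ∑ j, D mu j ≤ s - 1) ∧
      (Matrix.of fun mu i : Fin s => ((mch (E i) (D mu) : ℕ) : ℚ)).det ≠ 0 := by
  classical
  obtain ⟨b, hb1, hb2, hb3⟩ := exists_linearIndependent ℚ (Bv E '' {D | ∑ j, D j ≤ s - 1})
  have htop : Submodule.span ℚ b = ⊤ := by
    rw [hb2]; exact Sk_top E hE
  have hspan : ⊤ ≤ Submodule.span ℚ (Set.range (Subtype.val : b → (Fin s → ℚ))) := by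
    rw [Subtype.range_coe, htop]
  let Bs := Module.Basis.mk hb3 hspan
  have : Fintype b := (hb3.setFinite).fintype
  have hcard : Fintype.card b = s := by
    have h1 := Module.finrank_eq_card_basis Bs
    rw [← h1]; simp
  let e : Fin s ≃ b := (Fintype.equivFinOfCardEq hcard).symm
  have hch : ∀ mu : Fin s, ∃ D : Fin m →₀ ℕ, ∑ j, D j ≤ s - 1 ∧ Bv E D = (e mu : Fin s → ℚ) := by
    intro mu
    obtain ⟨D, hD, hDe⟩ := hb1 (e mu).2
    exact ⟨D, hD, hDe⟩
  choose D hD1 hD2 using hch
  refine ⟨D, hD1, ?_⟩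
  have hli : LinearIndependent ℚ (Matrix.of fun mu i : Fin s => ((mch (E i) (D mu) : ℕ) : ℚ)).row := by
    have h1 : LinearIndependent ℚ (fun mu : Fin s => (e mu : Fin s → ℚ)) := hb3.comp e e.injective
    have h2 : (Matrix.of fun mu i : Fin s => ((mch (E i) (D mu) : ℕ) : ℚ)).row
        = fun mu : Fin s => (e mu : Fin s → ℚ) := by
      funext mu
      rw [← hD2 mu]
      rfl
    rw [h2]; exact h1
  have hu := (Matrix.linearIndependent_rows_iff_isUnit).mp hli
  have := (Matrix.isUnit_iff_isUnit_det _).mp hu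
  exact this.ne_zero

end H4AR
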