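import Pool.Agent.H4.AR.Def

/-!
H4/AR/Lead: linearly independent polynomials have linear combinations with distinct leading exponents.

`MonomialOrder.lex : MonomialOrder (Fin m)`; `MonomialOrder.lex.degree f` is the leading exponent of f,
`MonomialOrder.lex.toSyn` the linear order on exponents.

PROOF. Prove for finite-dimensional subspaces V of Q[X_1..X_m] with finrank V = s: there are f_1..f_s in V, nonzero,
with distinct leading exponents. Induction on s. Let V ≠ 0 and let E be the largest leading exponent of a nonzero
element of V (the leading exponents lie in the finite union of the supports of a basis of V), f in V with leading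
exponent E. V' = kernel of the linear functional coeff_E on V has finrank s-1 (the functional is nonzero on V), and all
its nonzero elements have leading exponents ≤ E and ≠ E (their coefficient at E is 0), so by induction V' has s-1
elements with distinct leading exponents, all different from E; add f.
Apply this to V = span of the g_i (finrank s, `finrank_span_eq_card`) and write the f_i as linear combinations of the
g_j (`Submodule.mem_span_range_iff_exists_fun`): this gives the matrix P.
(Remark: any nonzero element f of V will do; no maximality is needed.)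
-/

namespace H4AR

open MvPolynomial

private theorem lead_aux {m : ℕ} : ∀ (s : ℕ) (g : Fin s → MvPolynomial (Fin m) ℚ), LinearIndependent ℚ g →
    ∃ f : Fin s → MvPolynomial (Fin m) ℚ, (∀ i, f i ∈ Submodule.span ℚ (Set.range g)) ∧ (∀ i, f i ≠ 0) ∧
      Function.Injective (fun i => MonomialOrder.lex.degree (f i)) := by
  intro s
  induction s with
  | zero =>
    intro g _
    exact ⟨g, fun i => i.elim0, fun i => i.elim0, fun i => i.elim0⟩
  | succ s ih =>
    intro g hg
    have h0 : g 0 ≠ 0 := hg.ne_zero 0
    set E := MonomialOrder.lex.degree (g 0) with hE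
    have hc : (g 0).coeff E ≠ 0 := by
      have := MonomialOrder.leadingCoeff_ne_zero_iff (m := MonomialOrder.lex).mpr h0
      exact this
    set c : Fin s → ℚ := fun i => (g i.succ).coeff E / (g 0).coeff E with hcdef
    set g' : Fin s → MvPolynomial (Fin m) ℚ := fun i => g i.succ - c i • g 0 with hg'
    have hg'E : ∀ i, (g' i).coeff E = 0 := by
      intro i
      simp only [hg', hcdef, coeff_sub, coeff_smul, smul_eq_mul]
      field_simp
      ring
    have hli : LinearIndependent ℚ g' := by
      rw [Fintype.linearIndependent_iff]
      intro a ha
      rw [Fintype.linearIndependent_iff] at hg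
      have h1 := hg (Fin.cons (-(∑ i, a i * c i)) a) (by
        rw [Fin.sum_univ_succ]
        simp only [Fin.cons_zero, Fin.cons_succ]
        have h2 : ∑ i, a i • g' i = ∑ i, a i • g i.succ - (∑ i, a i * c i) • g 0 := by
          simp only [hg', smul_sub, Finset.sum_sub_distrib, Finset.sum_smul, mul_smul]
        rw [h2] at ha
        rw [neg_smul, ← ha]
        abel)
      intro i
      have := h1 i.succ
      simpa using this
    obtain ⟨f, hf1, hf2, hf3⟩ := ih g' hli
    have hspan : ∀ i, g' i ∈ Submodule.span ℚ (Set.range g) := fun i =>
      Submodule.sub_mem _ (Submodule.subset_span ⟨_, rfl⟩)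
        (Submodule.smul_mem _ _ (Submodule.subset_span ⟨_, rfl⟩))
    have hle : Submodule.span ℚ (Set.range g') ≤ Submodule.span ℚ (Set.range g) := by
      rw [Submodule.span_le]
      rintro _ ⟨i, rfl⟩
      exact hspan i
    have hfE : ∀ i, (f i).coeff E = 0 := by
      intro i
      have h1 : Submodule.span ℚ (Set.range g') ≤ LinearMap.ker (MvPolynomial.lcoeff ℚ E) := by
        rw [Submodule.span_le]
        rintro _ ⟨i, rfl⟩
        rw [SetLike.mem_coe, LinearMap.mem_ker]
        exact hg'E i
      have h2 := h1 (hf1 i)
      rw [LinearMap.mem_ker] at h2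
      exact h2
    have hne : ∀ i, MonomialOrder.lex.degree (f i) ≠ E := by
      intro i h
      have h1 := MonomialOrder.leadingCoeff_ne_zero_iff (m := MonomialOrder.lex).mpr (hf2 i)
      apply h1
      unfold MonomialOrder.leadingCoeff
      rw [h]
      exact hfE i
    refine ⟨Fin.cons (g 0) f, ?_, ?_, ?_⟩
    · intro i
      refine Fin.cases ?_ (fun j => ?_) i
      · simpa using Submodule.subset_span (Set.mem_range_self (0 : Fin (s + 1)))
      · simpa using hle (hf1 j)
    · intro i
      refine Fin.cases ?_ (fun j => ?_) i
      · simpa using h0
      · simpa using hf2 j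
    · intro i j hij
      revert hij
      refine Fin.cases ?_ (fun i' => ?_) i <;> refine Fin.cases ?_ (fun j' => ?_) j
      · intro _; rfl
      · intro hij
        simp only [Fin.cons_zero, Fin.cons_succ] at hij
        exact absurd hij.symm (hne j')
      · intro hij
        simp only [Fin.cons_zero, Fin.cons_succ] at hij
        exact absurd hij (hne i')
      · intro hij
        simp only [Fin.cons_succ] at hij
        exact congrArg Fin.succ (hf3 hij)

theorem exists_lead {m s : ℕ} (g : Fin s → MvPolynomial (Fin m) ℚ) (hg : LinearIndependent ℚ g) :
    ∃ P : Matrix (Fin s) (Fin s) ℚ,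
      (∀ i, ∑ j, P i j • g j ≠ 0) ∧
      Function.Injective (fun i => MonomialOrder.lex.degree (∑ j, P i j • g j)) := by
  obtain ⟨f, hf1, hf2, hf3⟩ := lead_aux s g hg
  have h1 : ∀ i, ∃ c : Fin s → ℚ, ∑ j, c j • g j = f i := fun i =>
    (Submodule.mem_span_range_iff_exists_fun ℚ).mp (hf1 i)
  choose P hP using h1
  refine ⟨P, ?_, ?_⟩
  · intro i
    rw [hP i]; exact hf2 i
  · intro i j hij
    simp only [hP] at hij
    exact hf3 hij

end H4AR
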