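import Pool.Agent.H4.AR.Leib

/-!
H4/AR/LeadDet: generalised Wronskians of polynomials with given leading exponents.

PROOF. Let E_i = lex.degree (g_i), g_i ≠ 0. Put t(D,g) = X^D * hs D g = sum_e mch(e,D) coeff_e(g) X^e (if mch(e,D) ≠ 0
then D ≤ e and X^D X^(e-D) = X^e). Multiplying row mu of the matrix (hs (D_mu) (g_i)) by X^(D_mu) gives the matrix
(t(D_mu, g_i)), whose determinant is X^(sum D_mu) times the original determinant (`Matrix.det_mul_column` or
`Matrix.det_mul_row`). So it is enough that det (t(D_mu,g_i)) ≠ 0. Its coefficient at X^(sum_i E_i): by the Leibniz formula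
it is the sum over the permutations of sign * coefficient at sum_i E_i of prod_i t(D_(pi(i)), g_i); every
exponent of t(D,g_i) is ≤ E_i in the lexicographic order, so this coefficient is the product of the coefficients at
E_i (`MonomialOrder.coeff_mul_of_add_of_degree_le`, or `coeff_prod_of_sum_of_degree_le` if present; otherwise
induction over the Finset), i.e. prod_i mch(E_i, D_(pi(i))) * leading coefficient of g_i. Sum:
det(mch (E_i) (D_mu)) * prod of the leading coefficients ≠ 0.
-/

namespace H4AR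

open MvPolynomial

private theorem prod_le {m : ℕ} {ι : Type} (s : Finset ι) (f : ι → MvPolynomial (Fin m) ℚ)
    (E : ι → (Fin m →₀ ℕ))
    (h : ∀ i ∈ s, MonomialOrder.lex.toSyn (MonomialOrder.lex.degree (f i)) ≤
      MonomialOrder.lex.toSyn (E i)) :
    MonomialOrder.lex.toSyn (MonomialOrder.lex.degree (∏ i ∈ s, f i)) ≤
      MonomialOrder.lex.toSyn (∑ i ∈ s, E i) ∧
    (∏ i ∈ s, f i).coeff (∑ i ∈ s, E i) = ∏ i ∈ s, (f i).coeff (E i) := by
  classical
  induction s using Finset.induction_on with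
  | empty =>
    rw [Finset.prod_empty, Finset.sum_empty, Finset.prod_empty, MonomialOrder.degree_one]
    exact ⟨le_rfl, by simp⟩
  | insert a s ha ih =>
    rw [Finset.prod_insert ha, Finset.sum_insert ha, Finset.prod_insert ha]
    obtain ⟨h1, h2⟩ := ih fun i hi => h i (Finset.mem_insert_of_mem hi)
    have h3 := h a (Finset.mem_insert_self a s)
    refine ⟨?_, ?_⟩
    · refine (MonomialOrder.degree_mul_le (m := MonomialOrder.lex)).trans ?_
      rw [map_add, map_add]
      exact add_le_add h3 h1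
    · rw [MonomialOrder.coeff_mul_of_add_of_degree_le h3 h1, h2]

/-- `X^D` times the Hasse derivative -/
private noncomputable def tt {m : ℕ} (D : Fin m →₀ ℕ) (g : MvPolynomial (Fin m) ℚ) :
    MvPolynomial (Fin m) ℚ := monomial D 1 * hs D g

private theorem coeff_tt {m : ℕ} (D : Fin m →₀ ℕ) (g : MvPolynomial (Fin m) ℚ) (e : Fin m →₀ ℕ) :
    (tt D g).coeff e = (mch e D : ℚ) * g.coeff e := by
  unfold tt
  rw [coeff_monomial_mul']
  split_ifs with h
  · rw [one_mul, coeff_hs, tsub_add_cancel_of_le h]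
  · rw [mch_eq_zero h, Nat.cast_zero, zero_mul]

theorem det_ne_zero_of_lead {m s : ℕ} (g : Fin s → MvPolynomial (Fin m) ℚ) (hg : ∀ i, g i ≠ 0)
    (D : Fin s → (Fin m →₀ ℕ))
    (hdet : (Matrix.of fun mu i : Fin s =>
      ((mch (MonomialOrder.lex.degree (g i)) (D mu) : ℕ) : ℚ)).det ≠ 0) :
    (Matrix.of fun mu i : Fin s => hs (D mu) (g i)).det ≠ 0 := by
  intro h0
  have h1 : (Matrix.of fun mu i : Fin s => tt (D mu) (g i)).det = 0 := by
    have h2 := Matrix.det_mul_column (fun mu : Fin s => (monomial (D mu) (1 : ℚ)))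
      (Matrix.of fun mu i : Fin s => hs (D mu) (g i))
    rw [h0, mul_zero] at h2
    exact h2
  obtain ⟨E, hE⟩ : ∃ E : Fin s → (Fin m →₀ ℕ), E = fun i => MonomialOrder.lex.degree (g i) :=
    ⟨_, rfl⟩
  have hle : ∀ (D' : Fin m →₀ ℕ) (i : Fin s),
      MonomialOrder.lex.toSyn (MonomialOrder.lex.degree (tt D' (g i))) ≤
      MonomialOrder.lex.toSyn (E i) := by
    intro D' i
    rw [MonomialOrder.degree_le_iff]
    intro c hc
    rw [mem_support_iff, coeff_tt] at hc
    rw [hE]
    exact MonomialOrder.le_degree (mem_support_iff.2 (right_ne_zero_of_mul hc))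
  have h3 := congrArg (fun p => p.coeff (∑ i, E i)) h1
  simp only [coeff_zero] at h3
  rw [Matrix.det_apply', coeff_sum] at h3
  have h4 : ∀ σ : Equiv.Perm (Fin s),
      ((((Equiv.Perm.sign σ : ℤ)) : MvPolynomial (Fin m) ℚ) *
        ∏ i, (Matrix.of fun mu i : Fin s => tt (D mu) (g i)) (σ i) i).coeff (∑ i, E i) =
      (∏ i, (g i).coeff (E i)) * (((Equiv.Perm.sign σ : ℤ) : ℚ) *
        ∏ i, (Matrix.of fun mu i : Fin s =>
          ((mch (MonomialOrder.lex.degree (g i)) (D mu) : ℕ) : ℚ)) (σ i) i) := by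
    intro σ
    have h5 : (((Equiv.Perm.sign σ : ℤ)) : MvPolynomial (Fin m) ℚ) =
        C (((Equiv.Perm.sign σ : ℤ)) : ℚ) := by
      rw [map_intCast]
    rw [h5, coeff_C_mul]
    simp only [Matrix.of_apply]
    rw [(prod_le Finset.univ (fun i => tt (D (σ i)) (g i)) E fun i _ => hle _ i).2]
    simp only [coeff_tt]
    rw [Finset.prod_mul_distrib, hE]
    ring
  rw [Finset.sum_congr rfl fun σ _ => h4 σ, ← Finset.mul_sum, ← Matrix.det_apply'] at h3
  refine mul_ne_zero ?_ hdet h3
  refine Finset.prod_ne_zero_iff.2 fun i _ => ?_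
  rw [hE]
  exact MonomialOrder.coeff_degree_ne_zero_iff.2 (hg i)

end H4AR
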