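import Pool.Agent.H4.AR.Hs

/-!
H4/AR/Leib: Leibniz rule for Hasse derivatives, composition of Hasse derivatives.

PROOFS. mch_add (multivariate Vandermonde): `mch (u+v) i = prod_j C(u_j+v_j, i_j)
= prod_j sum_{a+b=i_j} C(u_j,a) C(v_j,b)` (`Nat.add_choose_eq`); expand the product of sums
(`Finset.prod_univ_sum`, `Fintype.piFinset`) and identify the choice functions with the antidiagonal of the
finsupp `i` (for `Fin m →₀ ℕ`: use `Finsupp.equivFunOnFinite`; `Finset.mem_antidiagonal`), for instance with
`Finset.sum_bij'`. Alternative: both sides are the coefficient at X^i of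
(1+X_1)^(u_1+v_1)...(1+X_m)^(u_m+v_m) = product of the two polynomials prod (1+X_j)^(u_j) and prod (1+X_j)^(v_j)
(`MvPolynomial.coeff_mul`).
hs_mul: by bilinearity (`MvPolynomial.induction_on'` or sums of monomials, hs_add) it is enough to treat
f = monomial u a, g = monomial v b: hs i = monomial (u+v-i) (mch (u+v) i * (a*b)), and on the right side only
terms with p.1 ≤ u, p.2 ≤ v are nonzero, for which (u - p.1) + (v - p.2) = u + v - i. Or compare coefficients.
hs_hs: compare coefficients at u: mch(u+e) e * mch(u+e+i) i = mch(e+i) i * mch(u+(e+i)) (e+i), from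
`Nat.choose_mul` in every coordinate.
-/

namespace H4AR

open MvPolynomial

variable {m : ℕ} {R : Type} [CommRing R]

theorem mch_add (u v i : Fin m →₀ ℕ) :
    mch (u + v) i = ∑ p ∈ Finset.HasAntidiagonal.antidiagonal i, mch u p.1 * mch v p.2 := by
  classical
  unfold mch
  have h1 : ∏ j, ((u + v) j).choose (i j) =
      ∏ j, ∑ q ∈ Finset.HasAntidiagonal.antidiagonal (i j),
        (u j).choose q.1 * (v j).choose q.2 := by
    refine Finset.prod_congr rfl fun j _ => ?_
    rw [Finsupp.add_apply, Nat.add_choose_eq]
  rw [h1, Finset.prod_univ_sum]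
  refine Finset.sum_bij'
    (fun p _ => ((Finsupp.equivFunOnFinite.symm fun j => (p j).1,
      Finsupp.equivFunOnFinite.symm fun j => (p j).2) : (Fin m →₀ ℕ) × (Fin m →₀ ℕ)))
    (fun q _ => fun j => (q.1 j, q.2 j)) ?_ ?_ ?_ ?_ ?_
  · intro p hp
    rw [Fintype.mem_piFinset] at hp
    rw [Finset.HasAntidiagonal.mem_antidiagonal]
    ext j
    have := hp j
    rw [Finset.HasAntidiagonal.mem_antidiagonal] at this
    simpa using this
  · intro q hq
    rw [Finset.HasAntidiagonal.mem_antidiagonal] at hq
    rw [Fintype.mem_piFinset]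
    intro j
    rw [Finset.HasAntidiagonal.mem_antidiagonal, ← hq]
    rfl
  · intro p _
    funext j
    simp
  · intro q _
    refine Prod.ext ?_ ?_
    · ext j
      simp
    · ext j
      simp
  · intro p _
    rw [← Finset.prod_mul_distrib]
    refine Finset.prod_congr rfl fun j _ => ?_
    simp

private theorem leib_mono (i u : Fin m →₀ ℕ) (a : R) :
    hs i (monomial u a) = monomial (u - i) ((mch u i : R) * a) := by
  classical
  unfold hs
  by_cases ha : a = 0
  · subst ha
    simp
  · rw [MvPolynomial.support_monomial, if_neg ha, Finset.sum_singleton,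
      MvPolynomial.coeff_monomial, if_pos rfl]

theorem hs_mul (i : Fin m →₀ ℕ) (f g : MvPolynomial (Fin m) R) :
    hs i (f * g) = ∑ p ∈ Finset.HasAntidiagonal.antidiagonal i, hs p.1 f * hs p.2 g := by
  classical
  induction f using MvPolynomial.induction_on' with
  | add f f' hf hf' =>
    rw [add_mul, hs_add, hf, hf', ← Finset.sum_add_distrib]
    refine Finset.sum_congr rfl fun p _ => ?_
    rw [hs_add, add_mul]
  | monomial u a =>
    induction g using MvPolynomial.induction_on' with
    | add g g' hg hg' =>
      rw [mul_add, hs_add, hg, hg', ← Finset.sum_add_distrib]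
      refine Finset.sum_congr rfl fun p _ => ?_
      rw [hs_add, mul_add]
    | monomial v b =>
      rw [MvPolynomial.monomial_mul, leib_mono, mch_add, Nat.cast_sum, Finset.sum_mul,
        map_sum]
      refine Finset.sum_congr rfl fun p hp => ?_
      rw [Finset.HasAntidiagonal.mem_antidiagonal] at hp
      rw [leib_mono, leib_mono, MvPolynomial.monomial_mul]
      by_cases h1 : p.1 ≤ u
      · by_cases h2 : p.2 ≤ v
        · have h3 : u + v - i = u - p.1 + (v - p.2) := by
            rw [← hp]
            ext j
            have e1 := h1 j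
            have e2 := h2 j
            simp only [Finsupp.coe_add, Finsupp.coe_tsub, Pi.add_apply, Pi.sub_apply]
            omega
          rw [h3]
          congr 1
          push_cast
          ring
        · rw [mch_eq_zero h2]
          simp
      · rw [mch_eq_zero h1]
        simp

private theorem leib_mch (u e i : Fin m →₀ ℕ) :
    mch (u + e) e * mch (u + e + i) i = mch (e + i) i * mch (u + (e + i)) (e + i) := by
  unfold mch
  rw [← Finset.prod_mul_distrib, ← Finset.prod_mul_distrib]
  refine Finset.prod_congr rfl fun j _ => ?_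
  simp only [Finsupp.coe_add, Pi.add_apply]
  have h := Nat.choose_mul (n := u j + (e j + i j)) (k := e j + i j) (s := i j)
    (by omega)
  have h1 : u j + (e j + i j) - i j = u j + e j := by omega
  have h2 : e j + i j - i j = e j := by omega
  rw [h1, h2] at h
  rw [add_assoc, mul_comm, ← h, mul_comm]

theorem hs_hs (e i : Fin m →₀ ℕ) (f : MvPolynomial (Fin m) R) :
    hs e (hs i f) = C ((mch (e + i) i : ℕ) : R) * hs (e + i) f := by
  ext u
  rw [coeff_hs, coeff_hs, MvPolynomial.coeff_C_mul, coeff_hs, ← mul_assoc, ← mul_assoc,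
    ← Nat.cast_mul, ← Nat.cast_mul, leib_mch, add_assoc]

end H4AR
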