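import Pool.Agent.H4.AR.Def

/-!
H4/AR/Liou: Liouville inequality for the quotient u = r'/r of two exceptional approximations with a'/a = q/p, p ≠ q
primes.

PROOF. y = th a, y' = th a', both in [1/T, T^2]; x = b r^n, x' = b r'^n; e0 = exp(-(kap h)) ≤ 1/(2T); so x ≥ 1/(2T).
u^n = x'/x and q/p = a'/a = y'/y (from a q = a' p). |x'/x - y'/y| = |x' y - x y'|/(x y) ≤ (|x'-y'| y + y' |y - x|)/(x y)
≤ e0 * 2T^2 * (2T)(T) = 4 T^4 e0. u^n ≠ q/p: the valuation at q of u^n is divisible by n ≥ 2, that of q/p is 1.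
u = N/M in lowest terms: |u^n - q/p| = |N^n p - q M^n|/(M^n p) ≥ 1/(M^n p) ≥ 1/(ht(u)^n T). Hence
exp(kap h) ≤ 4 T^5 ht(u)^n ≤ T^7 ht(u)^n.
-/

namespace H4AR

theorem liou_ne (n : ℕ) (hn : 2 ≤ n) (N M p q : ℕ) (hc : N.Coprime M) (hp : p.Prime)
    (hq : q.Prime) (hpq : p ≠ q) : N ^ n * p ≠ q * M ^ n := by
  intro h
  have h1 : (N ^ n).Coprime (M ^ n) := Nat.Coprime.pow n n hc
  have h2 : M ^ n ∣ p := h1.symm.dvd_of_dvd_mul_left ⟨q, by rw [h, mul_comm]⟩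
  have h3 : N ^ n ∣ q := h1.dvd_of_dvd_mul_right ⟨p, by rw [← h]⟩
  have key : ∀ (A l : ℕ), l.Prime → A ^ n ∣ l → A = 1 := by
    intro A l hl hA
    have h4 : A ^ 2 ∣ l := (pow_dvd_pow A hn).trans hA
    rcases (Nat.dvd_prime hl).1 h4 with h5 | h5
    · rcases Nat.pow_eq_one.1 h5 with h6 | h6
      · exact h6
      · omega
    · exfalso
      rw [← h5] at hl
      exact Nat.Prime.not_prime_pow (le_refl 2) hl
  rw [key M p hp h2, key N q hq h3, one_pow, one_mul, mul_one] at h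
  exact hpq h

theorem liou (n b T : ℕ) (hn : 2 ≤ n) (hT : 2 ≤ T) (hb : 1 ≤ b) (hbT : b ≤ T) (th kap h : ℝ)
    (hth1 : 1 / (T : ℝ) ≤ th) (hth2 : th ≤ T) (a a' p q : ℕ) (ha1 : 1 ≤ a) (haT : a ≤ T) (ha1' : 1 ≤ a')
    (haT' : a' ≤ T) (hp : p.Prime) (hq : q.Prime) (hpq : p ≠ q) (hpT : p ≤ T) (hrel : a * q = a' * p)
    (r r' : ℚ) (hr : 0 < r) (hr' : 0 < r')
    (hcl : |(b : ℝ) * (r : ℝ) ^ n - th * (a : ℝ)| ≤ Real.exp (-(kap * h)))
    (hcl' : |(b : ℝ) * (r' : ℝ) ^ n - th * (a' : ℝ)| ≤ Real.exp (-(kap * h)))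
    (hk : 2 * Real.log T ≤ kap * h) :
    kap * h ≤ n * Real.log (ht (r' / r)) + 7 * Real.log T := by
  have hT2 : (2 : ℝ) ≤ T := by exact_mod_cast hT
  have hT0 : (0 : ℝ) < T := by linarith
  have hpR : (0 : ℝ) < p := by exact_mod_cast hp.pos
  have hpTR : (p : ℝ) ≤ T := by exact_mod_cast hpT
  have haR : (1 : ℝ) ≤ a := by exact_mod_cast ha1
  have haR' : (1 : ℝ) ≤ a' := by exact_mod_cast ha1'
  have haTR : (a : ℝ) ≤ T := by exact_mod_cast haT
  have haTR' : (a' : ℝ) ≤ T := by exact_mod_cast haT'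
  have hbR : (1 : ℝ) ≤ b := by exact_mod_cast hb
  set e0 : ℝ := Real.exp (-(kap * h)) with he0
  have he0p : 0 < e0 := Real.exp_pos _
  have he1 : e0 * (T : ℝ) ^ 2 ≤ 1 := by
    have h1 : e0 ≤ Real.exp (-(2 * Real.log T)) := Real.exp_le_exp.2 (by linarith)
    have h2 : Real.exp (-(2 * Real.log T)) * (T : ℝ) ^ 2 = 1 := by
      have h3 : (T : ℝ) ^ 2 = Real.exp (2 * Real.log T) := by
        rw [two_mul, Real.exp_add, Real.exp_log hT0]
        ring
      rw [h3, ← Real.exp_add, neg_add_cancel, Real.exp_zero]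
    calc e0 * (T : ℝ) ^ 2 ≤ Real.exp (-(2 * Real.log T)) * (T : ℝ) ^ 2 :=
          mul_le_mul_of_nonneg_right h1 (by positivity)
      _ = 1 := h2
  have hthT : 1 ≤ th * T := by
    have h1 := mul_le_mul_of_nonneg_right hth1 hT0.le
    rwa [one_div, inv_mul_cancel₀ hT0.ne'] at h1
  have hth0 : 0 < th := by
    by_contra hc
    have h1 : th * T ≤ 0 := mul_nonpos_of_nonpos_of_nonneg (not_lt.1 hc) hT0.le
    linarith
  have hrR : (0 : ℝ) < (r : ℝ) := by exact_mod_cast hr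
  have hrR' : (0 : ℝ) < (r' : ℝ) := by exact_mod_cast hr'
  set x : ℝ := (b : ℝ) * (r : ℝ) ^ n with hx
  set x' : ℝ := (b : ℝ) * (r' : ℝ) ^ n with hx'
  set y : ℝ := th * (a : ℝ) with hy
  set y' : ℝ := th * (a' : ℝ) with hy'
  have hy0 : 0 < y := by positivity
  have hy0' : 0 < y' := by positivity
  have hyT : 1 ≤ y * T := by
    have h1 : th * T * 1 ≤ th * T * a := mul_le_mul_of_nonneg_left haR (by positivity)
    have h2 : y * T = th * T * a := by rw [hy]; ring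
    rw [h2]; linarith
  have hyU : y ≤ (T : ℝ) ^ 2 := by
    rw [hy, sq]
    exact mul_le_mul hth2 haTR (by positivity) hT0.le
  have hyU' : y' ≤ (T : ℝ) ^ 2 := by
    rw [hy', sq]
    exact mul_le_mul hth2 haTR' (by positivity) hT0.le
  have hxp : 0 < x := by positivity
  have hxp' : 0 < x' := by positivity
  have hxT : 1 ≤ 2 * (x * T) := by
    have h1 := (abs_le.1 hcl).1
    have h2 : e0 * T * 2 ≤ 1 := by
      have h3 : e0 * T * 2 ≤ e0 * T * T := mul_le_mul_of_nonneg_left hT2 (by positivity)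
      have h4 : e0 * T * T = e0 * (T : ℝ) ^ 2 := by ring
      linarith
    have h3 : (y - e0) * T ≤ x * T := mul_le_mul_of_nonneg_right (by linarith) hT0.le
    nlinarith
  have hxy : 1 ≤ 2 * (T : ℝ) ^ 2 * (x * y) := by
    have h1 : 1 * 1 ≤ 2 * (x * T) * (y * T) := mul_le_mul hxT hyT (by norm_num) (by positivity)
    have h2 : 2 * (x * T) * (y * T) = 2 * (T : ℝ) ^ 2 * (x * y) := by ring
    linarith
  have hrelR : (a : ℝ) * q = a' * p := by exact_mod_cast hrel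
  have hqp : y' * p = y * q := by
    rw [hy, hy']
    linear_combination -th * hrelR
  -- the fraction u
  set u : ℚ := r' / r with hu
  have hu0 : 0 < u := div_pos hr' hr
  have hnum : 0 < u.num := Rat.num_pos.2 hu0
  obtain ⟨N, hN⟩ := Int.eq_ofNat_of_zero_le hnum.le
  set M : ℕ := u.den with hM
  have hM0 : 0 < M := u.den_pos
  have hMR : (0 : ℝ) < M := by exact_mod_cast hM0
  have hcop : N.Coprime M := by
    have h1 := u.reduced
    rw [hN] at h1
    simpa using h1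
  have huR : (u : ℝ) = (N : ℝ) / M := by
    have h1 : (u : ℝ) = ((u.num : ℤ) : ℝ) / ((u.den : ℕ) : ℝ) := Rat.cast_def u
    rw [h1, hN]
    simp [hM]
  have huR2 : (u : ℝ) = (r' : ℝ) / r := by rw [hu]; push_cast; rfl
  have hrM : (r' : ℝ) * M = r * N := by
    have h1 : (r' : ℝ) / r = (N : ℝ) / M := by rw [← huR2, huR]
    rw [div_eq_div_iff hrR.ne' hMR.ne'] at h1
    linarith
  have hxM : x' * (M : ℝ) ^ n = x * (N : ℝ) ^ n := by
    rw [hx, hx', mul_assoc, mul_assoc, ← mul_pow, ← mul_pow, hrM]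
  -- the integer
  have hint : (1 : ℝ) ≤ |(N : ℝ) ^ n * p - q * (M : ℝ) ^ n| := by
    have h1 : ((N : ℤ) ^ n * p - q * (M : ℤ) ^ n) ≠ 0 := by
      intro h2
      apply liou_ne n hn N M p q hcop hp hq hpq
      have h3 : ((N : ℤ) ^ n * p) = q * (M : ℤ) ^ n := by linarith
      exact_mod_cast h3
    have h2 := Int.one_le_abs h1
    have h3 : ((1 : ℤ) : ℝ) ≤ ((|(N : ℤ) ^ n * p - q * (M : ℤ) ^ n| : ℤ) : ℝ) := by
      exact_mod_cast h2
    push_cast at h3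
    exact h3
  -- the difference
  have hdiff : |x' * y - x * y'| ≤ 2 * (T : ℝ) ^ 2 * e0 := by
    have h1 : x' * y - x * y' = (x' - y') * y + y' * (y - x) := by ring
    have h2 : |(x' - y') * y| ≤ e0 * (T : ℝ) ^ 2 := by
      rw [abs_mul, abs_of_pos hy0]
      exact mul_le_mul hcl' hyU hy0.le he0p.le
    have h3 : |y' * (y - x)| ≤ (T : ℝ) ^ 2 * e0 := by
      rw [abs_mul, abs_of_pos hy0', abs_sub_comm]
      exact mul_le_mul hyU' hcl (abs_nonneg _) (by positivity)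
    rw [h1]
    have h4 := abs_add_le ((x' - y') * y) (y' * (y - x))
    linarith
  have hid : x * y * ((N : ℝ) ^ n * p - q * (M : ℝ) ^ n) =
      (x' * y - x * y') * (p * (M : ℝ) ^ n) := by
    linear_combination (-(y * p)) * hxM + (x * (M : ℝ) ^ n) * hqp
  have hMn : (0 : ℝ) < (M : ℝ) ^ n := by positivity
  have hmain : 1 ≤ 4 * (T : ℝ) ^ 5 * (M : ℝ) ^ n * e0 := by
    have h1 : x * y * 1 ≤ x * y * |(N : ℝ) ^ n * p - q * (M : ℝ) ^ n| :=
      mul_le_mul_of_nonneg_left hint (by positivity)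
    have h2 : x * y * |(N : ℝ) ^ n * p - q * (M : ℝ) ^ n| =
        |x' * y - x * y'| * (p * (M : ℝ) ^ n) := by
      have h3 : |x * y * ((N : ℝ) ^ n * p - q * (M : ℝ) ^ n)| =
          |(x' * y - x * y') * (p * (M : ℝ) ^ n)| := by rw [hid]
      rw [abs_mul, abs_of_pos (by positivity : 0 < x * y), abs_mul,
        abs_of_pos (by positivity : 0 < (p : ℝ) * (M : ℝ) ^ n)] at h3
      exact h3
    have h4 : |x' * y - x * y'| * (p * (M : ℝ) ^ n) ≤
        2 * (T : ℝ) ^ 2 * e0 * (T * (M : ℝ) ^ n) := by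
      refine mul_le_mul hdiff ?_ (by positivity) (by positivity)
      exact mul_le_mul_of_nonneg_right hpTR hMn.le
    have h5 : x * y ≤ 2 * (T : ℝ) ^ 2 * e0 * (T * (M : ℝ) ^ n) := by linarith
    have h6 : 2 * (T : ℝ) ^ 2 * (x * y) ≤
        2 * (T : ℝ) ^ 2 * (2 * (T : ℝ) ^ 2 * e0 * (T * (M : ℝ) ^ n)) :=
      mul_le_mul_of_nonneg_left h5 (by positivity)
    have h7 : 2 * (T : ℝ) ^ 2 * (2 * (T : ℝ) ^ 2 * e0 * (T * (M : ℝ) ^ n)) =
        4 * (T : ℝ) ^ 5 * (M : ℝ) ^ n * e0 := by ring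
    linarith
  have hht : (M : ℝ) ≤ ht u := le_max_right _ _
  have hht0 : 0 < ht u := lt_of_lt_of_le hMR hht
  have hfin : Real.exp (kap * h) ≤ (T : ℝ) ^ 7 * (ht u) ^ n := by
    have h1 : Real.exp (kap * h) * e0 = 1 := by
      rw [he0, ← Real.exp_add, add_neg_cancel, Real.exp_zero]
    have h2 : Real.exp (kap * h) * 1 ≤
        Real.exp (kap * h) * (4 * (T : ℝ) ^ 5 * (M : ℝ) ^ n * e0) :=
      mul_le_mul_of_nonneg_left hmain (Real.exp_pos _).le
    have h3 : Real.exp (kap * h) * (4 * (T : ℝ) ^ 5 * (M : ℝ) ^ n * e0) =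
        4 * (T : ℝ) ^ 5 * (M : ℝ) ^ n := by
      linear_combination (4 * (T : ℝ) ^ 5 * (M : ℝ) ^ n) * h1
    have h4 : 4 * (T : ℝ) ^ 5 * (M : ℝ) ^ n ≤ (T : ℝ) ^ 7 * (ht u) ^ n := by
      have h5 : 4 * (T : ℝ) ^ 5 ≤ (T : ℝ) ^ 7 := by
        have h6 : (4 : ℝ) ≤ (T : ℝ) ^ 2 := by nlinarith
        have h7 : (T : ℝ) ^ 7 = (T : ℝ) ^ 2 * (T : ℝ) ^ 5 := by ring
        rw [h7]
        exact mul_le_mul_of_nonneg_right h6 (by positivity)
      exact mul_le_mul h5 (pow_le_pow_left₀ hMR.le hht n) (by positivity) (by positivity)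
    linarith
  have hlog := Real.log_le_log (Real.exp_pos _) hfin
  rw [Real.log_exp, Real.log_mul (by positivity) (by positivity), Real.log_pow, Real.log_pow] at hlog
  push_cast at hlog
  linarith

end H4AR
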