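import Pool.Agent.H4.AR.Face
import Pool.Agent.H4.AR.CubeMul
import Pool.Agent.H4.AR.HSum
import Pool.Agent.H4.AR.Liou

/-!
H4/AR/Same: no exceptional cube at the same scale.

PROOF. Take del = (kap-4)/8, so kap - 4(1+del) = (kap-4)/2 > 0, k = 12 n^2 + 1, and C a natural number with
C ≥ 2, C ≥ th, C ≥ 1/th, C (kap-4)/2 > 6n+5, C kap ≥ 14. Let T ≥ C, log T > 0. Let v0 be a vertex where log ht(r v) is
minimal (finite set), h = log ht(r v0) ≥ C log T > 0. For all v: h ≤ log ht(r v) ≤ (1+del) h, so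
|b r_v^n - th a_v| ≤ ht(r_v)^(-kap) = exp(-kap log ht(r_v)) ≤ exp(-(kap h)) (a_v = vx b0 p v ≥ 1).
Faces: for v_i = v_j = false, i ≠ j: vx(v) vx(v+e_i+e_j) = vx(v+e_i) vx(v+e_j) (both are
b0^2 * (other factors)^2 * p_i(0) p_i(1) p_j(0) p_j(1)); `face` gives the relation for r; `cube_mul` gives
r v = r0 prod (if v i then u i else 1), r0 = r(0), u i = r(e_i)/r0.
`liou` with a = vx(0), a' = vx(e_i), p = p_i(false) (≤ T as it divides vx(0)), q = p_i(true):
kap h ≤ n log ht(u_i) + 7 log T and 7 log T ≤ kap h/2, so log ht(u_i) ≥ kap h/(2n).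
`hsum`: 2^k * 2 (1+del) h ≥ 2^k/2 * (sqrt(k/3)/k) * k * kap h/(2n), so sqrt(k/3) ≤ 8 n (1+del)/kap < 2n
(4(1+del) < kap), i.e. k < 12 n^2: contradiction.
-/

namespace H4AR

private lemma vx_update {k : ℕ} (b0 : ℕ) (p : Fin k → Bool → ℕ) (v : Fin k → Bool) (i : Fin k)
    (hv : v i = false) :
    vx b0 p (Function.update v i true) * p i false = vx b0 p v * p i true := by
  unfold vx
  rw [← Finset.mul_prod_erase Finset.univ _ (Finset.mem_univ i),
    ← Finset.mul_prod_erase Finset.univ (fun i => p i (v i)) (Finset.mem_univ i)]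
  have h : ∏ x ∈ Finset.univ.erase i, p x (Function.update v i true x) =
      ∏ x ∈ Finset.univ.erase i, p x (v x) := by
    refine Finset.prod_congr rfl fun x hx => ?_
    rw [Function.update_of_ne (Finset.ne_of_mem_erase hx)]
  rw [h, Function.update_self, hv]
  ring

private lemma vx_pos {k : ℕ} {b0 : ℕ} {p : Fin k → Bool → ℕ} (hb : 1 ≤ b0)
    (hp : ∀ i s, (p i s).Prime) (v : Fin k → Bool) : 1 ≤ vx b0 p v := by
  unfold vx
  have h : 0 < ∏ i, p i (v i) := Finset.prod_pos fun i _ => (hp i _).pos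
  exact Nat.mul_pos (by omega) h

private lemma vx_face {k : ℕ} (b0 : ℕ) (p : Fin k → Bool → ℕ) (hp : ∀ i s, (p i s).Prime)
    (v : Fin k → Bool) (i j : Fin k) (hij : i ≠ j) (_hi : v i = false) (hj : v j = false) :
    vx b0 p v * vx b0 p (Function.update (Function.update v i true) j true) =
      vx b0 p (Function.update v i true) * vx b0 p (Function.update v j true) := by
  have h1 := vx_update b0 p v j hj
  have h2 := vx_update b0 p (Function.update v i true) j
    (by rw [Function.update_of_ne (Ne.symm hij)]; exact hj)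
  have h3 : 0 < p j false := (hp j false).pos
  refine Nat.eq_of_mul_eq_mul_right h3 ?_
  calc vx b0 p v * vx b0 p (Function.update (Function.update v i true) j true) * p j false
      = vx b0 p v * (vx b0 p (Function.update (Function.update v i true) j true) * p j false) := by
        ring
    _ = vx b0 p v * (vx b0 p (Function.update v i true) * p j true) := by rw [h2]
    _ = vx b0 p (Function.update v i true) * (vx b0 p v * p j true) := by ring
    _ = vx b0 p (Function.update v i true) *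
        (vx b0 p (Function.update v j true) * p j false) := by rw [← h1]
    _ = _ := by ring

theorem same_scale (n : ℕ) (hn : 2 ≤ n) (kap : ℝ) (hkap : 4 < kap) (th : ℝ) (hth : 0 < th) :
    ∃ (k C : ℕ) (del : ℝ), 1 ≤ k ∧ 0 < del ∧ ∀ T : ℕ, C ≤ T → ∀ b : ℕ, 1 ≤ b → b ≤ T →
      ∀ (b0 : ℕ) (p : Fin k → Bool → ℕ), 1 ≤ b0 → (∀ i s, (p i s).Prime) →
      (∀ i, p i false ≠ p i true) → (∀ v, vx b0 p v ≤ T) → ∀ r : (Fin k → Bool) → ℚ,
      (∀ v, Exc n b (vx b0 p v) th kap ((T : ℝ) ^ C) (r v)) →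
      (∀ v w, Real.log (ht (r w)) ≤ (1 + del) * Real.log (ht (r v))) → False := by
  set C : ℕ := ⌈th⌉₊ + ⌈1 / th⌉₊ + ⌈(6 * (n : ℝ) + 6) * 2 / (kap - 4)⌉₊ + 4 with hC
  refine ⟨12 * n ^ 2 + 1, C, (kap - 4) / 8, by omega, by linarith, ?_⟩
  intro T hT b hb hbT b0 p hb0 hp hpne hvT r hexc hsc
  have hC1 : th ≤ (C : ℝ) := by
    have := Nat.le_ceil th
    rw [hC]; push_cast
    have h1 : (0 : ℝ) ≤ (⌈1 / th⌉₊ : ℝ) := by positivity
    have h2 : (0 : ℝ) ≤ (⌈(6 * (n : ℝ) + 6) * 2 / (kap - 4)⌉₊ : ℝ) := by positivity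
    linarith
  have hC2 : 1 / th ≤ (C : ℝ) := by
    have := Nat.le_ceil (1 / th)
    rw [hC]; push_cast
    have h1 : (0 : ℝ) ≤ (⌈th⌉₊ : ℝ) := by positivity
    have h2 : (0 : ℝ) ≤ (⌈(6 * (n : ℝ) + 6) * 2 / (kap - 4)⌉₊ : ℝ) := by positivity
    linarith
  have hC3 : (6 * (n : ℝ) + 6) * 2 / (kap - 4) ≤ (C : ℝ) := by
    have := Nat.le_ceil ((6 * (n : ℝ) + 6) * 2 / (kap - 4))
    rw [hC]; push_cast
    have h1 : (0 : ℝ) ≤ (⌈th⌉₊ : ℝ) := by positivity
    have h2 : (0 : ℝ) ≤ (⌈1 / th⌉₊ : ℝ) := by positivity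
    linarith
  have hC4 : (4 : ℝ) ≤ (C : ℝ) := by
    have : 4 ≤ C := by omega
    exact_mod_cast this
  have hTR : (C : ℝ) ≤ (T : ℝ) := by exact_mod_cast hT
  have hT0 : (0 : ℝ) < T := by linarith
  have hT2 : 2 ≤ T := by
    have : 4 ≤ C := by omega
    omega
  have hlT : 0 < Real.log T := Real.log_pos (by linarith)
  have hth2 : th ≤ T := by linarith
  have hth1 : 1 / (T : ℝ) ≤ th := by
    rw [div_le_iff₀ hT0]
    have h1 : 1 / th ≤ (T : ℝ) := by linarith
    rw [div_le_iff₀ hth] at h1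
    linarith
  obtain ⟨v0, -, hv0⟩ := Finset.exists_min_image Finset.univ (fun v => Real.log (ht (r v)))
    ⟨fun _ => false, Finset.mem_univ _⟩
  set h := Real.log (ht (r v0)) with hh
  have hmin : ∀ v, h ≤ Real.log (ht (r v)) := fun v => hv0 v (Finset.mem_univ v)
  have hmax : ∀ v, Real.log (ht (r v)) ≤ (1 + (kap - 4) / 8) * h := fun v => hsc v0 v
  have hCh : (C : ℝ) * Real.log T ≤ h := by
    have h1 := (hexc v0).2.1
    have h2 := Real.log_le_log (by positivity) h1
    rwa [Real.log_pow] at h2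
  have hh4 : 4 * Real.log T ≤ h := le_trans (mul_le_mul_of_nonneg_right hC4 hlT.le) hCh
  have hh0 : 0 < h := by linarith
  have hpos : ∀ v, 0 < ht (r v) := fun v => by
    have h1 := (hexc v).2.1
    have h2 : (0 : ℝ) < (T : ℝ) ^ C := by positivity
    linarith
  have hcl : ∀ v, |(b : ℝ) * (r v : ℝ) ^ n - th * (vx b0 p v : ℝ)| ≤ Real.exp (-(kap * h)) := by
    intro v
    refine (hexc v).2.2.trans ?_
    rw [Real.rpow_def_of_pos (hpos v)]
    apply Real.exp_le_exp.mpr
    have := mul_le_mul_of_nonneg_left (hmin v) (by linarith : (0 : ℝ) ≤ kap)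
    linarith
  have hvpos : ∀ v, 1 ≤ vx b0 p v := vx_pos hb0 hp
  have hface : ∀ (v : Fin (12 * n ^ 2 + 1) → Bool) (i j : Fin (12 * n ^ 2 + 1)), i ≠ j →
      v i = false → v j = false →
      r v * r (Function.update (Function.update v i true) j true) =
        r (Function.update v i true) * r (Function.update v j true) := by
    intro v i j hij hi hj
    have key := face n b T (by omega) hT2 hb hbT th kap ((kap - 4) / 8) h hth1 hth2 (by linarith)
      hh0.le
      ![vx b0 p v, vx b0 p (Function.update v i true), vx b0 p (Function.update v j true),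
        vx b0 p (Function.update (Function.update v i true) j true)]
      (by intro l; fin_cases l <;> exact hvpos _)
      (by intro l; fin_cases l <;> exact hvT _)
      (by simpa using vx_face b0 p hp v i j hij hi hj)
      ![r v, r (Function.update v i true), r (Function.update v j true),
        r (Function.update (Function.update v i true) j true)]
      (by intro l; fin_cases l <;> exact (hexc _).1)
      (by intro l; fin_cases l <;> exact hcl _)
      (by intro l; fin_cases l <;> exact hmax _)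
      (by
        have h1 : kap - 4 * (1 + (kap - 4) / 8) = (kap - 4) / 2 := by ring
        rw [h1]
        have h2 : (6 * (n : ℝ) + 6) * 2 ≤ (C : ℝ) * (kap - 4) := by
          rwa [div_le_iff₀ (by linarith)] at hC3
        have h3 : (kap - 4) / 2 * ((C : ℝ) * Real.log T) ≤ (kap - 4) / 2 * h :=
          mul_le_mul_of_nonneg_left hCh (by linarith)
        nlinarith)
    simpa using key
  have hr0 : ∀ v, r v ≠ 0 := fun v => (hexc v).1.ne'
  have hmul := cube_mul r hr0 hface
  set u : Fin (12 * n ^ 2 + 1) → ℚ := fun i =>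
    r (Function.update (fun _ => false) i true) / r (fun _ => false) with hu
  have hupos : ∀ i, 0 < u i := fun i => div_pos (hexc _).1 (hexc _).1
  have hsum := hsum (by omega) r (r fun _ => false) u (hexc _).1 hupos hmul
  have hkh : 14 * Real.log T ≤ kap * h := by nlinarith
  have hui : ∀ i, kap * h / (2 * n) ≤ Real.log (ht (u i)) := by
    intro i
    have hd : p i false ∣ vx b0 p (fun _ => false) :=
      Dvd.dvd.mul_left (Finset.dvd_prod_of_mem (fun i => p i false) (Finset.mem_univ i)) _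
    have hple : p i false ≤ T :=
      (Nat.le_of_dvd (by have := hvpos (fun _ => false); omega) hd).trans (hvT _)
    have key := liou n b T hn hT2 hb hbT th kap h hth1 hth2 (vx b0 p fun _ => false)
      (vx b0 p (Function.update (fun _ => false) i true)) (p i false) (p i true)
      (hvpos _) (hvT _) (hvpos _) (hvT _) (hp i false) (hp i true) (hpne i) hple
      (vx_update b0 p (fun _ => false) i rfl).symm (r fun _ => false)
      (r (Function.update (fun _ => false) i true)) (hexc _).1 (hexc _).1 (hcl _) (hcl _)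
      (by linarith)
    have hn0 : (0 : ℝ) < n := by
      have : 0 < n := by omega
      exact_mod_cast this
    rw [div_le_iff₀ (by positivity)]
    have h5 : Real.log (ht (u i)) =
        Real.log (ht (r (Function.update (fun _ => false) i true) / r fun _ => false)) := rfl
    rw [h5]
    linarith
  have hn0 : (0 : ℝ) < n := by
    have : 0 < n := by omega
    exact_mod_cast this
  have hL : ((12 * n ^ 2 + 1 : ℕ) : ℝ) * (kap * h / (2 * n)) ≤ ∑ i, Real.log (ht (u i)) := by
    calc ((12 * n ^ 2 + 1 : ℕ) : ℝ) * (kap * h / (2 * n))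
        = ∑ _i : Fin (12 * n ^ 2 + 1), (kap * h / (2 * n)) := by
          rw [Finset.sum_const, Finset.card_univ, Fintype.card_fin, nsmul_eq_mul]
      _ ≤ _ := Finset.sum_le_sum fun i _ => hui i
  have hR : ∑ v : Fin (12 * n ^ 2 + 1) → Bool, 2 * Real.log (ht (r v)) ≤
      (2 : ℝ) ^ (12 * n ^ 2 + 1) * (2 * ((1 + (kap - 4) / 8) * h)) := by
    calc ∑ v : Fin (12 * n ^ 2 + 1) → Bool, 2 * Real.log (ht (r v))
        ≤ ∑ _v : Fin (12 * n ^ 2 + 1) → Bool, (2 * ((1 + (kap - 4) / 8) * h)) :=
          Finset.sum_le_sum fun v _ => by have := hmax v; linarith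
      _ = _ := by
          rw [Finset.sum_const, Finset.card_univ, Fintype.card_fun, Fintype.card_fin,
            Fintype.card_bool, nsmul_eq_mul]
          push_cast
          ring
  set k : ℝ := ((12 * n ^ 2 + 1 : ℕ) : ℝ) with hk
  have hkpos : 0 < k := by rw [hk]; positivity
  have hsq : 2 * (n : ℝ) < Real.sqrt (k / 3) := by
    apply Real.lt_sqrt_of_sq_lt
    rw [hk]
    push_cast
    linarith
  have h2k : (0 : ℝ) < (2 : ℝ) ^ (12 * n ^ 2 + 1) := by positivity
  have hfin := hsum.trans hR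
  have hA : (2 : ℝ) ^ (12 * n ^ 2 + 1) / 2 * (Real.sqrt (k / 3) / k) * (k * (kap * h / (2 * n))) ≤
      (2 : ℝ) ^ (12 * n ^ 2 + 1) * (2 * ((1 + (kap - 4) / 8) * h)) :=
    le_trans (mul_le_mul_of_nonneg_left hL (by positivity)) hfin
  have hB : (2 : ℝ) ^ (12 * n ^ 2 + 1) / 2 * (Real.sqrt (k / 3) / k) * (k * (kap * h / (2 * n))) =
      (2 : ℝ) ^ (12 * n ^ 2 + 1) * (Real.sqrt (k / 3) * kap * h / (4 * n)) := by
    field_simp
    ring
  rw [hB] at hA
  have hD := le_of_mul_le_mul_left hA h2k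
  rw [div_le_iff₀ (by positivity)] at hD
  have hE : Real.sqrt (k / 3) * kap ≤ 2 * (1 + (kap - 4) / 8) * (4 * n) := by
    have : Real.sqrt (k / 3) * kap * h ≤ 2 * (1 + (kap - 4) / 8) * (4 * n) * h := by linarith
    exact le_of_mul_le_mul_right this hh0
  have hF : 2 * (n : ℝ) * kap < Real.sqrt (k / 3) * kap :=
    mul_lt_mul_of_pos_right hsq (by linarith)
  nlinarith

end H4AR
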