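import Pool.Agent.H4.AR.Roth
import Pool.Agent.H4.AR.AuxP
import Pool.Agent.H4.AR.EvUp
import Pool.Agent.H4.AR.EvLow
import Pool.Agent.H4.AR.Close

/-!
H4/AR/Sep: m exceptional approximations in fields generated by radicals of vertices of a k-cube cannot have widely
separated heights.

PROOF. Write log = Real.log, h_j = log ht(r_j). lam = kap/4 - 1 > 0, eta = lam/(4(1+lam)) in (0,1/4), sigma = eta m/4 > 0,
c0 = the constant of `roth m` for del = sigma (0 < c0 ≤ 1), Om = 2/c0 ≥ 1. C a natural number with C ≥ 2, C ≥ B, C ≥ th,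
C ≥ 1/th, C (3/4) c0 ≥ (k+5) m + 2, C lam > 2 (k+11), C ≥ 1 (so kap h_j ≥ 2 log T follows from kap > 4).
Let T ≥ C and data as in the statement. h_j ≥ C log T > 0; h_0 is the largest (Om ≥ 1), let hmin = h_(m-1) the smallest.
b0 ≤ T and mu l s ≤ T because all vertices are ≤ T and all factors ≥ 1.
Y = 101 h_0/eta, d_j = floor(Y/h_j) (Nat.floor). Y/h_j ≥ 101 so d_j ≥ 100; d_j h_j ≤ Y; d_j h_j ≥ Y - h_j ≥ (1-eta) Y
(h_j ≤ h_0 = eta Y/101). Dm = Y/hmin ≥ 1, d_j ≤ Dm.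
aux_poly: f, with Dg = sum d_j ≤ m Dm, log l1 f ≤ (k+5) Dg log T.
Roth: separation: i < j: d_i ≤ Y/h_i ≤ Y/(Om h_j) ≤ d_j/((1-eta) Om) ≤ c0 d_j ((1-eta) ≥ 3/4, Om = 2/c0).
log l1 f + Dm ≤ ((k+5) m log T + 1) Dm ≤ ((k+5) m + 2) log T * Dm (log T ≥ log 2 ≥ 1/2)
= ((k+5)m+2) (log T/hmin) Y ≤ ((k+5)m+2)/C * Y ≤ c0 (1-eta) Y ≤ c0 d_j h_j. Result: e with wt d e ≤ sigma and
coefficient x := (sh r (toQ f)).coeff e ≠ 0.
Lower bound (eval_lower): |x| ≥ exp(- sum d_j h_j) ≥ exp(- m Y).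
Upper bound (eval_upper, cast_coeff; al = alp n b b0 th mu v, A = T^2, t = m/4, lam_j = kap h_j - 2 log T ≥ 0 by `close`,
Lam = kap (1-eta) Y - 2 log T Dm; Lam ≤ lam_j d_j; Lam ≥ 0 because 2 log T Dm ≤ (2/C) Y and kap (1-eta) ≥ 3, C ≥ 1):
|x| ≤ (8T^2)^Dg l1 f exp(-Lam (m/4 - wt d e)), log(8 T^2) ≤ 5 log T, m/4 - wt d e ≥ (m/4)(1-eta), so
log|x| ≤ (k+10) m Dm log T + (m/2) Dm log T - kap (1-eta)^2 (m/4) Y.
kap/4 (1-eta)^2 = (1+lam)(1-eta)^2 ≥ (1+lam)(1-2 eta) = 1 + lam/2. Dm log T = Y log T/hmin ≤ Y/C.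
So - m Y ≤ m (k+11) Y/C - m (1+lam/2) Y, i.e. lam/2 ≤ (k+11)/C: contradiction (m ≥ 1, Y > 0).
-/

namespace H4AR

private theorem aux_eta {lam eta : ℝ} (hlam : 0 < lam) (heta0 : 0 < eta)
    (hetal : eta * (1 + lam) = lam / 4) : eta < 1 / 4 := by nlinarith

private theorem aux_kap {kap eta : ℝ} (hkap : 4 < kap) (heta4 : eta < 1 / 4) :
    3 ≤ kap * (1 - eta) := by nlinarith

private theorem aux_sq {lam eta : ℝ} (hlam : 0 ≤ lam) (hetal : eta * (1 + lam) = lam / 4) :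
    1 + lam / 2 ≤ (1 + lam) * (1 - eta) ^ 2 := by
  have h1 : (1 + lam) * (1 - eta) ^ 2 = 1 + lam - 2 * (eta * (1 + lam)) + (1 + lam) * eta ^ 2 := by
    ring
  rw [h1, hetal]
  have h2 : 0 ≤ (1 + lam) * eta ^ 2 := by positivity
  linarith

private theorem aux_fin {S U V W G M R X1 X2 E5 E4 : ℝ} (hlog : -S ≤ U + V + -G) (hsum : S ≤ M)
    (hU : U ≤ X1) (hV : V ≤ X2) (hG : R - E5 ≤ G) (h4 : E4 ≤ R) (h5 : E5 ≤ W) :
    E4 ≤ X1 + X2 + W + M := by linarith

theorem separated (n k m D : ℕ) (hn : 1 ≤ n) (hm : 1 ≤ m) (hD : 1 ≤ D)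
    (hnum : 2 * (D : ℝ) * (n : ℝ) ^ (2 * k + 1) * (7 / 10 : ℝ) ^ m ≤ 1) (kap : ℝ) (hkap : 4 < kap)
    (th : ℝ) (hth : 0 < th) (c : ℤ) (hc : c ≠ 0) (B : ℕ) (hcB : |c| ≤ B) (w : ℕ → Fin D → ℤ)
    (hw : ∀ q, (c : ℝ) ^ q * th ^ q = ∑ i, (w q i : ℝ) * th ^ (i : ℕ))
    (hwB : ∀ q i, |w q i| ≤ (B : ℤ) ^ q) :
    ∃ (C : ℕ) (Om : ℝ), 1 ≤ Om ∧ ∀ T : ℕ, C ≤ T → ∀ b b0 : ℕ, 1 ≤ b → b ≤ T → 1 ≤ b0 →
      ∀ mu : Fin k → Bool → ℕ, (∀ l s, 1 ≤ mu l s) → (∀ v, vx b0 mu v ≤ T) →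
      ∀ (v : Fin m → Fin k → Bool) (r : Fin m → ℚ),
      (∀ j, Exc n b (vx b0 mu (v j)) th kap ((T : ℝ) ^ C) (r j)) →
      (∀ i j, i < j → Om * Real.log (ht (r j)) ≤ Real.log (ht (r i))) → False := by
  obtain ⟨lam, hlamd⟩ : ∃ lam : ℝ, lam = kap / 4 - 1 := ⟨_, rfl⟩
  have hlam : 0 < lam := by rw [hlamd]; linarith
  obtain ⟨eta, hetad⟩ : ∃ eta : ℝ, eta = lam / (4 * (1 + lam)) := ⟨_, rfl⟩
  have h1lam : 0 < 1 + lam := by linarith
  have heta0 : 0 < eta := by rw [hetad]; positivity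
  have hetal : eta * (1 + lam) = lam / 4 := by
    rw [hetad]
    field_simp
  have heta4 : eta < 1 / 4 := aux_eta hlam heta0 hetal
  have hmR : (1 : ℝ) ≤ m := by exact_mod_cast hm
  obtain ⟨c0, hc0, hc01, hroth⟩ := roth m (eta * m / 4) (by positivity)
  -- the constant C
  obtain ⟨C, hC⟩ : ∃ C : ℕ, 2 + B + th + 1 / th + ((k + 5) * m + 2) / (3 / 4 * c0) +
      2 * (k + 11) / lam + 1 ≤ (C : ℝ) := exists_nat_ge _
  have hq1 : 0 ≤ ((k : ℝ) + 5) * m + 2 := by positivity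
  have hq2 : 0 ≤ (((k : ℝ) + 5) * m + 2) / (3 / 4 * c0) := by positivity
  have hq3 : 0 ≤ 2 * ((k : ℝ) + 11) / lam := by positivity
  have hq4 : 0 ≤ 1 / th := by positivity
  have hBR : (0 : ℝ) ≤ B := Nat.cast_nonneg _
  have hC2 : (2 : ℝ) ≤ C := by linarith
  have hCB : (B : ℝ) ≤ C := by linarith
  have hCth : th ≤ C := by linarith
  have hCth' : 1 / th ≤ C := by linarith
  have hCc : ((k : ℝ) + 5) * m + 2 ≤ C * (3 / 4 * c0) := by
    have h1 : (((k : ℝ) + 5) * m + 2) / (3 / 4 * c0) ≤ C := by linarith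
    exact (div_le_iff₀ (by positivity)).1 h1
  have hCl : 2 * ((k : ℝ) + 11) < C * lam := by
    have h1 : 2 * ((k : ℝ) + 11) / lam < C := by linarith
    exact (div_lt_iff₀ hlam).1 h1
  refine ⟨C, 2 / c0, ?_, ?_⟩
  · rw [le_div_iff₀ hc0]
    linarith
  intro T hCT b b0 hb hbT hb0 mu hmu hvx v r hexc hsep
  have hCTR : (C : ℝ) ≤ T := by exact_mod_cast hCT
  have hT2 : 2 ≤ T := by
    have : (2 : ℝ) ≤ T := by linarith
    exact_mod_cast this
  have hT0 : (0 : ℝ) < T := by linarith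
  have hBT : B ≤ T := by
    have : (B : ℝ) ≤ T := by linarith
    exact_mod_cast this
  obtain ⟨L, hL⟩ : ∃ L, L = Real.log T := ⟨_, rfl⟩
  have hL2 : Real.log 2 ≤ L := by
    rw [hL]
    exact Real.log_le_log (by norm_num) (by linarith)
  have hL12 : 1 / 2 ≤ L := by
    have := Real.log_two_gt_d9
    linarith
  have hL0 : 0 < L := by linarith
  -- sizes of the vertices
  have hmu1 : ∀ l s, 1 ≤ mu l s ∧ mu l s ≤ T := by
    intro l s
    refine ⟨hmu l s, ?_⟩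
    have h1 := hvx (fun _ => s)
    unfold vx at h1
    have h2 : mu l s ≤ ∏ i, mu i s :=
      Finset.single_le_prod' (f := fun i => mu i s) (fun i _ => hmu i s) (Finset.mem_univ l)
    have h3 : ∏ i, mu i s ≤ b0 * ∏ i, mu i s := Nat.le_mul_of_pos_left _ hb0
    exact h2.trans (h3.trans h1)
  have hprod1 : ∀ u : Fin k → Bool, 1 ≤ ∏ i, mu i (u i) := fun u =>
    Nat.one_le_iff_ne_zero.2 (Finset.prod_ne_zero_iff.2 fun i _ => by
      have := hmu i (u i); omega)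
  have hb0T : b0 ≤ T := by
    have h1 := hvx (fun _ => true)
    unfold vx at h1
    exact (Nat.le_mul_of_pos_right _ (hprod1 _)).trans h1
  have hvx1 : ∀ u, 1 ≤ vx b0 mu u := by
    intro u
    unfold vx
    exact Nat.mul_pos hb0 (hprod1 u)
  -- heights
  obtain ⟨h, hh⟩ : ∃ h : Fin m → ℝ, h = fun j => Real.log (ht (r j)) := ⟨_, rfl⟩
  have hhj : ∀ j, h j = Real.log (ht (r j)) := fun j => by rw [hh]
  have hhC : ∀ j, C * L ≤ h j := by
    intro j
    have h1 := (hexc j).2.1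
    rw [hhj, hL, ← Real.log_pow]
    exact Real.log_le_log (by positivity) h1
  have hCL : 0 < C * L := by positivity
  have hh0 : ∀ j, 0 < h j := fun j => hCL.trans_le (hhC j)
  have hsep' : ∀ i j, i < j → 2 / c0 * h j ≤ h i := by
    intro i j hij
    rw [hhj, hhj]
    exact hsep i j hij
  have hOm : 1 ≤ 2 / c0 := by
    rw [le_div_iff₀ hc0]
    linarith
  have hmono : ∀ i j : Fin m, i ≤ j → h j ≤ h i := by
    intro i j hij
    rcases eq_or_lt_of_le hij with rfl | hlt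
    · exact le_rfl
    · have h1 := hsep' i j hlt
      have h2 := le_mul_of_one_le_left (hh0 j).le hOm
      linarith
  obtain ⟨j0, hj0⟩ : ∃ j0 : Fin m, j0 = ⟨0, by omega⟩ := ⟨_, rfl⟩
  obtain ⟨jl, hjl⟩ : ∃ jl : Fin m, jl = ⟨m - 1, by omega⟩ := ⟨_, rfl⟩
  have hle0 : ∀ j, h j ≤ h j0 := fun j => hmono j0 j (by
    rw [hj0]; exact Fin.mk_le_of_le_val (Nat.zero_le _))
  have hlel : ∀ j, h jl ≤ h j := fun j => hmono j jl (by
    rw [hjl, Fin.le_def]
    have := j.2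
    simp only
    omega)
  obtain ⟨Y, hY⟩ : ∃ Y : ℝ, Y = 101 * h j0 / eta := ⟨_, rfl⟩
  have hY0 : 0 < Y := by
    rw [hY]
    have := hh0 j0
    positivity
  have hYe : eta * Y = 101 * h j0 := by
    rw [hY]
    field_simp
  have hYh : ∀ j, 101 ≤ Y / h j := by
    intro j
    rw [le_div_iff₀ (hh0 j)]
    have h1 := hle0 j
    have h2 : eta * Y ≤ 1 * Y := mul_le_mul_of_nonneg_right (by linarith) hY0.le
    linarith
  obtain ⟨d, hd⟩ : ∃ d : Fin m → ℕ, d = fun j => ⌊Y / h j⌋₊ := ⟨_, rfl⟩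
  have hdj : ∀ j, d j = ⌊Y / h j⌋₊ := fun j => by rw [hd]
  have hd100 : ∀ j, 100 ≤ d j := by
    intro j
    rw [hdj]
    refine Nat.le_floor ?_
    have := hYh j
    push_cast
    linarith
  have hdle : ∀ j, (d j : ℝ) ≤ Y / h j := by
    intro j
    rw [hdj]
    exact Nat.floor_le (by have := hYh j; linarith)
  have hdY : ∀ j, (d j : ℝ) * h j ≤ Y := by
    intro j
    exact (le_div_iff₀ (hh0 j)).1 (hdle j)
  have hdlow : ∀ j, (1 - eta) * Y ≤ (d j : ℝ) * h j := by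
    intro j
    have h1 : Y / h j < (d j : ℝ) + 1 := by
      rw [hdj]
      exact Nat.lt_floor_add_one _
    have h2 : Y < ((d j : ℝ) + 1) * h j := (div_lt_iff₀ (hh0 j)).1 h1
    have h3 := hle0 j
    have h4 := hh0 j
    have h5 : ((d j : ℝ) + 1) * h j = d j * h j + h j := by ring
    have h6 : (1 - eta) * Y = Y - eta * Y := by ring
    rw [h5] at h2
    rw [h6, hYe]
    linarith
  obtain ⟨Dm, hDm⟩ : ∃ Dm : ℝ, Dm = Y / h jl := ⟨_, rfl⟩
  have hDm1 : 1 ≤ Dm := by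
    rw [hDm]
    have := hYh jl
    linarith
  have hdDm : ∀ j, (d j : ℝ) ≤ Dm := by
    intro j
    refine (hdle j).trans ?_
    rw [hDm]
    exact div_le_div_of_nonneg_left hY0.le (hh0 jl) (hlel j)
  have hDmL : C * (Dm * L) ≤ Y := by
    have h1 : Dm * h jl = Y := by
      rw [hDm]
      exact div_mul_cancel₀ _ (hh0 jl).ne'
    have h2 := mul_le_mul_of_nonneg_left (hhC jl) (by linarith : 0 ≤ Dm)
    have h3 : C * (Dm * L) = Dm * (C * L) := by ring
    rw [h3]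
    linarith
  -- the auxiliary polynomial
  obtain ⟨f, hf0, hfdeg, hfl1, hfvan⟩ := aux_poly n k m D hn hm hD hnum th hth c hc B hcB w hw hwB T
    hT2 hBT b b0 hb hbT hb0 hb0T mu hmu1 v d hd100
  obtain ⟨Dg, hDg⟩ : ∃ Dg : ℕ, Dg = ∑ j, d j := ⟨_, rfl⟩
  rw [← hDg] at hfl1
  have hDgm : (Dg : ℝ) ≤ m * Dm := by
    rw [hDg]
    push_cast
    calc ∑ j, (d j : ℝ) ≤ ∑ _j : Fin m, Dm := Finset.sum_le_sum fun j _ => hdDm j
      _ = m * Dm := by rw [Finset.sum_const, Finset.card_univ, Fintype.card_fin, nsmul_eq_mul]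
  have hDg0 : (0 : ℝ) ≤ Dg := Nat.cast_nonneg _
  have hl1 : 1 ≤ l1 f := one_le_l1 hf0
  have hlogl1 : Real.log (l1 f) ≤ (k + 5) * Dg * L := by
    calc Real.log (l1 f) ≤ Real.log ((T : ℝ) ^ ((k + 5) * Dg)) :=
          Real.log_le_log (by linarith) hfl1
      _ = (k + 5) * Dg * L := by
          rw [Real.log_pow, ← hL]
          push_cast
          ring
  have hDmL0 : 0 ≤ Dm * L := by positivity
  have hlogl1' : Real.log (l1 f) ≤ (k + 5) * m * (Dm * L) := by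
    refine hlogl1.trans ?_
    have h1 : (Dg : ℝ) * L ≤ m * Dm * L := mul_le_mul_of_nonneg_right hDgm hL0.le
    have h2 : (0 : ℝ) ≤ (k : ℝ) + 5 := by positivity
    calc (k + 5) * Dg * L = (k + 5) * ((Dg : ℝ) * L) := by ring
      _ ≤ (k + 5) * (m * Dm * L) := mul_le_mul_of_nonneg_left h1 h2
      _ = _ := by ring
  have hdsep : ∀ i j, i < j → (d i : ℝ) ≤ c0 * d j := by
    intro i j hij
    have h1 := hsep' i j hij
    have h2 := hdle i
    have h3 : (d i : ℝ) * h i ≤ Y := hdY i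
    have h4 := hdlow j
    have h5 := hh0 j
    -- d_i (2/c0) h_j ≤ d_i h_i ≤ Y ≤ d_j h_j / (1 - eta) ≤ (4/3) d_j h_j
    have h6 : (d i : ℝ) * (2 / c0 * h j) ≤ Y :=
      (mul_le_mul_of_nonneg_left h1 (Nat.cast_nonneg _)).trans h3
    have h7 : 3 / 4 * Y ≤ (1 - eta) * Y := mul_le_mul_of_nonneg_right (by linarith) hY0.le
    have h8 : (d i : ℝ) * (2 / c0) * h j ≤ 2 * d j * h j := by
      have e1 : (d i : ℝ) * (2 / c0) * h j = (d i : ℝ) * (2 / c0 * h j) := by ring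
      have e2 : 2 * (d j : ℝ) * h j = 2 * ((d j : ℝ) * h j) := by ring
      rw [e1, e2]
      linarith
    have h9 : (d i : ℝ) * (2 / c0) ≤ 2 * d j := le_of_mul_le_mul_right h8 h5
    have h10 : (d i : ℝ) * (2 / c0) * c0 ≤ 2 * d j * c0 := mul_le_mul_of_nonneg_right h9 hc0.le
    have h11 : (d i : ℝ) * (2 / c0) * c0 = 2 * d i := by
      field_simp
    rw [h11] at h10
    linarith
  obtain ⟨e, hwte, hne⟩ := hroth d r f Dm hDm1 (fun j => (by norm_num : 1 ≤ 100).trans (hd100 j)) hdDm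
    hdsep hf0 hfdeg (by
      intro j
      have h1 := hdlow j
      rw [← hhj]
      have h2 : Dm ≤ 2 * (Dm * L) := by
        have := mul_le_mul_of_nonneg_left hL12 (by linarith : 0 ≤ Dm)
        linarith
      have h3 : Real.log (l1 f) + Dm ≤ (((k : ℝ) + 5) * m + 2) * (Dm * L) := by
        have e1 : (((k : ℝ) + 5) * m + 2) * (Dm * L) =
          (k + 5) * m * (Dm * L) + 2 * (Dm * L) := by ring
        rw [e1]
        linarith
      have h4 : (((k : ℝ) + 5) * m + 2) * (Dm * L) ≤ C * (3 / 4 * c0) * (Dm * L) :=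
        mul_le_mul_of_nonneg_right hCc hDmL0
      have h5 : C * (3 / 4 * c0) * (Dm * L) ≤ 3 / 4 * c0 * Y := by
        have : C * (3 / 4 * c0) * (Dm * L) = 3 / 4 * c0 * (C * (Dm * L)) := by ring
        rw [this]
        exact mul_le_mul_of_nonneg_left hDmL (by positivity)
      have h6 : 3 / 4 * Y ≤ (d j : ℝ) * h j := by
        have : 3 / 4 * Y ≤ (1 - eta) * Y := mul_le_mul_of_nonneg_right (by linarith) hY0.le
        linarith
      have h7 : 3 / 4 * c0 * Y ≤ c0 * ((d j : ℝ) * h j) := by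
        have := mul_le_mul_of_nonneg_left h6 hc0.le
        linarith
      linarith)
  -- lower bound
  have hlow := eval_lower d r f hfdeg e hne
  -- upper bound
  have hcl : ∀ j, |(r j : ℝ) - alp n b b0 th mu v j| ≤ Real.exp (-(kap * h j - 2 * L)) ∧
      0 ≤ alp n b b0 th mu v j ∧ alp n b b0 th mu v j ≤ (T : ℝ) ^ 2 := by
    intro j
    rw [hhj, hL]
    refine close n b (vx b0 mu (v j)) T hn hT2 hb hbT (hvx1 _) (hvx _) th kap ((T : ℝ) ^ C) ?_ ?_
      (r j) (hexc j)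
    · rw [div_le_iff₀ hT0, mul_comm]
      have h1 : 1 / th ≤ T := hCth'.trans hCTR
      exact (div_le_iff₀ hth).1 h1
    · exact hCth.trans hCTR
  have hLam0 : 0 ≤ kap * (1 - eta) * Y - 2 * L * Dm := by
    have h1 : 3 ≤ kap * (1 - eta) := aux_kap hkap heta4
    have h2 : 2 * (Dm * L) ≤ C * (Dm * L) := mul_le_mul_of_nonneg_right hC2 hDmL0
    have h3 : 3 * Y ≤ kap * (1 - eta) * Y := mul_le_mul_of_nonneg_right h1 hY0.le
    have h4 : 2 * L * Dm = 2 * (Dm * L) := by ring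
    rw [h4]
    linarith
  have hup := eval_upper d (fun j => (by norm_num : 1 ≤ 100).trans (hd100 j)) f hfdeg
    (alp n b b0 th mu v) (fun j => (r j : ℝ)) ((T : ℝ) ^ 2)
    (one_le_pow₀ (by linarith)) (fun j => by
      rw [abs_of_nonneg (hcl j).2.1]
      exact (hcl j).2.2) (m / 4) hfvan
    (fun j => kap * h j - 2 * L) (fun j => by
      have h1 := hhC j
      have h2 : 2 * L ≤ C * L := mul_le_mul_of_nonneg_right hC2 hL0.le
      have h3 := mul_le_mul_of_nonneg_right hkap.le (hh0 j).le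
      have h4 := hh0 j
      linarith) (fun j => (hcl j).1) (kap * (1 - eta) * Y - 2 * L * Dm) hLam0 (fun j => by
      have h1 := mul_le_mul_of_nonneg_left (hdlow j) (by linarith : 0 ≤ kap)
      have h2 := mul_le_mul_of_nonneg_left (hdDm j) hL0.le
      have h3 : (kap * h j - 2 * L) * d j = kap * ((d j : ℝ) * h j) - 2 * (L * d j) := by ring
      have h4 : kap * (1 - eta) * Y - 2 * L * Dm = kap * ((1 - eta) * Y) - 2 * (L * Dm) := by ring
      rw [h3, h4]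
      linarith) e
  rw [cast_coeff] at hup
  have hall := hlow.trans hup
  rw [← hDg] at hall
  have hl0 : 0 < l1 f := by linarith
  have hlog := Real.log_le_log (Real.exp_pos _) hall
  rw [Real.log_exp, Real.log_mul (by positivity) (Real.exp_pos _).ne', Real.log_exp,
    Real.log_mul (by positivity) hl0.ne', Real.log_pow, Real.log_mul (by norm_num) (by positivity),
    Real.log_pow, ← hL] at hlog
  have hlog8 : Real.log 8 ≤ 3 * L := by
    have : Real.log 8 = 3 * Real.log 2 := by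
      rw [show (8 : ℝ) = 2 ^ 3 by norm_num, Real.log_pow]
      push_cast
      ring
    rw [this]
    linarith
  have hsum : ∑ j, (d j : ℝ) * Real.log (ht (r j)) ≤ m * Y := by
    calc ∑ j, (d j : ℝ) * Real.log (ht (r j)) = ∑ j, (d j : ℝ) * h j :=
          Finset.sum_congr rfl fun j _ => by rw [hhj]
      _ ≤ ∑ _j : Fin m, Y := Finset.sum_le_sum fun j _ => hdY j
      _ = m * Y := by rw [Finset.sum_const, Finset.card_univ, Fintype.card_fin, nsmul_eq_mul]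
  have hX1 : (Dg : ℝ) * (Real.log 8 + (2 : ℕ) * L) ≤ m * (5 * (Dm * L)) := by
    have h1 : Real.log 8 + (2 : ℕ) * L ≤ 5 * L := by
      push_cast
      linarith
    calc (Dg : ℝ) * (Real.log 8 + (2 : ℕ) * L) ≤ Dg * (5 * L) :=
          mul_le_mul_of_nonneg_left h1 hDg0
      _ ≤ (m * Dm) * (5 * L) := mul_le_mul_of_nonneg_right hDgm (by positivity)
      _ = _ := by ring
  have hX2 : (kap * (1 - eta) * Y - 2 * L * Dm) * (m / 4 * (1 - eta)) ≤
      (kap * (1 - eta) * Y - 2 * L * Dm) * (m / 4 - wt d e) := by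
    refine mul_le_mul_of_nonneg_left ?_ hLam0
    linarith
  have hkey : m * Y * (1 + lam / 2) ≤ m * (k + 11) * (Dm * L) + m * Y := by
    have e1 : (kap * (1 - eta) * Y - 2 * L * Dm) * (m / 4 * (1 - eta)) =
        m * Y * ((kap / 4) * (1 - eta) ^ 2) - m * (Dm * L) * ((1 - eta) / 2) := by ring
    have e2 : 1 + lam / 2 ≤ (kap / 4) * (1 - eta) ^ 2 := by
      have e3 : kap / 4 = 1 + lam := by rw [hlamd]; ring
      rw [e3]
      exact aux_sq hlam.le hetal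
    have e4 : m * Y * (1 + lam / 2) ≤ m * Y * ((kap / 4) * (1 - eta) ^ 2) :=
      mul_le_mul_of_nonneg_left e2 (by positivity)
    have e5 : m * (Dm * L) * ((1 - eta) / 2) ≤ m * (Dm * L) * 1 :=
      mul_le_mul_of_nonneg_left (by linarith) (by positivity)
    have e6 : (m : ℝ) * (k + 11) * (Dm * L) =
        m * (5 * (Dm * L)) + (k + 5) * m * (Dm * L) + m * (Dm * L) * 1 := by ring
    rw [e6]
    rw [e1] at hX2
    exact aux_fin hlog hsum hX1 hlogl1' hX2 e4 e5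
  have hkey2 : Y * (lam / 2) ≤ (k + 11) * (Dm * L) := by
    have e1 : m * (Y * (lam / 2)) ≤ m * ((k + 11) * (Dm * L)) := by
      have e2 : (m : ℝ) * Y * (1 + lam / 2) = m * (Y * (lam / 2)) + m * Y := by ring
      have e3 : (m : ℝ) * (k + 11) * (Dm * L) = m * ((k + 11) * (Dm * L)) := by ring
      rw [e2, e3] at hkey
      linarith
    exact le_of_mul_le_mul_left e1 (by linarith)
  have hkey3 : C * (Y * (lam / 2)) ≤ (k + 11) * Y := by
    calc C * (Y * (lam / 2)) ≤ C * ((k + 11) * (Dm * L)) :=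
          mul_le_mul_of_nonneg_left hkey2 (by linarith)
      _ = (k + 11) * (C * (Dm * L)) := by ring
      _ ≤ (k + 11) * Y := mul_le_mul_of_nonneg_left hDmL (by positivity)
  have hkey4 : (C * lam) * Y ≤ (2 * (k + 11)) * Y := by
    have e1 : (C * lam) * Y = 2 * (C * (Y * (lam / 2))) := by ring
    have e2 : (2 * ((k : ℝ) + 11)) * Y = 2 * ((k + 11) * Y) := by ring
    rw [e1, e2]
    linarith
  have := le_of_mul_le_mul_right hkey4 hY0
  linarith

end H4AR
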