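import Mathlib

/-!
H4/AR/NumI: numerical inequality for the Wronskian step of Roth's lemma.

PROOF. For nu ≤ del d0 / 2 the term is at least del - c - del/2 ≥ del/4. The number of nu in {0..s-1} with
nu ≤ del d0/2 is at least min(s, del d0/2) (count {nu : nu ≤ x} ∩ range s has min(s, floor(x)+1) elements), and
s ≤ d0+1 ≤ 2 d0 gives del d0/2 ≥ del s/4; also s ≥ del s/4. So the sum is at least (del s/4)(del/4) = del^2 s/16.
theta_sum_inj: if nu is injective with values ≤ s-1 it is a bijection of Fin s onto range s.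
-/

namespace H4AR

theorem theta_sum (d0 s : ℕ) (del c : ℝ) (hd : 1 ≤ d0) (hs : 1 ≤ s) (hs' : s ≤ d0 + 1) (h0 : 0 < del)
    (h1 : del ≤ 1) (hc0 : 0 ≤ c) (hc : c ≤ del / 4) :
    del ^ 2 * s / 16 ≤ ∑ nu ∈ Finset.range s, max 0 (del - c - (nu : ℝ) / d0) := by
  have hd0 : (1 : ℝ) ≤ d0 := by exact_mod_cast hd
  have hs1 : (1 : ℝ) ≤ s := by exact_mod_cast hs
  have hs2 : (s : ℝ) ≤ d0 + 1 := by exact_mod_cast hs'
  obtain ⟨N, hN⟩ : ∃ N : ℕ, N = min s (⌊del * d0 / 2⌋₊ + 1) := ⟨_, rfl⟩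
  have hNs : N ≤ s := by rw [hN]; exact min_le_left _ _
  have hN2 : del * s / 4 ≤ (N : ℝ) := by
    rw [hN, Nat.cast_min]
    refine le_min ?_ ?_
    · nlinarith
    · push_cast
      have := Nat.lt_floor_add_one (del * d0 / 2)
      nlinarith
  have h2 : ∀ nu ∈ Finset.range N, del / 4 ≤ max 0 (del - c - (nu : ℝ) / d0) := by
    intro nu hnu
    rw [Finset.mem_range] at hnu
    refine le_trans ?_ (le_max_right _ _)
    have h3 : nu ≤ ⌊del * d0 / 2⌋₊ := by
      have : N ≤ ⌊del * d0 / 2⌋₊ + 1 := by rw [hN]; exact min_le_right _ _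
      omega
    have h4 : (nu : ℝ) ≤ del * d0 / 2 := (Nat.le_floor_iff (by positivity)).1 h3
    have h5 : (nu : ℝ) / d0 ≤ del / 2 := by
      rw [div_le_iff₀ (by linarith)]
      linarith
    linarith
  calc del ^ 2 * s / 16 = (del * s / 4) * (del / 4) := by ring
    _ ≤ N * (del / 4) := mul_le_mul_of_nonneg_right hN2 (by linarith)
    _ = ∑ nu ∈ Finset.range N, del / 4 := by rw [Finset.sum_const, Finset.card_range, nsmul_eq_mul]
    _ ≤ ∑ nu ∈ Finset.range N, max 0 (del - c - (nu : ℝ) / d0) := Finset.sum_le_sum h2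
    _ ≤ ∑ nu ∈ Finset.range s, max 0 (del - c - (nu : ℝ) / d0) :=
        Finset.sum_le_sum_of_subset_of_nonneg (Finset.range_mono hNs) fun _ _ _ => le_max_left _ _

theorem theta_sum_inj (d0 s : ℕ) (del c : ℝ) (hd : 1 ≤ d0) (hs : 1 ≤ s) (hs' : s ≤ d0 + 1) (h0 : 0 < del)
    (h1 : del ≤ 1) (hc0 : 0 ≤ c) (hc : c ≤ del / 4) (nu : Fin s → ℕ) (hnu : ∀ b, nu b ≤ s - 1)
    (hinj : Function.Injective nu) :
    del ^ 2 * s / 16 ≤ ∑ b : Fin s, max 0 (del - c - (nu b : ℝ) / d0) := by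
  have h2 : Finset.univ.image nu = Finset.range s := by
    refine Finset.eq_of_subset_of_card_le ?_ ?_
    · intro x hx
      obtain ⟨b, _, rfl⟩ := Finset.mem_image.1 hx
      have := hnu b
      rw [Finset.mem_range]
      omega
    · rw [Finset.card_image_of_injective _ hinj, Finset.card_univ, Fintype.card_fin,
        Finset.card_range]
  have h3 := theta_sum d0 s del c hd hs hs' h0 h1 hc0 hc
  rw [← h2, Finset.sum_image fun _ _ _ _ h => hinj h] at h3
  exact h3

end H4AR
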