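import Pool.Agent.H4.AR.CombT
import Pool.Agent.H4.AR.Same
import Pool.Agent.H4.AR.Sep
import Pool.Agent.H4.AR.AlgD

/-!
H4/AR/NumT: quantitative version of Num (same proof as `num_thm` in Num.lean, filled on main; copy and adapt it): for all
but T/(log T)^c0 of the a ≤ T the number (th a/b)^(1/n) has no exceptional approximation.

PROOF. As in Num.lean with `comb_t k1 k2 w0` (constants c0, T0) in place of `comb k1 k2 w0 eps`: none of the numbers
k1, k2, w0, C1, C2 depends on eps. C = C1 + C2 + T0 + 3. If E has more than T/(log T)^c0 elements, comb_t gives one of the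
two cubes and each of them contradicts `same_scale` or `separated`.
-/

namespace H4AR

private theorem ex_k (n D : ℕ) : ∃ k : ℕ, 2 * (D : ℝ) * (n : ℝ) ^ (2 * k + 1) * (7 / 10 : ℝ) ^ (2 ^ k) ≤ 1 := by
  have h1 : Filter.Tendsto (fun m : ℕ => (m : ℝ) ^ (2 * n) * (7 / 10 : ℝ) ^ m) Filter.atTop (nhds 0) :=
    tendsto_pow_const_mul_const_pow_of_abs_lt_one (2 * n) (by rw [abs_of_pos] <;> norm_num)
  have h2 : Filter.Tendsto (fun k : ℕ => 2 ^ k) Filter.atTop Filter.atTop :=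
    tendsto_pow_atTop_atTop_of_one_lt (by norm_num : (1 : ℕ) < 2)
  have h3 := (h1.comp h2).const_mul (2 * (D : ℝ) * 2 ^ n)
  rw [mul_zero] at h3
  obtain ⟨k, hk⟩ := (h3.eventually (gt_mem_nhds (zero_lt_one (α := ℝ)))).exists
  refine ⟨k, le_trans ?_ hk.le⟩
  have h4 : (n : ℝ) ≤ 2 ^ n := by exact_mod_cast (Nat.lt_two_pow_self (n := n)).le
  have h5 : (n : ℝ) ^ (2 * k + 1) ≤ 2 ^ n * ((2 : ℝ) ^ k) ^ (2 * n) := by
    calc (n : ℝ) ^ (2 * k + 1) ≤ ((2 : ℝ) ^ n) ^ (2 * k + 1) := pow_le_pow_left₀ (by positivity) h4 _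
      _ = 2 ^ n * ((2 : ℝ) ^ k) ^ (2 * n) := by
          rw [← pow_mul, ← pow_mul, ← pow_add]
          congr 1
          ring
  simp only [Function.comp_apply]
  push_cast
  calc 2 * (D : ℝ) * (n : ℝ) ^ (2 * k + 1) * (7 / 10 : ℝ) ^ (2 ^ k)
      ≤ 2 * (D : ℝ) * (2 ^ n * ((2 : ℝ) ^ k) ^ (2 * n)) * (7 / 10 : ℝ) ^ (2 ^ k) := by
        refine mul_le_mul_of_nonneg_right (mul_le_mul_of_nonneg_left h5 (by positivity)) (by positivity)
    _ = _ := by ring

/-- sort the vertices by decreasing value -/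
private theorem ex_sort (k : ℕ) (x : (Fin k → Bool) → ℝ) :
    ∃ s : Fin (2 ^ k) → (Fin k → Bool), Function.Injective s ∧ ∀ i j, i ≤ j → x (s j) ≤ x (s i) := by
  have hc : Fintype.card (Fin k → Bool) = 2 ^ k := by simp
  let e0 : Fin (2 ^ k) ≃ (Fin k → Bool) := (Fintype.equivFinOfCardEq hc).symm
  let f : Fin (2 ^ k) → ℝ := fun i => -(x (e0 i))
  refine ⟨fun i => e0 (Tuple.sort f i), ?_, ?_⟩
  · exact e0.injective.comp (Tuple.sort f).injective
  · intro i j hij
    have h := Tuple.monotone_sort f hij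
    simp only [Function.comp_apply, f] at h
    linarith

private theorem Exc.mono {n b a : ℕ} {th kap B B' : ℝ} {r : ℚ} (h : Exc n b a th kap B r) (hB : B' ≤ B) :
    Exc n b a th kap B' r := ⟨h.1, hB.trans h.2.1, h.2.2⟩

theorem num_t (n : ℕ) (hn : 2 ≤ n) (kap : ℝ) (hkap : 4 < kap) (P : Polynomial ℤ) (hP : P ≠ 0) (th : ℝ)
    (hth : 0 < th) (hroot : Polynomial.aeval th P = 0) :
    ∃ (C : ℕ) (c0 : ℝ), 0 < c0 ∧ ∀ T : ℕ, C ≤ T → ∀ b : ℕ, 1 ≤ b → b ≤ T → ∀ E : Finset ℕ, E ⊆ Finset.Icc 1 T →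
      (∀ a ∈ E, ∃ r : ℚ, Exc n b a th kap ((T : ℝ) ^ C) r) → (E.card : ℝ) ≤ (T : ℝ) / (Real.log T) ^ c0 := by
  classical
  obtain ⟨D, c, B, w, hD, hc, -, hcB, hw, hwB⟩ := alg_data P hP th hroot
  obtain ⟨k1, C1, del, hk1, hdel, same⟩ := same_scale n hn kap hkap th hth
  obtain ⟨k2, hk2⟩ := ex_k n D
  obtain ⟨C2, Om, hOm, sep⟩ := separated n k2 (2 ^ k2) D (by omega) Nat.one_le_two_pow hD hk2 kap hkap
    th hth c hc B hcB w hw hwB
  obtain ⟨w0, hw0⟩ := exists_nat_ge (Real.log Om / Real.log (1 + del))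
  obtain ⟨c0, T0, hc0, hT0⟩ := comb_t k1 k2 w0
  refine ⟨C1 + C2 + T0 + 3, c0, hc0, ?_⟩
  intro T hT b hb hbT E hE hex
  by_contra hcon
  push Not at hcon
  choose! r hr using hex
  have hT3 : (3 : ℝ) ≤ T := by
    have : 3 ≤ T := by omega
    exact_mod_cast this
  have hT1 : (1 : ℝ) ≤ T := by linarith
  have hL : 0 < Real.log (1 + del) := Real.log_pos (by linarith)
  -- sizes
  have hx : ∀ a ∈ E, 0 < Real.log (ht (r a)) := by
    intro a ha
    have h1 : (T : ℝ) ≤ (T : ℝ) ^ (C1 + C2 + T0 + 3) := le_self_pow₀ hT1 (by omega)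
    have h2 := (hr a ha).2.1
    exact Real.log_pos (by linarith)
  set col : ℕ → ℤ := fun a => ⌊Real.log (Real.log (ht (r a))) / Real.log (1 + del)⌋ with hcol
  have hp1 : (T : ℝ) ^ C1 ≤ (T : ℝ) ^ (C1 + C2 + T0 + 3) := pow_le_pow_right₀ hT1 (by omega)
  have hp2 : (T : ℝ) ^ C2 ≤ (T : ℝ) ^ (C1 + C2 + T0 + 3) := pow_le_pow_right₀ hT1 (by omega)
  rcases hT0 T (by omega) E hE hcon col with ⟨b0, p, hb0, hpp, hpne, hv, heq⟩ | ⟨b0, mu, hb0, hmu, hv, hfar⟩
  · refine same T (by omega) b hb hbT b0 p hb0 hpp hpne (fun v => (Finset.mem_Icc.mp (hE (hv v))).2)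
      (fun v => r (vx b0 p v)) (fun v => (hr _ (hv v)).mono hp1) ?_
    intro v v'
    have h1 := heq v' v
    have h2 := Int.floor_eq_iff.mp h1
    have h3 := Int.floor_le (Real.log (Real.log (ht (r (vx b0 p v)))) / Real.log (1 + del))
    have h4 : Real.log (Real.log (ht (r (vx b0 p v')))) / Real.log (1 + del) <
        Real.log (Real.log (ht (r (vx b0 p v)))) / Real.log (1 + del) + 1 := by
      have := h2.2
      simp only [hcol] at this
      linarith
    have h5 : Real.log (Real.log (ht (r (vx b0 p v')))) <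
        Real.log (Real.log (ht (r (vx b0 p v)))) + Real.log (1 + del) := by
      have h6 := mul_lt_mul_of_pos_right h4 hL
      rw [add_mul, one_mul, div_mul_cancel₀ _ hL.ne', div_mul_cancel₀ _ hL.ne'] at h6
      exact h6
    have h7 := hx _ (hv v)
    have h8 := hx _ (hv v')
    rw [← Real.log_mul h7.ne' (by linarith)] at h5
    have h9 := (Real.log_lt_log_iff h8 (by positivity)).mp h5
    linarith
  · obtain ⟨s, hsinj, hsort⟩ := ex_sort k2 (fun v => Real.log (ht (r (vx b0 mu v))))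
    refine sep T (by omega) b b0 hb hbT hb0 mu hmu (fun v => (Finset.mem_Icc.mp (hE (hv v))).2) s
      (fun j => r (vx b0 mu (s j))) (fun j => (hr _ (hv _)).mono hp2) ?_
    intro i j hij
    have h7 := hx _ (hv (s i))
    have h8 := hx _ (hv (s j))
    have hle := hsort i j hij.le
    have hne : s i ≠ s j := fun h => hij.ne (hsinj h)
    have h1 := hfar _ _ hne
    simp only [hcol] at h1
    set X := Real.log (Real.log (ht (r (vx b0 mu (s i))))) / Real.log (1 + del) with hX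
    set Y := Real.log (Real.log (ht (r (vx b0 mu (s j))))) / Real.log (1 + del) with hY
    have hYX : Y ≤ X := div_le_div_of_nonneg_right (Real.log_le_log h8 hle) hL.le
    have hfl : ⌊Y⌋ ≤ ⌊X⌋ := Int.floor_le_floor hYX
    rw [abs_of_nonneg (by omega)] at h1
    have h2 : (w0 : ℤ) + 1 ≤ ⌊X⌋ - ⌊Y⌋ := by omega
    have h3 : (w0 : ℝ) + 1 ≤ (⌊X⌋ : ℝ) - (⌊Y⌋ : ℝ) := by exact_mod_cast h2
    have h4 := Int.floor_le X
    have h5 := Int.lt_floor_add_one Y
    have h6 : (w0 : ℝ) ≤ X - Y := by linarith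
    have h9 : Real.log Om / Real.log (1 + del) ≤ X - Y := hw0.trans h6
    rw [div_le_iff₀ hL, sub_mul, hX, hY, div_mul_cancel₀ _ hL.ne', div_mul_cancel₀ _ hL.ne'] at h9
    have h10 : Real.log (Om * Real.log (ht (r (vx b0 mu (s j))))) ≤
        Real.log (Real.log (ht (r (vx b0 mu (s i))))) := by
      rw [Real.log_mul (by linarith) h8.ne']
      linarith
    exact (Real.log_le_log_iff (by positivity) h7).mp h10

end H4AR
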