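import Pool.Agent.H4.AR.Def

/-!
H4/AR/RothDef: the statement of Roth's lemma in m variables (rational points). Variable 0 has the smallest degree.
-/

namespace H4AR

open MvPolynomial

/-- Roth's lemma in `m` variables: for every `del > 0` there is `c > 0` such that: if the degrees `d_0 ≤ c d_1`,
`d_1 ≤ c d_2`, ... are widely separated, `d_j ≤ D`, and log l1(f) + D ≤ c d_j log ht(r_j) for all j, then an integer
polynomial f ≠ 0 with deg_j f ≤ d_j has index at most `del` at the rational point r with respect to d. -/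
def RothP (m : ℕ) : Prop :=
  ∀ del : ℝ, 0 < del → ∃ c : ℝ, 0 < c ∧ c ≤ 1 ∧
    ∀ (d : Fin m → ℕ) (r : Fin m → ℚ) (f : MvPolynomial (Fin m) ℤ) (D : ℝ), 1 ≤ D →
      (∀ j, 1 ≤ d j) → (∀ j, (d j : ℝ) ≤ D) → (∀ i j, i < j → (d i : ℝ) ≤ c * d j) → f ≠ 0 →
      (∀ j, f.degreeOf j ≤ d j) →
      (∀ j, Real.log (l1 f) + D ≤ c * ((d j : ℝ) * Real.log (ht (r j)))) →
      ∃ e : Fin m →₀ ℕ, wt d e ≤ del ∧ (sh r (toQ f)).coeff e ≠ 0

end H4AR
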