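import Pool.Agent.H4.AR.NumT
import Pool.Agent.H4.AR.NthD

/-!
H4/AR/SetT: the exceptional set. (Quantitative version of the private lemma fin_set of Fin.lean, filled on main.)
-/

namespace H4AR

private theorem st_roots (P : Polynomial ℤ) (hP : P ≠ 0) :
    {th : ℝ | 0 < th ∧ (Polynomial.aeval th P = 0 ∨ Polynomial.aeval (-th) P = 0)}.Finite := by
  have h1 : {th : ℝ | Polynomial.aeval th P = 0}.Finite := by
    refine (Polynomial.rootSet_finite P ℝ).subset fun th hth => ?_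
    exact (Polynomial.mem_rootSet).2 ⟨hP, hth⟩
  have h2 : {th : ℝ | Polynomial.aeval (-th) P = 0}.Finite := by
    have h3 : ((fun x : ℝ => -x) '' {th : ℝ | Polynomial.aeval th P = 0}).Finite := h1.image _
    refine h3.subset fun th hth => ?_
    exact ⟨-th, hth, neg_neg th⟩
  refine (h1.union h2).subset fun th hth => ?_
  exact hth.2

private theorem st_neg (P : Polynomial ℤ) (hP : P ≠ 0) : P.comp (-Polynomial.X) ≠ 0 := by
  intro h
  apply hP
  have h1 : (P.comp (-Polynomial.X)).comp (-Polynomial.X) = P := by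
    rw [Polynomial.comp_assoc]
    simp
  rw [← h1, h, Polynomial.zero_comp]

private theorem st_num (n : ℕ) (hn : 2 ≤ n) (kap : ℝ) (hkap : 4 < kap) (P : Polynomial ℤ) (hP : P ≠ 0) (th : ℝ)
    (hth : 0 < th) (hroot : Polynomial.aeval th P = 0 ∨ Polynomial.aeval (-th) P = 0) :
    ∃ (C : ℕ) (c0 : ℝ), 0 < c0 ∧ ∀ T : ℕ, C ≤ T → ∀ b : ℕ, 1 ≤ b → b ≤ T → ∀ E : Finset ℕ, E ⊆ Finset.Icc 1 T →
      (∀ a ∈ E, ∃ r : ℚ, Exc n b a th kap ((T : ℝ) ^ C) r) → (E.card : ℝ) ≤ (T : ℝ) / (Real.log T) ^ c0 := by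
  rcases hroot with h | h
  · exact num_t n hn kap hkap P hP th hth h
  · refine num_t n hn kap hkap (P.comp (-Polynomial.X)) (st_neg P hP) th hth ?_
    rw [Polynomial.aeval_comp]
    simpa using h

private theorem st_alg (K T L x y : ℝ) (hK : 0 ≤ K) (hT : 0 < T) (hp : 0 < L) (hx0 : 0 < x) (hy : 0 < y)
    (h1 : 2 * K ≤ L) (g3 : L ≤ 1 / (6 * (K + 1)) * y) (hT3 : T = x * y) :
    K * (T / (L * L) + 3 * x) ≤ T / L := by
  have e1 : K * (T / (L * L)) ≤ (1 / 2) * (T / L) := by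
    have : K * (T / (L * L)) = (K / L) * (T / L) := by
      field_simp
    rw [this]
    apply mul_le_mul_of_nonneg_right _ (by positivity)
    rw [div_le_iff₀ hp]
    linarith
  have e2 : K * (3 * x) ≤ (1 / 2) * (T / L) := by
    have h5 : K * (3 * x) * L ≤ (1 / 2) * T := by
      have h6 : K * 3 * L ≤ (1 / 2) * y := by
        calc K * 3 * L ≤ K * 3 * (1 / (6 * (K + 1)) * y) := by
              apply mul_le_mul_of_nonneg_left g3 (by positivity)
          _ = (1 / 2) * y * (K / (K + 1)) := by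
              field_simp
              ring
          _ ≤ (1 / 2) * y * 1 := by
              apply mul_le_mul_of_nonneg_left _ (by positivity)
              rw [div_le_one (by positivity)]
              linarith
          _ = (1 / 2) * y := mul_one _
      calc K * (3 * x) * L = x * (K * 3 * L) := by ring
        _ ≤ x * ((1 / 2) * y) := by
            apply mul_le_mul_of_nonneg_left h6 hx0.le
        _ = (1 / 2) * (x * y) := by ring
        _ = (1 / 2) * T := by rw [← hT3]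
    rw [← mul_div_assoc, le_div_iff₀ hp]
    exact h5
  calc K * (T / (L * L) + 3 * x) = K * (T / (L * L)) + K * (3 * x) := by ring
    _ ≤ (1 / 2) * (T / L) + (1 / 2) * (T / L) := add_le_add e1 e2
    _ = T / L := by ring

private theorem st_asym (K : ℕ) (c1 : ℝ) (hc1 : 0 < c1) :
    ∃ C : ℕ, ∀ T : ℕ, C ≤ T → 1 ≤ T ∧ 1 ≤ Real.log T ∧
      (K : ℝ) * ((T : ℝ) / (Real.log T) ^ c1 + 3 * (T : ℝ) ^ ((2 : ℝ) / 3)) ≤
        (T : ℝ) / (Real.log T) ^ (c1 / 2) := by
  have hc2 : 0 < c1 / 2 := by linarith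
  have hlog : Filter.Tendsto (fun T : ℕ => Real.log (T : ℝ)) Filter.atTop Filter.atTop :=
    Real.tendsto_log_atTop.comp tendsto_natCast_atTop_atTop
  have h1 : ∀ᶠ T : ℕ in Filter.atTop, 2 * (K : ℝ) ≤ (Real.log T) ^ (c1 / 2) :=
    ((tendsto_rpow_atTop hc2).comp hlog).eventually_ge_atTop _
  have h2 : ∀ᶠ T : ℕ in Filter.atTop, (1 : ℝ) ≤ Real.log T := hlog.eventually_ge_atTop _
  have h3 : ∀ᶠ T : ℕ in Filter.atTop, ‖(Real.log (T : ℝ)) ^ (c1 / 2)‖ ≤
      (1 / (6 * ((K : ℝ) + 1))) * ‖(T : ℝ) ^ ((1 : ℝ) / 3)‖ :=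
    tendsto_natCast_atTop_atTop.eventually
      ((isLittleO_log_rpow_rpow_atTop (c1 / 2) (by norm_num : (0 : ℝ) < 1 / 3)).def (by positivity))
  obtain ⟨C, hC⟩ := Filter.eventually_atTop.1 (h1.and (h2.and (h3.and (Filter.eventually_ge_atTop 1))))
  refine ⟨C, fun T hT => ?_⟩
  obtain ⟨g1, g2, g3, g4⟩ := hC T hT
  refine ⟨g4, g2, ?_⟩
  have hT1 : (1 : ℝ) ≤ T := by exact_mod_cast g4
  have hT0 : (0 : ℝ) < T := by linarith
  have hl0 : 0 < Real.log T := by linarith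
  have hp : 0 < (Real.log T) ^ (c1 / 2) := Real.rpow_pos_of_pos hl0 _
  have hq : 0 < (T : ℝ) ^ ((1 : ℝ) / 3) := Real.rpow_pos_of_pos hT0 _
  rw [Real.norm_of_nonneg hp.le, Real.norm_of_nonneg hq.le] at g3
  have hsq : (Real.log T) ^ c1 = (Real.log T) ^ (c1 / 2) * (Real.log T) ^ (c1 / 2) := by
    rw [← Real.rpow_add hl0]
    congr 1
    ring
  have hT3 : (T : ℝ) = (T : ℝ) ^ ((2 : ℝ) / 3) * (T : ℝ) ^ ((1 : ℝ) / 3) := by
    rw [← Real.rpow_add hT0]
    norm_num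
  rw [hsq]
  exact st_alg K T _ _ _ (Nat.cast_nonneg K) hT0 hp (Real.rpow_pos_of_pos hT0 _) hq g1 g3 hT3

theorem set_t (n : ℕ) (hn : 2 ≤ n) (kap : ℝ) (hkap : 4 < kap) (P : Polynomial ℤ) (hP : P ≠ 0) :
    ∃ (CN C0 : ℕ) (c : ℝ), 0 < c ∧ ∀ T : ℕ, C0 ≤ T → ∀ b : ℕ, 1 ≤ b → b ≤ T →
      ∃ E : Finset ℕ, (E.card : ℝ) ≤ (T : ℝ) / (Real.log T) ^ c ∧
        ∀ a : ℕ, 1 ≤ a → a ≤ T → a ∉ E → ∀ th : ℝ, 0 < th →
          (Polynomial.aeval th P = 0 ∨ Polynomial.aeval (-th) P = 0) →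
          ¬ ((∃ r : ℚ, 0 < r ∧ (b : ℝ) * (r : ℝ) ^ n = th * (a : ℝ)) ∨
            ∃ r : ℚ, Exc n b a th kap ((T : ℝ) ^ CN) r) := by
  classical
  set R : Finset ℝ := (st_roots P hP).toFinset with hR
  have hmem : ∀ th : ℝ, th ∈ R ↔
      0 < th ∧ (Polynomial.aeval th P = 0 ∨ Polynomial.aeval (-th) P = 0) := by
    intro th
    rw [hR, Set.Finite.mem_toFinset]
    exact Iff.rfl
  have hex : ∀ th : ℝ, ∃ (C : ℕ) (c0 : ℝ), 0 < c0 ∧ (th ∈ R → ∀ T : ℕ, C ≤ T → ∀ b : ℕ, 1 ≤ b → b ≤ T →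
      ∀ E : Finset ℕ, E ⊆ Finset.Icc 1 T →
      (∀ a ∈ E, ∃ r : ℚ, Exc n b a th kap ((T : ℝ) ^ C) r) → (E.card : ℝ) ≤ (T : ℝ) / (Real.log T) ^ c0) := by
    intro th
    by_cases h : th ∈ R
    · obtain ⟨C, c0, hc0, hC⟩ := st_num n hn kap hkap P hP th ((hmem th).1 h).1 ((hmem th).1 h).2
      exact ⟨C, c0, hc0, fun _ => hC⟩
    · exact ⟨0, 1, one_pos, fun hh => absurd hh h⟩
  choose f g hg hf using hex
  -- a common exponent
  obtain ⟨c1, hc1, hc1g⟩ : ∃ c1 : ℝ, 0 < c1 ∧ ∀ th ∈ R, c1 ≤ g th := by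
    have : ∀ S : Finset ℝ, ∃ c1 : ℝ, 0 < c1 ∧ ∀ th ∈ S, c1 ≤ g th := by
      intro S
      induction S using Finset.induction_on with
      | empty => exact ⟨1, one_pos, fun th hth => absurd hth (Finset.notMem_empty th)⟩
      | insert x S _ ih =>
        obtain ⟨c1, h1, h2⟩ := ih
        refine ⟨min c1 (g x), lt_min h1 (hg x), fun th hth => ?_⟩
        rcases Finset.mem_insert.1 hth with h | h
        · rw [h]
          exact min_le_right _ _
        · exact (min_le_left _ _).trans (h2 th h)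
    exact this R
  obtain ⟨C1, hC1⟩ := st_asym R.card c1 hc1
  refine ⟨R.sup f + 1, R.sup f + 1 + C1, c1 / 2, by linarith, fun T hT b hb hbT => ?_⟩
  obtain ⟨hT1, hlog1, hfin⟩ := hC1 T (by omega)
  have hT1R : (1 : ℝ) ≤ T := by exact_mod_cast hT1
  set A : ℝ → Finset ℕ := fun th => (Finset.Icc 1 T).filter
    (fun a => ∃ r : ℚ, Exc n b a th kap ((T : ℝ) ^ (R.sup f + 1)) r) with hA
  set B : ℝ → Finset ℕ := fun th => (Finset.Icc 1 T).filter
    (fun a => ∃ r : ℚ, 0 < r ∧ (b : ℝ) * (r : ℝ) ^ n = th * (a : ℝ)) with hB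
  refine ⟨R.biUnion (fun th => A th ∪ B th), ?_, ?_⟩
  · have h1 : ((R.biUnion (fun th => A th ∪ B th)).card : ℝ) ≤
        ∑ th ∈ R, (((A th).card : ℝ) + ((B th).card : ℝ)) := by
      have h2 : (R.biUnion (fun th => A th ∪ B th)).card ≤
          ∑ th ∈ R, ((A th).card + (B th).card) := by
        refine Finset.card_biUnion_le.trans ?_
        apply Finset.sum_le_sum
        intro th _
        exact Finset.card_union_le _ _
      exact_mod_cast h2
    have h3 : ∑ th ∈ R, (((A th).card : ℝ) + ((B th).card : ℝ)) ≤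
        ∑ th ∈ R, ((T : ℝ) / (Real.log T) ^ c1 + 3 * (T : ℝ) ^ ((2 : ℝ) / 3)) := by
      apply Finset.sum_le_sum
      intro th hth
      apply add_le_add
      · have hle : f th ≤ R.sup f + 1 := (Finset.le_sup hth).trans (Nat.le_succ _)
        have h4 : ((A th).card : ℝ) ≤ (T : ℝ) / (Real.log T) ^ (g th) := by
          refine hf th hth T (by omega) b hb hbT (A th) (Finset.filter_subset _ _) ?_
          intro a ha
          obtain ⟨r, h0, h1, h2⟩ := (Finset.mem_filter.1 ha).2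
          exact ⟨r, h0, (pow_le_pow_right₀ hT1R hle).trans h1, h2⟩
        refine h4.trans ?_
        apply div_le_div_of_nonneg_left (by linarith) (Real.rpow_pos_of_pos (by linarith) _)
        exact Real.rpow_le_rpow_of_exponent_le hlog1 (hc1g th hth)
      · refine nth_count_t n hn T hT1 b hb th ((hmem th).1 hth).1 (B th) (Finset.filter_subset _ _) ?_
        intro a ha
        exact (Finset.mem_filter.1 ha).2
    rw [Finset.sum_const, nsmul_eq_mul] at h3
    linarith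
  · intro a ha haT haE th hth hroot hor
    apply haE
    rw [Finset.mem_biUnion]
    refine ⟨th, (hmem th).2 ⟨hth, hroot⟩, ?_⟩
    rw [Finset.mem_union]
    rcases hor with h | h
    · right
      exact Finset.mem_filter.2 ⟨Finset.mem_Icc.2 ⟨ha, haT⟩, h⟩
    · left
      exact Finset.mem_filter.2 ⟨Finset.mem_Icc.2 ⟨ha, haT⟩, h⟩

end H4AR
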