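import Pool.Agent.H75.AP.MertensB

/-!
H4/AR/SievA: the sum of 1/m over the m ≤ T without prime factor in (y, z].

PROOF. Let Q be the set of the primes p ≤ T not in (y, z]. Every m in [1,T] without prime factor in (y,z] has all
its prime factors in Q, so the sum is at most prod_{p in Q} (1 - 1/p)^(-1) (Euler product over the Q-factored numbers; Mathlib:
`EulerProduct.prod_filter_prime_geometric_eq_tsum_factoredNumbers`, `EulerProduct.summable_and_hasSum_factoredNumbers_...`;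
or a finite argument: m is determined by its exponents, prod_{p in Q} sum_{k ≤ T} p^(-k) ≥ sum). Now
(1 - 1/p)^(-1) ≤ exp(1/p + 2/p^2) for p ≥ 2 (-log(1-u) ≤ u + u^2 for 0 ≤ u ≤ 1/2), sum 2/p^2 ≤ 4, so the product is at most
e^4 exp(sum_{p ≤ T} 1/p - sum_{y < p ≤ z} 1/p). Mertens (Pool.Agent.H75.AP: `mertens_upper`, `mertens_low`, `MertB.sum_split`,
`MertB.mem_PI`; PI u v is the set of the primes p with u < p ≤ v): sum_{p ≤ T} 1/p ≤ log log T + C1 and
sum_{y<p≤z} 1/p = sum_{p ≤ z} - sum_{p ≤ y} ≥ log log z - C2 - log log y - C1. So the sum is at most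
e^(4 + 2 C1 + C2) log T * log y/log z.
-/

namespace H4AR

open Finset Pool.Agent.H75.AP

private noncomputable def invHom : ℕ →* ℝ where
  toFun := fun n => ((n : ℝ))⁻¹
  map_one' := by simp
  map_mul' := by intro a b; push_cast; rw [mul_inv]

private lemma sum_le_prod (Q A : Finset ℕ) (hQ : ∀ q ∈ Q, q.Prime)
    (hA : ∀ m ∈ A, m ∈ Nat.factoredNumbers Q) :
    ∑ m ∈ A, (1 : ℝ) / m ≤ ∏ p ∈ Q, (1 - 1 / (p : ℝ))⁻¹ := by
  have h := EulerProduct.summable_and_hasSum_factoredNumbers_prod_filter_prime_geometric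
    (f := invHom) (by
      intro p hp
      have h2 : (1 : ℝ) < p := by exact_mod_cast hp.one_lt
      show ‖((p : ℝ))⁻¹‖ < 1
      rw [norm_inv, Real.norm_of_nonneg (by positivity)]
      exact inv_lt_one_of_one_lt₀ h2) Q
  obtain ⟨-, h2⟩ := h
  have h3 : Q.filter Nat.Prime = Q := Finset.filter_true_of_mem hQ
  rw [h3] at h2
  have h4 := sum_le_hasSum (A.subtype (· ∈ Nat.factoredNumbers Q))
    (fun m _ => by
      show (0 : ℝ) ≤ ((m : ℕ) : ℝ)⁻¹
      positivity) h2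
  have h5 : ∑ m ∈ A.subtype (· ∈ Nat.factoredNumbers Q), invHom (m : ℕ) =
      ∑ m ∈ A, (1 : ℝ) / m := by
    rw [Finset.sum_subtype_eq_sum_filter (f := fun m : ℕ => invHom m), Finset.filter_true_of_mem hA]
    refine Finset.sum_congr rfl fun m _ => ?_
    show ((m : ℝ))⁻¹ = 1 / m
    rw [one_div]
  rw [h5] at h4
  refine h4.trans (le_of_eq ?_)
  refine Finset.prod_congr rfl fun p _ => ?_
  show (1 - ((p : ℝ))⁻¹)⁻¹ = _
  rw [one_div]

private lemma factor_le {p : ℝ} (hp : 2 ≤ p) :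
    (1 - 1 / p)⁻¹ ≤ Real.exp (1 / p + 2 / p ^ 2) := by
  have hp0 : 0 < p := by linarith
  have h1 : 0 < 1 - 1 / p := by
    rw [sub_pos, div_lt_one hp0]; linarith
  rw [inv_le_comm₀ h1 (Real.exp_pos _), ← Real.exp_neg]
  -- exp(-x) ≤ 1 - u with x = u + 2 u^2
  set u : ℝ := 1 / p with hu
  have hu0 : 0 < u := by positivity
  have hu1 : u ≤ 1 / 2 := by
    rw [hu]; exact one_div_le_one_div_of_le (by norm_num) hp
  have hx : 2 / p ^ 2 = 2 * u ^ 2 := by rw [hu]; ring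
  rw [hx, Real.exp_neg]
  have h2 : u + 2 * u ^ 2 + 1 ≤ Real.exp (u + 2 * u ^ 2) := Real.add_one_le_exp _
  have h3 : 0 < u + 2 * u ^ 2 + 1 := by positivity
  have h4 : (Real.exp (u + 2 * u ^ 2))⁻¹ ≤ (u + 2 * u ^ 2 + 1)⁻¹ :=
    inv_anti₀ h3 h2
  refine h4.trans ?_
  rw [inv_le_iff_one_le_mul₀ h3]
  nlinarith [mul_pos hu0 hu0, mul_nonneg (mul_pos hu0 hu0).le (by linarith : (0 : ℝ) ≤ 1 - 2 * u)]

private lemma sum_sq (Q : Finset ℕ) (hQ : ∀ q ∈ Q, 2 ≤ q) :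
    ∑ p ∈ Q, 2 / (p : ℝ) ^ 2 ≤ 2 := by
  have key : ∀ N : ℕ, ∑ p ∈ Finset.Ico 2 (N + 2), 2 / (p : ℝ) ^ 2 ≤ 2 - 2 / ((N : ℝ) + 1) := by
    intro N
    induction N with
    | zero => simp
    | succ N ih =>
      rw [Finset.sum_Ico_succ_top (by omega)]
      have : (2 : ℝ) / ((N + 2 : ℕ) : ℝ) ^ 2 ≤ 2 / (N + 1) - 2 / (N + 2) := by
        rw [div_sub_div _ _ (by positivity) (by positivity), div_le_div_iff₀ (by positivity) (by positivity)]
        push_cast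
        nlinarith [(by positivity : (0 : ℝ) ≤ (N : ℝ))]
      have e1 : ((N + 1 : ℕ) : ℝ) + 1 = N + 2 := by push_cast; ring
      rw [e1]
      have e2 : N + 1 + 1 = N + 2 := rfl
      linarith
  obtain ⟨N, hN⟩ : ∃ N, Q ⊆ Finset.Ico 2 (N + 2) := by
    refine ⟨Q.sup id, fun q hq => ?_⟩
    rw [Finset.mem_Ico]
    have := Finset.le_sup (f := id) hq
    simp only [id] at this
    exact ⟨hQ q hq, by omega⟩
  calc ∑ p ∈ Q, 2 / (p : ℝ) ^ 2 ≤ ∑ p ∈ Finset.Ico 2 (N + 2), 2 / (p : ℝ) ^ 2 :=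
        Finset.sum_le_sum_of_subset_of_nonneg hN fun _ _ _ => by positivity
    _ ≤ 2 - 2 / ((N : ℝ) + 1) := key N
    _ ≤ 2 := by
        have : (0 : ℝ) ≤ 2 / ((N : ℝ) + 1) := by positivity
        linarith

theorem siev_a : ∃ C : ℝ, 0 < C ∧ ∀ (y z : ℝ) (T : ℕ), 3 ≤ y → y ≤ z → z ≤ T →
    ∑ m ∈ (Finset.Icc 1 T).filter (fun a : ℕ => ∀ p ∈ Pool.Agent.H75.AP.PI y z, ¬ p ∣ a), (1 : ℝ) / m ≤
      C * Real.log T * Real.log y / Real.log z := by
  obtain ⟨C1, hC1, h1⟩ := mertens_upper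
  obtain ⟨C2, hC2, h2⟩ := mertens_low
  refine ⟨Real.exp (2 + 2 * C1 + C2), Real.exp_pos _, ?_⟩
  intro y z T hy hyz hzT
  classical
  have hz : 3 ≤ z := hy.trans hyz
  have hT : (3 : ℝ) ≤ T := hz.trans hzT
  have hl : ∀ x : ℝ, 3 ≤ x → 0 < Real.log x := fun x hx => Real.log_pos (by linarith)
  set Q : Finset ℕ := PI 0 T \ PI y z with hQdef
  have hQp : ∀ q ∈ Q, q.Prime := by
    intro q hq
    rw [hQdef, Finset.mem_sdiff, MertB.mem_PI le_rfl] at hq
    exact hq.1.1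
  have hA : ∀ m ∈ (Finset.Icc 1 T).filter (fun a : ℕ => ∀ p ∈ PI y z, ¬ p ∣ a),
      m ∈ Nat.factoredNumbers Q := by
    intro m hm
    rw [Finset.mem_filter, Finset.mem_Icc] at hm
    rw [Nat.mem_factoredNumbers']
    intro p hp hpm
    rw [hQdef, Finset.mem_sdiff, MertB.mem_PI le_rfl]
    refine ⟨⟨hp, by exact_mod_cast hp.pos, ?_⟩, fun h => hm.2 p h hpm⟩
    have := Nat.le_of_dvd hm.1.1 hpm
    exact_mod_cast this.trans hm.1.2
  refine (sum_le_prod Q _ hQp hA).trans ?_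
  have hprod : ∏ p ∈ Q, (1 - 1 / (p : ℝ))⁻¹ ≤
      Real.exp (∑ p ∈ Q, (1 / (p : ℝ) + 2 / (p : ℝ) ^ 2)) := by
    rw [Real.exp_sum]
    refine Finset.prod_le_prod (fun p hp => ?_) fun p hp => ?_
    · have h2 : (1 : ℝ) < p := by exact_mod_cast (hQp p hp).one_lt
      have : 1 / (p : ℝ) < 1 := by rw [div_lt_one (by linarith)]; exact h2
      exact inv_nonneg.2 (by linarith)
    · exact factor_le (by exact_mod_cast (hQp p hp).two_le)
  refine hprod.trans ?_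
  have hsq := sum_sq Q (fun q hq => (hQp q hq).two_le)
  have hyT : PI y z ⊆ PI 0 T := by
    intro p hp
    rw [MertB.mem_PI (by linarith)] at hp
    rw [MertB.mem_PI le_rfl]
    exact ⟨hp.1, by linarith [hp.2.1], hp.2.2.trans hzT⟩
  have hS : ∑ p ∈ Q, 1 / (p : ℝ) = ∑ p ∈ PI 0 T, 1 / (p : ℝ) - ∑ p ∈ PI y z, 1 / (p : ℝ) := by
    rw [hQdef]
    have := Finset.sum_sdiff (f := fun p : ℕ => 1 / (p : ℝ)) hyT
    linarith
  have hsp := MertB.sum_split (le_refl (0 : ℝ)) (by linarith : (0 : ℝ) ≤ y) hyz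
    (fun p : ℕ => 1 / (p : ℝ))
  have hu1 := h1 T hT
  have hu2 := h1 y hy
  have hu3 := h2 z hz
  have hexp : ∑ p ∈ Q, (1 / (p : ℝ) + 2 / (p : ℝ) ^ 2) ≤
      (2 + 2 * C1 + C2) + (Real.log (Real.log T) + Real.log (Real.log y) - Real.log (Real.log z)) := by
    rw [Finset.sum_add_distrib, hS]
    linarith
  refine (Real.exp_le_exp.2 hexp).trans (le_of_eq ?_)
  have e1 : Real.exp (Real.log (Real.log T) + Real.log (Real.log y) - Real.log (Real.log z)) =
      Real.log T * Real.log y / Real.log z := by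
    rw [Real.exp_sub, Real.exp_add, Real.exp_log (hl _ hT), Real.exp_log (hl _ hy),
      Real.exp_log (hl _ hz)]
  rw [Real.exp_add, e1]
  ring

end H4AR
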