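import Pool.Agent.H4.AR.SievA

/-!
H4/AR/SievB: the number of a ≤ T without prime factor in (y, z] is at most C T log y/log z.

PROOF. Let f be the indicator function of the a ≥ 1 without prime factor in (y,z] and S = sum_{a ≤ T} f(a).
(1) For a ≥ 1: log a = sum over the prime powers q = p^k (k ≥ 1) dividing a of log p = sum_{q | a} Lambda(q)
(`ArithmeticFunction.vonMangoldt_sum`). If q m = a then f(a) ≤ f(m). So sum_{a ≤ T} f(a) log a =
sum_{a ≤ T} f(a) sum_{q m = a} Lambda(q) ≤ sum_{m ≤ T} f(m) sum_{q ≤ T/m} Lambda(q) ≤ C1 T sum_{m ≤ T} f(m)/m, by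
Chebyshev's bound sum_{q ≤ x} Lambda(q) ≤ C1 x (Mathlib: `Chebyshev.psi`, `Chebyshev.psi_le...`; e.g. psi x ≤ (log 4 + 4) x).
(2) log(T/a) ≤ T/a (log u ≤ u), so sum_{a ≤ T} f(a) log(T/a) ≤ T sum_{m ≤ T} f(m)/m.
(3) Adding: S log T ≤ (C1 + 1) T sum_{m ≤ T} f(m)/m ≤ (C1+1) C T log T log y/log z by `siev_a`; divide by log T > 0
(T ≥ z ≥ y ≥ 3).
-/

namespace H4AR

open Finset Pool.Agent.H75.AP

private lemma log_sum (a : ℕ) : Real.log a = ∑ q ∈ a.divisors, ArithmeticFunction.vonMangoldt q :=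
  ArithmeticFunction.vonMangoldt_sum.symm

private lemma sum_log_le (P : ℕ → Prop) [DecidablePred P] (hP : ∀ a m : ℕ, m ∣ a → P a → P m) (T : ℕ) :
    ∑ a ∈ (Finset.Icc 1 T).filter P, Real.log a ≤
      ∑ m ∈ (Finset.Icc 1 T).filter P, ∑ q ∈ Finset.Icc 1 (T / m), ArithmeticFunction.vonMangoldt q := by
  classical
  have h1 : ∑ a ∈ (Finset.Icc 1 T).filter P, Real.log a =
      ∑ x ∈ ((Finset.Icc 1 T).filter P).sigma (fun a => a.divisors),
        ArithmeticFunction.vonMangoldt x.2 := by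
    rw [Finset.sum_sigma]
    exact Finset.sum_congr rfl fun a _ => log_sum a
  have h2 : ∑ m ∈ (Finset.Icc 1 T).filter P, ∑ q ∈ Finset.Icc 1 (T / m),
      ArithmeticFunction.vonMangoldt q =
      ∑ x ∈ ((Finset.Icc 1 T).filter P).sigma (fun m => Finset.Icc 1 (T / m)),
        ArithmeticFunction.vonMangoldt x.2 := by
    rw [Finset.sum_sigma]
  rw [h1, h2]
  -- map (a, q) to (a / q, q)
  let g : (Σ _ : ℕ, ℕ) → (Σ _ : ℕ, ℕ) := fun x => ⟨x.1 / x.2, x.2⟩
  have hinj : Set.InjOn g (((Finset.Icc 1 T).filter P).sigma (fun a => a.divisors) : Set (Σ _ : ℕ, ℕ)) := by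
    rintro ⟨a, q⟩ h ⟨a', q'⟩ h' e
    simp only [Finset.coe_sigma, Set.mem_sigma_iff, Finset.mem_coe, Nat.mem_divisors] at h h'
    simp only [g, Sigma.mk.injEq, heq_eq_eq] at e
    obtain ⟨e1, e2⟩ := e
    subst e2
    have : a = a' := by
      rw [← Nat.div_mul_cancel h.2.1, ← Nat.div_mul_cancel h'.2.1, e1]
    rw [this]
  rw [← Finset.sum_image (f := fun x : (Σ _ : ℕ, ℕ) => ArithmeticFunction.vonMangoldt x.2) (g := g) hinj]
  refine Finset.sum_le_sum_of_subset_of_nonneg ?_ fun x _ _ =>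
    ArithmeticFunction.vonMangoldt_nonneg
  intro x hx
  rw [Finset.mem_image] at hx
  obtain ⟨⟨a, q⟩, h, rfl⟩ := hx
  rw [Finset.mem_sigma, Finset.mem_filter, Finset.mem_Icc, Nat.mem_divisors] at h
  obtain ⟨⟨⟨h1, h2⟩, h3⟩, h4, h5⟩ := h
  have hq : 0 < q := Nat.pos_of_dvd_of_pos h4 h1
  have h6 : a / q ∣ a := Nat.div_dvd_of_dvd h4
  have h7 : 0 < a / q := Nat.div_pos (Nat.le_of_dvd h1 h4) hq
  simp only [g, Finset.mem_sigma, Finset.mem_filter, Finset.mem_Icc]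
  refine ⟨⟨⟨h7, (Nat.div_le_self _ _).trans h2⟩, hP _ _ h6 h3⟩, hq, ?_⟩
  rw [Nat.le_div_iff_mul_le h7]
  have h8 : q * (a / q) = a := Nat.mul_div_cancel' h4
  rw [h8]
  exact h2

private lemma psi_bound (n : ℕ) (T m : ℕ) (hn : n = T / m) :
    ∑ q ∈ Finset.Icc 1 n, ArithmeticFunction.vonMangoldt q ≤ 6 * (T * (1 / (m : ℝ))) := by
  have h1 : ∑ q ∈ Finset.Icc 1 n, ArithmeticFunction.vonMangoldt q ≤ Chebyshev.psi n := by
    rw [Chebyshev.psi_eq_sum_Icc, Nat.floor_natCast]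
    refine Finset.sum_le_sum_of_subset_of_nonneg ?_ fun x _ _ =>
      ArithmeticFunction.vonMangoldt_nonneg
    intro x hx
    rw [Finset.mem_Icc] at hx ⊢
    exact ⟨Nat.zero_le _, hx.2⟩
  have h2 : Chebyshev.psi n ≤ (Real.log 4 + 4) * n := Chebyshev.psi_le_const_mul_self (by positivity)
  have h3 : Real.log 4 ≤ 2 := by
    rw [Real.log_le_iff_le_exp (by norm_num)]
    have h := Real.add_one_le_exp (1 : ℝ)
    have h5 : Real.exp 2 = Real.exp 1 * Real.exp 1 := by rw [← Real.exp_add]; norm_num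
    rw [h5]; nlinarith
  have h4 : (n : ℝ) ≤ T * (1 / (m : ℝ)) := by
    rw [hn, mul_one_div]; exact Nat.cast_div_le
  have h5 : (0 : ℝ) ≤ n := by positivity
  nlinarith

theorem sieve_window : ∃ C : ℝ, 0 < C ∧ ∀ (y z : ℝ) (T : ℕ), 3 ≤ y → y ≤ z → z ≤ T →
    (((Finset.Icc 1 T).filter (fun a : ℕ => ∀ p ∈ Pool.Agent.H75.AP.PI y z, ¬ p ∣ a)).card : ℝ) ≤
      C * T * Real.log y / Real.log z := by
  obtain ⟨C, hC, h⟩ := siev_a
  refine ⟨7 * C, by positivity, ?_⟩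
  intro y z T hy hyz hzT
  have hz : 3 ≤ z := hy.trans hyz
  have hT : (3 : ℝ) ≤ T := hz.trans hzT
  have hlT : 0 < Real.log T := Real.log_pos (by linarith)
  have hs := h y z T hy hyz hzT
  set A := (Finset.Icc 1 T).filter (fun a : ℕ => ∀ p ∈ PI y z, ¬ p ∣ a) with hA
  have h1 : ∑ a ∈ A, Real.log a ≤ 6 * T * ∑ m ∈ A, (1 : ℝ) / m := by
    refine (sum_log_le (fun a : ℕ => ∀ p ∈ PI y z, ¬ p ∣ a)
      (fun a m hma ha p hp hpm => ha p hp (hpm.trans hma)) T).trans ?_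
    rw [Finset.mul_sum]
    refine Finset.sum_le_sum fun m hm => ?_
    rw [Finset.mem_filter, Finset.mem_Icc] at hm
    have := psi_bound (T / m) T m rfl
    rw [mul_assoc]
    exact this
  have h2 : ∑ a ∈ A, (Real.log T - Real.log a) ≤ T * ∑ m ∈ A, (1 : ℝ) / m := by
    rw [Finset.mul_sum]
    refine Finset.sum_le_sum fun m hm => ?_
    rw [hA, Finset.mem_filter, Finset.mem_Icc] at hm
    have hm0 : (0 : ℝ) < m := by exact_mod_cast hm.1.1
    rw [← Real.log_div (by linarith) hm0.ne', mul_one_div]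
    have h3 : (0 : ℝ) < T / m := by positivity
    exact (Real.log_le_sub_one_of_pos h3).trans (by linarith)
  have h3 : (A.card : ℝ) * Real.log T ≤ 7 * T * ∑ m ∈ A, (1 : ℝ) / m := by
    have e : (A.card : ℝ) * Real.log T = ∑ a ∈ A, Real.log a + ∑ a ∈ A, (Real.log T - Real.log a) := by
      rw [← Finset.sum_add_distrib]
      simp
    rw [e]; linarith
  have h4 : (A.card : ℝ) * Real.log T ≤ 7 * T * (C * Real.log T * Real.log y / Real.log z) :=
    h3.trans (mul_le_mul_of_nonneg_left hs (by positivity))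
  have h5 : 7 * T * (C * Real.log T * Real.log y / Real.log z) =
      (7 * C * T * Real.log y / Real.log z) * Real.log T := by ring
  rw [h5] at h4
  exact le_of_mul_le_mul_right h4 hlT

end H4AR
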