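import Pool.Agent.H4.AR.L1Det

/-!
H4/AR/StepB: size of the determinants of Hasse derivatives in the induction step of Roth's lemma.

PROOF. s.factorial ≤ s^s (`Nat.factorial_le_pow`), s ≤ D + 1 ≤ 2^D ≤ exp D (D ≥ 1 real; log s ≤ log(1+D) ≤ D). All
entries have l1 norm ≤ 2^(sum d) * L ≤ exp(sum d) * L (l1_hs_le), so by l1_det_le
log l1(det) ≤ s log s + s (sum d + log L) ≤ s (D + k D + log L). The degree bound is degreeOf_det_le with
degreeOf_hs_le. (If det = 0 its l1 norm is 0 and log 0 = 0, the bound is still true since L ≥ 1.)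
-/

namespace H4AR

open MvPolynomial

theorem log_l1_det_le {k s : ℕ} (M : Matrix (Fin s) (Fin s) (MvPolynomial (Fin k) ℤ)) (d : Fin k → ℕ) (L D : ℝ)
    (hL : 1 ≤ L) (hD : 1 ≤ D) (hs1 : 1 ≤ s) (hs2 : (s : ℝ) ≤ D + 1) (hd : ∀ j, (d j : ℝ) ≤ D)
    (hM : ∀ a b, ∃ (i : Fin k →₀ ℕ) (f : MvPolynomial (Fin k) ℤ), M a b = hs i f ∧ l1 f ≤ L ∧
      ∀ j, f.degreeOf j ≤ d j) :
    Real.log (l1 M.det) ≤ s * ((k + 1) * D + Real.log L) := by
  have hlogL : 0 ≤ Real.log L := Real.log_nonneg hL
  have hs0 : (0 : ℝ) < s := by exact_mod_cast hs1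
  have hD0 : 0 ≤ D := by linarith
  by_cases hdet : M.det = 0
  · rw [hdet, l1_zero, Real.log_zero]
    positivity
  · have hB : ∀ a b, l1 (M a b) ≤ Real.exp (k * D) * L := by
      intro a b
      obtain ⟨i, f, hMf, hfL, hfd⟩ := hM a b
      rw [hMf]
      refine (l1_hs_le i f d hfd).trans ?_
      apply mul_le_mul _ hfL (l1_nonneg f) (Real.exp_pos _).le
      calc (2 : ℝ) ^ (∑ j, d j) ≤ (Real.exp 1) ^ (∑ j, d j) :=
            pow_le_pow_left₀ (by norm_num) (by have := Real.exp_one_gt_d9; linarith) _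
        _ = Real.exp ((∑ j, d j : ℕ) : ℝ) := by rw [← Real.exp_nat_mul, mul_one]
        _ ≤ Real.exp (k * D) := by
            apply Real.exp_le_exp.2
            push_cast
            calc ∑ j, (d j : ℝ) ≤ ∑ _j : Fin k, D := Finset.sum_le_sum fun j _ => hd j
              _ = k * D := by simp
    have h1 := l1_det_le M (Real.exp (k * D) * L) (by positivity) hB
    have h2 : 1 ≤ l1 M.det := one_le_l1 hdet
    have hfac : (s.factorial : ℝ) ≤ (s : ℝ) ^ s := by exact_mod_cast Nat.factorial_le_pow s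
    have hlogs : Real.log s ≤ D := by
      have h3 := Real.log_le_sub_one_of_pos hs0
      linarith
    calc Real.log (l1 M.det) ≤ Real.log ((s : ℝ) ^ s * (Real.exp (k * D) * L) ^ s) := by
          apply Real.log_le_log (by linarith)
          exact h1.trans (mul_le_mul_of_nonneg_right hfac (by positivity))
      _ = s * Real.log s + s * (k * D + Real.log L) := by
          rw [Real.log_mul (by positivity) (by positivity), Real.log_pow, Real.log_pow,
            Real.log_mul (Real.exp_pos _).ne' (by positivity), Real.log_exp]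
      _ ≤ s * D + s * (k * D + Real.log L) := by
          have := mul_le_mul_of_nonneg_left hlogs hs0.le
          linarith
      _ = s * ((k + 1) * D + Real.log L) := by ring

theorem degreeOf_det_hs_le {k s : ℕ} (M : Matrix (Fin s) (Fin s) (MvPolynomial (Fin k) ℤ)) (d : Fin k → ℕ)
    (hM : ∀ a b, ∃ (i : Fin k →₀ ℕ) (f : MvPolynomial (Fin k) ℤ), M a b = hs i f ∧
      ∀ j, f.degreeOf j ≤ d j) (j : Fin k) :
    M.det.degreeOf j ≤ s * d j := by
  refine degreeOf_det_le M j (d j) (fun a b => ?_)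
  obtain ⟨i, f, hMf, hfd⟩ := hM a b
  rw [hMf]
  exact (degreeOf_hs_le i f j).trans (hfd j)

end H4AR
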