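import Pool.Agent.H4.AR.IxL

/-!
H4/AR/StepI: index of the determinant of Roth's lemma from below.

PROOF. Ix d r del (toQ f). Entry (a,b): hs (cons (nu b) (D a)) (toQ f) has index at least del - wt d (cons (nu b) (D a))
(Ix_hs), and wt d (cons (nu b) (D a)) = nu b / d_0 + sum_j (D a j)/d_(j+1) ≤ nu b/d_0 + (s-1) * c/d_0
≤ nu b / d_0 + c, because 1/d_(j+1) ≤ c/d_0 (h12) and s - 1 ≤ d_0; also index ≥ 0. So the entry has index at least
max 0 (del - c - nu b/d_0) (Ix_mono, Ix_of_nonpos), and Ix_det. toQ of the determinant is the determinant of the toQ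
(`RingHom.map_det`), hs_map.
-/

namespace H4AR

open MvPolynomial

theorem Ix_det_hs {m s : ℕ} (d : Fin (m + 1) → ℕ) (r : Fin (m + 1) → ℚ) (f : MvPolynomial (Fin (m + 1)) ℤ)
    (del c : ℝ) (hc : 0 ≤ c) (hd : ∀ j, 1 ≤ d j) (h12 : ∀ j : Fin m, (d 0 : ℝ) ≤ c * d j.succ)
    (hs1 : 1 ≤ s) (hs2 : s ≤ d 0 + 1) (hf : Ix d r del (toQ f)) (D : Fin s → (Fin m →₀ ℕ))
    (hD : ∀ a, ∑ j, D a j ≤ s - 1) (nu : Fin s → ℕ) :
    Ix d r (∑ b : Fin s, max 0 (del - c - (nu b : ℝ) / (d 0 : ℝ)))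
      (toQ (Matrix.of fun a b : Fin s => hs (Finsupp.cons (nu b) (D a)) f).det) := by
  have hd0 : (0 : ℝ) < (d 0 : ℝ) := by exact_mod_cast hd 0
  have hdet : toQ (Matrix.of fun a b : Fin s => hs (Finsupp.cons (nu b) (D a)) f).det =
      (Matrix.of fun a b : Fin s => hs (Finsupp.cons (nu b) (D a)) (toQ f)).det := by
    unfold toQ
    rw [RingHom.map_det]
    congr 1
    ext1 a b
    simp only [RingHom.mapMatrix_apply, Matrix.map_apply, Matrix.of_apply]
    rw [hs_map]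
  rw [hdet]
  refine Ix_det d r _ (fun b => max 0 (del - c - (nu b : ℝ) / (d 0 : ℝ))) (fun a b => ?_)
  rw [Matrix.of_apply]
  rcases le_total (del - c - (nu b : ℝ) / (d 0 : ℝ)) 0 with h0 | h0
  · exact Ix_of_nonpos d r (by rw [max_eq_left h0]) _
  · have h1 := Ix_hs d r hf (Finsupp.cons (nu b) (D a))
    refine Ix_mono d r ?_ h1
    show max 0 (del - c - (nu b : ℝ) / (d 0 : ℝ)) ≤ _
    rw [max_eq_right h0]
    have hw : wt d (Finsupp.cons (nu b) (D a)) ≤ (nu b : ℝ) / (d 0 : ℝ) + c := by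
      unfold wt
      rw [Fin.sum_univ_succ, Finsupp.cons_zero]
      have h2 : ∑ j : Fin m, ((Finsupp.cons (nu b) (D a) j.succ : ℕ) : ℝ) / (d j.succ : ℝ) ≤
          ∑ j : Fin m, ((D a j : ℕ) : ℝ) * (c / d 0) := by
        apply Finset.sum_le_sum
        intro j _
        rw [Finsupp.cons_succ, div_eq_mul_inv]
        apply mul_le_mul_of_nonneg_left _ (Nat.cast_nonneg _)
        have hdj : (0 : ℝ) < (d j.succ : ℝ) := by exact_mod_cast hd j.succ
        rw [inv_eq_one_div, div_le_div_iff₀ hdj hd0, one_mul]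
        exact h12 j
      have h3 : ∑ j : Fin m, ((D a j : ℕ) : ℝ) * (c / d 0) ≤ c := by
        rw [← Finset.sum_mul]
        have h4 : ∑ j : Fin m, ((D a j : ℕ) : ℝ) ≤ (d 0 : ℝ) := by
          have h5 := hD a
          have h6 : ∑ j, D a j ≤ d 0 := by omega
          exact_mod_cast h6
        calc (∑ j : Fin m, ((D a j : ℕ) : ℝ)) * (c / d 0) ≤ (d 0 : ℝ) * (c / d 0) :=
              mul_le_mul_of_nonneg_right h4 (by positivity)
          _ = c := by field_simp
      linarith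
    linarith

end H4AR
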