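import Pool.Agent.H4.AR.Interp
import Pool.Agent.H4.AR.Lead
import Pool.Agent.H4.AR.LeadDet

/-!
H4/AR/Wron: generalised Wronskians. Linearly independent polynomials g_1..g_s over Q have a nonzero determinant
det (hs (D_mu) (g_i)) with multi-indices of total degree at most s-1.

PROOF. `exists_lead` gives P; g'_i = sum_j P_ij g_j are nonzero with distinct leading exponents E_i. `exists_binom_det`
gives D for the E_i; `det_ne_zero_of_lead`: det(hs (D_mu)(g'_i)) ≠ 0. As hs is linear (hs_sum, hs_smul), the matrix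
(hs (D_mu)(g'_i)) is the product of (hs (D_mu)(g_j)) and the transpose of P (entries as constants C (P i j)), so
det(hs (D_mu)(g_j)) ≠ 0 (`Matrix.det_mul`).
wronskian_one: one variable: the D_mu are single 0 (nu mu) with nu mu ≤ s-1, and nu is injective, because otherwise two
rows of the matrix are equal.
-/

namespace H4AR

open MvPolynomial

theorem wronskian {m s : ℕ} (g : Fin s → MvPolynomial (Fin m) ℚ) (hg : LinearIndependent ℚ g) :
    ∃ D : Fin s → (Fin m →₀ ℕ), (∀ mu, ∑ j, D mu j ≤ s - 1) ∧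
      (Matrix.of fun mu i : Fin s => hs (D mu) (g i)).det ≠ 0 := by
  obtain ⟨P, hP, hinj⟩ := exists_lead g hg
  obtain ⟨D, hD, hdet⟩ := exists_binom_det _ hinj
  refine ⟨D, hD, ?_⟩
  have h1 := det_ne_zero_of_lead (fun i => ∑ j, P i j • g j) hP D hdet
  intro h0
  apply h1
  have h2 : (Matrix.of fun mu i : Fin s => hs (D mu) (∑ j, P i j • g j)) =
      (Matrix.of fun mu i : Fin s => hs (D mu) (g i)) *
        (Matrix.of fun j i : Fin s => (C (P i j) : MvPolynomial (Fin m) ℚ)) := by
    ext1 mu i
    rw [Matrix.mul_apply, Matrix.of_apply, hs_sum]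
    refine Finset.sum_congr rfl fun j _ => ?_
    rw [hs_smul, Matrix.of_apply, Matrix.of_apply, MvPolynomial.smul_eq_C_mul, mul_comm]
  rw [h2, Matrix.det_mul, h0, zero_mul]

theorem wronskian_one {s : ℕ} (h : Fin s → MvPolynomial (Fin 1) ℚ) (hh : LinearIndependent ℚ h) :
    ∃ nu : Fin s → ℕ, (∀ mu, nu mu ≤ s - 1) ∧ Function.Injective nu ∧
      (Matrix.of fun mu i : Fin s => hs (Finsupp.single 0 (nu mu)) (h i)).det ≠ 0 := by
  obtain ⟨D, hD, hdet⟩ := wronskian h hh
  have h1 : ∀ mu, D mu = Finsupp.single 0 (D mu 0) := by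
    intro mu
    refine Finsupp.ext fun j => ?_
    rw [Subsingleton.elim j 0, Finsupp.single_eq_same]
  refine ⟨fun mu => D mu 0, fun mu => ?_, ?_, ?_⟩
  · have := hD mu
    rwa [Fin.sum_univ_one] at this
  · intro mu mu' hmu
    by_contra hne
    apply hdet
    refine Matrix.det_zero_of_row_eq hne ?_
    funext i
    rw [Matrix.of_apply, Matrix.of_apply, h1 mu, h1 mu']
    dsimp only at hmu
    rw [hmu]
  · have h2 : (fun mu => Finsupp.single 0 (D mu 0)) = D := by
      funext mu
      exact (h1 mu).symm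
    have h3 : (Matrix.of fun mu i : Fin s => hs (Finsupp.single 0 (D mu 0)) (h i)) =
        Matrix.of fun mu i : Fin s => hs (D mu) (h i) := by
      ext1 mu i
      rw [Matrix.of_apply, Matrix.of_apply, ← h1 mu]
    rw [h3]
    exact hdet

end H4AR
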