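import Pool.Agent.H4.AR.RothDef
import Pool.Agent.H4.AR.Wron
import Pool.Agent.H4.AR.Decomp
import Pool.Agent.H4.AR.NumI
import Pool.Agent.H4.AR.DetF
import Pool.Agent.H4.AR.COrd
import Pool.Agent.H4.AR.StepB
import Pool.Agent.H4.AR.StepI

/-!
H4/AR/Step: induction step of Roth's lemma.

PROOF. Let del > 0; we may assume del ≤ 1 (replace del by min del 1). Let del' = del^2/64, c' the constant of RothP m
for del', c = min (c'/(m+3)) (del^2/(64 (m+3))) (so c ≤ 1, c ≤ del/4, c (m+2) ≤ c', (m+3) c ≤ del^2/64).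
Given d, r, f, D as in RothP (m+1). Write log = Real.log, L = l1 f ≥ 1 (one_le_l1), h_j = log ht(r_j).
`decomp` (d0 = d 0): s, g, h. `wronskian` for toQ (g i): D_a; `wronskian_one` for h: nu. Put
G = det(hs (D_a) (g i)) in Z[X_1..X_m], W = det(hs (single 0 (nu b)) (h i)) ≠ 0, F = det(hs (cons (nu b) (D_a)) f);
toQ G = det(hs (D_a)(toQ (g i))) ≠ 0 (hs_map, RingHom.map_det), so G ≠ 0; toQ F = W(X_0) * toQ G (det_factor).
s ≤ d 0 + 1 ≤ D + 1.
(i) log l1 G ≤ s ((m+1) D + log L), degrees of G at most s d_(j+1) (StepB with k = m, the polynomials g i, l1 (g i) ≤ L).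
Apply RothP m (del', c') to G with degrees s d_(j+1), points r_(j+1), bound s D (s ≥ 1, D ≥ 1): the separation holds
since c ≤ c'; log l1 G + s D ≤ s (m+2)(D + log L) ≤ s (m+2) c d_(j+1) h_(j+1) ≤ c' (s d_(j+1)) h_(j+1)
(log L ≥ 0; d_(j+1) h_(j+1) ≥ 0). Result: e with sum_j e_j/(s d_(j+1)) ≤ del', coefficient of (toQ G)(X+r') at e ≠ 0.
(ii) `coeff_order`: a with (sh r (toQ F)).coeff (cons a e) ≠ 0 and ht(r_0)^a ≤ l1 F; log l1 F ≤ s ((m+2) D + log L)
(StepB with k = m+1, the polynomial f), so a h_0 ≤ s (m+2)(D + log L) ≤ s (m+2) c d_0 h_0; h_0 > 0 because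
0 < D ≤ c d_0 h_0; so a ≤ s (m+2) c d_0. Hence wt d (cons a e) = a/d_0 + sum_j e_j/d_(j+1) ≤ s (m+2) c + s del'
≤ s del^2/64 + s del^2/64 = s del^2/32.
(iii) Suppose the claim is false: all e' with wt d e' ≤ del have coefficient 0 in f(X+r); then Ix d r del (toQ f).
Ix_det_hs and theta_sum_inj: Ix d r (del^2 s/16) (toQ F) (Ix_mono), which contradicts (ii): the coefficient at
cons a e is not 0 and del^2 s/16 > s del^2/32.
-/

namespace H4AR

open MvPolynomial

private theorem step_ht_pos (q : ℚ) : 0 < ht q := by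
  unfold ht
  refine lt_max_of_lt_right ?_
  exact_mod_cast q.den_pos

theorem roth_step (m : ℕ) (ih : RothP m) : RothP (m + 1) := by
  intro del hdel
  obtain ⟨del1, hdel1⟩ : ∃ x, x = min del 1 := ⟨_, rfl⟩
  have hd0 : 0 < del1 := by rw [hdel1]; exact lt_min hdel one_pos
  have hd1' : del1 ≤ 1 := by rw [hdel1]; exact min_le_right _ _
  have hdd : del1 ≤ del := by rw [hdel1]; exact min_le_left _ _
  obtain ⟨c', hc'0, hc'1, ih'⟩ := ih (del1 ^ 2 / 64) (by positivity)
  have hm0 : (0 : ℝ) ≤ m := Nat.cast_nonneg m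
  obtain ⟨c, hcdef⟩ : ∃ x, x = min (c' / ((m : ℝ) + 3)) (del1 ^ 2 / (64 * ((m : ℝ) + 3))) :=
    ⟨_, rfl⟩
  have hc0 : 0 < c := by
    rw [hcdef]
    exact lt_min (by positivity) (by positivity)
  have hcA : c * ((m : ℝ) + 3) ≤ c' := by
    have h1 : c ≤ c' / ((m : ℝ) + 3) := by rw [hcdef]; exact min_le_left _ _
    rwa [le_div_iff₀ (by positivity)] at h1
  have hcB : c * ((m : ℝ) + 3) ≤ del1 ^ 2 / 64 := by
    have h1 : c ≤ del1 ^ 2 / (64 * ((m : ℝ) + 3)) := by rw [hcdef]; exact min_le_right _ _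
    rw [le_div_iff₀ (by positivity)] at h1
    linarith
  have hcc' : c ≤ c' := by nlinarith
  have hc1 : c ≤ 1 := hcc'.trans hc'1
  have hcd4 : c ≤ del1 / 4 := by nlinarith
  refine ⟨c, hc0, hc1, ?_⟩
  intro d r f D hD hd1 hdD hsep hf hdeg hlog
  have hL : 1 ≤ l1 f := one_le_l1 hf
  have hlogL : 0 ≤ Real.log (l1 f) := Real.log_nonneg hL
  have hdh : ∀ j, 0 < (d j : ℝ) * Real.log (ht (r j)) := by
    intro j
    have h1 := hlog j
    by_contra h2
    push Not at h2
    have h3 : c * ((d j : ℝ) * Real.log (ht (r j))) ≤ 0 := mul_nonpos_of_nonneg_of_nonpos hc0.le h2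
    linarith
  obtain ⟨s, g, h, hs1, hs2, hgli, hhli, hdec, hgl1, hgdeg⟩ := decomp f hf (d 0) (hdeg 0)
  obtain ⟨Dm, hDm, hdetg⟩ := wronskian (fun i => toQ (g i)) hgli
  obtain ⟨nu, hnu, hinj, hdeth⟩ := wronskian_one h hhli
  obtain ⟨G, hGdef⟩ : ∃ G, G = (Matrix.of fun a i : Fin s => hs (Dm a) (g i)).det := ⟨_, rfl⟩
  obtain ⟨W, hWdef⟩ : ∃ W, W = (Matrix.of fun b i : Fin s =>
    hs (Finsupp.single 0 (nu b)) (h i)).det := ⟨_, rfl⟩
  obtain ⟨F, hFdef⟩ : ∃ F, F = (Matrix.of fun a b : Fin s =>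
    hs (Finsupp.cons (nu b) (Dm a)) f).det := ⟨_, rfl⟩
  have hGQ : toQ G = (Matrix.of fun mu i : Fin s => hs (Dm mu) (toQ (g i))).det := by
    rw [hGdef]
    unfold toQ
    rw [RingHom.map_det]
    congr 1
    ext1 a b
    rw [RingHom.mapMatrix_apply, Matrix.map_apply, Matrix.of_apply, Matrix.of_apply, hs_map]
  have hG0 : G ≠ 0 := by
    intro h1
    apply hdetg
    rw [← hGQ, h1]
    unfold toQ
    rw [map_zero]
  have hW0 : W ≠ 0 := by rw [hWdef]; exact hdeth
  have hF : toQ F = rename (fun _ : Fin 1 => (0 : Fin (m + 1))) W * rename Fin.succ (toQ G) := by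
    rw [hFdef, hWdef, hGdef]
    exact det_factor f g h hdec Dm nu
  have hs1' : (1 : ℝ) ≤ s := by exact_mod_cast hs1
  have hsD : (s : ℝ) ≤ D + 1 := by
    have h1 : (s : ℝ) ≤ (d 0 : ℝ) + 1 := by exact_mod_cast hs2
    have h2 := hdD 0
    linarith
  have hlG : Real.log (l1 G) ≤ s * (((m : ℝ) + 1) * D + Real.log (l1 f)) := by
    rw [hGdef]
    exact log_l1_det_le _ (fun j => d j.succ) (l1 f) D hL hD hs1 hsD (fun j => hdD j.succ)
      (fun a b => ⟨Dm a, g b, rfl, hgl1 b, fun j => (hgdeg b j).trans (hdeg j.succ)⟩)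
  have hlF : Real.log (l1 F) ≤ s * (((m : ℝ) + 2) * D + Real.log (l1 f)) := by
    have h1 : Real.log (l1 F) ≤ s * ((((m + 1 : ℕ) : ℝ) + 1) * D + Real.log (l1 f)) := by
      rw [hFdef]
      exact log_l1_det_le _ d (l1 f) D hL hD hs1 hsD hdD
        (fun a b => ⟨Finsupp.cons (nu b) (Dm a), f, rfl, le_rfl, hdeg⟩)
    push_cast at h1
    have h2 : (m : ℝ) + 1 + 1 = m + 2 := by ring
    rwa [h2] at h1
  have hdegG : ∀ j, G.degreeOf j ≤ s * d j.succ := by
    intro j
    rw [hGdef]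
    exact degreeOf_det_hs_le _ (fun j => d j.succ)
      (fun a b => ⟨Dm a, g b, rfl, fun j => (hgdeg b j).trans (hdeg j.succ)⟩) j
  have hcm : (m + 2) * c ≤ c' := by nlinarith
  have hcm2 : (m + 2) * c ≤ del1 ^ 2 / 64 := by nlinarith
  obtain ⟨e, he1, he2⟩ := ih' (fun j => s * d j.succ) (fun j => r j.succ) G (s * D)
    (by nlinarith) (fun j => Nat.mul_pos hs1 (hd1 j.succ))
    (fun j => by
      push_cast
      exact mul_le_mul_of_nonneg_left (hdD j.succ) (by linarith))
    (fun i j hij => by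
      have h1 := hsep i.succ j.succ (Fin.succ_lt_succ_iff.mpr hij)
      have h2 : (0 : ℝ) ≤ d j.succ := Nat.cast_nonneg _
      push_cast
      have h3 : (d i.succ : ℝ) ≤ c' * d j.succ := h1.trans (mul_le_mul_of_nonneg_right hcc' h2)
      calc (s : ℝ) * d i.succ ≤ s * (c' * d j.succ) := mul_le_mul_of_nonneg_left h3 (by linarith)
        _ = c' * (s * d j.succ) := by ring)
    hG0 hdegG
    (fun j => by
      have h1 := hlog j.succ
      have h2 := hdh j.succ
      push_cast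
      have h3 : Real.log (l1 G) + s * D ≤ s * (((m : ℝ) + 2) * (Real.log (l1 f) + D)) := by
        have h4 : s * (((m : ℝ) + 1) * D + Real.log (l1 f)) + s * D =
          s * (((m : ℝ) + 2) * (Real.log (l1 f) + D)) - s * (((m : ℝ) + 1) * Real.log (l1 f)) := by
          ring
        have h5 : 0 ≤ s * (((m : ℝ) + 1) * Real.log (l1 f)) := by positivity
        linarith
      have h6 : ((m : ℝ) + 2) * (Real.log (l1 f) + D) ≤
          ((m : ℝ) + 2) * (c * ((d j.succ : ℝ) * Real.log (ht (r j.succ)))) :=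
        mul_le_mul_of_nonneg_left h1 (by positivity)
      have h7 : ((m : ℝ) + 2) * (c * ((d j.succ : ℝ) * Real.log (ht (r j.succ)))) ≤
          c' * ((d j.succ : ℝ) * Real.log (ht (r j.succ))) := by
        rw [← mul_assoc]
        exact mul_le_mul_of_nonneg_right hcm h2.le
      calc Real.log (l1 G) + s * D ≤ s * (((m : ℝ) + 2) * (Real.log (l1 f) + D)) := h3
        _ ≤ s * (c' * ((d j.succ : ℝ) * Real.log (ht (r j.succ)))) :=
          mul_le_mul_of_nonneg_left (h6.trans h7) (by linarith)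
        _ = c' * (s * d j.succ * Real.log (ht (r j.succ))) := by ring)
  obtain ⟨a, ha1, ha2⟩ := coeff_order F W (toQ G) hF hW0 r e he2
  -- the order in the first variable
  have hd0pos : (0 : ℝ) < d 0 := by exact_mod_cast hd1 0
  have hh0 : 0 < Real.log (ht (r 0)) := (pos_iff_pos_of_mul_pos (hdh 0)).mp hd0pos
  have hal : (a : ℝ) * Real.log (ht (r 0)) ≤ Real.log (l1 F) := by
    rw [← Real.log_pow]
    exact Real.log_le_log (pow_pos (step_ht_pos _) a) ha2
  have ha3 : (a : ℝ) ≤ s * ((m + 2) * c) * d 0 := by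
    have h1 := hlog 0
    have h3 : Real.log (l1 F) ≤ s * (((m : ℝ) + 2) * (Real.log (l1 f) + D)) := by
      have h4 : s * (((m : ℝ) + 2) * D + Real.log (l1 f)) =
        s * (((m : ℝ) + 2) * (Real.log (l1 f) + D)) - s * (((m : ℝ) + 1) * Real.log (l1 f)) := by
        ring
      have h5 : 0 ≤ s * (((m : ℝ) + 1) * Real.log (l1 f)) := by positivity
      linarith
    have h6 : s * (((m : ℝ) + 2) * (Real.log (l1 f) + D)) ≤
        s * (((m : ℝ) + 2) * (c * ((d 0 : ℝ) * Real.log (ht (r 0))))) :=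
      mul_le_mul_of_nonneg_left (mul_le_mul_of_nonneg_left h1 (by positivity)) (by linarith)
    have h7 : (a : ℝ) * Real.log (ht (r 0)) ≤
        (s * ((m + 2) * c) * d 0) * Real.log (ht (r 0)) := by
      calc (a : ℝ) * Real.log (ht (r 0)) ≤
          s * (((m : ℝ) + 2) * (c * ((d 0 : ℝ) * Real.log (ht (r 0))))) :=
            hal.trans (h3.trans h6)
        _ = _ := by ring
    exact le_of_mul_le_mul_right h7 hh0
  have hwt : wt d (Finsupp.cons a e) ≤ s * del1 ^ 2 / 32 := by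
    have h1 : wt d (Finsupp.cons a e) = (a : ℝ) / d 0 + ∑ j : Fin m, (e j : ℝ) / d j.succ := by
      unfold wt
      rw [Fin.sum_univ_succ, Finsupp.cons_zero]
      simp only [Finsupp.cons_succ]
    have h2 : ∑ j : Fin m, (e j : ℝ) / d j.succ = s * wt (fun j => s * d j.succ) e := by
      unfold wt
      rw [Finset.mul_sum]
      refine Finset.sum_congr rfl fun j _ => ?_
      have h3 : (d j.succ : ℝ) ≠ 0 := by
        have := hd1 j.succ
        positivity
      have h4 : (s : ℝ) ≠ 0 := by positivity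
      push_cast
      field_simp
    have h3 : (a : ℝ) / d 0 ≤ s * ((m + 2) * c) := by
      rw [div_le_iff₀ hd0pos]
      exact ha3
    have h4 : s * ((m + 2) * c) ≤ s * (del1 ^ 2 / 64) :=
      mul_le_mul_of_nonneg_left hcm2 (by linarith)
    have h5 : s * wt (fun j => s * d j.succ) e ≤ s * (del1 ^ 2 / 64) :=
      mul_le_mul_of_nonneg_left he1 (by linarith)
    rw [h1, h2]
    linarith
  -- conclusion
  by_contra hcon
  push Not at hcon
  have hIx : Ix d r del1 (toQ f) := by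
    intro e' he'
    by_contra h1
    push Not at h1
    exact he' (hcon e' (h1.le.trans hdd))
  have hIF := Ix_det_hs d r f del1 c hc0.le hd1
    (fun j => hsep 0 j.succ (Fin.succ_pos j)) hs1 hs2 hIx Dm hDm nu
  rw [← hFdef] at hIF
  have h1 := hIF (Finsupp.cons a e) ha1
  have h2 := theta_sum_inj (d 0) s del1 c (hd1 0) hs1 hs2 hd0 hd1' hc0.le hcd4 nu hnu hinj
  have h3 : 0 < del1 ^ 2 * s := by positivity
  linarith

end H4AR
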