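import Mathlib

/-!
H4/AR/Win: finite windows of primes with prescribed sum of reciprocals; integers without prime factor in a window.

PROOF. exists_window: the series of 1/p diverges (`Nat.Primes.not_summable_one_div`, `not_summable_one_div_on_primes`),
also over the primes > z; take the primes > z in increasing order until the sum of the reciprocals is ≥ L for the first
time (e.g. the least N such that the sum over the primes in (z, N] is ≥ L, `Nat.find`); the last term is ≤ 1.
exists_windows: by induction on K, the next window with z = maximum of all previous elements (and z0).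
count_no_prime: let P be the product of the p in W. The a in [1,T] without prime factor in W are those coprime to P; in
every interval of P consecutive integers there are phi(P) of them (`Nat.filter_coprime_Ico_eq_totient`), so their
number in [1,T] is at most (T/P + 1) phi(P) ≤ T phi(P)/P + P, phi(P)/P = prod (1 - 1/p) ≤ exp(- sum 1/p)
(`Nat.totient_prime`, multiplicativity on coprime numbers; 1 - x ≤ exp(-x), `Real.add_one_le_exp`).
-/

namespace H4AR

private theorem win_not_summable (z : ℕ) :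
    ¬ Summable (fun n : ℕ => if n.Prime ∧ z < n then (1 : ℝ) / n else 0) := by
  intro h
  apply not_summable_one_div_on_primes
  have h2 : Summable (fun n : ℕ => if n.Prime ∧ n ≤ z then (1 : ℝ) / n else 0) := by
    apply summable_of_ne_finset_zero (s := Finset.range (z + 1))
    intro b hb
    rw [if_neg]
    rintro ⟨_, h3⟩
    apply hb
    rw [Finset.mem_range]
    omega
  refine (h.add h2).congr fun n => ?_
  by_cases hn : n.Prime
  · rw [Set.indicator_of_mem (by exact hn)]
    by_cases hz : z < n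
    · rw [if_pos ⟨hn, hz⟩, if_neg (fun hh => by omega), add_zero]
    · rw [if_neg (fun hh => hz hh.2), if_pos ⟨hn, by omega⟩, zero_add]
  · rw [Set.indicator_of_notMem (by exact hn), if_neg (fun hh => hn hh.1),
      if_neg (fun hh => hn hh.1), add_zero]

theorem exists_window (L : ℝ) (hL : 0 ≤ L) (z : ℕ) :
    ∃ W : Finset ℕ, (∀ p ∈ W, p.Prime ∧ z < p) ∧ L ≤ ∑ p ∈ W, (1 : ℝ) / p ∧
      ∑ p ∈ W, (1 : ℝ) / p ≤ L + 1 := by
  classical
  set f : ℕ → ℝ := fun n => if n.Prime ∧ z < n then (1 : ℝ) / n else 0 with hf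
  have hf0 : ∀ n, 0 ≤ f n := by
    intro n
    rw [hf]
    dsimp only
    split_ifs
    · positivity
    · exact le_rfl
  have hf1 : ∀ n, f n ≤ 1 := by
    intro n
    rw [hf]
    dsimp only
    split_ifs with h
    · have h1 : (1 : ℝ) ≤ n := by exact_mod_cast h.1.one_lt.le
      rw [div_le_one (by linarith)]
      exact h1
    · exact zero_le_one
  have ht := (not_summable_iff_tendsto_nat_atTop_of_nonneg hf0).1 (win_not_summable z)
  have hex : ∃ N : ℕ, L ≤ ∑ n ∈ Finset.range N, f n := by
    obtain ⟨N, hN⟩ := (ht.eventually (Filter.eventually_ge_atTop L)).exists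
    exact ⟨N, hN⟩
  have hsum : ∀ N : ℕ, ∑ p ∈ (Finset.range N).filter (fun n => n.Prime ∧ z < n), (1 : ℝ) / p =
      ∑ n ∈ Finset.range N, f n := by
    intro N
    rw [Finset.sum_filter]
  refine ⟨(Finset.range (Nat.find hex)).filter (fun n => n.Prime ∧ z < n), ?_, ?_, ?_⟩
  · intro p hp
    exact (Finset.mem_filter.1 hp).2
  · rw [hsum]
    exact Nat.find_spec hex
  · rw [hsum]
    rcases Nat.eq_zero_or_pos (Nat.find hex) with h0 | h0
    · rw [h0, Finset.sum_range_zero]
      linarith
    · obtain ⟨M, hM⟩ := Nat.exists_eq_add_of_lt h0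
      rw [zero_add] at hM
      rw [hM, Finset.sum_range_succ]
      have h1 : ¬ L ≤ ∑ n ∈ Finset.range M, f n := Nat.find_min hex (by omega)
      have h2 := hf1 M
      linarith

theorem exists_windows (K : ℕ) (L : ℝ) (hL : 0 ≤ L) (z : ℕ) :
    ∃ W : Fin K → Finset ℕ, (∀ i, ∀ p ∈ W i, p.Prime ∧ z < p) ∧ (∀ i, L ≤ ∑ p ∈ W i, (1 : ℝ) / p) ∧
      (∀ i, ∑ p ∈ W i, (1 : ℝ) / p ≤ L + 1) ∧ ∀ i j, i ≠ j → Disjoint (W i) (W j) := by
  classical
  induction K with
  | zero => exact ⟨fun _ => ∅, fun i => i.elim0, fun i => i.elim0, fun i => i.elim0,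
      fun i => i.elim0⟩
  | succ K ih =>
    obtain ⟨W, h1, h2, h3, h4⟩ := ih
    obtain ⟨V, g1, g2, g3⟩ := exists_window L hL
      (max z ((Finset.univ.biUnion W).sup id))
    have hd : ∀ i, Disjoint V (W i) := by
      intro i
      rw [Finset.disjoint_left]
      intro p hp hp2
      have h5 := (g1 p hp).2
      have h6 : p ≤ (Finset.univ.biUnion W).sup id :=
        Finset.le_sup (f := id) (Finset.mem_biUnion.2 ⟨i, Finset.mem_univ i, hp2⟩)
      have h7 := lt_of_le_of_lt (le_max_right _ _) h5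
      omega
    refine ⟨Fin.cons V W, ?_, ?_, ?_, ?_⟩
    · intro i
      refine Fin.cases ?_ (fun i => ?_) i
      · intro p hp
        rw [Fin.cons_zero] at hp
        exact ⟨(g1 p hp).1, lt_of_le_of_lt (le_max_left _ _) (g1 p hp).2⟩
      · intro p hp
        rw [Fin.cons_succ] at hp
        exact h1 i p hp
    · intro i
      refine Fin.cases ?_ (fun i => ?_) i
      · rw [Fin.cons_zero]
        exact g2
      · rw [Fin.cons_succ]
        exact h2 i
    · intro i
      refine Fin.cases ?_ (fun i => ?_) i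
      · rw [Fin.cons_zero]
        exact g3
      · rw [Fin.cons_succ]
        exact h3 i
    · intro i j
      refine Fin.cases ?_ (fun i => ?_) i
      · refine Fin.cases ?_ (fun j => ?_) j
        · intro h
          exact absurd rfl h
        · intro _
          rw [Fin.cons_zero, Fin.cons_succ]
          exact hd j
      · refine Fin.cases ?_ (fun j => ?_) j
        · intro _
          rw [Fin.cons_zero, Fin.cons_succ]
          exact (hd i).symm
        · intro h
          rw [Fin.cons_succ, Fin.cons_succ]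
          exact h4 i j (fun hh => h (by rw [hh]))

private theorem win_tot (W : Finset ℕ) (hW : ∀ p ∈ W, p.Prime) :
    (Nat.totient (∏ p ∈ W, p) : ℝ) ≤ (∏ p ∈ W, (p : ℝ)) * Real.exp (-∑ p ∈ W, (1 : ℝ) / p) := by
  classical
  induction W using Finset.induction_on with
  | empty => simp
  | insert q W hq ih =>
    have hq1 : q.Prime := hW q (Finset.mem_insert_self q W)
    have hW' : ∀ p ∈ W, p.Prime := fun p hp => hW p (Finset.mem_insert_of_mem hp)
    have ih' := ih hW'
    rw [Finset.prod_insert hq, Finset.prod_insert hq, Finset.sum_insert hq]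
    have hc : Nat.Coprime q (∏ p ∈ W, p) := by
      apply Nat.Coprime.prod_right
      intro p hp
      exact (Nat.coprime_primes hq1 (hW' p hp)).2 (fun h => hq (h ▸ hp))
    rw [Nat.totient_mul hc, Nat.totient_prime hq1, neg_add, Real.exp_add]
    have hq0 : (0 : ℝ) < q := by exact_mod_cast hq1.pos
    have h1 : (((q - 1 : ℕ)) : ℝ) ≤ q * Real.exp (-(1 / (q : ℝ))) := by
      rw [Nat.cast_sub hq1.one_lt.le, Nat.cast_one]
      have h2 := Real.add_one_le_exp (-(1 / (q : ℝ)))
      have h3 := mul_le_mul_of_nonneg_left h2 hq0.le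
      have h4 : (q : ℝ) * (-(1 / (q : ℝ)) + 1) = q - 1 := by
        field_simp
        ring
      linarith
    push_cast
    have h5 : ((q - 1 : ℕ) : ℝ) * (Nat.totient (∏ p ∈ W, p) : ℝ) ≤
        (q * Real.exp (-(1 / (q : ℝ)))) *
          ((∏ p ∈ W, (p : ℝ)) * Real.exp (-∑ p ∈ W, (1 : ℝ) / p)) := by
      apply mul_le_mul h1 ih' (Nat.cast_nonneg _)
      positivity
    calc ((q - 1 : ℕ) : ℝ) * (Nat.totient (∏ p ∈ W, p) : ℝ) ≤ _ := h5
      _ = _ := by ring

theorem count_no_prime (W : Finset ℕ) (hW : ∀ p ∈ W, p.Prime) (T : ℕ) :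
    (((Finset.Icc 1 T).filter (fun a => ∀ p ∈ W, ¬ p ∣ a)).card : ℝ) ≤
      T * Real.exp (-∑ p ∈ W, (1 : ℝ) / p) + ∏ p ∈ W, (p : ℝ) := by
  classical
  set P : ℕ := ∏ p ∈ W, p with hP
  have hP0 : 0 < P := Finset.prod_pos fun p hp => (hW p hp).pos
  have h1 : (Finset.Icc 1 T).filter (fun a => ∀ p ∈ W, ¬ p ∣ a) ⊆
      (Finset.Ico 1 (1 + T)).filter (fun a => P.Coprime a) := by
    intro a ha
    rw [Finset.mem_filter, Finset.mem_Icc] at ha
    rw [Finset.mem_filter, Finset.mem_Ico]
    refine ⟨⟨ha.1.1, by omega⟩, ?_⟩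
    apply Nat.Coprime.prod_left
    intro p hp
    exact ((hW p hp).coprime_iff_not_dvd).2 (ha.2 p hp)
  have h2 := Nat.Ico_filter_coprime_le 1 T hP0.ne'
  have h3 : ((Finset.Icc 1 T).filter (fun a => ∀ p ∈ W, ¬ p ∣ a)).card ≤
      Nat.totient P * (T / P + 1) := (Finset.card_le_card h1).trans h2
  have h4 : (((Finset.Icc 1 T).filter (fun a => ∀ p ∈ W, ¬ p ∣ a)).card : ℝ) ≤
      (Nat.totient P : ℝ) * ((T / P : ℕ) + 1) := by exact_mod_cast h3
  have h5 : (((T / P : ℕ)) : ℝ) ≤ (T : ℝ) / P := Nat.cast_div_le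
  have h6 := win_tot W hW
  have hPR : (∏ p ∈ W, (p : ℝ)) = (P : ℝ) := by
    rw [hP]
    push_cast
    rfl
  rw [hPR] at h6 ⊢
  rw [← hP] at h6
  have hPpos : (0 : ℝ) < P := by exact_mod_cast hP0
  have h7 : (Nat.totient P : ℝ) ≤ P := by exact_mod_cast Nat.totient_le P
  have h8 : (Nat.totient P : ℝ) * ((T / P : ℕ) : ℝ) ≤
      T * Real.exp (-∑ p ∈ W, (1 : ℝ) / p) := by
    calc (Nat.totient P : ℝ) * ((T / P : ℕ) : ℝ) ≤
        ((P : ℝ) * Real.exp (-∑ p ∈ W, (1 : ℝ) / p)) * ((T : ℝ) / P) := by
          apply mul_le_mul h6 h5 (Nat.cast_nonneg _)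
          positivity
      _ = T * Real.exp (-∑ p ∈ W, (1 : ℝ) / p) := by
          field_simp
  linarith

end H4AR
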